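import Mathlib

/-!
# Class 0 Kneser graphs by weight functions that only depend on the type of a vertex
-/

set_option autoImplicit false

namespace Pool.Agent.R11.Kneser

open Finset

section General

variable {V : Type} [Fintype V] [DecidableEq V]

/-- one pebbling move -/
def Move (G : SimpleGraph V) (C C' : V → ℕ) : Prop :=
  ∃ u v : V, G.Adj u v ∧ C' + Pi.single u 2 = C + Pi.single v 1

/-- `r`-solvable -/
def Solvable (G : SimpleGraph V) (r : V) (C : V → ℕ) : Prop :=
  ∃ C' : V → ℕ, Relation.ReflTransGen (Move G) C C' ∧ 1 ≤ C' r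

theorem sum_single_mul (w : V → ℕ) (u : V) (a : ℕ) :
    ∑ v, w v * (Pi.single u a : V → ℕ) v = w u * a := by
  rw [Finset.sum_eq_single u]
  · simp
  · intro b _ hb
    simp [Pi.single_eq_of_ne hb]
  · intro h
    exact absurd (mem_univ u) h

theorem exists_move (G : SimpleGraph V) (C : V → ℕ) (u p : V) (hup : G.Adj u p) (hu : 2 ≤ C u) :
    ∃ C' : V → ℕ, C' + Pi.single u 2 = C + Pi.single p 1 := by
  refine ⟨fun x => C x + (Pi.single p 1 : V → ℕ) x - (Pi.single u 2 : V → ℕ) x, ?_⟩
  ext x
  simp only [Pi.add_apply]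
  by_cases hx : x = u
  · subst hx
    rw [Pi.single_eq_same]
    omega
  · rw [Pi.single_eq_of_ne hx]
    omega

theorem reach_two (G : SimpleGraph V) (y : V) (w : V → ℕ)
    (hw : ∀ v, 0 < w v → v ≠ y → ∃ p, G.Adj v p ∧ 2 * w v ≤ w p) :
    ∀ (N : ℕ) (C : V → ℕ), ∑ v, C v = N → ∑ v, w v < ∑ v, w v * C v →
      ∃ C' : V → ℕ, Relation.ReflTransGen (Move G) C C' ∧ 2 ≤ C' y := by
  intro N
  induction N with
  | zero =>
    intro C hC h
    have h0 : ∀ v, C v = 0 := by
      intro v
      have := Finset.sum_eq_zero_iff.1 hC v (mem_univ v)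
      exact this
    simp [h0] at h
  | succ N ih =>
    intro C hC h
    by_cases hex : ∃ v, v ≠ y ∧ 0 < w v ∧ 2 ≤ C v
    · obtain ⟨v, hvy, hv, hC2⟩ := hex
      obtain ⟨p, hadj, hp⟩ := hw v hv hvy
      obtain ⟨C', hC'⟩ := exists_move G C v p hadj hC2
      have e1 : ∑ x, C' x + 2 = ∑ x, C x + 1 := by
        have := congrArg (fun f : V → ℕ => ∑ x, (1 : V → ℕ) x * f x) hC'
        simp only [Pi.add_apply, mul_add, Finset.sum_add_distrib, sum_single_mul] at this
        simpa using this
      have e2 : ∑ x, w x * C' x + w v * 2 = ∑ x, w x * C x + w p * 1 := by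
        have := congrArg (fun f : V → ℕ => ∑ x, w x * f x) hC'
        simp only [Pi.add_apply, mul_add, Finset.sum_add_distrib, sum_single_mul] at this
        exact this
      obtain ⟨C'', h1, h2⟩ := ih C' (by omega) (by omega)
      exact ⟨C'', Relation.ReflTransGen.head ⟨v, p, hadj, hC'⟩ h1, h2⟩
    · push Not at hex
      refine ⟨C, Relation.ReflTransGen.refl, ?_⟩
      by_contra hlt
      have hall : ∀ v, w v * C v ≤ w v := by
        intro v
        rcases Nat.eq_zero_or_pos (w v) with h0 | h0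
        · rw [h0]; simp
        · have hCv : C v ≤ 1 := by
            by_cases hvy : v = y
            · subst hvy; omega
            · have := hex v hvy h0
              omega
          calc w v * C v ≤ w v * 1 := Nat.mul_le_mul_left _ hCv
            _ = w v := mul_one _
      have := Finset.sum_le_sum (fun v (_ : v ∈ (univ : Finset V)) => hall v)
      omega

theorem unsolvable_ineq (G : SimpleGraph V) (r y : V) (hy : G.Adj y r) (w : V → ℕ)
    (hw : ∀ v, 0 < w v → v ≠ y → ∃ p, G.Adj v p ∧ 2 * w v ≤ w p) (C : V → ℕ)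
    (hC : ¬ Solvable G r C) : ∑ v, w v * C v ≤ ∑ v, w v := by
  by_contra h
  push Not at h
  obtain ⟨C', h1, h2⟩ := reach_two G y w hw _ C rfl h
  obtain ⟨C'', hC''⟩ := exists_move G C' y r hy h2
  refine hC ⟨C'', h1.tail ⟨y, r, hy, hC''⟩, ?_⟩
  have := congrFun hC'' r
  simp only [Pi.add_apply, Pi.single_eq_same] at this
  rw [Pi.single_eq_of_ne hy.ne'] at this
  omega

/-- `π(G, r)` -/
noncomputable def rooted (G : SimpleGraph V) (r : V) : ℕ :=
  sInf {k : ℕ | ∀ C : V → ℕ, ∑ v, C v = k → Solvable G r C}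

/-- `π(G)` -/
noncomputable def pebbling (G : SimpleGraph V) : ℕ := univ.sup fun r => rooted G r

theorem no_move (G : SimpleGraph V) (C C' : V → ℕ) (h : ∀ v, C v ≤ 1)
    (hr : Relation.ReflTransGen (Move G) C C') : C' = C := by
  rcases Relation.ReflTransGen.cases_head hr with h' | ⟨D, ⟨u, v, huv, hD⟩, _⟩
  · exact h'.symm
  · exfalso
    have := congrFun hD u
    simp only [Pi.add_apply, Pi.single_eq_same] at this
    rw [Pi.single_eq_of_ne huv.ne] at this
    have := h u
    omega

theorem lower (G : SimpleGraph V) (r : V) (k : ℕ)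
    (hk : ∀ C : V → ℕ, ∑ v, C v = k → Solvable G r C) : Fintype.card V ≤ k := by
  by_contra hlt
  push Not at hlt
  have hcard : k ≤ (univ.erase r).card := by
    rw [Finset.card_erase_of_mem (mem_univ r), Finset.card_univ]
    omega
  obtain ⟨S, hS, hSk⟩ := Finset.exists_subset_card_eq hcard
  obtain ⟨C', h1, h2⟩ := hk (fun v => if v ∈ S then 1 else 0) (by simp [hSk])
  have := no_move G _ C' (by intro v; split_ifs <;> omega) h1
  rw [this] at h2
  have hr : r ∉ S := fun h => by
    have := hS h
    simp at this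
  simp [hr] at h2

theorem pebbling_eq [Nonempty V] (G : SimpleGraph V)
    (h : ∀ (r : V) (C : V → ℕ), ∑ v, C v = Fintype.card V → Solvable G r C) :
    pebbling G = Fintype.card V := by
  have hr : ∀ r, rooted G r = Fintype.card V := by
    intro r
    unfold rooted
    apply le_antisymm
    · exact Nat.sInf_le (h r)
    · have hne : {k : ℕ | ∀ C : V → ℕ, ∑ v, C v = k → Solvable G r C}.Nonempty := ⟨_, h r⟩
      exact lower G r _ (Nat.sInf_mem hne)
  unfold pebbling
  simp only [hr]
  exact Finset.sup_const Finset.univ_nonempty _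

end General

/-- Kneser graph -/
def kneser (m t : ℕ) : SimpleGraph {s : Finset (Fin m) // s.card = t} where
  Adj a b := a ≠ b ∧ Disjoint a.1 b.1
  symm := ⟨fun _ _ h => ⟨h.1.symm, h.2.symm⟩⟩
  loopless := ⟨fun _ h => h.1 rfl⟩

variable {m t : ℕ}

theorem adj_of_disjoint (ht : 1 ≤ t) (a b : {s : Finset (Fin m) // s.card = t})
    (h : Disjoint a.1 b.1) : (kneser m t).Adj a b := by
  refine ⟨?_, h⟩
  rintro rfl
  have h1 := a.2
  rw [disjoint_self] at h
  rw [h] at h1
  simp at h1
  omega

/-- a neighbour of given type -/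
theorem exists_type (hm : 2 * t ≤ m) (r y v : Finset (Fin m)) (hr : r.card = t) (hy : y.card = t)
    (hv : v.card = t) (hry : Disjoint y r) (i' j' : ℕ) (h1 : (v ∩ r).card + i' ≤ t)
    (h2 : (v ∩ y).card + j' ≤ t) (h3 : i' + j' ≤ t)
    (h4 : (t - (v ∩ r).card - (v ∩ y).card) + (t - i' - j') ≤ m - 2 * t) :
    ∃ p : Finset (Fin m), p.card = t ∧ Disjoint v p ∧ (p ∩ r).card = i' ∧ (p ∩ y).card = j' := by
  have c1 : (r \ v).card = t - (v ∩ r).card := by
    rw [Finset.card_sdiff, hr]
  have c2 : (y \ v).card = t - (v ∩ y).card := by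
    rw [Finset.card_sdiff, hy]
  have c3 : ((r ∪ y ∪ v)ᶜ).card = m - (2 * t + (t - (v ∩ r).card - (v ∩ y).card)) := by
    rw [Finset.card_compl, Fintype.card_fin]
    congr 1
    have e1 : (r ∪ y).card = 2 * t := by
      rw [Finset.card_union_of_disjoint hry.symm, hr, hy]; ring
    have e2 : (v \ (r ∪ y)).card = t - (v ∩ r).card - (v ∩ y).card := by
      have e3 : ((r ∪ y) ∩ v).card = (v ∩ r).card + (v ∩ y).card := by
        rw [Finset.inter_comm, Finset.inter_union_distrib_left, Finset.card_union_of_disjoint]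
        exact Disjoint.mono Finset.inter_subset_right Finset.inter_subset_right hry.symm
      rw [Finset.card_sdiff, hv, e3]
      omega
    rw [← Finset.union_sdiff_self_eq_union, Finset.card_union_of_disjoint Finset.disjoint_sdiff, e1,
      e2]
  obtain ⟨A, hA, hA'⟩ := Finset.exists_subset_card_eq (s := r \ v) (n := i') (by omega)
  obtain ⟨B, hB, hB'⟩ := Finset.exists_subset_card_eq (s := y \ v) (n := j') (by omega)
  obtain ⟨D, hD, hD'⟩ := Finset.exists_subset_card_eq (s := (r ∪ y ∪ v)ᶜ) (n := t - i' - j')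
    (by omega)
  have hA2 : ∀ x ∈ A, x ∈ r ∧ x ∉ v := fun x hx => by simpa using hA hx
  have hB2 : ∀ x ∈ B, x ∈ y ∧ x ∉ v := fun x hx => by simpa using hB hx
  have hD2 : ∀ x ∈ D, x ∉ r ∧ x ∉ y ∧ x ∉ v := fun x hx => by
    have := hD hx
    simp only [mem_compl, mem_union, not_or] at this
    exact ⟨this.1.1, this.1.2, this.2⟩
  have hdis : ∀ x ∈ y, x ∉ r := fun x hx hx' => Finset.disjoint_left.1 hry hx hx'
  have hAB : Disjoint A B := by
    rw [Finset.disjoint_left]
    intro x hx hx'
    exact hdis x (hB2 x hx').1 (hA2 x hx).1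
  have hABD : Disjoint (A ∪ B) D := by
    rw [Finset.disjoint_left]
    intro x hx hx'
    rcases Finset.mem_union.1 hx with h | h
    · exact (hD2 x hx').1 (hA2 x h).1
    · exact (hD2 x hx').2.1 (hB2 x h).1
  refine ⟨A ∪ B ∪ D, ?_, ?_, ?_, ?_⟩
  · rw [Finset.card_union_of_disjoint hABD, Finset.card_union_of_disjoint hAB]
    omega
  · rw [Finset.disjoint_right]
    intro x hx
    simp only [mem_union] at hx
    rcases hx with (h | h) | h
    · exact (hA2 x h).2
    · exact (hB2 x h).2
    · exact (hD2 x h).2.2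
  · have : (A ∪ B ∪ D) ∩ r = A := by
      ext x
      simp only [mem_inter, mem_union]
      constructor
      · rintro ⟨(h | h) | h, hxr⟩
        · exact h
        · exact absurd hxr (hdis x (hB2 x h).1)
        · exact absurd hxr (hD2 x h).1
      · intro h
        exact ⟨Or.inl (Or.inl h), (hA2 x h).1⟩
    rw [this, hA']
  · have : (A ∪ B ∪ D) ∩ y = B := by
      ext x
      simp only [mem_inter, mem_union]
      constructor
      · rintro ⟨(h | h) | h, hxy⟩
        · exact absurd (hA2 x h).1 (hdis x hxy)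
        · exact h
        · exact absurd hxy (hD2 x h).2.1
      · intro h
        exact ⟨Or.inl (Or.inr h), (hB2 x h).1⟩
    rw [this, hB']

/-- the number of neighbours `y` of `r` with given `|v ∩ y|` -/
theorem count (hm : 2 * t ≤ m) (r v : {s : Finset (Fin m) // s.card = t}) (j : ℕ) (hj : j ≤ t) :
    (univ.filter (fun y : {s : Finset (Fin m) // s.card = t} =>
      Disjoint y.1 r.1 ∧ (v.1 ∩ y.1).card = j)).card =
      (t - (v.1 ∩ r.1).card).choose j * (m - 2 * t + (v.1 ∩ r.1).card).choose (t - j) := by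
  have c1 : (v.1 \ r.1).card = t - (v.1 ∩ r.1).card := by
    rw [Finset.card_sdiff, v.2, Finset.inter_comm]
  have c2 : ((r.1 ∪ v.1)ᶜ).card = m - 2 * t + (v.1 ∩ r.1).card := by
    have h := Finset.card_union_add_card_inter r.1 v.1
    rw [r.2, v.2, Finset.inter_comm] at h
    have h2 : (v.1 ∩ r.1).card ≤ t := by
      calc (v.1 ∩ r.1).card ≤ v.1.card := Finset.card_le_card Finset.inter_subset_left
        _ = t := v.2
    rw [Finset.card_compl, Fintype.card_fin]
    omega
  rw [← c1, ← c2, ← Finset.card_powersetCard, ← Finset.card_powersetCard,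
    ← Finset.card_product]
  symm
  have key : ∀ p ∈ (powersetCard j (v.1 \ r.1)) ×ˢ (powersetCard (t - j) ((r.1 ∪ v.1)ᶜ)),
      (∀ x ∈ p.1, x ∈ v.1 ∧ x ∉ r.1) ∧ p.1.card = j ∧ (∀ x ∈ p.2, x ∉ r.1 ∧ x ∉ v.1) ∧
        p.2.card = t - j ∧ Disjoint p.1 p.2 := by
    intro p hp
    rw [Finset.mem_product, Finset.mem_powersetCard, Finset.mem_powersetCard] at hp
    obtain ⟨⟨h1, h2⟩, h3, h4⟩ := hp
    have h5 : ∀ x ∈ p.1, x ∈ v.1 ∧ x ∉ r.1 := fun x hx => by simpa using h1 hx
    have h6 : ∀ x ∈ p.2, x ∉ r.1 ∧ x ∉ v.1 := fun x hx => by simpa using h3 hx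
    refine ⟨h5, h2, h6, h4, ?_⟩
    rw [Finset.disjoint_left]
    intro x hx hx'
    exact (h6 x hx').2 (h5 x hx).1
  refine Finset.card_bij (fun p hp => ⟨p.1 ∪ p.2, ?_⟩) ?_ ?_ ?_
  · obtain ⟨_, h2, _, h4, h5⟩ := key p hp
    rw [Finset.card_union_of_disjoint h5, h2, h4]
    omega
  · intro p hp
    obtain ⟨h1, h2, h3, _, _⟩ := key p hp
    simp only [mem_filter, mem_univ, true_and]
    constructor
    · rw [Finset.disjoint_left]
      intro x hx
      rcases Finset.mem_union.1 hx with h | h
      · exact (h1 x h).2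
      · exact (h3 x h).1
    · have : v.1 ∩ (p.1 ∪ p.2) = p.1 := by
        ext x
        simp only [mem_inter, mem_union]
        constructor
        · rintro ⟨hx, h | h⟩
          · exact h
          · exact absurd hx (h3 x h).2
        · intro h
          exact ⟨(h1 x h).1, Or.inl h⟩
      rw [this, h2]
  · intro p hp q hq hpq
    obtain ⟨h1, _, h3, _, _⟩ := key p hp
    obtain ⟨k1, _, k3, _, _⟩ := key q hq
    rw [Subtype.mk.injEq] at hpq
    refine Prod.ext ?_ ?_
    · ext x
      constructor
      · intro hx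
        have : x ∈ q.1 ∪ q.2 := by rw [← hpq]; exact Finset.mem_union_left _ hx
        rcases Finset.mem_union.1 this with h | h
        · exact h
        · exact absurd (h1 x hx).1 (k3 x h).2
      · intro hx
        have : x ∈ p.1 ∪ p.2 := by rw [hpq]; exact Finset.mem_union_left _ hx
        rcases Finset.mem_union.1 this with h | h
        · exact h
        · exact absurd (k1 x hx).1 (h3 x h).2
    · ext x
      constructor
      · intro hx
        have : x ∈ q.1 ∪ q.2 := by rw [← hpq]; exact Finset.mem_union_right _ hx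
        rcases Finset.mem_union.1 this with h | h
        · exact absurd (k1 x h).1 (h3 x hx).2
        · exact h
      · intro hx
        have : x ∈ p.1 ∪ p.2 := by rw [hpq]; exact Finset.mem_union_right _ hx
        rcases Finset.mem_union.1 this with h | h
        · exact absurd (h1 x h).1 (k3 x hx).2
        · exact h
  · intro y hy
    simp only [mem_filter, mem_univ, true_and] at hy
    obtain ⟨hy1, hy2⟩ := hy
    refine ⟨(v.1 ∩ y.1, y.1 \ v.1), ?_, ?_⟩
    · rw [Finset.mem_product, Finset.mem_powersetCard, Finset.mem_powersetCard]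
      refine ⟨⟨?_, hy2⟩, ?_, ?_⟩
      · intro x hx
        simp only [mem_inter] at hx
        rw [mem_sdiff]
        exact ⟨hx.1, fun h => Finset.disjoint_left.1 hy1 hx.2 h⟩
      · intro x hx
        simp only [mem_sdiff] at hx
        simp only [mem_compl, mem_union, not_or]
        exact ⟨fun h => Finset.disjoint_left.1 hy1 hx.1 h, hx.2⟩
      · rw [Finset.card_sdiff, y.2, hy2]
    · apply Subtype.ext
      ext x
      simp only [mem_union, mem_inter, mem_sdiff]
      tauto

/-- A weight table for `K(m, t)`. -/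
structure Cert (m t : ℕ) (Q : ℕ) (om : ℕ → ℕ → ℕ) : Prop where
  ht : 1 ≤ t
  hm : 2 * t ≤ m
  hQ : 0 < Q
  h0 : ∀ j < t, om 0 j = 0
  h0t : om 0 t = Q
  ht0 : om t 0 = 0
  hsum : ∀ i, 1 ≤ i → i < t → ∑ j ∈ range (t + 1),
    om i j * ((t - i).choose j * (m - 2 * t + i).choose (t - j)) = Q
  hpar : ∀ i j, 1 ≤ i → i < t → i + j ≤ t → 0 < om i j → ∃ i' j', i + i' ≤ t ∧ j + j' ≤ t ∧
    i' + j' ≤ t ∧ (t - i - j) + (t - i' - j') ≤ m - 2 * t ∧ 2 * om i j ≤ om i' j'

variable {Q : ℕ} {om : ℕ → ℕ → ℕ}

theorem weight_ok (h : Cert m t Q om) (r y : {s : Finset (Fin m) // s.card = t})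
    (hry : Disjoint y.1 r.1) (v : {s : Finset (Fin m) // s.card = t})
    (hv : 0 < om (v.1 ∩ r.1).card (v.1 ∩ y.1).card) (hvy : v ≠ y) :
    ∃ p, (kneser m t).Adj v p ∧ 2 * om (v.1 ∩ r.1).card (v.1 ∩ y.1).card ≤
      om (p.1 ∩ r.1).card (p.1 ∩ y.1).card := by
  have hle : (v.1 ∩ r.1).card + (v.1 ∩ y.1).card ≤ t := by
    rw [← Finset.card_union_of_disjoint (Disjoint.mono Finset.inter_subset_right
      Finset.inter_subset_right hry.symm), ← Finset.inter_union_distrib_left]
    calc (v.1 ∩ (r.1 ∪ y.1)).card ≤ v.1.card := Finset.card_le_card Finset.inter_subset_left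
      _ = t := v.2
  have hi : (v.1 ∩ r.1).card ≠ 0 := by
    intro h0
    rw [h0] at hv
    have hj : (v.1 ∩ y.1).card = t := by
      by_contra hne
      rw [h.h0 _ (by omega)] at hv
      omega
    apply hvy
    apply Subtype.ext
    have h1 : v.1 ∩ y.1 = v.1 := Finset.eq_of_subset_of_card_le Finset.inter_subset_left
      (by rw [hj, v.2])
    have h2 : v.1 ∩ y.1 = y.1 := Finset.eq_of_subset_of_card_le Finset.inter_subset_right
      (by rw [hj, y.2])
    rw [← h1, h2]
  have hit : (v.1 ∩ r.1).card ≠ t := by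
    intro h0
    have hj : (v.1 ∩ y.1).card = 0 := by omega
    rw [h0, hj, h.ht0] at hv
    omega
  obtain ⟨i', j', h1, h2, h3, h4, h5⟩ := h.hpar _ _ (by omega) (by omega) hle hv
  obtain ⟨p, hp1, hp2, hp3, hp4⟩ := exists_type h.hm r.1 y.1 v.1 r.2 y.2 v.2 hry i' j' h1 h2 h3 h4
  refine ⟨⟨p, hp1⟩, adj_of_disjoint h.ht _ _ hp2, ?_⟩
  simp only
  rw [hp3, hp4]
  exact h5

theorem weight_sum (h : Cert m t Q om) (r v : {s : Finset (Fin m) // s.card = t}) :
    ∑ y ∈ univ.filter (fun y : {s : Finset (Fin m) // s.card = t} => Disjoint y.1 r.1),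
      om (v.1 ∩ r.1).card (v.1 ∩ y.1).card = if v = r then 0 else Q := by
  have hcount : ∑ y ∈ univ.filter (fun y : {s : Finset (Fin m) // s.card = t} =>
      Disjoint y.1 r.1), om (v.1 ∩ r.1).card (v.1 ∩ y.1).card =
      ∑ j ∈ range (t + 1), om (v.1 ∩ r.1).card j *
        ((t - (v.1 ∩ r.1).card).choose j * (m - 2 * t + (v.1 ∩ r.1).card).choose (t - j)) := by
    rw [← Finset.sum_fiberwise_of_maps_to (t := range (t + 1))
      (g := fun y : {s : Finset (Fin m) // s.card = t} => (v.1 ∩ y.1).card)]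
    · refine Finset.sum_congr rfl fun j hj => ?_
      have hj' : j ≤ t := by
        have := Finset.mem_range.1 hj
        omega
      rw [← count h.hm r v j hj', Finset.filter_filter, mul_comm, ← smul_eq_mul,
        ← Finset.sum_const]
      refine Finset.sum_congr rfl fun y hy => ?_
      rw [(Finset.mem_filter.1 hy).2.2]
    · intro y _
      rw [Finset.mem_range]
      have : (v.1 ∩ y.1).card ≤ t := by
        calc (v.1 ∩ y.1).card ≤ v.1.card := Finset.card_le_card Finset.inter_subset_left
          _ = t := v.2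
      omega
  have hle : (v.1 ∩ r.1).card ≤ t := by
    calc (v.1 ∩ r.1).card ≤ v.1.card := Finset.card_le_card Finset.inter_subset_left
      _ = t := v.2
  by_cases hvr : v = r
  · subst hvr
    rw [if_pos rfl]
    apply Finset.sum_eq_zero
    intro y hy
    have h1 := (Finset.mem_filter.1 hy).2
    rw [Finset.inter_self, v.2]
    have h2 : v.1 ∩ y.1 = ∅ := Finset.disjoint_iff_inter_eq_empty.1 h1.symm
    rw [h2, Finset.card_empty, h.ht0]
  · rw [if_neg hvr, hcount]
    rcases Nat.eq_zero_or_pos (v.1 ∩ r.1).card with h0 | h0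
    · rw [h0, Finset.sum_eq_single t]
      · rw [h.h0t]
        simp
      · intro j hj hjt
        rw [h.h0 j (by have := Finset.mem_range.1 hj; omega), zero_mul]
      · intro h'
        exact absurd (Finset.mem_range.2 (by omega)) h'
    · apply h.hsum _ h0
      rcases Nat.lt_or_ge (v.1 ∩ r.1).card t with h1 | h1
      · exact h1
      · exfalso
        apply hvr
        apply Subtype.ext
        have e1 : v.1 ∩ r.1 = v.1 := Finset.eq_of_subset_of_card_le Finset.inter_subset_left
          (by rw [v.2]; exact h1)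
        have e2 : v.1 ∩ r.1 = r.1 := Finset.eq_of_subset_of_card_le Finset.inter_subset_right
          (by rw [r.2]; exact h1)
        rw [← e1, e2]

theorem unsolvable_lt (h : Cert m t Q om) (r : {s : Finset (Fin m) // s.card = t})
    (C : {s : Finset (Fin m) // s.card = t} → ℕ) (hC : ¬ Solvable (kneser m t) r C) :
    ∑ v, C v < Fintype.card {s : Finset (Fin m) // s.card = t} := by
  have hCr : C r = 0 := by
    by_contra h0
    exact hC ⟨C, Relation.ReflTransGen.refl, by omega⟩
  have h1 : ∑ y ∈ univ.filter (fun y : {s : Finset (Fin m) // s.card = t} => Disjoint y.1 r.1),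
      ∑ v, om (v.1 ∩ r.1).card (v.1 ∩ y.1).card * C v ≤
      ∑ y ∈ univ.filter (fun y : {s : Finset (Fin m) // s.card = t} => Disjoint y.1 r.1),
      ∑ v : {s : Finset (Fin m) // s.card = t}, om (v.1 ∩ r.1).card (v.1 ∩ y.1).card := by
    refine Finset.sum_le_sum fun y hy => ?_
    have hyr := (Finset.mem_filter.1 hy).2
    exact unsolvable_ineq (kneser m t) r y (adj_of_disjoint h.ht _ _ hyr)
      (fun v => om (v.1 ∩ r.1).card (v.1 ∩ y.1).card)
      (fun v hv hvy => weight_ok h r y hyr v hv hvy) C hC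
  rw [Finset.sum_comm, Finset.sum_comm (s := univ.filter _)] at h1
  simp only [← Finset.sum_mul, weight_sum h] at h1
  have h2 : ∑ v, (if v = r then 0 else Q) * C v = Q * ∑ v, C v := by
    rw [Finset.mul_sum]
    refine Finset.sum_congr rfl fun v _ => ?_
    split_ifs with hv
    · rw [hv, hCr]; simp
    · rfl
  have h3 : ∑ v : {s : Finset (Fin m) // s.card = t}, (if v = r then 0 else Q) =
      Q * (Fintype.card {s : Finset (Fin m) // s.card = t} - 1) := by
    rw [← Finset.add_sum_erase _ _ (mem_univ r), if_pos rfl, zero_add,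
      Finset.sum_congr rfl (g := fun _ => Q)]
    · rw [Finset.sum_const, Finset.card_erase_of_mem (mem_univ r), Finset.card_univ, smul_eq_mul,
        mul_comm]
    · intro v hv
      rw [if_neg (Finset.ne_of_mem_erase hv)]
  rw [h2, h3] at h1
  have h4 := Nat.le_of_mul_le_mul_left h1 h.hQ
  have h5 : 0 < Fintype.card {s : Finset (Fin m) // s.card = t} := Fintype.card_pos_iff.2 ⟨r⟩
  omega

theorem class_zero (h : Cert m t Q om) : pebbling (kneser m t) = m.choose t := by
  have hcard : Fintype.card {s : Finset (Fin m) // s.card = t} = m.choose t := by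
    rw [Fintype.card_finset_len, Fintype.card_fin]
  have hne : Nonempty {s : Finset (Fin m) // s.card = t} := by
    rw [← Fintype.card_pos_iff, hcard]
    exact Nat.choose_pos (by have := h.hm; omega)
  rw [pebbling_eq, hcard]
  intro r C hC
  by_contra hns
  have := unsolvable_lt h r C hns
  omega

end Pool.Agent.R11.Kneser
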