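import Pool.Agent.R11.Kneser

/-!
# Weight tables
-/

set_option autoImplicit false

namespace Pool.Agent.R11.Kneser

open Finset

/-- entries: type, weight, type of the parent -/
abbrev Tab := List (ℕ × ℕ × ℕ × ℕ × ℕ)

/-- the weight -/
def tab (L : Tab) (i j : ℕ) : ℕ :=
  match L.find? (fun e => e.1 == i && e.2.1 == j) with
  | some e => e.2.2.1
  | none => 0

/-- the type of the parent -/
def par (L : Tab) (i j : ℕ) : ℕ × ℕ :=
  match L.find? (fun e => e.1 == i && e.2.1 == j) with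
  | some e => e.2.2.2
  | none => (0, 0)

/-- the conditions on a table -/
def checkB (m t Q : ℕ) (L : Tab) : Bool :=
  decide (1 ≤ t) && decide (2 * t ≤ m) && decide (0 < Q) &&
  (List.range t).all (fun j => tab L 0 j == 0) && (tab L 0 t == Q) && (tab L t 0 == 0) &&
  (List.range t).all (fun i => i == 0 || ((List.range (t + 1)).map (fun j =>
    tab L i j * ((t - i).choose j * (m - 2 * t + i).choose (t - j)))).sum == Q) &&
  (List.range t).all (fun i => i == 0 || (List.range (t + 1)).all (fun j =>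
    decide (t < i + j) || tab L i j == 0 || (decide (i + (par L i j).1 ≤ t) &&
      decide (j + (par L i j).2 ≤ t) && decide ((par L i j).1 + (par L i j).2 ≤ t) &&
      decide ((t - i - j) + (t - (par L i j).1 - (par L i j).2) ≤ m - 2 * t) &&
      decide (2 * tab L i j ≤ tab L (par L i j).1 (par L i j).2))))

theorem list_sum_range (f : ℕ → ℕ) (n : ℕ) :
    ((List.range n).map f).sum = ∑ j ∈ range n, f j := by
  induction n with
  | zero => simp
  | succ n ih => simp [List.range_succ, Finset.sum_range_succ, ih]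

theorem checkB_cert {m t Q : ℕ} {L : Tab} (h : checkB m t Q L = true) : Cert m t Q (tab L) := by
  unfold checkB at h
  simp only [Bool.and_eq_true, decide_eq_true_eq, List.all_eq_true, beq_iff_eq,
    Bool.or_eq_true, List.mem_range, list_sum_range] at h
  obtain ⟨⟨⟨⟨⟨⟨⟨h1, h2⟩, h3⟩, h4⟩, h5⟩, h6⟩, h7⟩, h8⟩ := h
  refine ⟨h1, h2, h3, h4, h5, h6, fun i hi hit => ?_, fun i j hi hit hij hpos => ?_⟩
  · rcases h7 i hit with h | h
    · omega
    · exact h
  · rcases h8 i hit with h | h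
    · omega
    · rcases h j (by omega) with (h' | h') | h'
      · omega
      · omega
      · exact ⟨_, _, h'.1.1.1.1, h'.1.1.1.2, h'.1.1.2, h'.1.2, h'.2⟩

theorem check_class_zero {m t Q : ℕ} {L : Tab} (h : checkB m t Q L = true) :
    pebbling (kneser m t) = m.choose t := class_zero (checkB_cert h)

set_option maxRecDepth 100000 in
theorem class_zero_12_5 : pebbling (kneser 12 5) = (12).choose 5 :=
  check_class_zero (Q := 78) (L :=
    [(0, 5, 78, 0, 0), (1, 3, 4, 4, 0), (1, 4, 10, 3, 0), (2, 3, 13, 3, 0), (3, 0, 38, 0, 5),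
      (3, 1, 2, 1, 3), (3, 2, 2, 1, 3), (4, 0, 8, 0, 5), (4, 1, 2, 1, 3)])
    (by decide +kernel)

set_option maxRecDepth 100000 in
theorem class_zero_13_5 : pebbling (kneser 13 5) = (13).choose 5 :=
  check_class_zero (Q := 4200) (L :=
    [(0, 5, 4200, 0, 0), (1, 1, 30, 2, 3), (1, 2, 100, 4, 0), (1, 3, 60, 3, 0), (1, 4, 60, 3, 0),
      (2, 0, 1350, 0, 5), (2, 1, 30, 2, 2), (2, 2, 60, 3, 0), (2, 3, 60, 3, 0),
      (3, 0, 120, 0, 5), (3, 1, 30, 2, 2), (3, 2, 129, 2, 0), (4, 0, 200, 0, 5)])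
    (by decide +kernel)

set_option maxRecDepth 100000 in
theorem class_zero_14_5 : pebbling (kneser 14 5) = (14).choose 5 :=
  check_class_zero (Q := 58800) (L :=
    [(0, 5, 58800, 0, 0), (1, 0, 29400, 0, 5), (1, 1, 525, 4, 0), (1, 2, 180, 3, 0),
      (1, 3, 180, 3, 0), (1, 4, 180, 3, 0), (2, 0, 9800, 0, 5), (3, 0, 360, 0, 5),
      (3, 1, 732, 2, 0), (4, 0, 1050, 0, 5)])
    (by decide +kernel)

set_option maxRecDepth 100000 in
theorem class_zero_15_5 : pebbling (kneser 15 5) = (15).choose 5 :=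
  check_class_zero (Q := 504) (L :=
    [(0, 5, 504, 0, 0), (1, 0, 84, 0, 5), (2, 0, 24, 0, 5), (3, 0, 9, 0, 5), (4, 0, 4, 0, 5)])
    (by decide +kernel)

set_option maxRecDepth 100000 in
theorem class_zero_16_5 : pebbling (kneser 16 5) = (16).choose 5 :=
  check_class_zero (Q := 504) (L :=
    [(0, 5, 504, 0, 0), (1, 0, 24, 0, 5), (2, 0, 9, 0, 5), (3, 0, 4, 0, 5), (4, 0, 2, 0, 5)])
    (by decide +kernel)

set_option maxRecDepth 100000 in
theorem class_zero_15_6 : pebbling (kneser 15 6) = (15).choose 6 :=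
  check_class_zero (Q := 30240) (L :=
    [(0, 6, 30240, 0, 0), (1, 3, 42, 5, 0), (1, 4, 840, 4, 0), (1, 5, 840, 4, 0),
      (2, 2, 88, 2, 3), (2, 3, 480, 4, 0), (2, 4, 840, 4, 0), (3, 0, 15120, 0, 6),
      (3, 1, 240, 2, 3), (3, 2, 240, 2, 3), (4, 0, 1680, 0, 6), (4, 1, 240, 2, 3),
      (4, 2, 240, 2, 3), (5, 0, 1038, 0, 6), (5, 1, 21, 1, 3)])
    (by decide +kernel)

set_option maxRecDepth 100000 in
theorem class_zero_16_6 : pebbling (kneser 16 6) = (16).choose 6 :=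
  check_class_zero (Q := 911400) (L :=
    [(0, 6, 911400, 0, 0), (1, 1, 9300, 3, 3), (1, 2, 5425, 5, 0), (1, 3, 3830, 4, 0),
      (1, 4, 3830, 4, 0), (1, 5, 3830, 4, 0), (2, 0, 156890, 0, 6), (2, 1, 1915, 2, 3),
      (2, 2, 3830, 4, 0), (2, 3, 3830, 4, 0), (2, 4, 3830, 4, 0), (3, 0, 37200, 0, 6),
      (3, 3, 18600, 3, 0), (4, 0, 7660, 0, 6), (4, 1, 1915, 2, 2), (4, 2, 6892, 2, 0),
      (5, 0, 10850, 0, 6)])
    (by decide +kernel)

set_option maxRecDepth 100000 in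
theorem class_zero_17_6 : pebbling (kneser 17 6) = (17).choose 6 :=
  check_class_zero (Q := 8820) (L :=
    [(0, 6, 8820, 0, 0), (1, 0, 3762, 0, 6), (1, 3, 18, 3, 0), (1, 4, 18, 3, 0),
      (1, 5, 18, 3, 0), (2, 0, 1260, 0, 6), (3, 0, 36, 0, 6), (3, 1, 18, 3, 0), (3, 2, 18, 3, 0),
      (3, 3, 18, 3, 0), (4, 1, 35, 2, 0), (5, 1, 35, 1, 0)])
    (by decide +kernel)

set_option maxRecDepth 100000 in
theorem class_zero_17_7 : pebbling (kneser 17 7) = (17).choose 7 :=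
  check_class_zero (Q := 32400) (L :=
    [(0, 7, 32400, 0, 0), (1, 4, 240, 6, 0), (1, 5, 450, 5, 0), (1, 6, 450, 5, 0),
      (2, 3, 108, 2, 4), (2, 4, 450, 5, 0), (2, 5, 450, 5, 0), (3, 4, 1620, 4, 0),
      (4, 0, 5625, 0, 7), (4, 1, 225, 2, 4), (4, 2, 225, 2, 4), (4, 3, 225, 2, 4),
      (5, 0, 900, 0, 7), (5, 1, 225, 2, 4), (5, 2, 225, 2, 4), (6, 0, 620, 0, 7),
      (6, 1, 120, 1, 4)])
    (by decide +kernel)

set_option maxRecDepth 100000 in
theorem class_zero_18_7 : pebbling (kneser 18 7) = (18).choose 7 :=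
  check_class_zero (Q := 25401600) (L :=
    [(0, 7, 25401600, 0, 0), (1, 3, 41580, 6, 0), (1, 4, 119784, 5, 0), (1, 5, 50400, 4, 0),
      (1, 6, 50400, 4, 0), (2, 1, 25200, 3, 4), (2, 2, 25200, 3, 3), (2, 3, 119784, 5, 0),
      (2, 4, 50400, 4, 0), (2, 5, 50400, 4, 0), (3, 0, 12700800, 0, 7), (3, 1, 25200, 3, 3),
      (3, 2, 25200, 3, 3), (3, 3, 50400, 4, 0), (3, 4, 50400, 4, 0), (4, 0, 100800, 0, 7),
      (4, 1, 25200, 3, 3), (4, 2, 25200, 3, 3), (4, 3, 260640, 3, 0), (5, 0, 239568, 0, 7),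
      (5, 1, 59892, 2, 3), (5, 2, 53296, 2, 3), (6, 0, 106869, 0, 7), (6, 1, 59892, 1, 4)])
    (by decide +kernel)

set_option maxRecDepth 100000 in
theorem class_zero_20_8 : pebbling (kneser 20 8) = (20).choose 8 :=
  check_class_zero (Q := 23506560) (L :=
    [(0, 8, 23506560, 0, 0), (1, 6, 295988, 5, 0), (1, 7, 557480, 5, 0), (2, 5, 126203, 5, 0),
      (2, 6, 557480, 5, 0), (3, 4, 55440, 5, 0), (3, 5, 394416, 5, 0), (4, 0, 11753280, 0, 8),
      (4, 1, 27720, 3, 4), (4, 2, 27720, 3, 4), (4, 3, 27720, 3, 4), (5, 0, 1114960, 0, 8),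
      (5, 1, 27720, 3, 4), (5, 2, 27720, 3, 4), (5, 3, 27720, 3, 4), (6, 0, 522368, 0, 8),
      (7, 0, 142464, 0, 8)])
    (by decide +kernel)

end Pool.Agent.R11.Kneser
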