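import Pool.Agent.H997R3.Gon.Example

/-!
# Divisors on the metric graph of a multigraph

The metric graph `Γ(G)` of a multigraph `G`: every edge is a segment of length one.
-/

set_option autoImplicit false
set_option linter.unusedSectionVars false

namespace Pool.Agent.R11.MetGon

open Finset Pool.Agent.H997R3.Gon

/-- The open unit interval: an interior point of an edge `e` of the metric graph `Γ(G)` is given by
its distance `t`, `0 < t < 1`, from the first end `src e`. -/
abbrev Ival : Type := Set.Ioo (0 : ℝ) 1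

/-- A divisor on the metric graph `Γ(G)` of a graph with (finitely many) vertices `V` and edges `E`:
an integer at every vertex, and a finitely supported integer function on the interior points of
every edge. Addition and the order are pointwise, so `0 ≤ D` says that `D` is effective. -/
abbrev MDiv (V E : Type) : Type := (V → ℤ) × (E → (Ival →₀ ℤ))

variable {V E : Type}

/-- The degree of a divisor on `Γ(G)`: the sum of all its values. -/
def mdeg [Fintype V] [Fintype E] (D : MDiv V E) : ℤ :=
  ∑ v, D.1 v + ∑ e, (D.2 e).sum fun _ c => c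

/-- A rational function on `Γ(G)`: a continuous piecewise linear function with finitely many pieces
and integer slopes. It is given by its values `val v` at the vertices, its outgoing slope `slope e`
at `src e` along `e`, and the changes of slope `bend e s` at the interior points `s` of `e` (zero at
all but finitely many `s`). So its value at the point of `e` at distance `t` from `src e` is
`val (src e) + slope e * t + ∑ s, bend e s * max (t - s) 0`; the condition `closes` says that this
value at `t = 1` is `val (tgt e)`. -/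
structure RatFun (G : MGraph V E) where
  /-- values at the vertices -/
  val : V → ℝ
  /-- slopes at the first ends of the edges -/
  slope : E → ℤ
  /-- changes of slope at the interior points of the edges -/
  bend : E → (Ival →₀ ℤ)
  /-- the values at the second ends of the edges are right -/
  closes : ∀ e, val (G.tgt e) =
    val (G.src e) + slope e + (bend e).sum fun s c => (c : ℝ) * (1 - s)

/-- The divisor of a rational function: its value at a point is the sum of the outgoing slopes in
all directions. At an interior point of an edge this is the change of slope; at a vertex `v` the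
outgoing slope along `e` is `slope e` if `v = src e` and
`-(slope e + ∑ s, bend e s)` if `v = tgt e`. -/
def RatFun.div [DecidableEq V] [Fintype E] {G : MGraph V E} (f : RatFun G) : MDiv V E :=
  (fun v => ∑ e, ((if G.src e = v then f.slope e else 0) +
    (if G.tgt e = v then -(f.slope e + (f.bend e).sum fun _ c => c) else 0)), f.bend)

/-- `D` has rank at least `r` on the metric graph `Γ(G)`: for every effective divisor `F` of
degree `r` on `Γ(G)` the divisor `D - F` is equivalent to an effective divisor, that is,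
`D - F + div f` is effective for some rational function `f`. -/
def MRankGe [Fintype V] [DecidableEq V] [Fintype E] (G : MGraph V E) (r : ℕ) (D : MDiv V E) :
    Prop :=
  ∀ F : MDiv V E, 0 ≤ F → mdeg F = r → ∃ f : RatFun G, 0 ≤ D - F + f.div

/-- The `r`-th divisorial gonality `dgon_r(Γ(G))` of the metric graph. -/
noncomputable def mdgon [Fintype V] [DecidableEq V] [Fintype E] (G : MGraph V E) (r : ℕ) : ℕ :=
  sInf {d : ℕ | ∃ D : MDiv V E, mdeg D = d ∧ MRankGe G r D}

/-- `D` has rank at least `r` on the graph `G`: for every effective divisor `F` of degree `r` the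
divisor `D - F` is equivalent to an effective divisor (equivalence by chip-firing: the difference
is in the image of the Laplacian `G.lap`). -/
def GRankGe [Fintype V] [DecidableEq V] [Fintype E] (G : MGraph V E) (r : ℕ) (D : V → ℤ) : Prop :=
  ∀ F : V → ℤ, 0 ≤ F → ∑ v, F v = r → ∃ f : V → ℤ, 0 ≤ D - F - G.lap f

/-- The `r`-th divisorial gonality `dgon_r(G)` of the graph. -/
noncomputable def gdgon [Fintype V] [DecidableEq V] [Fintype E] (G : MGraph V E) (r : ℕ) : ℕ :=
  sInf {d : ℕ | ∃ D : V → ℤ, ∑ v, D v = d ∧ GRankGe G r D}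

/-! ### weighted sums -/

/-- total number of chips inside an edge -/
def tot (c : Ival →₀ ℤ) : ℤ := c.sum fun _ n => n

/-- weighted sum -/
noncomputable def ws (w : Ival → ℝ) (c : Ival →₀ ℤ) : ℝ := c.sum fun s n => (n : ℝ) * w s

lemma tot_add (c d : Ival →₀ ℤ) : tot (c + d) = tot c + tot d :=
  Finsupp.sum_add_index' (fun _ => rfl) fun _ _ _ => rfl

lemma tot_zero : tot 0 = 0 := by simp [tot]

lemma tot_neg (c : Ival →₀ ℤ) : tot (-c) = - tot c := by
  have := tot_add c (-c)
  rw [add_neg_cancel, tot_zero] at this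
  linarith

lemma tot_single (s : Ival) (n : ℤ) : tot (Finsupp.single s n) = n := by
  simp [tot]

lemma ws_add (w : Ival → ℝ) (c d : Ival →₀ ℤ) : ws w (c + d) = ws w c + ws w d := by
  unfold ws
  refine Finsupp.sum_add_index' (fun _ => by simp) fun _ _ _ => ?_
  push_cast
  ring

lemma ws_zero (w : Ival → ℝ) : ws w 0 = 0 := by simp [ws]

lemma ws_neg (w : Ival → ℝ) (c : Ival →₀ ℤ) : ws w (-c) = - ws w c := by
  have := ws_add w c (-c)
  rw [add_neg_cancel, ws_zero] at this
  linarith

lemma ws_single (w : Ival → ℝ) (s : Ival) (n : ℤ) : ws w (Finsupp.single s n) = n * w s := by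
  simp [ws]

lemma tot_eq_ws (c : Ival →₀ ℤ) : (tot c : ℝ) = ws (fun _ => 1) c := by
  unfold tot ws Finsupp.sum
  push_cast
  simp

lemma ws_sub_weight (w w' : Ival → ℝ) (c : Ival →₀ ℤ) :
    ws (fun s => w s - w' s) c = ws w c - ws w' c := by
  unfold ws Finsupp.sum
  rw [← Finset.sum_sub_distrib]
  refine Finset.sum_congr rfl fun s _ => ?_
  ring

lemma ws_nonneg (w : Ival → ℝ) (hw : ∀ s, 0 ≤ w s) (c : Ival →₀ ℤ) (hc : 0 ≤ c) : 0 ≤ ws w c := by
  unfold ws Finsupp.sum
  refine Finset.sum_nonneg fun s _ => mul_nonneg ?_ (hw s)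
  have := hc s
  simp only [Finsupp.coe_zero, Pi.zero_apply] at this
  exact_mod_cast this

lemma tot_nonneg (c : Ival →₀ ℤ) (hc : 0 ≤ c) : 0 ≤ tot c := by
  have := ws_nonneg (fun _ => 1) (fun _ => by norm_num) c hc
  rw [← tot_eq_ws] at this
  exact_mod_cast this

lemma ws_pos (w : Ival → ℝ) (hw : ∀ s, 0 < w s) (c : Ival →₀ ℤ) (hc : 0 ≤ c) (h0 : c ≠ 0) :
    0 < ws w c := by
  unfold ws Finsupp.sum
  have hs : c.support.Nonempty := by
    rw [Finsupp.support_nonempty_iff]
    exact h0
  refine Finset.sum_pos (fun s hs => mul_pos ?_ (hw s)) hs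
  have h1 := hc s
  have h2 := Finsupp.mem_support_iff.1 hs
  simp only [Finsupp.coe_zero, Pi.zero_apply] at h1
  have : 0 < c s := lt_of_le_of_ne h1 (Ne.symm h2)
  exact_mod_cast this

lemma eq_zero_of_tot (c : Ival →₀ ℤ) (hc : 0 ≤ c) (h : tot c = 0) : c = 0 := by
  by_contra h0
  have := ws_pos (fun _ => 1) (fun _ => by norm_num) c hc h0
  rw [← tot_eq_ws, h] at this
  norm_num at this

/-! ### one edge -/

section edge

variable {G : MGraph V E} (f : RatFun G) (D : MDiv V E) (e : E)

lemma closes' : f.val (G.tgt e) = f.val (G.src e) + f.slope e + ws (fun s => 1 - (s : ℝ)) (f.bend e) :=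
  f.closes e

lemma closes'' : f.val (G.src e) = f.val (G.tgt e) - (f.slope e + tot (f.bend e)) +
    ws (fun s => (s : ℝ)) (f.bend e) := by
  have h1 := closes' f e
  rw [ws_sub_weight, ← tot_eq_ws] at h1
  rw [h1]
  ring

lemma bend_ge (w : Ival → ℝ) (hw : ∀ s, 0 ≤ w s) (hD' : 0 ≤ D.2 e + f.bend e) :
    - ws w (D.2 e) ≤ ws w (f.bend e) := by
  have := ws_nonneg w hw _ hD'
  rw [ws_add] at this
  linarith

lemma ws_le_tot (w : Ival → ℝ) (hw : ∀ s, w s ≤ 1) (c : Ival →₀ ℤ) (hc : 0 ≤ c) :
    ws w c ≤ tot c := by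
  have := ws_nonneg (fun s => 1 - w s) (fun s => by linarith [hw s]) c hc
  rw [ws_sub_weight, ← tot_eq_ws] at this
  linarith

lemma ws_lt_tot (w : Ival → ℝ) (hw : ∀ s, w s < 1) (c : Ival →₀ ℤ) (hc : 0 ≤ c) (h0 : c ≠ 0) :
    ws w c < tot c := by
  have := ws_pos (fun s => 1 - w s) (fun s => by linarith [hw s]) c hc h0
  rw [ws_sub_weight, ← tot_eq_ws] at this
  linarith

lemma edge_src (hD : 0 ≤ D.2 e) (hD' : 0 ≤ D.2 e + f.bend e)
    (h : f.val (G.tgt e) < f.val (G.src e)) : f.slope e ≤ tot (D.2 e) - 1 := by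
  have h1 := closes' f e
  have h2 := bend_ge f D e (fun s => 1 - (s : ℝ)) (fun s => by linarith [s.2.2]) hD'
  have h3 := ws_le_tot (fun s => 1 - (s : ℝ)) (fun s => by linarith [s.2.1]) _ hD
  have h4 : (f.slope e : ℝ) < tot (D.2 e) := by linarith
  have h5 : f.slope e < tot (D.2 e) := by exact_mod_cast h4
  omega

lemma edge_tgt (hD : 0 ≤ D.2 e) (hD' : 0 ≤ D.2 e + f.bend e)
    (h : f.val (G.src e) < f.val (G.tgt e)) :
    -(f.slope e + tot (f.bend e)) ≤ tot (D.2 e) - 1 := by
  have h1 := closes'' f e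
  have h2 := bend_ge f D e (fun s => (s : ℝ)) (fun s => by linarith [s.2.1]) hD'
  have h3 := ws_le_tot (fun s => (s : ℝ)) (fun s => by linarith [s.2.2]) _ hD
  have h4 : (-(f.slope e + tot (f.bend e)) : ℝ) < tot (D.2 e) := by linarith
  have h5 : -(f.slope e + tot (f.bend e)) < tot (D.2 e) := by exact_mod_cast h4
  omega

lemma edge_both (hD' : 0 ≤ D.2 e + f.bend e) :
    f.slope e + -(f.slope e + tot (f.bend e)) ≤ tot (D.2 e) := by
  have := tot_nonneg _ hD'
  rw [tot_add] at this
  linarith

lemma edge_eq_src (hD : 0 ≤ D.2 e) (hD' : 0 ≤ D.2 e + f.bend e)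
    (h : f.val (G.tgt e) = f.val (G.src e)) (h1 : 1 ≤ f.slope e) : 2 ≤ tot (D.2 e) := by
  have h2 := closes' f e
  have h3 := bend_ge f D e (fun s => 1 - (s : ℝ)) (fun s => by linarith [s.2.2]) hD'
  have h4 : (f.slope e : ℝ) ≤ ws (fun s => 1 - (s : ℝ)) (D.2 e) := by linarith
  have h6 : (1 : ℝ) ≤ f.slope e := by exact_mod_cast h1
  by_cases h0 : D.2 e = 0
  · rw [h0, ws_zero] at h4
    linarith
  · have h5 := ws_lt_tot (fun s => 1 - (s : ℝ)) (fun s => by linarith [s.2.1]) _ hD h0
    have h7 : (1 : ℝ) < tot (D.2 e) := by linarith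
    have h8 : 1 < tot (D.2 e) := by exact_mod_cast h7
    omega

lemma edge_eq_tgt (hD : 0 ≤ D.2 e) (hD' : 0 ≤ D.2 e + f.bend e)
    (h : f.val (G.tgt e) = f.val (G.src e)) (h1 : 1 ≤ -(f.slope e + tot (f.bend e))) :
    2 ≤ tot (D.2 e) := by
  have h2 := closes'' f e
  have h3 := bend_ge f D e (fun s => (s : ℝ)) (fun s => by linarith [s.2.1]) hD'
  have h6 : (1 : ℝ) ≤ (-(f.slope e + tot (f.bend e)) : ℝ) := by exact_mod_cast h1
  have h4 : (1 : ℝ) ≤ ws (fun s => (s : ℝ)) (D.2 e) := by linarith
  by_cases h0 : D.2 e = 0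
  · rw [h0, ws_zero] at h4
    linarith
  · have h5 := ws_lt_tot (fun s => (s : ℝ)) (fun s => by linarith [s.2.2]) _ hD h0
    have h7 : (1 : ℝ) < tot (D.2 e) := by linarith
    have h8 : 1 < tot (D.2 e) := by exact_mod_cast h7
    omega

end edge

/-! ### incidence sums -/

section inc

variable [Fintype V] [DecidableEq V] [Fintype E]

/-- sum over the edge ends at a vertex -/
def inc (G : MGraph V E) (a b : E → ℤ) (v : V) : ℤ :=
  ∑ e, ((if G.src e = v then a e else 0) + (if G.tgt e = v then b e else 0))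

lemma sum_mul_inc (G : MGraph V E) (a b : E → ℤ) (g : V → ℤ) :
    ∑ v, g v * inc G a b v = ∑ e, (g (G.src e) * a e + g (G.tgt e) * b e) := by
  unfold inc
  simp_rw [Finset.mul_sum]
  rw [Finset.sum_comm]
  refine Finset.sum_congr rfl fun e _ => ?_
  simp_rw [mul_add, mul_ite, mul_zero]
  rw [Finset.sum_add_distrib, Finset.sum_ite_eq, Finset.sum_ite_eq]
  simp only [mem_univ, if_true]

lemma div_fst (G : MGraph V E) (f : RatFun G) (v : V) :
    f.div.1 v = inc G f.slope (fun e => -(f.slope e + tot (f.bend e))) v := rfl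

lemma div_snd (G : MGraph V E) (f : RatFun G) : f.div.2 = f.bend := rfl

lemma mdeg_eq (D : MDiv V E) : mdeg D = ∑ v, D.1 v + ∑ e, tot (D.2 e) := rfl

lemma mdeg_add (D D' : MDiv V E) : mdeg (D + D') = mdeg D + mdeg D' := by
  simp only [mdeg_eq, Prod.fst_add, Prod.snd_add, Pi.add_apply, tot_add, Finset.sum_add_distrib]
  ring

lemma mdeg_zero : mdeg (0 : MDiv V E) = 0 := by
  simp [mdeg_eq, tot_zero]

lemma mdeg_neg (D : MDiv V E) : mdeg (-D) = - mdeg D := by
  have := mdeg_add D (-D)
  rw [add_neg_cancel, mdeg_zero] at this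
  linarith

lemma mdeg_sub (D D' : MDiv V E) : mdeg (D - D') = mdeg D - mdeg D' := by
  rw [sub_eq_add_neg, mdeg_add, mdeg_neg]
  ring

lemma mdeg_div (G : MGraph V E) (f : RatFun G) : mdeg f.div = 0 := by
  rw [mdeg_eq]
  have h := sum_mul_inc G f.slope (fun e => -(f.slope e + tot (f.bend e))) (fun _ => 1)
  simp only [one_mul] at h
  simp only [div_fst, div_snd, h, ← Finset.sum_add_distrib]
  exact Finset.sum_eq_zero fun e _ => by ring

lemma mdeg_nonneg (D : MDiv V E) (hD : 0 ≤ D) : 0 ≤ mdeg D := by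
  rw [mdeg_eq]
  exact add_nonneg (Finset.sum_nonneg fun v _ => hD.1 v)
    (Finset.sum_nonneg fun e _ => tot_nonneg _ (hD.2 e))

lemma eq_zero_of_mdeg (D : MDiv V E) (hD : 0 ≤ D) (h : mdeg D = 0) : D = 0 := by
  rw [mdeg_eq] at h
  have h1 : 0 ≤ ∑ v, D.1 v := Finset.sum_nonneg fun v _ => hD.1 v
  have h2 : 0 ≤ ∑ e, tot (D.2 e) := Finset.sum_nonneg fun e _ => tot_nonneg _ (hD.2 e)
  have h3 : ∑ v, D.1 v = 0 := by linarith
  have h4 : ∑ e, tot (D.2 e) = 0 := by linarith
  rw [Finset.sum_eq_zero_iff_of_nonneg fun v _ => hD.1 v] at h3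
  rw [Finset.sum_eq_zero_iff_of_nonneg fun e _ => tot_nonneg _ (hD.2 e)] at h4
  refine Prod.ext (funext fun v => h3 v (mem_univ v)) (funext fun e => ?_)
  exact eq_zero_of_tot _ (hD.2 e) (h4 e (mem_univ e))

/-- **The cut inequality.** If `D` and `D + div f` are effective then, for every level `T`, the
number of edges which have one end where `f ≥ T` and the other end where `f < T` is at most the
degree of `D`. -/
lemma cut_le (G : MGraph V E) (f : RatFun G) (D : MDiv V E) (hD : 0 ≤ D) (hD' : 0 ≤ D + f.div)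
    (T : ℝ) :
    ∑ e, (if (T ≤ f.val (G.src e) ↔ T ≤ f.val (G.tgt e)) then (0 : ℤ) else 1) ≤ mdeg D := by
  classical
  set g : V → ℤ := fun v => if T ≤ f.val v then 1 else 0 with hg
  have hg0 : ∀ v, 0 ≤ g v := fun v => by simp only [hg]; split_ifs <;> norm_num
  have hg1 : ∀ v, g v ≤ 1 := fun v => by simp only [hg]; split_ifs <;> norm_num
  have h1 : 0 ≤ ∑ v, g v * (D.1 v + f.div.1 v) :=
    Finset.sum_nonneg fun v _ => mul_nonneg (hg0 v) (hD'.1 v)
  simp only [mul_add, Finset.sum_add_distrib, div_fst] at h1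
  rw [sum_mul_inc] at h1
  have h2 : ∑ v, g v * D.1 v ≤ ∑ v, D.1 v := by
    refine Finset.sum_le_sum fun v _ => ?_
    have h3 : 0 ≤ D.1 v := hD.1 v
    nlinarith [hg1 v]
  have h3 : ∀ e, g (G.src e) * f.slope e + g (G.tgt e) * (-(f.slope e + tot (f.bend e))) ≤
      tot (D.2 e) - (if (T ≤ f.val (G.src e) ↔ T ≤ f.val (G.tgt e)) then (0 : ℤ) else 1) := by
    intro e
    have e1 : 0 ≤ D.2 e := hD.2 e
    have e2 : 0 ≤ D.2 e + f.bend e := hD'.2 e
    have e3 := tot_nonneg _ e1
    by_cases hs : T ≤ f.val (G.src e) <;> by_cases ht : T ≤ f.val (G.tgt e)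
    · have := edge_both f D e e2
      simp only [hg, hs, ht, if_true]
      linarith
    · have := edge_src f D e e1 e2 (by linarith [not_le.1 ht])
      simp only [hg, hs, ht, if_true, if_false, true_iff]
      linarith
    · have := edge_tgt f D e e1 e2 (by linarith [not_le.1 hs])
      simp only [hg, hs, ht, if_true, if_false, false_iff, not_true]
      linarith
    · simp only [hg, hs, ht, if_false, if_true]
      linarith
  have h4 := Finset.sum_le_sum fun e (_ : e ∈ (Finset.univ : Finset E)) => h3 e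
  rw [Finset.sum_sub_distrib] at h4
  rw [mdeg_eq]
  linarith

end inc

end Pool.Agent.R11.MetGon
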