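import Pool.Agent.R11.MetK

/-!
# Moving chips on the metric graph of a complete graph
-/

set_option autoImplicit false
set_option linter.unusedSectionVars false

namespace Pool.Agent.R11.MetGon

open Finset Pool.Agent.H997R3.Gon Pool.Agent.H997R3.Gon.Net

/-- one chip inside an edge -/
noncomputable def chip (t : ℝ) : Ival →₀ ℤ :=
  if h : 0 < t ∧ t < 1 then Finsupp.single ⟨t, h⟩ 1 else 0

lemma chip_nonneg (t : ℝ) : 0 ≤ chip t := by
  unfold chip
  split_ifs
  · intro s
    simp only [Finsupp.coe_zero, Pi.zero_apply, Finsupp.single_apply]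
    split_ifs <;> norm_num
  · exact le_rfl

lemma tot_chip (t : ℝ) : tot (chip t) = if 0 < t ∧ t < 1 then 1 else 0 := by
  unfold chip
  split_ifs
  · exact tot_single _ _
  · exact tot_zero

lemma ws_chip (w : ℝ → ℝ) (t : ℝ) :
    ws (fun s => w s) (chip t) = if 0 < t ∧ t < 1 then w t else 0 := by
  unfold chip
  split_ifs
  · rw [ws_single]
    simp
  · exact ws_zero _

/-- slope at the first end of an edge, when one chip moves from one end (the first end if `o` is
true) to distance `s` from that end -/
noncomputable def slp (o : Bool) (s : ℝ) : ℤ :=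
  if o then (if 0 < s then -1 else 0) else (if 1 ≤ s then 1 else 0)

/-- the corresponding change of slope -/
noncomputable def bnd (o : Bool) (s : ℝ) : Ival →₀ ℤ := chip (if o then s else 1 - s)

lemma slp_bnd (o : Bool) (s : ℝ) (h0 : 0 ≤ s) (h1 : s ≤ 1) :
    (slp o s : ℝ) + ws (fun t => 1 - (t : ℝ)) (bnd o s) = if o then -s else s := by
  unfold bnd slp
  rw [ws_chip (fun t => 1 - t)]
  cases o
  · simp only [Bool.false_eq_true, if_false]
    rcases lt_trichotomy s 1 with h | h | h
    · rcases eq_or_lt_of_le h0 with h' | h'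
      · subst h'
        norm_num
      · rw [if_neg (by linarith), if_pos ⟨by linarith, by linarith⟩]
        push_cast
        ring
    · subst h
      norm_num
    · linarith
  · simp only [if_true]
    rcases eq_or_lt_of_le h0 with h' | h'
    · subst h'
      norm_num
    · rcases lt_trichotomy s 1 with h | h | h
      · rw [if_pos h', if_pos ⟨by linarith, by linarith⟩]
        push_cast
        ring
      · subst h
        norm_num
      · linarith

variable {V E : Type}

/-- a chip on the closed edge `e`, at distance `t` from its first end -/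
noncomputable def cp [DecidableEq V] [DecidableEq E] (G : MGraph V E) (e : E) (t : ℝ) : MDiv V E :=
  (fun v => (if G.src e = v ∧ t ≤ 0 then 1 else 0) + (if G.tgt e = v ∧ 1 ≤ t then 1 else 0),
    Pi.single e (chip t))

lemma cp_nonneg [DecidableEq V] [DecidableEq E] (G : MGraph V E) (e : E) (t : ℝ) :
    0 ≤ cp G e t := by
  refine ⟨fun v => ?_, fun e' => ?_⟩
  · simp only [cp, Prod.fst_zero, Pi.zero_apply]
    split_ifs <;> norm_num
  · by_cases h : e' = e
    · subst h
      simp only [cp, Pi.single_eq_same]
      exact chip_nonneg _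
    · simp only [cp, Pi.single_eq_of_ne h]
      exact le_rfl

/-- distance from the end `x` changed into the distance from the first end -/
noncomputable def pos (o : Bool) (s : ℝ) : ℝ := if o then s else 1 - s

lemma move_one [DecidableEq V] [DecidableEq E] (G : MGraph V E) (e : E) (x v : V)
    (hx : G.src e = x ∨ G.tgt e = x) (s : ℝ) (h0 : 0 ≤ s) :
    ((if G.src e = v then slp (decide (G.src e = x)) s else 0) +
      (if G.tgt e = v then -(slp (decide (G.src e = x)) s + tot (bnd (decide (G.src e = x)) s))
        else 0)) =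
    (cp G e (pos (decide (G.src e = x)) s)).1 v - if v = x then 1 else 0 := by
  have hne := G.ne e
  have hpos : ¬ s < 0 := not_lt.2 h0
  rcases hx with hx | hx
  · subst hx
    simp only [decide_true, slp, bnd, pos, if_true, cp, tot_chip]
    by_cases h1 : G.src e = v
    · subst h1
      simp only [if_true, true_and, hne.symm, false_and, if_false, add_zero]
      by_cases h2 : 0 < s
      · simp [h2, not_le.2 h2]
      · simp [h2, not_lt.1 h2]
    · by_cases h3 : G.tgt e = v
      · subst h3
        simp only [h1, if_false, false_and, true_and, if_true, zero_add, hne.symm, sub_zero]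
        by_cases h2 : 0 < s
        · by_cases h4 : s < 1
          · simp [h2, h4, not_le.2 h4]
          · simp [h2, h4, not_lt.1 h4]
        · have h5 : ¬ (1 : ℝ) ≤ s := by linarith
          simp [h2, h5]
      · have h4 : v ≠ G.src e := fun h => h1 h.symm
        simp [h1, h3, h4]
  · subst hx
    simp only [hne, decide_false, slp, bnd, pos, Bool.false_eq_true, if_false, cp, tot_chip]
    by_cases h1 : G.src e = v
    · subst h1
      simp only [if_true, true_and, hne.symm, hne, false_and, if_false, add_zero, sub_zero]
      by_cases h2 : 1 ≤ s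
      · have : 1 - s ≤ 0 := by linarith
        simp [h2, this]
      · have : ¬ (1 - s ≤ 0) := by linarith
        simp [h2, this]
    · by_cases h3 : G.tgt e = v
      · subst h3
        simp only [hne, if_false, false_and, true_and, if_true, zero_add]
        by_cases h2 : 1 ≤ s
        · have e1 : ¬ (0 < 1 - s) := by linarith
          have e2 : ¬ (1 ≤ 1 - s) := by linarith
          simp [h2, e1, e2]
        · by_cases h4 : 0 < s
          · have e1 : (0 < 1 - s) := by linarith
            have e2 : ¬ (1 ≤ 1 - s) := by linarith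
            have e3 : 1 - s < 1 := by linarith
            simp [h2, e1, e2, e3]
          · have e1 : (0 < 1 - s) := by linarith
            have e2 : (1 ≤ 1 - s) := by linarith
            have e3 : ¬ (1 - s < 1) := by linarith
            simp [h2, e1, e2, e3]
      · have h4 : v ≠ G.tgt e := fun h => h3 h.symm
        simp [h1, h3, h4]

/-- a number of chips on one vertex -/
def vert [DecidableEq V] (x : V) (m : ℤ) : MDiv V E := (fun v => if v = x then m else 0, 0)

/-- the star move: all chips at `x`; one chip moves along every edge at `x` by `a + b`, except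
along `e₀`, where two chips move by `a` and by `b` -/
noncomputable def starF (n : ℕ) (x : Fin (n + 1)) (e₀ : Pair (n + 1)) (a b : ℝ) (ha : 0 ≤ a)
    (hb : 0 ≤ b) (hab : a + b ≤ 1) (hx : e₀.1.1 = x ∨ e₀.1.2 = x) : RatFun (kGraph n) where
  val i := if i = x then 0 else -(a + b)
  slope e := (if e.1.1 = x ∨ e.1.2 = x then
    slp (decide (e.1.1 = x)) (if e = e₀ then a else a + b) else 0) +
    (if e = e₀ then slp (decide (e.1.1 = x)) b else 0)
  bend e := (if e.1.1 = x ∨ e.1.2 = x then
    bnd (decide (e.1.1 = x)) (if e = e₀ then a else a + b) else 0) +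
    (if e = e₀ then bnd (decide (e.1.1 = x)) b else 0)
  closes := by
    intro e
    change _ = _ + _ + ws (fun t => 1 - (t : ℝ)) _
    have hlt := e.2
    have hne : e.1.1 ≠ e.1.2 := ne_of_lt hlt
    have key : ∀ s : ℝ, 0 ≤ s → s ≤ 1 → (slp (decide (e.1.1 = x)) s : ℝ) +
        ws (fun t => 1 - (t : ℝ)) (bnd (decide (e.1.1 = x)) s) = if e.1.1 = x then -s else s := by
      intro s h0 h1
      rw [slp_bnd _ s h0 h1]
      simp
    by_cases h1 : e.1.1 = x
    · have h2 : e.1.2 ≠ x := fun h => hne (h1.trans h.symm)
      by_cases he : e = e₀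
      · have k1 := key a ha (by linarith)
        have k2 := key b hb (by linarith)
        simp only [kGraph, he] at h1 h2 k1 k2 ⊢
        simp only [h1, h2, true_or, if_true, if_false, decide_true, ws_add, Int.cast_add] at k1 k2 ⊢
        linarith
      · have k1 := key (a + b) (by linarith) (by linarith)
        simp only [kGraph, he, h1, h2, true_or, if_true, if_false, decide_true, add_zero] at k1 ⊢
        linarith
    · by_cases h2 : e.1.2 = x
      · by_cases he : e = e₀
        · have k1 := key a ha (by linarith)
          have k2 := key b hb (by linarith)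
          simp only [kGraph, he] at h1 h2 k1 k2 ⊢
          simp only [h1, h2, or_true, if_true, if_false, decide_false, ws_add,
            Int.cast_add] at k1 k2 ⊢
          linarith
        · have k1 := key (a + b) (by linarith) (by linarith)
          simp only [kGraph, he, h1, h2, or_true, if_true, if_false, decide_false, add_zero] at k1 ⊢
          linarith
      · have he : e ≠ e₀ := by
          rintro rfl
          tauto
        simp [kGraph, he, h1, h2, ws_zero]

lemma split_term (p q : Prop) [Decidable p] [Decidable q] (A B C D : ℤ) :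
    ((if p then A + B else 0) + (if q then -(A + B + (C + D)) else 0)) =
      ((if p then A else 0) + (if q then -(A + C) else 0)) +
      ((if p then B else 0) + (if q then -(B + D) else 0)) := by
  split_ifs <;> ring

lemma starF_fst (n : ℕ) (x : Fin (n + 1)) (e₀ : Pair (n + 1)) (a b : ℝ) (ha : 0 ≤ a)
    (hb : 0 ≤ b) (hab : a + b ≤ 1) (hx : e₀.1.1 = x ∨ e₀.1.2 = x) (v : Fin (n + 1)) :
    (vert (E := Pair (n + 1)) x (n + 1)).1 v + (starF n x e₀ a b ha hb hab hx).div.1 v =
      ∑ e : Pair (n + 1), (if e.1.1 = x ∨ e.1.2 = x then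
        (cp (kGraph n) e (pos (decide (e.1.1 = x)) (if e = e₀ then a else a + b))).1 v else 0) +
      (cp (kGraph n) e₀ (pos (decide (e₀.1.1 = x)) b)).1 v := by
  rw [div_fst]
  unfold inc
  have hterm : ∀ e : Pair (n + 1),
      ((if (kGraph n).src e = v then (starF n x e₀ a b ha hb hab hx).slope e else 0) +
        (if (kGraph n).tgt e = v then -((starF n x e₀ a b ha hb hab hx).slope e +
          tot ((starF n x e₀ a b ha hb hab hx).bend e)) else 0)) =
      ((if e.1.1 = x ∨ e.1.2 = x then
        (cp (kGraph n) e (pos (decide (e.1.1 = x)) (if e = e₀ then a else a + b))).1 v else 0) -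
        (if v = x then (if e.1.1 = x ∨ e.1.2 = x then 1 else 0) else 0)) +
      (if e = e₀ then (cp (kGraph n) e₀ (pos (decide (e₀.1.1 = x)) b)).1 v -
        (if v = x then 1 else 0) else 0) := by
    intro e
    have hc : 0 ≤ (if e = e₀ then a else a + b) := by split_ifs <;> linarith
    by_cases h : e.1.1 = x ∨ e.1.2 = x
    · have m1 := move_one (kGraph n) e x v h _ hc
      by_cases he : e = e₀
      · subst he
        have m2 := move_one (kGraph n) e x v h b hb
        simp only [if_true] at m1
        simp only [starF, h, if_true, tot_add]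
        rw [split_term]
        exact congrArg₂ (· + ·) m1 m2
      · simp only [he, if_false] at m1
        simp only [starF, h, he, if_true, if_false, add_zero]
        exact m1
    · have he : e ≠ e₀ := by
        rintro rfl
        exact h hx
      simp [starF, h, he, tot_zero]
  rw [Finset.sum_congr rfl fun e _ => hterm e, Finset.sum_add_distrib, Finset.sum_sub_distrib,
    Finset.sum_ite_eq']
  have hdeg : ∑ e : Pair (n + 1), (if e.1.1 = x ∨ e.1.2 = x then (1 : ℤ) else 0) = n := by
    rw [← inc_one n x]
    unfold inc
    refine Finset.sum_congr rfl fun e _ => ?_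
    have hne : e.1.1 ≠ e.1.2 := ne_of_lt e.2
    simp only [kGraph]
    by_cases h1 : e.1.1 = x
    · have h2 : e.1.2 ≠ x := fun h => hne (h1.trans h.symm)
      simp [h1, h2]
    · simp only [h1, false_or, if_false, zero_add]
      all_goals rfl
  simp only [mem_univ, if_true, vert]
  by_cases hv : v = x
  · simp only [hv, if_true, hdeg]
    ring
  · simp only [hv, if_false, Finset.sum_const_zero]
    ring

lemma starF_snd (n : ℕ) (x : Fin (n + 1)) (e₀ : Pair (n + 1)) (a b : ℝ) (ha : 0 ≤ a)
    (hb : 0 ≤ b) (hab : a + b ≤ 1) (hx : e₀.1.1 = x ∨ e₀.1.2 = x) (e : Pair (n + 1)) :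
    (starF n x e₀ a b ha hb hab hx).div.2 e =
      (if e.1.1 = x ∨ e.1.2 = x then
        chip (pos (decide (e.1.1 = x)) (if e = e₀ then a else a + b)) else 0) +
      (if e = e₀ then chip (pos (decide (e.1.1 = x)) b) else 0) := rfl

/-- two chips on the edge `e₀` -/
lemma star_same (n : ℕ) (x : Fin (n + 1)) (e₀ : Pair (n + 1)) (a b : ℝ) (ha : 0 ≤ a)
    (hb : 0 ≤ b) (hab : a + b ≤ 1) (hx : e₀.1.1 = x ∨ e₀.1.2 = x) :
    0 ≤ vert x (n + 1) + (starF n x e₀ a b ha hb hab hx).div -
      (cp (kGraph n) e₀ (pos (decide (e₀.1.1 = x)) a) +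
        cp (kGraph n) e₀ (pos (decide (e₀.1.1 = x)) b)) := by
  refine ⟨fun v => ?_, fun e => ?_⟩
  · simp only [Prod.fst_sub, Prod.fst_add, Pi.sub_apply, Pi.add_apply, Prod.fst_zero, Pi.zero_apply]
    rw [starF_fst]
    have h1 : (cp (kGraph n) e₀ (pos (decide (e₀.1.1 = x)) a)).1 v ≤
        ∑ e : Pair (n + 1), (if e.1.1 = x ∨ e.1.2 = x then
        (cp (kGraph n) e (pos (decide (e.1.1 = x)) (if e = e₀ then a else a + b))).1 v else 0) := by
      have h2 := Finset.single_le_sum (f := fun e : Pair (n + 1) => (if e.1.1 = x ∨ e.1.2 = x then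
        (cp (kGraph n) e (pos (decide (e.1.1 = x)) (if e = e₀ then a else a + b))).1 v else 0))
        (fun e _ => by
          split_ifs
          · exact (cp_nonneg _ _ _).1 v
          · exact (cp_nonneg _ _ _).1 v
          · exact le_rfl) (mem_univ e₀)
      simpa only [hx, if_true] using h2
    linarith
  · simp only [Prod.snd_sub, Prod.snd_add, Pi.sub_apply, Pi.add_apply, Prod.snd_zero, Pi.zero_apply]
    rw [starF_snd]
    by_cases he : e = e₀
    · subst he
      simp only [vert, cp, Pi.single_eq_same, hx, if_true, Pi.zero_apply, zero_add, sub_self]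
      exact le_rfl
    · simp only [vert, cp, Pi.single_eq_of_ne he, he, if_false, Pi.zero_apply, zero_add, add_zero,
        sub_zero]
      split_ifs
      · exact chip_nonneg _
      · exact le_rfl

/-- one chip on the edge `e₀` and one on another edge at `x` -/
lemma star_diff (n : ℕ) (x : Fin (n + 1)) (e₀ e₁ : Pair (n + 1)) (a b : ℝ) (ha : 0 ≤ a)
    (hb : 0 ≤ b) (hab : a + b ≤ 1) (hx : e₀.1.1 = x ∨ e₀.1.2 = x) (hx₁ : e₁.1.1 = x ∨ e₁.1.2 = x)
    (hne : e₁ ≠ e₀) :
    0 ≤ vert x (n + 1) + (starF n x e₀ a b ha hb hab hx).div -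
      (cp (kGraph n) e₀ (pos (decide (e₀.1.1 = x)) a) +
        cp (kGraph n) e₁ (pos (decide (e₁.1.1 = x)) (a + b))) := by
  refine ⟨fun v => ?_, fun e => ?_⟩
  · simp only [Prod.fst_sub, Prod.fst_add, Pi.sub_apply, Pi.add_apply, Prod.fst_zero, Pi.zero_apply]
    rw [starF_fst]
    have h1 : (cp (kGraph n) e₀ (pos (decide (e₀.1.1 = x)) a)).1 v +
        (cp (kGraph n) e₁ (pos (decide (e₁.1.1 = x)) (a + b))).1 v ≤
        ∑ e : Pair (n + 1), (if e.1.1 = x ∨ e.1.2 = x then
        (cp (kGraph n) e (pos (decide (e.1.1 = x)) (if e = e₀ then a else a + b))).1 v else 0) := by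
      have h2 := Finset.sum_le_sum_of_subset_of_nonneg
        (f := fun e : Pair (n + 1) => (if e.1.1 = x ∨ e.1.2 = x then
        (cp (kGraph n) e (pos (decide (e.1.1 = x)) (if e = e₀ then a else a + b))).1 v else 0))
        (Finset.subset_univ {e₀, e₁})
        (fun e _ _ => by
          split_ifs
          · exact (cp_nonneg _ _ _).1 v
          · exact (cp_nonneg _ _ _).1 v
          · exact le_rfl)
      rw [Finset.sum_pair hne.symm] at h2
      simpa only [hx, hx₁, hne, if_true, if_false] using h2
    have h3 := (cp_nonneg (kGraph n) e₀ (pos (decide (e₀.1.1 = x)) b)).1 v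
    simp only [Prod.fst_zero, Pi.zero_apply] at h3
    linarith
  · simp only [Prod.snd_sub, Prod.snd_add, Pi.sub_apply, Pi.add_apply, Prod.snd_zero, Pi.zero_apply]
    rw [starF_snd]
    by_cases he : e = e₀
    · subst he
      simp only [vert, cp, Pi.single_eq_same, Pi.single_eq_of_ne hne.symm, hx, if_true,
        Pi.zero_apply, zero_add, add_zero, add_sub_cancel_left]
      exact chip_nonneg _
    · by_cases he₁ : e = e₁
      · subst he₁
        simp only [vert, cp, Pi.single_eq_same, Pi.single_eq_of_ne he, he, hx₁, if_true, if_false,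
          Pi.zero_apply, zero_add, add_zero, sub_self]
        exact le_rfl
      · simp only [vert, cp, Pi.single_eq_of_ne he, Pi.single_eq_of_ne he₁, he, if_false,
          Pi.zero_apply, zero_add, add_zero, sub_zero]
        split_ifs
        · exact chip_nonneg _
        · exact le_rfl

end Pool.Agent.R11.MetGon
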