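import Pool.Agent.R11.MetF

/-!
# Rank two on the metric graph of a complete graph
-/

set_option autoImplicit false
set_option linter.unusedSectionVars false

namespace Pool.Agent.R11.MetGon

open Finset Pool.Agent.H997R3.Gon Pool.Agent.H997R3.Gon.Net

variable {V E : Type}

/-! ### operations on rational functions -/

/-- sum of rational functions -/
noncomputable def RatFun.add {G : MGraph V E} (f g : RatFun G) : RatFun G where
  val v := f.val v + g.val v
  slope e := f.slope e + g.slope e
  bend e := f.bend e + g.bend e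
  closes := by
    intro e
    change _ = _ + _ + ws (fun t => 1 - (t : ℝ)) _
    have h1 := closes' f e
    have h2 := closes' g e
    rw [ws_add]
    push_cast
    linarith

/-- negative of a rational function -/
noncomputable def RatFun.neg {G : MGraph V E} (f : RatFun G) : RatFun G where
  val v := -f.val v
  slope e := -f.slope e
  bend e := -f.bend e
  closes := by
    intro e
    change _ = _ + _ + ws (fun t => 1 - (t : ℝ)) _
    have h1 := closes' f e
    rw [ws_neg]
    push_cast
    linarith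

section
variable [Fintype V] [DecidableEq V] [Fintype E]

lemma inc_add (G : MGraph V E) (a b a' b' : E → ℤ) (v : V) :
    inc G (fun e => a e + a' e) (fun e => b e + b' e) v = inc G a b v + inc G a' b' v := by
  unfold inc
  rw [← Finset.sum_add_distrib]
  refine Finset.sum_congr rfl fun e _ => ?_
  split_ifs <;> ring

lemma inc_neg (G : MGraph V E) (a b : E → ℤ) (v : V) :
    inc G (fun e => - a e) (fun e => - b e) v = - inc G a b v := by
  unfold inc
  rw [← Finset.sum_neg_distrib]
  refine Finset.sum_congr rfl fun e _ => ?_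
  split_ifs <;> ring

lemma div_add (G : MGraph V E) (f g : RatFun G) : (f.add g).div = f.div + g.div := by
  refine Prod.ext (funext fun v => ?_) rfl
  simp only [Prod.fst_add, Pi.add_apply, div_fst]
  rw [← inc_add]
  congr 1
  funext e
  simp only [RatFun.add, tot_add]
  ring

lemma div_neg (G : MGraph V E) (f : RatFun G) : f.neg.div = - f.div := by
  refine Prod.ext (funext fun v => ?_) rfl
  simp only [Prod.fst_neg, Pi.neg_apply, div_fst]
  rw [← inc_neg]
  congr 1
  funext e
  simp only [RatFun.neg, tot_neg]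
  ring

/-- an integer function on the vertices, extended linearly to the edges -/
def ofInt (G : MGraph V E) (g : V → ℤ) : RatFun G where
  val v := g v
  slope e := g (G.tgt e) - g (G.src e)
  bend _ := 0
  closes := by
    intro e
    simp

lemma div_ofInt (G : MGraph V E) (g : V → ℤ) : (ofInt G g).div = (fun v => - G.lap g v, 0) := by
  refine Prod.ext (funext fun v => ?_) rfl
  simp only [div_fst, lap_eq_inc, ← inc_neg]
  simp only [ofInt, tot_zero, add_zero, neg_sub]

/-! ### points -/

variable [DecidableEq E]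

/-- the divisor of one point -/
noncomputable def pt : V ⊕ (E × Ival) → MDiv V E
  | Sum.inl v => vert v 1
  | Sum.inr x => (0, Pi.single x.1 (Finsupp.single x.2 1))

lemma vert_nonneg (v : V) (m : ℤ) (hm : 0 ≤ m) : 0 ≤ (vert v m : MDiv V E) := by
  refine ⟨fun w => ?_, le_rfl⟩
  simp only [vert, Prod.fst_zero, Pi.zero_apply]
  split_ifs <;> simp [hm]

lemma vert_add (v : V) (m m' : ℤ) : (vert v (m + m') : MDiv V E) = vert v m + vert v m' := by
  refine Prod.ext (funext fun w => ?_) ?_
  · simp only [vert, Prod.fst_add, Pi.add_apply]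
    split_ifs <;> ring
  · simp [vert]

lemma mdeg_vert (v : V) (m : ℤ) : mdeg (vert v m : MDiv V E) = m := by
  rw [mdeg_eq]
  simp [vert, tot_zero]

lemma mdeg_pt (q : V ⊕ (E × Ival)) : mdeg (pt q) = 1 := by
  rcases q with v | ⟨e, t⟩
  · exact mdeg_vert v 1
  · rw [mdeg_eq]
    simp only [pt, Pi.zero_apply, Finset.sum_const_zero, zero_add]
    rw [Finset.sum_eq_single e]
    · rw [Pi.single_eq_same, tot_single]
    · intro e' _ h
      rw [Pi.single_eq_of_ne h, tot_zero]
    · simp

/-- an effective divisor of positive degree contains a point -/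
lemma exists_pt (F : MDiv V E) (hF : 0 ≤ F) (h : 0 < mdeg F) : ∃ q, 0 ≤ F - pt q := by
  rw [mdeg_eq] at h
  have h0 : (∃ v, 0 < F.1 v) ∨ ∃ e, 0 < tot (F.2 e) := by
    by_contra hcon
    push Not at hcon
    have h1 : ∑ v, F.1 v ≤ 0 := Finset.sum_nonpos fun v _ => hcon.1 v
    have h2 : ∑ e, tot (F.2 e) ≤ 0 := Finset.sum_nonpos fun e _ => hcon.2 e
    linarith
  rcases h0 with ⟨v, hv⟩ | ⟨e, he⟩
  · refine ⟨Sum.inl v, fun w => ?_, fun e => ?_⟩
    · have := hF.1 w
      simp only [pt, vert, Prod.fst_sub, Pi.sub_apply, Prod.fst_zero, Pi.zero_apply] at this ⊢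
      split_ifs with hw
      · subst hw
        omega
      · linarith
    · have := hF.2 e
      simp only [pt, vert, Prod.snd_sub, Pi.sub_apply, Prod.snd_zero, Pi.zero_apply, sub_zero] at this ⊢
      exact this
  · have h1 : ∃ s, 0 < F.2 e s := by
      by_contra hcon
      push Not at hcon
      have h2 : F.2 e ≤ 0 := fun s => by simpa using hcon s
      have h3 := tot_nonneg (-(F.2 e)) (by simpa using h2)
      rw [tot_neg] at h3
      linarith
    obtain ⟨s, hs⟩ := h1
    refine ⟨Sum.inr (e, s), fun w => ?_, fun e' => ?_⟩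
    · have := hF.1 w
      simpa [pt] using this
    · have h4 := hF.2 e'
      by_cases h5 : e' = e
      · subst h5
        intro t
        have h6 := h4 t
        simp only [pt, Prod.snd_sub, Pi.sub_apply, Prod.snd_zero, Pi.zero_apply,
          Finsupp.coe_zero, Pi.single_eq_same, Finsupp.coe_sub, Finsupp.single_apply] at h6 ⊢
        split_ifs with h7
        · subst h7
          omega
        · linarith
      · simp only [pt, Prod.snd_sub, Pi.sub_apply, Prod.snd_zero, Pi.zero_apply,
          Pi.single_eq_of_ne h5, sub_zero] at h4 ⊢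
        exact h4

lemma eq_pt (F : MDiv V E) (hF : 0 ≤ F) (h : mdeg F = 1) : ∃ q, F = pt q := by
  obtain ⟨q, hq⟩ := exists_pt F hF (by omega)
  refine ⟨q, ?_⟩
  have h1 := eq_zero_of_mdeg (F - pt q) hq (by rw [mdeg_sub, h, mdeg_pt]; ring)
  exact sub_eq_zero.1 h1

lemma eq_pt_two (F : MDiv V E) (hF : 0 ≤ F) (h : mdeg F = 2) : ∃ q q', F = pt q + pt q' := by
  obtain ⟨q, hq⟩ := exists_pt F hF (by omega)
  obtain ⟨q', hq'⟩ := eq_pt (F - pt q) hq (by rw [mdeg_sub, h, mdeg_pt]; ring)
  exact ⟨q, q', by rw [← hq']; abel⟩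

lemma cp_inner (G : MGraph V E) (e : E) (t : Ival) :
    cp G e t = pt (Sum.inr (e, t)) := by
  refine Prod.ext (funext fun v => ?_) ?_
  · have h0 := t.2.1
    have h1 := t.2.2
    simp [cp, pt, not_le.2 h0, not_le.2 h1]
  · have h : (0 : ℝ) < t ∧ (t : ℝ) < 1 := t.2
    simp only [cp, pt, chip, h, and_self, dite_true]

lemma cp_zero (G : MGraph V E) (e : E) : cp G e 0 = vert (G.src e) 1 := by
  refine Prod.ext (funext fun v => ?_) ?_
  · simp only [cp, vert, le_refl, and_true, eq_comm]
    norm_num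
  · simp [cp, vert, chip]

lemma cp_one (G : MGraph V E) (e : E) : cp G e 1 = vert (G.tgt e) 1 := by
  refine Prod.ext (funext fun v => ?_) ?_
  · simp only [cp, vert, le_refl, and_true, eq_comm]
    norm_num
  · simp [cp, vert, chip]

/-- two chips at the ends of an edge move towards each other -/
noncomputable def inF (G : MGraph V E) (e : E) (t : ℝ) : RatFun G where
  val _ := 0
  slope := Pi.single e (if 0 < t ∧ t < 1 then -1 else 0)
  bend := Pi.single e (chip t + chip (1 - t))
  closes := by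
    intro e'
    change _ = _ + _ + ws (fun t => 1 - (t : ℝ)) _
    by_cases h : e' = e
    · subst h
      rw [Pi.single_eq_same, Pi.single_eq_same, ws_add, ws_chip (fun t => 1 - t),
        ws_chip (fun t => 1 - t)]
      by_cases ht : 0 < t ∧ t < 1
      · have ht' : 0 < 1 - t ∧ 1 - t < 1 := ⟨by linarith [ht.2], by linarith [ht.1]⟩
        rw [if_pos ht, if_pos ht, if_pos ht']
        push_cast
        ring
      · have ht' : ¬ (0 < 1 - t ∧ 1 - t < 1) := fun h => ht ⟨by linarith [h.2], by linarith [h.1]⟩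
        rw [if_neg ht, if_neg ht, if_neg ht']
        push_cast
        ring
    · rw [Pi.single_eq_of_ne h, Pi.single_eq_of_ne h, ws_zero]
      push_cast
      ring

lemma div_inF (G : MGraph V E) (e : E) (t : ℝ) (h0 : 0 ≤ t) (h1 : t ≤ 1) :
    vert (G.src e) 1 + vert (G.tgt e) 1 + (inF G e t).div = cp G e t + cp G e (1 - t) := by
  have hne := G.ne e
  refine Prod.ext (funext fun v => ?_) (funext fun e' => ?_)
  · simp only [Prod.fst_add, Pi.add_apply, div_fst]
    have h2 : inc G (inF G e t).slope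
        (fun e'' => -((inF G e t).slope e'' + tot ((inF G e t).bend e''))) v =
        (if G.src e = v then (if 0 < t ∧ t < 1 then -1 else 0) else 0) +
        (if G.tgt e = v then (if 0 < t ∧ t < 1 then -1 else 0) else 0) := by
      unfold inc
      rw [Finset.sum_eq_single e]
      · simp only [inF, Pi.single_eq_same, tot_add, tot_chip]
        by_cases ht : 0 < t ∧ t < 1
        · have ht' : 0 < 1 - t ∧ 1 - t < 1 := ⟨by linarith [ht.2], by linarith [ht.1]⟩
          simp only [ht, ht', and_self, if_true]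
          split_ifs <;> norm_num
        · have ht' : ¬ (0 < 1 - t ∧ 1 - t < 1) :=
            fun h => ht ⟨by linarith [h.2], by linarith [h.1]⟩
          simp only [ht, ht', if_false]
          split_ifs <;> norm_num
      · intro e' _ he'
        simp only [inF, Pi.single_eq_of_ne he', tot_zero]
        split_ifs <;> norm_num
      · simp
    rw [h2]
    simp only [vert, cp]
    have z1 : ¬ ((1 : ℝ) ≤ 0) := by norm_num
    rcases eq_or_lt_of_le h0 with h | h
    · subst h
      by_cases e1 : G.src e = v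
      · subst e1
        simp [hne, hne.symm, z1]
      · by_cases e2 : G.tgt e = v
        · subst e2
          simp [hne, hne.symm, z1]
        · have e3 : v ≠ G.src e := fun h => e1 h.symm
          have e4 : v ≠ G.tgt e := fun h => e2 h.symm
          simp [e1, e2, e3, e4]
    · rcases eq_or_lt_of_le h1 with h' | h'
      · subst h'
        by_cases e1 : G.src e = v
        · subst e1
          simp [hne, hne.symm, z1]
        · by_cases e2 : G.tgt e = v
          · subst e2
            simp [hne, hne.symm, z1]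
          · have e3 : v ≠ G.src e := fun h => e1 h.symm
            have e4 : v ≠ G.tgt e := fun h => e2 h.symm
            simp [e1, e2, e3, e4]
      · have a1 : ¬ t ≤ 0 := not_le.2 h
        have a2 : ¬ 1 ≤ t := not_le.2 h'
        have a3 : ¬ 1 - t ≤ 0 := by linarith
        have a4 : ¬ 1 ≤ 1 - t := by linarith
        simp only [h, h', a1, a2, a3, a4, and_self, and_false, if_true, if_false, add_zero]
        by_cases e1 : G.src e = v
        · subst e1
          simp [hne, hne.symm]
        · by_cases e2 : G.tgt e = v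
          · subst e2
            simp [hne, hne.symm]
          · have e3 : v ≠ G.src e := fun h => e1 h.symm
            have e4 : v ≠ G.tgt e := fun h => e2 h.symm
            simp [e1, e2, e3, e4]
  · simp only [Prod.snd_add, Pi.add_apply, div_snd]
    by_cases h : e' = e
    · subst h
      simp [vert, inF, cp]
    · simp [vert, inF, cp, Pi.single_eq_of_ne h]

end

/-! ### the complete graph -/

lemma lap_ind (n : ℕ) (x v : Fin (n + 1)) :
    (kGraph n).lap (fun i => if i = x then 1 else 0) v = if v = x then (n : ℤ) else -1 := by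
  classical
  rw [lap_eq_inc]
  by_cases hv : v = x
  · subst hv
    rw [if_pos rfl, ← inc_one n v]
    unfold inc
    refine Finset.sum_congr rfl fun e _ => ?_
    have hne : e.1.1 ≠ e.1.2 := ne_of_lt e.2
    simp only [kGraph]
    by_cases h1 : e.1.1 = v
    · have h2 : e.1.2 ≠ v := fun h => hne (h1.trans h.symm)
      simp [h1, h2]
    · by_cases h2 : e.1.2 = v
      · simp [h1, h2]
      · simp [h1, h2]
  · rw [if_neg hv]
    unfold inc
    have hterm : ∀ e : Pair (n + 1), ((if (kGraph n).src e = v then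
        (if (kGraph n).src e = x then (1 : ℤ) else 0) - (if (kGraph n).tgt e = x then 1 else 0)
        else 0) + (if (kGraph n).tgt e = v then (if (kGraph n).tgt e = x then (1 : ℤ) else 0) -
        (if (kGraph n).src e = x then 1 else 0) else 0)) = if e = ed v x hv then -1 else 0 := by
      rintro ⟨⟨i, j⟩, hij⟩
      simp only [kGraph, ed, Subtype.mk.injEq, Prod.mk.injEq] at hij ⊢
      have hne : i ≠ j := ne_of_lt hij
      rcases lt_or_gt_of_ne hv with h | h
      · rw [min_eq_left h.le, max_eq_right h.le]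
        by_cases h1 : i = v
        · subst h1
          by_cases h2 : j = x
          · subst h2
            simp [hv, hne.symm]
          · simp [hv, h2, hne.symm]
        · by_cases h2 : j = v
          · subst h2
            have h3 : i ≠ x := fun h4 => by subst h4; exact absurd (hij.trans h) (lt_irrefl _)
            simp [h1, hv, h3]
          · simp [h1, h2]
      · rw [min_eq_right h.le, max_eq_left h.le]
        by_cases h1 : j = v
        · subst h1
          by_cases h2 : i = x
          · subst h2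
            simp [hv, hne]
          · simp [hv, h2, hne]
        · by_cases h2 : i = v
          · subst h2
            have h3 : j ≠ x := fun h4 => by subst h4; exact absurd (hij.trans h) (lt_irrefl _)
            simp [h1, hv, h3]
          · simp [h1, h2]
    rw [Finset.sum_congr rfl fun e _ => hterm e, Finset.sum_ite_eq']
    simp

/-- one chip on every vertex -/
def ones (V E : Type) : MDiv V E := (fun _ => 1, 0)

lemma vert_ones (n : ℕ) (x : Fin (n + 1)) :
    vert x (n + 1) + (ofInt (kGraph n) (fun i => if i = x then 1 else 0)).div =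
      ones (Fin (n + 1)) (Pair (n + 1)) := by
  rw [div_ofInt]
  refine Prod.ext (funext fun v => ?_) ?_
  · simp only [vert, ones, Prod.fst_add, Pi.add_apply, lap_ind]
    split_ifs <;> ring
  · simp [vert, ones]

/-- all chips move from the vertex 0 to the vertex x -/
lemma vert_move (n : ℕ) (x : Fin (n + 1)) : ∃ f : RatFun (kGraph n),
    (vert 0 (n + 1) : MDiv (Fin (n + 1)) (Pair (n + 1))) + f.div = vert x (n + 1) := by
  refine ⟨(ofInt (kGraph n) (fun i => if i = 0 then 1 else 0)).add
    (ofInt (kGraph n) (fun i => if i = x then 1 else 0)).neg, ?_⟩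
  rw [div_add, div_neg, ← add_assoc, vert_ones, ← vert_ones n x]
  abel

lemma star_diff' (n : ℕ) (x : Fin (n + 1)) (e₀ e₁ : Pair (n + 1)) (a c : ℝ) (ha : 0 ≤ a)
    (hac : a ≤ c) (hc : c ≤ 1) (hx : e₀.1.1 = x ∨ e₀.1.2 = x) (hx₁ : e₁.1.1 = x ∨ e₁.1.2 = x)
    (hne : e₁ ≠ e₀) : ∃ g : RatFun (kGraph n),
    0 ≤ vert x (n + 1) + g.div - (cp (kGraph n) e₀ (pos (decide (e₀.1.1 = x)) a) +
        cp (kGraph n) e₁ (pos (decide (e₁.1.1 = x)) c)) := by
  obtain ⟨b, rfl⟩ : ∃ b, c = a + b := ⟨c - a, by ring⟩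
  exact ⟨_, star_diff n x e₀ e₁ a b ha (by linarith) hc hx hx₁ hne⟩

/-- two chips can be moved to any two points of edges -/
theorem cover_two (n : ℕ) (e₁ e₂ : Pair (n + 1)) (t₁ t₂ : ℝ) (h₁ : 0 ≤ t₁) (h₁' : t₁ ≤ 1)
    (h₂ : 0 ≤ t₂) (h₂' : t₂ ≤ 1) : ∃ f : RatFun (kGraph n),
      0 ≤ vert 0 (n + 1) + f.div - (cp (kGraph n) e₁ t₁ + cp (kGraph n) e₂ t₂) := by
  have key : ∀ (x : Fin (n + 1)) (g : RatFun (kGraph n)),
      0 ≤ vert x (n + 1) + g.div - (cp (kGraph n) e₁ t₁ + cp (kGraph n) e₂ t₂) →
      ∃ f : RatFun (kGraph n),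
        0 ≤ vert 0 (n + 1) + f.div - (cp (kGraph n) e₁ t₁ + cp (kGraph n) e₂ t₂) := by
    intro x g hg
    obtain ⟨f, hf⟩ := vert_move n x
    exact ⟨f.add g, by rw [div_add, ← add_assoc, hf]; exact hg⟩
  -- a common end
  have hcommon : ∀ x, (e₁.1.1 = x ∨ e₁.1.2 = x) → (e₂.1.1 = x ∨ e₂.1.2 = x) → e₁ ≠ e₂ →
      ∃ f : RatFun (kGraph n),
        0 ≤ vert 0 (n + 1) + f.div - (cp (kGraph n) e₁ t₁ + cp (kGraph n) e₂ t₂) := by
    intro x hx₁ hx₂ hne
    have hpos : ∀ (o : Bool) (t : ℝ), pos o (pos o t) = t := by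
      intro o t
      cases o <;> simp [pos]
    have hpos0 : ∀ (o : Bool) (t : ℝ), 0 ≤ t → t ≤ 1 → 0 ≤ pos o t ∧ pos o t ≤ 1 := by
      intro o t h h'
      cases o
      · simp only [pos, Bool.false_eq_true, if_false]
        constructor <;> linarith
      · simp [pos, h, h']
    set d₁ := pos (decide (e₁.1.1 = x)) t₁ with hd₁
    set d₂ := pos (decide (e₂.1.1 = x)) t₂ with hd₂
    have b₁ := hpos0 (decide (e₁.1.1 = x)) t₁ h₁ h₁'
    have b₂ := hpos0 (decide (e₂.1.1 = x)) t₂ h₂ h₂'
    rw [← hd₁] at b₁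
    rw [← hd₂] at b₂
    have p₁ : pos (decide (e₁.1.1 = x)) d₁ = t₁ := hpos _ _
    have p₂ : pos (decide (e₂.1.1 = x)) d₂ = t₂ := hpos _ _
    rcases le_total d₁ d₂ with h | h
    · obtain ⟨g, hg⟩ := star_diff' n x e₁ e₂ d₁ d₂ b₁.1 h b₂.2 hx₁ hx₂ (Ne.symm hne)
      rw [p₁, p₂] at hg
      exact key x g hg
    · obtain ⟨g, hg⟩ := star_diff' n x e₂ e₁ d₂ d₁ b₂.1 h b₁.2 hx₂ hx₁ hne
      rw [p₁, p₂, add_comm (cp (kGraph n) e₂ t₂)] at hg
      exact key x g hg
  by_cases he : e₁ = e₂
  · subst he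
    have hne : e₁.1.1 ≠ e₁.1.2 := ne_of_lt e₁.2
    rcases le_total (t₁ + t₂) 1 with h | h
    · refine key e₁.1.1 (starF n e₁.1.1 e₁ t₁ t₂ h₁ h₂ h (Or.inl rfl)) ?_
      have := star_same n e₁.1.1 e₁ t₁ t₂ h₁ h₂ h (Or.inl rfl)
      simpa only [decide_true, pos, if_true] using this
    · refine key e₁.1.2 (starF n e₁.1.2 e₁ (1 - t₁) (1 - t₂) (by linarith) (by linarith)
        (by linarith) (Or.inr rfl)) ?_
      have := star_same n e₁.1.2 e₁ (1 - t₁) (1 - t₂) (by linarith) (by linarith)
        (by linarith) (Or.inr rfl)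
      simpa only [hne, decide_false, pos, Bool.false_eq_true, if_false, sub_sub_cancel] using this
  · by_cases c1 : e₁.1.1 = e₂.1.1
    · exact hcommon e₁.1.1 (Or.inl rfl) (Or.inl c1.symm) he
    by_cases c2 : e₁.1.1 = e₂.1.2
    · exact hcommon e₁.1.1 (Or.inl rfl) (Or.inr c2.symm) he
    by_cases c3 : e₁.1.2 = e₂.1.1
    · exact hcommon e₁.1.2 (Or.inr rfl) (Or.inl c3.symm) he
    by_cases c4 : e₁.1.2 = e₂.1.2
    · exact hcommon e₁.1.2 (Or.inr rfl) (Or.inr c4.symm) he
    -- disjoint edges
    refine ⟨((ofInt (kGraph n) (fun i => if i = 0 then 1 else 0)).add (inF (kGraph n) e₁ t₁)).add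
      (inF (kGraph n) e₂ t₂), ?_⟩
    rw [div_add, div_add, ← add_assoc, ← add_assoc, vert_ones]
    have i₁ := div_inF (kGraph n) e₁ t₁ h₁ h₁'
    have i₂ := div_inF (kGraph n) e₂ t₂ h₂ h₂'
    have e3 : ones (Fin (n + 1)) (Pair (n + 1)) + (inF (kGraph n) e₁ t₁).div +
        (inF (kGraph n) e₂ t₂).div - (cp (kGraph n) e₁ t₁ + cp (kGraph n) e₂ t₂) =
        (ones (Fin (n + 1)) (Pair (n + 1)) - (vert e₁.1.1 1 + vert e₁.1.2 1 + vert e₂.1.1 1 +
          vert e₂.1.2 1)) + (cp (kGraph n) e₁ (1 - t₁) + cp (kGraph n) e₂ (1 - t₂)) := by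
      have j₁ : (inF (kGraph n) e₁ t₁).div = cp (kGraph n) e₁ t₁ + cp (kGraph n) e₁ (1 - t₁) -
          (vert e₁.1.1 1 + vert e₁.1.2 1) := by
        rw [← i₁]
        simp only [kGraph]
        abel
      have j₂ : (inF (kGraph n) e₂ t₂).div = cp (kGraph n) e₂ t₂ + cp (kGraph n) e₂ (1 - t₂) -
          (vert e₂.1.1 1 + vert e₂.1.2 1) := by
        rw [← i₂]
        simp only [kGraph]
        abel
      rw [j₁, j₂]
      abel
    rw [e3]
    refine add_nonneg ?_ (add_nonneg (cp_nonneg _ _ _) (cp_nonneg _ _ _))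
    have n1 : e₁.1.1 ≠ e₁.1.2 := ne_of_lt e₁.2
    have n2 : e₂.1.1 ≠ e₂.1.2 := ne_of_lt e₂.2
    refine ⟨fun v => ?_, fun e => ?_⟩
    · simp only [ones, vert, Prod.fst_sub, Prod.fst_add, Pi.sub_apply, Pi.add_apply, Prod.fst_zero,
        Pi.zero_apply]
      by_cases a1 : v = e₁.1.1
      · have a2 : v ≠ e₁.1.2 := fun h => n1 (a1.symm.trans h)
        have a3 : v ≠ e₂.1.1 := fun h => c1 (a1.symm.trans h)
        have a4 : v ≠ e₂.1.2 := fun h => c2 (a1.symm.trans h)
        rw [if_pos a1, if_neg a2, if_neg a3, if_neg a4]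
        norm_num
      by_cases a2 : v = e₁.1.2
      · have a3 : v ≠ e₂.1.1 := fun h => c3 (a2.symm.trans h)
        have a4 : v ≠ e₂.1.2 := fun h => c4 (a2.symm.trans h)
        rw [if_neg a1, if_pos a2, if_neg a3, if_neg a4]
        norm_num
      by_cases a3 : v = e₂.1.1
      · have a4 : v ≠ e₂.1.2 := fun h => n2 (a3.symm.trans h)
        rw [if_neg a1, if_neg a2, if_pos a3, if_neg a4]
        norm_num
      rw [if_neg a1, if_neg a2, if_neg a3]
      split_ifs <;> norm_num
    · simp [ones, vert]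

/-- every point of the complete graph is on an edge -/
lemma pt_eq_cp (n : ℕ) (hn : 1 ≤ n) (q : Fin (n + 1) ⊕ (Pair (n + 1) × Ival)) :
    ∃ (e : Pair (n + 1)) (t : ℝ), 0 ≤ t ∧ t ≤ 1 ∧ pt q = cp (kGraph n) e t := by
  rcases q with v | ⟨e, t⟩
  · by_cases hv : v = 0
    · subst hv
      refine ⟨⟨(0, ⟨1, by omega⟩), by rw [Fin.lt_def]; simp⟩, 0, le_rfl, by norm_num, ?_⟩
      rw [cp_zero]
      rfl
    · refine ⟨⟨(0, v), Fin.pos_of_ne_zero hv⟩, 1, by norm_num, le_rfl, ?_⟩
      rw [cp_one]
      rfl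
  · exact ⟨e, t, t.2.1.le, t.2.2.le, (cp_inner _ _ _).symm⟩

theorem cover_pt_two (n : ℕ) (hn : 1 ≤ n) (q q' : Fin (n + 1) ⊕ (Pair (n + 1) × Ival)) :
    ∃ f : RatFun (kGraph n), 0 ≤ vert 0 (n + 1) + f.div - (pt q + pt q') := by
  obtain ⟨e, t, h, h', hq⟩ := pt_eq_cp n hn q
  obtain ⟨e', t', i, i', hq'⟩ := pt_eq_cp n hn q'
  rw [hq, hq']
  exact cover_two n e e' t t' h h' i i'

theorem cover_pt (n : ℕ) (hn : 1 ≤ n) (q : Fin (n + 1) ⊕ (Pair (n + 1) × Ival)) :
    ∃ f : RatFun (kGraph n), 0 ≤ vert 0 n + f.div - pt q := by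
  obtain ⟨f, hf⟩ := cover_pt_two n hn q (Sum.inl 0)
  refine ⟨f, ?_⟩
  have e : (vert 0 n + f.div - pt q : MDiv (Fin (n + 1)) (Pair (n + 1))) =
      vert 0 (n + 1) + f.div - (pt q + pt (Sum.inl 0)) := by
    rw [vert_add]
    simp only [pt]
    abel
  rw [e]
  exact hf

end Pool.Agent.R11.MetGon
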