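import Pool.Agent.R11.MetDefs

/-!
# Complete graphs and one-vertex unions
-/

set_option autoImplicit false
set_option linter.unusedSectionVars false

namespace Pool.Agent.R11.MetGon

open Finset Pool.Agent.H997R3.Gon Pool.Agent.H997R3.Gon.Net

/-- the complete graph on `n + 1` vertices; every edge is directed to its larger end -/
def kGraph (n : ℕ) : MGraph (Fin (n + 1)) (Pair (n + 1)) where
  src e := e.1.1
  tgt e := e.1.2
  ne e := ne_of_lt e.2

/-- the edge joining two vertices -/
def ed {n : ℕ} (i j : Fin (n + 1)) (h : i ≠ j) : Pair (n + 1) :=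
  ⟨(min i j, max i j), by
    rcases lt_or_gt_of_ne h with h | h
    · rw [min_eq_left h.le, max_eq_right h.le]
      exact h
    · rw [min_eq_right h.le, max_eq_left h.le]
      exact h⟩

lemma cut_count (n : ℕ) (B : Fin (n + 1) → Prop) [DecidablePred B] (x y : Fin (n + 1)) (hx : B x)
    (hy : ¬ B y) :
    (n : ℤ) ≤ ∑ e : Pair (n + 1), (if (B e.1.1 ↔ B e.1.2) then (0 : ℤ) else 1) := by
  classical
  set S := (Finset.univ.filter fun i => B i) with hS
  set S' := (Finset.univ.filter fun i => ¬ B i) with hS'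
  have hcard : S.card + S'.card = n + 1 := by
    rw [hS, hS', Finset.card_filter_add_card_filter_not]
    simp
  have h1 : 1 ≤ S.card := Finset.card_pos.2 ⟨x, by simp [hS, hx]⟩
  have h2 : 1 ≤ S'.card := Finset.card_pos.2 ⟨y, by simp [hS', hy]⟩
  have h3 : n ≤ S.card * S'.card := by nlinarith
  have h4 : (∑ e : Pair (n + 1), (if (B e.1.1 ↔ B e.1.2) then (0 : ℤ) else 1)) =
      ((Finset.univ.filter fun e : Pair (n + 1) => ¬ (B e.1.1 ↔ B e.1.2)).card : ℤ) := by
    rw [Finset.card_filter]
    push_cast
    refine Finset.sum_congr rfl fun e _ => ?_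
    by_cases h : (B e.1.1 ↔ B e.1.2) <;> simp [h]
  rw [h4]
  have hne : ∀ p : Fin (n + 1) × Fin (n + 1), p ∈ S ×ˢ S' → p.1 ≠ p.2 := by
    rintro ⟨i, j⟩ hp heq
    simp only [hS, hS', mem_product, mem_filter, mem_univ, true_and] at hp heq
    rw [heq] at hp
    exact hp.2 hp.1
  have h5 : (S ×ˢ S').card ≤
      (Finset.univ.filter fun e : Pair (n + 1) => ¬ (B e.1.1 ↔ B e.1.2)).card := by
    refine Finset.card_le_card_of_injOn
      (fun p => if h : p.1 ≠ p.2 then ed p.1 p.2 h else ed x y (fun h => hy (h ▸ hx))) ?_ ?_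
    · rintro ⟨i, j⟩ hp
      have hij := hne _ hp
      simp only [hS, hS', coe_product, Set.mem_prod, mem_coe, mem_filter, mem_univ,
        true_and] at hp
      simp only at hij
      simp only [ne_eq, hij, not_false_eq_true, dite_true, coe_filter, mem_univ, true_and,
        Set.mem_ofPred_eq, ed]
      rcases lt_or_gt_of_ne hij with h | h
      · rw [min_eq_left h.le, max_eq_right h.le]
        tauto
      · rw [min_eq_right h.le, max_eq_left h.le]
        tauto
    · rintro ⟨i, j⟩ hp ⟨i', j'⟩ hp' heq
      have hij := hne _ hp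
      have hij' := hne _ hp'
      simp only [hS, hS', coe_product, Set.mem_prod, mem_coe, mem_filter, mem_univ,
        true_and] at hp hp'
      simp only at hij hij'
      simp only [ne_eq, hij, hij', not_false_eq_true, dite_true, ed, Subtype.mk.injEq,
        Prod.mk.injEq] at heq
      rcases lt_or_gt_of_ne hij with h | h <;> rcases lt_or_gt_of_ne hij' with h' | h'
      · rw [min_eq_left h.le, max_eq_right h.le, min_eq_left h'.le, max_eq_right h'.le] at heq
        rw [heq.1, heq.2]
      · rw [min_eq_left h.le, max_eq_right h.le, min_eq_right h'.le, max_eq_left h'.le] at heq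
        exfalso
        rw [heq.1] at hp
        exact hp'.2 hp.1
      · rw [min_eq_right h.le, max_eq_left h.le, min_eq_left h'.le, max_eq_right h'.le] at heq
        exfalso
        rw [heq.2] at hp
        exact hp'.2 hp.1
      · rw [min_eq_right h.le, max_eq_left h.le, min_eq_right h'.le, max_eq_left h'.le] at heq
        rw [heq.1, heq.2]
  rw [Finset.card_product] at h5
  exact_mod_cast h3.trans h5

/-- degrees in the complete graph -/
lemma inc_one (n : ℕ) (x : Fin (n + 1)) : inc (kGraph n) (fun _ => 1) (fun _ => 1) x = n := by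
  classical
  unfold inc
  have h1 : ∀ e : Pair (n + 1), ((if (kGraph n).src e = x then (1 : ℤ) else 0) +
      (if (kGraph n).tgt e = x then (1 : ℤ) else 0)) =
      (if ((e.1.1 = x) ↔ (e.1.2 = x)) then (0 : ℤ) else 1) := by
    rintro ⟨⟨i, j⟩, hij⟩
    simp only [kGraph] at hij ⊢
    by_cases h1 : i = x <;> by_cases h2 : j = x
    · subst h1
      subst h2
      exact absurd hij (lt_irrefl _)
    · simp [h1, h2]
    · simp [h1, h2]
    · simp [h1, h2]
  rw [Finset.sum_congr rfl fun e _ => h1 e]
  have h4 : (∑ e : Pair (n + 1), (if ((e.1.1 = x) ↔ (e.1.2 = x)) then (0 : ℤ) else 1)) =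
      ((Finset.univ.filter fun e : Pair (n + 1) => ¬ ((e.1.1 = x) ↔ (e.1.2 = x))).card : ℤ) := by
    rw [Finset.card_filter]
    push_cast
    refine Finset.sum_congr rfl fun e _ => ?_
    by_cases h : ((e.1.1 = x) ↔ (e.1.2 = x)) <;> simp [h]
  rw [h4]
  have h5 : (Finset.univ.filter fun e : Pair (n + 1) => ¬ ((e.1.1 = x) ↔ (e.1.2 = x))).card =
      (Finset.univ.erase x).card := by
    symm
    refine Finset.card_bij (fun y hy => ed x y (Ne.symm (Finset.ne_of_mem_erase hy))) ?_ ?_ ?_
    · intro y hy
      have hyx := Finset.ne_of_mem_erase hy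
      simp only [mem_filter, mem_univ, true_and, ed]
      rcases lt_or_gt_of_ne hyx with h | h
      · rw [min_eq_right h.le, max_eq_left h.le]
        simp [hyx]
      · rw [min_eq_left h.le, max_eq_right h.le]
        simp [hyx]
    · intro y hy y' hy' heq
      have hyx := Finset.ne_of_mem_erase hy
      have hyx' := Finset.ne_of_mem_erase hy'
      simp only [ed, Subtype.mk.injEq, Prod.mk.injEq] at heq
      rcases lt_or_gt_of_ne hyx with h | h <;> rcases lt_or_gt_of_ne hyx' with h' | h'
      · rw [min_eq_right h.le, max_eq_left h.le, min_eq_right h'.le, max_eq_left h'.le] at heq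
        exact heq.1
      · rw [min_eq_right h.le, max_eq_left h.le, min_eq_left h'.le, max_eq_right h'.le] at heq
        exact absurd heq.1 hyx
      · rw [min_eq_left h.le, max_eq_right h.le, min_eq_right h'.le, max_eq_left h'.le] at heq
        exact absurd heq.2 hyx
      · rw [min_eq_left h.le, max_eq_right h.le, min_eq_left h'.le, max_eq_right h'.le] at heq
        exact heq.2
    · rintro ⟨⟨i, j⟩, hij⟩ he
      simp only [mem_filter, mem_univ, true_and] at he
      simp only at hij
      by_cases h1 : i = x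
      · subst h1
        refine ⟨j, Finset.mem_erase.2 ⟨ne_of_gt hij, mem_univ _⟩, ?_⟩
        simp only [ed, Subtype.mk.injEq, Prod.mk.injEq]
        exact ⟨min_eq_left hij.le, max_eq_right hij.le⟩
      · have h2 : j = x := by tauto
        subst h2
        refine ⟨i, Finset.mem_erase.2 ⟨ne_of_lt hij, mem_univ _⟩, ?_⟩
        simp only [ed, Subtype.mk.injEq, Prod.mk.injEq]
        exact ⟨min_eq_right hij.le, max_eq_left hij.le⟩
  rw [h5, Finset.card_erase_of_mem (mem_univ _)]
  simp

/-! ### The union of a graph with a complete graph, with one common vertex -/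

variable {V E : Type}

/-- the vertices of the complete graph inside the union -/
def kap (p : V) {n : ℕ} (i : Fin (n + 1)) : V ⊕ Fin n :=
  Fin.cases (Sum.inl p) (fun k => Sum.inr k) i

@[simp] lemma kap_zero (p : V) {n : ℕ} : kap p (0 : Fin (n + 1)) = Sum.inl p := rfl

@[simp] lemma kap_succ (p : V) {n : ℕ} (k : Fin n) : kap p k.succ = Sum.inr k := rfl

lemma kap_injective (p : V) (n : ℕ) : Function.Injective (kap p (n := n)) := by
  intro i j h
  induction i using Fin.cases with
  | zero =>
    induction j using Fin.cases with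
    | zero => rfl
    | succ j => simp at h
  | succ i =>
    induction j using Fin.cases with
    | zero => simp at h
    | succ j =>
      simp only [kap_succ, Sum.inr.injEq] at h
      rw [h]

/-- The union of the multigraph `G` and of a complete graph on `n + 1` vertices which have exactly
the vertex `p` of `G` in common: `n` new vertices are added to `G`, and any two different elements
of the set of `p` and the new vertices are joined by one new edge. -/
def wedge (G : MGraph V E) (p : V) (n : ℕ) : MGraph (V ⊕ Fin n) (E ⊕ Pair (n + 1)) where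
  src := Sum.elim (fun e => Sum.inl (G.src e)) (fun e => kap p e.1.1)
  tgt := Sum.elim (fun e => Sum.inl (G.tgt e)) (fun e => kap p e.1.2)
  ne := by
    rintro (e | e)
    · simp only [Sum.elim_inl, ne_eq, Sum.inl.injEq]
      exact G.ne e
    · simp only [Sum.elim_inr]
      intro h
      exact ne_of_lt e.2 (kap_injective p n h)

lemma kap_eq_inl (p : V) {n : ℕ} (i : Fin (n + 1)) (v : V) :
    kap p i = Sum.inl v ↔ i = 0 ∧ v = p := by
  induction i using Fin.cases with
  | zero => simp [eq_comm]
  | succ i => simp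

lemma kap_eq_inr (p : V) {n : ℕ} (i : Fin (n + 1)) (k : Fin n) :
    kap p i = Sum.inr k ↔ i = k.succ := by
  induction i using Fin.cases with
  | zero => simp [eq_comm]
  | succ i => simp

section

variable [Fintype V] [DecidableEq V] [Fintype E] (G : MGraph V E) (p : V) (n : ℕ)

lemma inc_wedge_inl (a b : E ⊕ Pair (n + 1) → ℤ) (v : V) :
    inc (wedge G p n) a b (Sum.inl v) = inc G (fun e => a (Sum.inl e)) (fun e => b (Sum.inl e)) v +
      if v = p then inc (kGraph n) (fun e => a (Sum.inr e)) (fun e => b (Sum.inr e)) 0 else 0 := by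
  unfold inc
  rw [Fintype.sum_sum_type]
  simp only [wedge, Sum.elim_inl, Sum.elim_inr, Sum.inl.injEq, kap_eq_inl]
  congr 1
  by_cases h : v = p
  · simp only [h, and_true, kGraph, if_true]
    rfl
  · simp [h]

lemma inc_wedge_inr (a b : E ⊕ Pair (n + 1) → ℤ) (k : Fin n) :
    inc (wedge G p n) a b (Sum.inr k) =
      inc (kGraph n) (fun e => a (Sum.inr e)) (fun e => b (Sum.inr e)) k.succ := by
  unfold inc
  rw [Fintype.sum_sum_type]
  simp only [wedge, Sum.elim_inl, Sum.elim_inr, reduceCtorEq, if_false, kap_eq_inr]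
  simp only [kGraph, add_zero, Finset.sum_const_zero, zero_add]
  rfl

lemma lap_eq_inc {V E : Type} [Fintype V] [DecidableEq V] [Fintype E] (G : MGraph V E) (f : V → ℤ)
    (v : V) : G.lap f v =
      inc G (fun e => f (G.src e) - f (G.tgt e)) (fun e => f (G.tgt e) - f (G.src e)) v := by
  unfold MGraph.lap inc
  refine Finset.sum_congr rfl fun e _ => ?_
  congr 1
  · by_cases h : G.src e = v
    · simp [h]
    · simp [h]
  · by_cases h : G.tgt e = v
    · simp [h]
    · simp [h]

lemma lap_wedge_inl (f : V ⊕ Fin n → ℤ) (v : V) :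
    (wedge G p n).lap f (Sum.inl v) = G.lap (fun w => f (Sum.inl w)) v +
      if v = p then (kGraph n).lap (fun i => f (kap p i)) 0 else 0 := by
  simp only [lap_eq_inc]
  rw [inc_wedge_inl]
  rfl

lemma lap_wedge_inr (f : V ⊕ Fin n → ℤ) (k : Fin n) :
    (wedge G p n).lap f (Sum.inr k) = (kGraph n).lap (fun i => f (kap p i)) k.succ := by
  simp only [lap_eq_inc]
  rw [inc_wedge_inr]
  rfl

lemma sum_lap {V E : Type} [Fintype V] [DecidableEq V] [Fintype E] (G : MGraph V E) (f : V → ℤ) :
    ∑ v, G.lap f v = 0 := by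
  have h := sum_mul_inc G (fun e => f (G.src e) - f (G.tgt e)) (fun e => f (G.tgt e) - f (G.src e))
    (fun _ => 1)
  simp only [one_mul] at h
  simp only [lap_eq_inc, h]
  exact Finset.sum_eq_zero fun e _ => by ring

end

/-- the divisor on the union given by divisors on the two parts -/
def glueD [DecidableEq V] (p : V) {n : ℕ} (D₀ : MDiv V E) (D₁ : MDiv (Fin (n + 1)) (Pair (n + 1))) :
    MDiv (V ⊕ Fin n) (E ⊕ Pair (n + 1)) :=
  (Sum.elim (fun v => D₀.1 v + if v = p then D₁.1 0 else 0) (fun k => D₁.1 k.succ),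
    Sum.elim D₀.2 D₁.2)

lemma glueD_add [DecidableEq V] (p : V) {n : ℕ} (D₀ D₀' : MDiv V E)
    (D₁ D₁' : MDiv (Fin (n + 1)) (Pair (n + 1))) :
    glueD p (D₀ + D₀') (D₁ + D₁') = glueD p D₀ D₁ + glueD p D₀' D₁' := by
  refine Prod.ext (funext ?_) (funext ?_)
  · rintro (v | k)
    · simp only [glueD, Prod.fst_add, Pi.add_apply, Sum.elim_inl]
      split_ifs <;> ring
    · simp [glueD]
  · rintro (e | e)
    · simp [glueD]
    · simp [glueD]

lemma glueD_sub [DecidableEq V] (p : V) {n : ℕ} (D₀ D₀' : MDiv V E)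
    (D₁ D₁' : MDiv (Fin (n + 1)) (Pair (n + 1))) :
    glueD p (D₀ - D₀') (D₁ - D₁') = glueD p D₀ D₁ - glueD p D₀' D₁' := by
  have := glueD_add p (D₀ - D₀') D₀' (D₁ - D₁') D₁'
  rw [sub_add_cancel, sub_add_cancel] at this
  rw [this, add_sub_cancel_right]

lemma glueD_nonneg [DecidableEq V] (p : V) {n : ℕ} (D₀ : MDiv V E)
    (D₁ : MDiv (Fin (n + 1)) (Pair (n + 1))) (h₀ : 0 ≤ D₀) (h₁ : 0 ≤ D₁) : 0 ≤ glueD p D₀ D₁ := by
  refine ⟨?_, ?_⟩
  · rintro (v | k)
    · simp only [glueD, Sum.elim_inl]
      have h2 := h₀.1 v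
      have h3 := h₁.1 0
      simp only [Prod.fst_zero, Pi.zero_apply] at h2 h3 ⊢
      split_ifs <;> linarith
    · exact h₁.1 _
  · rintro (e | e)
    · exact h₀.2 e
    · exact h₁.2 e

lemma mdeg_glueD [Fintype V] [DecidableEq V] [Fintype E] (p : V) {n : ℕ} (D₀ : MDiv V E)
    (D₁ : MDiv (Fin (n + 1)) (Pair (n + 1))) : mdeg (glueD p D₀ D₁) = mdeg D₀ + mdeg D₁ := by
  rw [mdeg_eq, mdeg_eq, mdeg_eq, Fintype.sum_sum_type, Fintype.sum_sum_type, Fin.sum_univ_succ]
  simp only [glueD, Sum.elim_inl, Sum.elim_inr, Finset.sum_add_distrib, Finset.sum_ite_eq',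
    mem_univ, if_true]
  ring

/-- the rational function on the union given by rational functions on the two parts -/
def glueF (G : MGraph V E) (p : V) (n : ℕ) (f₀ : RatFun G) (f₁ : RatFun (kGraph n)) :
    RatFun (wedge G p n) where
  val := Sum.elim f₀.val (fun k => f₁.val k.succ - f₁.val 0 + f₀.val p)
  slope := Sum.elim f₀.slope f₁.slope
  bend := Sum.elim f₀.bend f₁.bend
  closes := by
    have hk : ∀ i : Fin (n + 1), (Sum.elim f₀.val (fun k => f₁.val k.succ - f₁.val 0 + f₀.val p) :
        V ⊕ Fin n → ℝ) (kap p i) = f₁.val i - f₁.val 0 + f₀.val p := by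
      intro i
      induction i using Fin.cases with
      | zero => simp
      | succ i => simp
    rintro (e | e)
    · simp only [wedge, Sum.elim_inl]
      exact f₀.closes e
    · have h1 := f₁.closes e
      simp only [wedge, Sum.elim_inr, hk]
      simp only [kGraph] at h1
      rw [h1]
      ring

lemma div_glueF [Fintype V] [DecidableEq V] [Fintype E] (G : MGraph V E) (p : V) (n : ℕ)
    (f₀ : RatFun G) (f₁ : RatFun (kGraph n)) :
    (glueF G p n f₀ f₁).div = glueD p f₀.div f₁.div := by
  refine Prod.ext (funext ?_) rfl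
  rintro (v | k)
  · rw [div_fst, inc_wedge_inl]
    rfl
  · rw [div_fst, inc_wedge_inr]
    rfl

end Pool.Agent.R11.MetGon
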