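import Pool.Agent.R11.MetG

/-!
# Lower bounds for gonalities of one-vertex unions with complete graphs
-/

set_option autoImplicit false
set_option linter.unusedSectionVars false

namespace Pool.Agent.R11.MetGon

open Finset Pool.Agent.H997R3.Gon Pool.Agent.H997R3.Gon.Net

variable {V E : Type}

/-- no configuration with fewer than `n` chips on the side of the complete graph can be moved to
every vertex of this side -/
theorem side_key (n : ℕ) (hn : 1 ≤ n) (A : Fin n → ℤ) (C : Pair (n + 1) → (Ival →₀ ℤ))
    (h : ∀ k : Fin n, ∃ f : RatFun (kGraph n),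
      (∀ j : Fin n, (if j = k then (1 : ℤ) else 0) ≤ A j + f.div.1 j.succ) ∧
      (∀ e, 0 ≤ C e + f.bend e) ∧
      ∑ j, (A j + f.div.1 j.succ) + ∑ e, tot (C e + f.bend e) < n) : False := by
  set D : MDiv (Fin (n + 1)) (Pair (n + 1)) :=
    (Fin.cases (n - 1 - (∑ j, A j) - ∑ e, tot (C e)) A, C) with hD
  have hDs : ∀ j : Fin n, D.1 j.succ = A j := fun j => rfl
  have hD0 : D.1 0 = n - 1 - (∑ j, A j) - ∑ e, tot (C e) := rfl
  have hdeg : mdeg D = n - 1 := by
    have e1 : ∑ j : Fin n, D.1 j.succ = ∑ j, A j := rfl
    have e2 : ∑ e, tot (D.2 e) = ∑ e, tot (C e) := rfl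
    rw [mdeg_eq, Fin.sum_univ_succ, hD0, e1, e2]
    ring
  choose f hf1 hf2 hf3 using h
  have heff : ∀ k, 0 ≤ D + (f k).div := by
    intro k
    refine ⟨fun i => ?_, fun e => ?_⟩
    · simp only [Prod.fst_zero, Pi.zero_apply, Prod.fst_add, Pi.add_apply]
      induction i using Fin.cases with
      | zero =>
        have h1 := mdeg_div (kGraph n) (f k)
        rw [mdeg_eq, Fin.sum_univ_succ] at h1
        have h2 := hf3 k
        simp only [Finset.sum_add_distrib, tot_add] at h2
        rw [hD0]
        simp only [div_snd] at h1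
        linarith
      | succ j =>
        have := hf1 k j
        rw [hDs]
        refine le_trans ?_ this
        split_ifs <;> norm_num
    · exact hf2 k e
  set k₀ : Fin n := ⟨0, by omega⟩ with hk₀
  set B : MDiv (Fin (n + 1)) (Pair (n + 1)) := D + (f k₀).div with hB
  have hB0 : 0 ≤ B := heff k₀
  have hBdeg : mdeg B = n - 1 := by
    rw [hB, mdeg_add, hdeg, mdeg_div]
    ring
  set g : Fin n → RatFun (kGraph n) := fun k => (f k).add (f k₀).neg with hg
  have hBg : ∀ k, B + (g k).div = D + (f k).div := by
    intro k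
    rw [hB, hg]
    simp only
    rw [div_add, div_neg]
    abel
  -- the values at the vertices are equal
  have hval : ∀ k, ∀ i j : Fin (n + 1), (g k).val i = (g k).val j := by
    intro k
    have hlt : ∀ i j : Fin (n + 1), ¬ (g k).val i < (g k).val j := by
      intro i j hij
      have h1 := cut_le (kGraph n) (g k) B hB0 (by rw [hBg]; exact heff k) ((g k).val j)
      have h2 := cut_count n (fun v => (g k).val j ≤ (g k).val v) j i le_rfl (not_le.2 hij)
      simp only [kGraph] at h1
      rw [hBdeg] at h1
      have h3 : (n : ℤ) ≤ n - 1 := by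
        refine h2.trans (le_trans (le_of_eq ?_) h1)
        refine Finset.sum_congr rfl fun e _ => ?_
        congr
      linarith
    intro i j
    exact le_antisymm (not_lt.1 (hlt j i)) (not_lt.1 (hlt i j))
  -- every vertex has a chip, or two chips on an edge
  have hlocal : ∀ k : Fin n, 2 ≤ 2 * B.1 k.succ +
      inc (kGraph n) (fun e => tot (B.2 e)) (fun e => tot (B.2 e)) k.succ := by
    intro k
    have ht : ∀ e, 0 ≤ tot (B.2 e) := fun e => tot_nonneg _ (hB0.2 e)
    have hB1 : 0 ≤ B.1 k.succ := hB0.1 k.succ
    have hinc : 0 ≤ inc (kGraph n) (fun e => tot (B.2 e)) (fun e => tot (B.2 e)) k.succ := by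
      unfold inc
      refine Finset.sum_nonneg fun e _ => ?_
      have := ht e
      split_ifs <;> linarith
    rcases lt_or_ge 0 (B.1 k.succ) with h0 | h0
    · linarith
    have h1 : B.1 k.succ = 0 := le_antisymm h0 hB1
    have h2 : 1 ≤ (B + (g k).div).1 k.succ := by
      rw [hBg]
      have := hf1 k k
      rw [if_pos rfl, ← hDs k] at this
      exact this
    rw [Prod.fst_add, Pi.add_apply, h1, zero_add, div_fst] at h2
    -- some edge gives a positive contribution
    have h3 : ∃ e : Pair (n + 1), 1 ≤ ((if (kGraph n).src e = k.succ then (g k).slope e else 0) +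
        (if (kGraph n).tgt e = k.succ then -((g k).slope e + tot ((g k).bend e)) else 0)) := by
      by_contra hcon
      push Not at hcon
      have h4 : inc (kGraph n) (g k).slope (fun e => -((g k).slope e + tot ((g k).bend e))) k.succ ≤
          0 := by
        unfold inc
        refine Finset.sum_nonpos fun e _ => ?_
        have h5 := hcon e
        refine Int.lt_add_one_iff.1 ?_
        rw [zero_add]
        exact h5
      linarith
    obtain ⟨e, he⟩ := h3
    have hne := (kGraph n).ne e
    have hv : (g k).val ((kGraph n).tgt e) = (g k).val ((kGraph n).src e) := hval k _ _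
    have hB2 : 0 ≤ B.2 e := hB0.2 e
    have hB3 : 0 ≤ B.2 e + (g k).bend e := by
      have := heff k
      rw [← hBg] at this
      exact this.2 e
    have h5 : 2 ≤ tot (B.2 e) ∧ ((kGraph n).src e = k.succ ∨ (kGraph n).tgt e = k.succ) := by
      by_cases c1 : (kGraph n).src e = k.succ
      · have c2 : ¬ (kGraph n).tgt e = k.succ := fun h => hne (c1.trans h.symm)
        rw [if_pos c1, if_neg c2, add_zero] at he
        exact ⟨edge_eq_src (g k) B e hB2 hB3 hv he, Or.inl c1⟩
      · rw [if_neg c1, zero_add] at he
        by_cases c2 : (kGraph n).tgt e = k.succ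
        · rw [if_pos c2] at he
          exact ⟨edge_eq_tgt (g k) B e hB2 hB3 hv he, Or.inr c2⟩
        · rw [if_neg c2] at he
          norm_num at he
    have h6 : 2 ≤ inc (kGraph n) (fun e => tot (B.2 e)) (fun e => tot (B.2 e)) k.succ := by
      unfold inc
      refine le_trans ?_ (Finset.single_le_sum (f := fun e =>
        ((if (kGraph n).src e = k.succ then tot (B.2 e) else 0) +
          (if (kGraph n).tgt e = k.succ then tot (B.2 e) else 0))) (fun e _ => by
            have := ht e
            split_ifs <;> linarith) (mem_univ e))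
      have := ht e
      rcases h5 with ⟨h5, h7 | h7⟩
      · simp only [h7, if_true]
        split_ifs <;> linarith
      · simp only [h7, if_true]
        split_ifs <;> linarith
    linarith
  have hsum := Finset.sum_le_sum fun k (_ : k ∈ (Finset.univ : Finset (Fin n))) => hlocal k
  rw [Finset.sum_add_distrib, ← Finset.mul_sum] at hsum
  simp only [Finset.sum_const, Finset.card_univ, Fintype.card_fin, nsmul_eq_mul] at hsum
  have htot := sum_mul_inc (kGraph n) (fun e => tot (B.2 e)) (fun e => tot (B.2 e)) (fun _ => 1)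
  simp only [one_mul] at htot
  rw [Fin.sum_univ_succ, Finset.sum_add_distrib] at htot
  have hinc0 : 0 ≤ inc (kGraph n) (fun e => tot (B.2 e)) (fun e => tot (B.2 e)) 0 := by
    unfold inc
    refine Finset.sum_nonneg fun e _ => ?_
    have := tot_nonneg _ (hB0.2 e)
    split_ifs <;> linarith
  have hB1 : 0 ≤ B.1 0 := hB0.1 0
  rw [mdeg_eq, Fin.sum_univ_succ] at hBdeg
  linarith

/-- restriction of a rational function to the complete graph -/
def restr (G : MGraph V E) (p : V) (n : ℕ) (f : RatFun (wedge G p n)) : RatFun (kGraph n) where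
  val i := f.val (kap p i)
  slope e := f.slope (Sum.inr e)
  bend e := f.bend (Sum.inr e)
  closes := fun e => f.closes (Sum.inr e)

section

variable [Fintype V] [DecidableEq V] [Fintype E] (G : MGraph V E) (p : V) (n : ℕ)

lemma div_restr (f : RatFun (wedge G p n)) (k : Fin n) :
    (restr G p n f).div.1 k.succ = f.div.1 (Sum.inr k) := by
  rw [div_fst, div_fst, inc_wedge_inr]
  rfl

/-- divisors of small degree on the metric graph of the union do not have positive rank -/
theorem metric_lower [DecidableEq E] (hn : 1 ≤ n) (D : MDiv (V ⊕ Fin n) (E ⊕ Pair (n + 1)))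
    (hdeg : mdeg D < n) (hr : MRankGe (wedge G p n) 1 D) : False := by
  refine side_key n hn (fun k => D.1 (Sum.inr k)) (fun e => D.2 (Sum.inr e)) fun k => ?_
  obtain ⟨f, hf⟩ := hr (pt (Sum.inl (Sum.inr k))) (vert_nonneg _ _ (by norm_num))
    (by rw [mdeg_pt]; norm_num)
  have hf' : 0 ≤ D + f.div := by
    have h1 : (0 : MDiv (V ⊕ Fin n) (E ⊕ Pair (n + 1))) ≤ pt (Sum.inl (Sum.inr k)) :=
      vert_nonneg _ _ (by norm_num)
    have h2 := add_nonneg hf h1
    have h3 : D - pt (Sum.inl (Sum.inr k)) + f.div + pt (Sum.inl (Sum.inr k)) = D + f.div := by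
      abel
    rwa [h3] at h2
  refine ⟨restr G p n f, fun j => ?_, fun e => hf'.2 (Sum.inr e), ?_⟩
  · have h1 := hf.1 (Sum.inr j)
    rw [div_restr]
    simp only [pt, vert, Prod.fst_zero, Pi.zero_apply, Prod.fst_add, Prod.fst_sub, Pi.add_apply,
      Pi.sub_apply, Sum.inr.injEq] at h1
    linarith
  · have h1 : mdeg (D + f.div) < n := by rw [mdeg_add, mdeg_div]; linarith
    rw [mdeg_eq, Fintype.sum_sum_type, Fintype.sum_sum_type] at h1
    have h2 : 0 ≤ ∑ v : V, (D + f.div).1 (Sum.inl v) := Finset.sum_nonneg fun v _ => hf'.1 _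
    have h3 : 0 ≤ ∑ e : E, tot ((D + f.div).2 (Sum.inl e)) :=
      Finset.sum_nonneg fun e _ => tot_nonneg _ (hf'.2 _)
    simp only [div_restr]
    have h4 : ∑ x : Fin n, (D + f.div).1 (Sum.inr x) + ∑ e : Pair (n + 1),
        tot ((D + f.div).2 (Sum.inr e)) < n := by linarith
    exact h4

lemma kap_comp (f : V ⊕ Fin n → ℤ) (k : Fin n) :
    (ofInt (kGraph n) (fun i => f (kap p i))).div.1 k.succ = -(wedge G p n).lap f (Sum.inr k) := by
  rw [div_ofInt, lap_wedge_inr]

/-- divisors of small degree on the union do not have positive rank -/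
theorem graph_lower (hn : 1 ≤ n) (D : V ⊕ Fin n → ℤ)
    (hdeg : ∑ v, D v < n) (hr : GRankGe (wedge G p n) 1 D) : False := by
  refine side_key n hn (fun k => D (Sum.inr k)) (fun e => 0) fun k => ?_
  obtain ⟨f, hf⟩ := hr (Pi.single (Sum.inr k) 1) (by
    intro v
    by_cases h : v = Sum.inr k
    · subst h; simp
    · simp [Pi.single_eq_of_ne h]) (by simp)
  refine ⟨ofInt (kGraph n) (fun i => f (kap p i)), fun j => ?_, fun e => ?_, ?_⟩
  · rw [kap_comp G]
    have h1 := hf (Sum.inr j)
    simp only [Pi.zero_apply, Pi.sub_apply] at h1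
    by_cases h : j = k
    · subst h
      rw [Pi.single_eq_same] at h1
      rw [if_pos rfl]
      linarith
    · have h2 : (Sum.inr j : V ⊕ Fin n) ≠ Sum.inr k := fun h' => h (Sum.inr.inj h')
      rw [Pi.single_eq_of_ne h2] at h1
      rw [if_neg h]
      linarith
  · simp [ofInt]
  · simp only [kap_comp G]
    simp only [ofInt, add_zero, tot_zero, Finset.sum_const_zero]
    have h1 : ∀ v, 0 ≤ D v - (wedge G p n).lap f v := by
      intro v
      have h2 := hf v
      simp only [Pi.zero_apply, Pi.sub_apply] at h2
      have h3 : (0 : ℤ) ≤ (Pi.single (Sum.inr k) 1 : V ⊕ Fin n → ℤ) v := by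
        by_cases h : v = Sum.inr k
        · subst h; simp
        · simp [Pi.single_eq_of_ne h]
      linarith
    have h4 : ∑ v, (D v - (wedge G p n).lap f v) < n := by
      rw [Finset.sum_sub_distrib, sum_lap]
      linarith
    rw [Fintype.sum_sum_type] at h4
    have h5 : 0 ≤ ∑ v : V, (D (Sum.inl v) - (wedge G p n).lap f (Sum.inl v)) :=
      Finset.sum_nonneg fun v _ => h1 _
    have h6 : ∀ k : Fin n, D (Sum.inr k) + -(wedge G p n).lap f (Sum.inr k) =
        D (Sum.inr k) - (wedge G p n).lap f (Sum.inr k) := fun k => by ring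
    simp only [h6]
    linarith

lemma lap_sub (f g : V → ℤ) (v : V) :
    G.lap (fun w => f w - g w) v = G.lap f v - G.lap g v := by
  unfold MGraph.lap
  rw [← Finset.sum_sub_distrib]
  refine Finset.sum_congr rfl fun e _ => ?_
  split_ifs <;> ring

/-- the second gonality of the union is at least the sum of the gonalities -/
theorem graph_lower_two (hn : 1 ≤ n) (m : ℕ) (hG : m < G.gon) (D : V ⊕ Fin n → ℤ)
    (hdeg : ∑ v, D v ≤ n + m) (hr : GRankGe (wedge G p n) 2 D) : False := by
  classical
  -- the worst vertex on the side of the complete graph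
  have hq : ∃ q : Fin n, ∀ h : Fin (n + 1) → ℤ,
      (∀ j : Fin n, (if j = q then (1 : ℤ) else 0) ≤ D (Sum.inr j) - (kGraph n).lap h j.succ) →
      (n : ℤ) ≤ ∑ j : Fin n, (D (Sum.inr j) - (kGraph n).lap h j.succ) := by
    by_contra hcon
    push Not at hcon
    refine side_key n hn (fun k => D (Sum.inr k)) (fun e => 0) fun k => ?_
    obtain ⟨h, h1, h2⟩ := hcon k
    refine ⟨ofInt (kGraph n) h, fun j => ?_, fun e => by simp [ofInt], ?_⟩
    · rw [div_ofInt]
      have := h1 j
      simp only
      linarith
    · simp only [div_ofInt]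
      simp only [ofInt, add_zero, tot_zero, Finset.sum_const_zero]
      have h6 : ∀ k : Fin n, D (Sum.inr k) + -(kGraph n).lap h k.succ =
        D (Sum.inr k) - (kGraph n).lap h k.succ := fun k => by ring
      simp only [h6]
      exact h2
  obtain ⟨q, hq⟩ := hq
  set B : V → ℤ := fun w => D (Sum.inl w) + (if w = p then (m - ∑ w, D (Sum.inl w)) else 0) with hB
  have hBsum : ∑ w, B w = m := by
    simp only [hB, Finset.sum_add_distrib, Finset.sum_ite_eq', mem_univ, if_true]
    ring
  have hrank : ∀ v : V, ∃ f : V → ℤ, ∀ w, 0 ≤ B w - (if w = v then 1 else 0) - G.lap f w := by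
    intro v
    obtain ⟨f, hf⟩ := hr (fun x => (if x = Sum.inl v then 1 else 0) + (if x = Sum.inr q then 1 else 0))
      (by
        intro x
        simp only [Pi.zero_apply]
        split_ifs <;> norm_num) (by
        rw [Finset.sum_add_distrib]
        simp)
    refine ⟨fun w => f (Sum.inl w), fun w => ?_⟩
    have h1 := hf (Sum.inl w)
    simp only [Pi.zero_apply, Pi.sub_apply, lap_wedge_inl, Sum.inl.injEq, reduceCtorEq, if_false,
      add_zero] at h1
    have h2 := hq (fun i => f (kap p i)) (fun j => by
      have h3 := hf (Sum.inr j)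
      simp only [Pi.zero_apply, Pi.sub_apply, lap_wedge_inr, Sum.inr.injEq, reduceCtorEq, if_false,
        zero_add] at h3
      linarith)
    have h4 := sum_lap (kGraph n) (fun i => f (kap p i))
    rw [Fin.sum_univ_succ] at h4
    rw [Finset.sum_sub_distrib] at h2
    rw [Fintype.sum_sum_type] at hdeg
    simp only [hB]
    by_cases hw : w = p
    · simp only [hw, if_true] at h1 ⊢
      linarith
    · simp only [hw, if_false, add_zero] at h1 ⊢
      linarith
  choose f hf using hrank
  have hle : G.gon ≤ m := by
    refine G.gon_le (fun w => B w - G.lap (f p) w) ⟨fun w => ?_, fun v => ?_⟩ m ?_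
    · have := hf p w
      split_ifs at this <;> linarith
    · refine ⟨fun w => f v w - f p w, fun w => ?_⟩
      rw [lap_sub]
      have := hf v w
      linarith
    · rw [Finset.sum_sub_distrib, sum_lap, hBsum]
      simp
  omega

end

end Pool.Agent.R11.MetGon
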