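import Pool.Agent.R11.MetUp

/-!
# Second gonalities of graphs and metric graphs
-/

set_option autoImplicit false
set_option linter.unusedSectionVars false

namespace Pool.Agent.R11.MetGon

open Finset Pool.Agent.H997R3.Gon Pool.Agent.H997R3.Gon.Net

variable {V E : Type}

lemma sub_vert_nonneg [DecidableEq V] (D : MDiv V E) (hD : 0 ≤ D) (v : V) (h : 1 ≤ D.1 v) :
    0 ≤ D - vert v 1 := by
  refine ⟨fun w => ?_, fun e => ?_⟩
  · have h1 : 0 ≤ D.1 w := hD.1 w
    simp only [vert, Prod.fst_sub, Pi.sub_apply, Prod.fst_zero, Pi.zero_apply]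
    split_ifs with hw
    · subst hw
      linarith
    · linarith
  · have h1 := hD.2 e
    simpa [vert] using h1

lemma sub_inner_nonneg [DecidableEq V] [DecidableEq E] (D : MDiv V E) (hD : 0 ≤ D) (e : E)
    (t : Ival) (h : D.2 e = Finsupp.single t 1) : 0 ≤ D - pt (Sum.inr (e, t)) := by
  refine ⟨fun w => ?_, fun e' => ?_⟩
  · have h1 : 0 ≤ D.1 w := hD.1 w
    simpa [pt] using h1
  · simp only [pt, Prod.snd_sub, Pi.sub_apply, Prod.snd_zero, Pi.zero_apply]
    by_cases he : e' = e
    · subst he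
      rw [Pi.single_eq_same, h, sub_self]
    · rw [Pi.single_eq_of_ne he, sub_zero]
      exact hD.2 e'

/-- the chips at the midpoints of the arcs of a complete metric network cover every point -/
theorem cover_net {n : ℕ} (L : Fin n → Fin n → ℕ) (hL : ∀ u v, u < v → 1 ≤ L u v) (M : ℕ)
    (hs : ∀ u v, L u v = L v u) (hd : ∀ u, L u u = 0) (ht : ∀ u v w, L u w ≤ L u v + L v w)
    (q : (complete L hL).Vert ⊕ ((complete L hL).Edge M × Ival)) :
    ∃ f : RatFun ((complete L hL).graph M),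
      0 ≤ netD (complete L hL) M (fun e => (L e.1.1 e.1.2 : ℝ) / 2) + f.div - pt q := by
  have hlen : ∀ e : Pair n, (((complete L hL).len e : ℕ) : ℝ) = (L e.1.1 e.1.2 : ℝ) := fun e => rfl
  have htR : ∀ u v w, (L u w : ℝ) ≤ L u v + L v w := fun u v w => by exact_mod_cast ht u v w
  have hsR : ∀ u v, (L u v : ℝ) = L v u := fun u v => by rw [hs u v]
  have hdR : ∀ u, (L u u : ℝ) = 0 := fun u => by rw [hd u]; simp
  -- moving along a potential
  have hmove : ∀ F : Fin n → ℝ, (∀ u v, F u - F v ≤ (L u v : ℝ) / 2) →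
      (∀ e : Pair n, 0 ≤ (L e.1.1 e.1.2 : ℝ) / 2 + F e.1.1 - F e.1.2 ∧
        (L e.1.1 e.1.2 : ℝ) / 2 + F e.1.1 - F e.1.2 ≤ L e.1.1 e.1.2) ∧
      ∃ f : RatFun ((complete L hL).graph M), netD (complete L hL) M (fun e => (L e.1.1 e.1.2 : ℝ) / 2) + f.div =
        netD (complete L hL) M (fun e => (L e.1.1 e.1.2 : ℝ) / 2 + F e.1.1 - F e.1.2) := by
    intro F hF
    have h1 : ∀ e : Pair n, 0 ≤ (L e.1.1 e.1.2 : ℝ) / 2 + F e.1.1 - F e.1.2 ∧
        (L e.1.1 e.1.2 : ℝ) / 2 + F e.1.1 - F e.1.2 ≤ L e.1.1 e.1.2 := by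
      intro e
      have a1 := hF e.1.1 e.1.2
      have a2 := hF e.1.2 e.1.1
      rw [hsR e.1.2 e.1.1] at a2
      constructor <;> linarith
    refine ⟨h1, _, div_netF (complete L hL) M F _ _ (fun e => ?_) (fun e => ?_) (fun e => rfl)⟩
    · rw [hlen]
      have : (0 : ℝ) ≤ L e.1.1 e.1.2 := by positivity
      constructor <;> linarith
    · rw [hlen]
      exact h1 e
  -- positions on one arc
  have hpos : ∀ (e : Pair n) (y : ℝ), 0 ≤ y → y ≤ L e.1.1 e.1.2 →
      ∃ F : Fin n → ℝ, (∀ u v, F u - F v ≤ (L u v : ℝ) / 2) ∧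
        (L e.1.1 e.1.2 : ℝ) / 2 + F e.1.1 - F e.1.2 = y := by
    intro e y h0 h1
    have hLe : (1 : ℝ) ≤ L e.1.1 e.1.2 := by exact_mod_cast hL _ _ e.2
    set l : ℝ := y / L e.1.1 e.1.2 with hl
    have hl0 : 0 ≤ l := by positivity
    have hl1 : l ≤ 1 := by
      rw [hl, div_le_one (by linarith)]
      exact h1
    have hly : l * L e.1.1 e.1.2 = y := by
      rw [hl]
      field_simp
    refine ⟨fun v => ((1 - l) * L e.1.1 v + l * L e.1.2 v) / 2, fun u v => ?_, ?_⟩
    · have a1 := htR e.1.1 v u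
      have a2 := htR e.1.2 v u
      have a3 : (1 - l) * (L e.1.1 u : ℝ) ≤ (1 - l) * (L e.1.1 v + L v u) :=
        mul_le_mul_of_nonneg_left a1 (by linarith)
      have a4 : l * (L e.1.2 u : ℝ) ≤ l * (L e.1.2 v + L v u) :=
        mul_le_mul_of_nonneg_left a2 hl0
      rw [hsR u v]
      nlinarith
    · simp only [hdR, hsR e.1.2 e.1.1]
      linarith
  rcases q with ⟨e, i⟩ | ⟨⟨e, j⟩ | th, t⟩
  · have hi : ((i.val : ℕ) : ℝ) ≤ L e.1.1 e.1.2 := by
      have h1 : i.val ≤ (complete L hL).len e := by omega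
      have h2 : ((i.val : ℕ) : ℝ) ≤ (complete L hL).len e := by exact_mod_cast h1
      exact h2
    obtain ⟨F, hF, hy⟩ := hpos e i.val (by positivity) hi
    obtain ⟨_, f, hf⟩ := hmove F hF
    refine ⟨f, ?_⟩
    rw [hf]
    refine sub_vert_nonneg _ (netD_nonneg (complete L hL) M _) _ ?_
    simp only [netD]
    rw [if_pos hy]
  · have hj : ((j.val : ℕ) : ℝ) + 1 ≤ L e.1.1 e.1.2 := by
      have h1 : j.val + 1 ≤ (complete L hL).len e := j.isLt
      have h2 : ((j.val + 1 : ℕ) : ℝ) ≤ (complete L hL).len e := by exact_mod_cast h1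
      push_cast at h2
      exact h2
    have t0 := t.2.1
    have t1 := t.2.2
    have hj0 : (0 : ℝ) ≤ ((j.val : ℕ) : ℝ) := by positivity
    obtain ⟨F, hF, hy⟩ := hpos e (j.val + t) (by linarith) (by linarith)
    obtain ⟨_, f, hf⟩ := hmove F hF
    refine ⟨f, ?_⟩
    rw [hf]
    refine sub_inner_nonneg _ (netD_nonneg (complete L hL) M _) _ _ ?_
    simp only [netD, Sum.elim_inl]
    have h3 : (L e.1.1 e.1.2 : ℝ) / 2 + F e.1.1 - F e.1.2 - ((j.val : ℕ) : ℝ) = t := by linarith
    rw [h3]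
    unfold chip
    rw [dif_pos ⟨t0, t1⟩]
  · -- an edge of a cluster
    set u := (complete L hL).node th.1.1.1 with hu
    have hu' : (complete L hL).node th.1.1.2 = u := th.1.2.2.symm
    obtain ⟨hr, f, hf⟩ := hmove (fun v => (L u v : ℝ) / 2) (fun v w => by
      have a1 := htR u w v
      rw [hsR v w]
      linarith)
    have hend : ∀ y : Pair n × Bool, (complete L hL).node y = u →
        1 ≤ (netD (complete L hL) M (fun e => (L e.1.1 e.1.2 : ℝ) / 2 + (L u e.1.1 : ℝ) / 2 -
          (L u e.1.2 : ℝ) / 2)).1 ((complete L hL).endV y) := by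
      rintro ⟨e, c⟩ hy
      cases c
      · have hy' : e.1.1 = u := hy
        simp only [netD, Net.endV, Bool.false_eq_true, if_false, Fin.val_zero, Nat.cast_zero]
        rw [if_pos]
        rw [hy', hdR]
        ring
      · have hy' : e.1.2 = u := hy
        simp only [netD, Net.endV, if_true, Fin.val_last]
        rw [if_pos]
        rw [hlen, hy', hdR, hsR u e.1.1]
        ring
    obtain ⟨g, hg⟩ := cover_ends ((complete L hL).graph M)
      (netD (complete L hL) M (fun e => (L e.1.1 e.1.2 : ℝ) / 2 + (L u e.1.1 : ℝ) / 2 - (L u e.1.2 : ℝ) / 2))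
      (Sum.inr th) t (by
        rw [← sub_sub]
        refine sub_vert_nonneg _ (sub_vert_nonneg _ (netD_nonneg (complete L hL) M _) _ (hend _ hu.symm)) _ ?_
        have hne : ((complete L hL).graph M).tgt (Sum.inr th) ≠ ((complete L hL).graph M).src (Sum.inr th) :=
          (((complete L hL).graph M).ne (Sum.inr th)).symm
        refine le_trans (hend _ hu') (le_of_eq ?_)
        have e1 : (vert (((complete L hL).graph M).src (Sum.inr th)) 1 :
            MDiv (complete L hL).Vert ((complete L hL).Edge M)).1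
            (((complete L hL).graph M).tgt (Sum.inr th)) = 0 := by
          unfold vert
          exact if_neg hne
        rw [Prod.fst_sub, Pi.sub_apply]
        exact (sub_zero _).symm.trans (congrArg _ e1.symm))
    refine ⟨f.add g, ?_⟩
    rw [div_add, ← add_assoc, hf]
    exact hg

/-! ### assembling -/

section

variable [Fintype V] [DecidableEq V] [Fintype E] [DecidableEq E] (G : MGraph V E)

/-- the constant function zero -/
def zeroF : RatFun G where
  val _ := 0
  slope _ := 0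
  bend _ := 0
  closes := by intro e; simp

lemma div_zeroF : (zeroF G).div = 0 := by
  refine Prod.ext (funext fun v => ?_) rfl
  rw [div_fst]
  simp [zeroF, inc, tot_zero]

lemma glue_vert (p : V) (n : ℕ) (m : ℤ) :
    glueD p (vert p m : MDiv V E) (0 : MDiv (Fin (n + 1)) (Pair (n + 1))) =
      glueD p 0 (vert 0 m) := by
  refine Prod.ext (funext ?_) (funext ?_)
  · rintro (v | k)
    · simp [glueD, vert]
    · simp [glueD, vert]
  · rintro (e | e) <;> simp [glueD, vert]

lemma pt_wedge (p : V) (n : ℕ)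
    (q : (V ⊕ Fin n) ⊕ ((E ⊕ Pair (n + 1)) × Ival)) :
    (∃ q₀ : V ⊕ (E × Ival), pt q = glueD p (pt q₀) (0 : MDiv (Fin (n + 1)) (Pair (n + 1)))) ∨
    (∃ q₁ : Fin (n + 1) ⊕ (Pair (n + 1) × Ival), pt q = glueD p (0 : MDiv V E) (pt q₁)) := by
  rcases q with (v | k) | ⟨e | e, t⟩
  · left
    refine ⟨Sum.inl v, Prod.ext (funext ?_) (funext ?_)⟩
    · rintro (w | j)
      · simp [glueD, pt, vert]
      · simp [glueD, pt, vert]
    · rintro (e | e) <;> simp [glueD, pt, vert]
  · right
    refine ⟨Sum.inl k.succ, Prod.ext (funext ?_) (funext ?_)⟩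
    · rintro (w | j)
      · simp [glueD, pt, vert, Fin.succ_ne_zero, eq_comm]
      · simp [glueD, pt, vert]
    · rintro (e | e) <;> simp [glueD, pt, vert]
  · left
    refine ⟨Sum.inr (e, t), Prod.ext (funext ?_) (funext ?_)⟩
    · rintro (w | j) <;> simp [glueD, pt]
    · rintro (e' | e')
      · by_cases h : e' = e
        · subst h; simp [glueD, pt]
        · have h' : (Sum.inl e' : E ⊕ Pair (n + 1)) ≠ Sum.inl e := fun h'' => h (Sum.inl.inj h'')
          simp [glueD, pt, Pi.single_eq_of_ne h']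
      · simp [glueD, pt]
  · right
    refine ⟨Sum.inr (e, t), Prod.ext (funext ?_) (funext ?_)⟩
    · rintro (w | j) <;> simp [glueD, pt]
    · rintro (e' | e')
      · simp [glueD, pt]
      · by_cases h : e' = e
        · subst h; simp [glueD, pt]
        · have h' : (Sum.inr e' : E ⊕ Pair (n + 1)) ≠ Sum.inr e := fun h'' => h (Sum.inr.inj h'')
          simp [glueD, pt, Pi.single_eq_of_ne h']

/-- all chips at `p` cover every point of `G` -/
lemma cover_all (p : V) (m : ℤ) (f : V → ℤ)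
    (hf : ∀ v, 1 ≤ (if v = p then m else 0) - G.lap f v) (q : V ⊕ (E × Ival)) :
    ∃ g : RatFun G, 0 ≤ vert p m + g.div - pt q := by
  have h1 : ∀ v, 1 ≤ (vert p m + (ofInt G f).div : MDiv V E).1 v := by
    intro v
    have := hf v
    rw [div_ofInt]
    simp only [vert, Prod.fst_add, Pi.add_apply]
    linarith
  have h0 : (0 : MDiv V E) ≤ vert p m + (ofInt G f).div := by
    refine ⟨fun v => ?_, fun e => ?_⟩
    · exact le_trans (by norm_num) (h1 v)
    · rw [div_ofInt]
      simp [vert]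
  rcases q with v | ⟨e, t⟩
  · exact ⟨ofInt G f, sub_vert_nonneg _ h0 v (h1 v)⟩
  · obtain ⟨g, hg⟩ := cover_ends G (vert p m + (ofInt G f).div) e t (by
      rw [← sub_sub]
      refine sub_vert_nonneg _ (sub_vert_nonneg _ h0 _ (h1 _)) _ ?_
      have hne := (G.ne e).symm
      have := h1 (G.tgt e)
      rw [Prod.fst_sub, Pi.sub_apply]
      have e1 : (vert (G.src e) 1 : MDiv V E).1 (G.tgt e) = 0 := by simp [vert, hne]
      rw [e1, sub_zero]
      exact this)
    exact ⟨(ofInt G f).add g, by rw [div_add, ← add_assoc]; exact hg⟩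

/-- all values of the first gonality are as expected -/
theorem wedge_one_metric (p : V) (n : ℕ) (hn : 1 ≤ n) (f : V → ℤ)
    (hf : ∀ v, 1 ≤ (if v = p then (n : ℤ) else 0) - G.lap f v) : mdgon (wedge G p n) 1 = n := by
  classical
  have hmem : n ∈ {d : ℕ | ∃ D : MDiv (V ⊕ Fin n) (E ⊕ Pair (n + 1)), mdeg D = d ∧
      MRankGe (wedge G p n) 1 D} := by
    refine ⟨glueD p (0 : MDiv V E) (vert 0 n), ?_, ?_⟩
    · rw [mdeg_glueD, mdeg_zero, mdeg_vert]
      ring
    · intro F hF hFd
      obtain ⟨q, rfl⟩ := eq_pt F hF (by exact_mod_cast hFd)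
      rcases pt_wedge (E := E) p n q with ⟨q₀, hq⟩ | ⟨q₁, hq⟩
      · obtain ⟨g, hg⟩ := cover_all G p n f hf q₀
        refine ⟨glueF G p n g (zeroF _), ?_⟩
        rw [hq, div_glueF, div_zeroF, ← glue_vert, ← glueD_sub, ← glueD_add]
        refine glueD_nonneg _ _ _ ?_ (by simp)
        have e1 : (vert p n - pt q₀ + g.div : MDiv V E) = vert p n + g.div - pt q₀ := by abel
        rw [e1]
        exact hg
      · obtain ⟨g, hg⟩ := cover_pt n hn q₁
        refine ⟨glueF G p n (zeroF _) g, ?_⟩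
        rw [hq, div_glueF, div_zeroF, ← glueD_sub, ← glueD_add]
        refine glueD_nonneg _ _ _ (by simp) ?_
        have e1 : (vert 0 n - pt q₁ + g.div : MDiv (Fin (n + 1)) (Pair (n + 1))) =
          vert 0 n + g.div - pt q₁ := by abel
        rw [e1]
        exact hg
  refine le_antisymm (Nat.sInf_le hmem) (le_csInf ⟨n, hmem⟩ ?_)
  rintro d ⟨D, hD, hr⟩
  by_contra hcon
  push Not at hcon
  exact metric_lower G p n hn D (by rw [hD]; exact_mod_cast hcon) hr

theorem wedge_one_graph (p : V) (n : ℕ) (hn : 1 ≤ n) (f : V → ℤ)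
    (hf : ∀ v, 1 ≤ (if v = p then (n : ℤ) else 0) - G.lap f v) : gdgon (wedge G p n) 1 = n := by
  classical
  have hmem : n ∈ {d : ℕ | ∃ D : V ⊕ Fin n → ℤ, ∑ v, D v = d ∧ GRankGe (wedge G p n) 1 D} := by
    refine ⟨fun v => if v = Sum.inl p then n else 0, by simp, ?_⟩
    intro F hF hFd
    have hF' : (0 : MDiv (V ⊕ Fin n) (E ⊕ Pair (n + 1))) ≤ (F, 0) := ⟨hF, le_rfl⟩
    have hFd' : mdeg ((F, 0) : MDiv (V ⊕ Fin n) (E ⊕ Pair (n + 1))) = 1 := by
      rw [mdeg_eq]
      simp only [Pi.zero_apply, tot_zero, Finset.sum_const_zero, add_zero]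
      exact_mod_cast hFd
    obtain ⟨q, hq⟩ := eq_pt _ hF' hFd'
    have hqv : ∃ x, F = fun v => if v = x then 1 else 0 := by
      rcases q with x | ⟨e, t⟩
      · refine ⟨x, ?_⟩
        have := congrArg Prod.fst hq
        exact this
      · exfalso
        have h1 := congrArg (fun D : MDiv (V ⊕ Fin n) (E ⊕ Pair (n + 1)) => tot (D.2 e)) hq
        simp only [pt, Pi.zero_apply, tot_zero, Pi.single_eq_same, tot_single] at h1
        norm_num at h1
    obtain ⟨x, rfl⟩ := hqv
    rcases x with v | k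
    · refine ⟨Sum.elim f (fun _ => f p), ?_⟩
      have hk : ∀ i : Fin (n + 1), (Sum.elim f (fun _ : Fin n => f p) : V ⊕ Fin n → ℤ) (kap p i) =
          f p := by
        intro i
        induction i using Fin.cases with
        | zero => rfl
        | succ i => rfl
      rintro (w | j)
      · simp only [Pi.zero_apply, Pi.sub_apply, lap_wedge_inl, hk, Sum.inl.injEq, Sum.elim_inl]
        have h1 := hf w
        have h2 : (kGraph n).lap (fun _ => f p) 0 = 0 := by simp [MGraph.lap]
        rw [h2]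
        have h3 : G.lap (fun w => f w) w = G.lap f w := rfl
        rw [h3]
        split_ifs at h1 ⊢ <;> linarith
      · simp only [Pi.zero_apply, Pi.sub_apply, lap_wedge_inr, hk, reduceCtorEq, if_false]
        simp [MGraph.lap]
    · refine ⟨Sum.elim (fun _ => 1) (fun _ => 0), ?_⟩
      have hk : ∀ i : Fin (n + 1), (Sum.elim (fun _ => 1) (fun _ : Fin n => 0) : V ⊕ Fin n → ℤ)
          (kap p i) = if i = 0 then 1 else 0 := by
        intro i
        induction i using Fin.cases with
        | zero => rfl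
        | succ i => simp
      rintro (w | j)
      · simp only [Pi.zero_apply, Pi.sub_apply, lap_wedge_inl, hk, Sum.inl.injEq, Sum.elim_inl,
          reduceCtorEq, if_false, sub_zero, lap_ind, if_true]
        have h2 : G.lap (fun _ => 1) w = 0 := by simp [MGraph.lap]
        rw [h2, zero_add]
        split_ifs <;> simp
      · simp only [Pi.zero_apply, Pi.sub_apply, lap_wedge_inr, hk, reduceCtorEq, if_false,
          Sum.inr.injEq, lap_ind, Fin.succ_ne_zero]
        split_ifs <;> norm_num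
  refine le_antisymm (Nat.sInf_le hmem) (le_csInf ⟨n, hmem⟩ ?_)
  rintro d ⟨D, hD, hr⟩
  by_contra hcon
  push Not at hcon
  exact graph_lower G p n hn D (by rw [hD]; exact_mod_cast hcon) hr

/-- upper bound for the second gonality of the metric graph of the union -/
theorem wedge_two_metric (p : V) (n : ℕ) (hn : 1 ≤ n) (f : V → ℤ)
    (hf : ∀ v, 1 ≤ (if v = p then (n : ℤ) else 0) - G.lap f v) (D₀ : MDiv V E) (m : ℕ)
    (hm : mdeg D₀ = m) (hD₀ : ∀ q : V ⊕ (E × Ival), ∃ g : RatFun G, 0 ≤ D₀ + g.div - pt q) :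
    mdgon (wedge G p n) 2 ≤ n + m := by
  classical
  refine Nat.sInf_le ⟨glueD p D₀ (vert 0 n), ?_, ?_⟩
  · rw [mdeg_glueD, hm, mdeg_vert]
    push_cast
    ring
  · intro F hF hFd
    obtain ⟨q, q', rfl⟩ := eq_pt_two F hF (by exact_mod_cast hFd)
    have hLR : ∀ (q₀ : V ⊕ (E × Ival)) (q₁ : Fin (n + 1) ⊕ (Pair (n + 1) × Ival)),
        ∃ h : RatFun (wedge G p n), 0 ≤ glueD p D₀ (vert 0 n) - (glueD p (pt q₀) 0 +
          glueD p 0 (pt q₁)) + h.div := by
      intro q₀ q₁
      obtain ⟨g, hg⟩ := hD₀ q₀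
      obtain ⟨g', hg'⟩ := cover_pt n hn q₁
      refine ⟨glueF G p n g g', ?_⟩
      rw [div_glueF, ← glueD_add, add_zero, zero_add, ← glueD_sub, ← glueD_add]
      refine glueD_nonneg _ _ _ ?_ ?_
      · have e1 : D₀ - pt q₀ + g.div = D₀ + g.div - pt q₀ := by abel
        rw [e1]
        exact hg
      · have e1 : (vert 0 n - pt q₁ + g'.div : MDiv (Fin (n + 1)) (Pair (n + 1))) =
          vert 0 n + g'.div - pt q₁ := by abel
        rw [e1]
        exact hg'
    rcases pt_wedge (E := E) p n q with ⟨q₀, hq⟩ | ⟨q₁, hq⟩ <;>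
      rcases pt_wedge (E := E) p n q' with ⟨q₀', hq'⟩ | ⟨q₁', hq'⟩
    · obtain ⟨g, hg⟩ := hD₀ q₀
      obtain ⟨g', hg'⟩ := cover_all G p n f hf q₀'
      refine ⟨glueF G p n (g.add g') (zeroF _), ?_⟩
      have e0 : glueD p D₀ (vert 0 n : MDiv (Fin (n + 1)) (Pair (n + 1))) =
          glueD p (D₀ + vert p n) 0 := by
        have := glueD_add p D₀ 0 (0 : MDiv (Fin (n + 1)) (Pair (n + 1))) (vert 0 n)
        rw [add_zero, zero_add] at this
        rw [this, ← glue_vert, ← glueD_add, add_zero]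
      rw [hq, hq', e0, div_glueF, div_zeroF, div_add, ← glueD_add, ← glueD_sub, ← glueD_add]
      refine glueD_nonneg _ _ _ ?_ (by simp)
      have e1 : D₀ + vert p n - (pt q₀ + pt q₀') + (g.div + g'.div) =
          (D₀ + g.div - pt q₀) + (vert p n + g'.div - pt q₀') := by abel
      rw [e1]
      exact add_nonneg hg hg'
    · rw [hq, hq']
      exact hLR q₀ q₁'
    · rw [hq, hq', add_comm (glueD p 0 (pt q₁))]
      exact hLR q₀' q₁
    · obtain ⟨g, hg⟩ := hD₀ (Sum.inl p)
      obtain ⟨g', hg'⟩ := cover_pt_two n hn q₁ q₁'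
      refine ⟨glueF G p n g g', ?_⟩
      have e0 : glueD p D₀ (vert 0 n : MDiv (Fin (n + 1)) (Pair (n + 1))) =
          glueD p (D₀ - vert p 1) (vert 0 (n + 1)) := by
        have h1 : D₀ = (D₀ - vert p 1) + vert p 1 := by abel
        have h2 := glueD_add p (D₀ - vert p 1) (vert p 1)
          (vert 0 n : MDiv (Fin (n + 1)) (Pair (n + 1))) 0
        rw [← h1, add_zero, glue_vert, ← glueD_add, add_zero, ← vert_add] at h2
        exact h2
      rw [hq, hq', e0, div_glueF, ← glueD_add, add_zero, ← glueD_sub, ← glueD_add, sub_zero]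
      refine glueD_nonneg _ _ _ ?_ ?_
      · have e1 : D₀ - vert p 1 + g.div = D₀ + g.div - pt (Sum.inl p) := by
          simp only [pt]
          abel
        rw [e1]
        exact hg
      · have e1 : (vert 0 (n + 1) - (pt q₁ + pt q₁') + g'.div :
            MDiv (Fin (n + 1)) (Pair (n + 1))) =
          vert 0 (n + 1) + g'.div - (pt q₁ + pt q₁') := by abel
        rw [e1]
        exact hg'

/-- lower bound for the second gonality of the union -/
theorem wedge_two_graph (p : V) (n : ℕ) (hn : 1 ≤ n) (m : ℕ) (hG : m < G.gon) :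
    n + m < gdgon (wedge G p n) 2 := by
  have hne : {d : ℕ | ∃ D : V ⊕ Fin n → ℤ, ∑ v, D v = d ∧
      GRankGe (wedge G p n) 2 D}.Nonempty := by
    refine ⟨2 * Fintype.card (V ⊕ Fin n), fun _ => 2, ?_, ?_⟩
    · simp only [Finset.sum_const, Finset.card_univ, nsmul_eq_mul]
      push_cast
      ring
    · intro F hF hFd
      refine ⟨fun _ => 0, fun v => ?_⟩
      have h1 : F v ≤ ∑ v, F v := Finset.single_le_sum (fun v _ => hF v) (mem_univ v)
      rw [hFd] at h1
      have h2 : (wedge G p n).lap (fun _ => 0) v = 0 := by simp [MGraph.lap]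
      simp only [Pi.zero_apply, Pi.sub_apply, h2]
      push_cast at h1
      linarith
  obtain ⟨D, hD, hr⟩ := Nat.sInf_mem hne
  by_contra hcon
  push Not at hcon
  refine graph_lower_two G p n hn m hG D ?_ hr
  rw [hD]
  exact_mod_cast hcon

/-- the union is connected -/
theorem wedge_connected (p : V) (n : ℕ) (hG : G.Connected) : (wedge G p n).Connected := by
  unfold MGraph.Connected at hG ⊢
  set H := SimpleGraph.fromRel (fun x y => ∃ e, (wedge G p n).src e = x ∧ (wedge G p n).tgt e = y)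
    with hH
  have hstep : ∀ ed, H.Reachable ((wedge G p n).src ed) ((wedge G p n).tgt ed) := by
    intro ed
    apply SimpleGraph.Adj.reachable
    rw [hH, SimpleGraph.fromRel_adj]
    exact ⟨(wedge G p n).ne ed, Or.inl ⟨ed, rfl, rfl⟩⟩
  have hl : ∀ v : V, H.Reachable (Sum.inl p) (Sum.inl v) := by
    intro v
    have h1 := hG.preconnected p v
    rw [SimpleGraph.reachable_iff_reflTransGen] at h1
    induction h1 with
    | refl => exact SimpleGraph.Reachable.refl _
    | @tail u w _ huw ih =>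
      refine ih.trans ?_
      rw [SimpleGraph.fromRel_adj] at huw
      rcases huw.2 with ⟨e, rfl, rfl⟩ | ⟨e, rfl, rfl⟩
      · exact hstep (Sum.inl e)
      · exact (hstep (Sum.inl e)).symm
  have hr : ∀ k : Fin n, H.Reachable (Sum.inl p) (Sum.inr k) := by
    intro k
    exact hstep (Sum.inr ⟨(0, k.succ), Fin.succ_pos k⟩)
  have hall : ∀ x, H.Reachable (Sum.inl p) x := by
    rintro (v | k)
    · exact hl v
    · exact hr k
  rw [SimpleGraph.connected_iff]
  exact ⟨fun x y => (hall x).symm.trans (hall y), ⟨Sum.inl p⟩⟩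

end

/-- **Main theorem.** -/
theorem main : ∃ N : ℕ, ∀ n : ℕ, N ≤ n → ∃ (V E : Type) (_ : Fintype V) (_ : DecidableEq V)
    (_ : Fintype E) (G : MGraph V E), G.Connected ∧ gdgon G 1 = n ∧ mdgon G 1 = n ∧
      mdgon G 2 < gdgon G 2 := by
  have h01 : (0 : Fin 8) < 1 := by decide
  obtain ⟨N, hN⟩ := ones_of_connected Example.G Example.G_connected ⟨⟨(0, 1), h01⟩, 0⟩
  refine ⟨N + 1, fun n hn => ?_⟩
  obtain ⟨f, hf⟩ := hN n (by omega)
  refine ⟨_, _, inferInstance, inferInstance, inferInstance,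
    wedge Example.G ⟨⟨(0, 1), h01⟩, 0⟩ n, wedge_connected _ _ _ Example.G_connected,
    wedge_one_graph _ _ _ (by omega) f hf, wedge_one_metric _ _ _ (by omega) f hf, ?_⟩
  refine lt_of_le_of_lt (wedge_two_metric _ _ n (by omega) f hf
    (netD (complete Example.L Example.L_pos) 29 (fun e => (Example.L e.1.1 e.1.2 : ℝ) / 2)) 28 ?_
    (cover_net Example.L Example.L_pos 29 Example.L_symm Example.L_diag Example.L_tri))
    (wedge_two_graph _ _ n (by omega) 28 Example.G_lower)
  rw [mdeg_netD, Example.card_pair]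
  · intro e
    have h1 : (((complete Example.L Example.L_pos).len e : ℕ) : ℝ) =
      (Example.L e.1.1 e.1.2 : ℝ) := rfl
    rw [h1]
    have : (0 : ℝ) ≤ Example.L e.1.1 e.1.2 := by positivity
    constructor <;> linarith

end Pool.Agent.R11.MetGon
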