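import Pool.Agent.R11.MetLow

/-!
# Moving chips on the metric graph of a network
-/

set_option autoImplicit false
set_option linter.unusedSectionVars false

namespace Pool.Agent.R11.MetGon

open Finset Pool.Agent.H997R3.Gon Pool.Agent.H997R3.Gon.Net

variable {V E : Type}

section

variable [Fintype V] [DecidableEq V] [Fintype E] (G : MGraph V E)

/-- two chips at the ends of an edge cover every point of the edge -/
lemma cover_ends [DecidableEq E] (D : MDiv V E) (e : E) (t : Ival)
    (h : 0 ≤ D - (vert (G.src e) 1 + vert (G.tgt e) 1)) :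
    ∃ f : RatFun G, 0 ≤ D + f.div - pt (Sum.inr (e, t)) := by
  refine ⟨inF G e t, ?_⟩
  have h1 := div_inF G e t t.2.1.le t.2.2.le
  rw [← cp_inner G e t]
  have h2 : D + (inF G e t).div - cp G e t =
      (D - (vert (G.src e) 1 + vert (G.tgt e) 1)) + cp G e (1 - t) := by
    have h3 : (inF G e t).div = cp G e t + cp G e (1 - t) -
        (vert (G.src e) 1 + vert (G.tgt e) 1) := by
      rw [← h1]
      abel
    rw [h3]
    abel
  rw [h2]
  exact add_nonneg h (cp_nonneg _ _ _)

lemma lap_add (f g : V → ℤ) (v : V) :
    G.lap (fun w => f w + g w) v = G.lap f v + G.lap g v := by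
  unfold MGraph.lap
  rw [← Finset.sum_add_distrib]
  refine Finset.sum_congr rfl fun e _ => ?_
  split_ifs <;> ring

lemma lap_mul (c : ℤ) (f : V → ℤ) (v : V) :
    G.lap (fun w => c * f w) v = c * G.lap f v := by
  unfold MGraph.lap
  rw [Finset.mul_sum]
  refine Finset.sum_congr rfl fun e _ => ?_
  split_ifs <;> ring

lemma lap_sum {ι : Type} (s : Finset ι) (f : ι → V → ℤ) (v : V) :
    G.lap (fun w => ∑ i ∈ s, f i w) v = ∑ i ∈ s, G.lap (f i) v := by
  classical
  induction s using Finset.induction_on with
  | empty => simp [MGraph.lap]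
  | insert i s hi ih =>
    simp only [Finset.sum_insert hi]
    rw [lap_add, ih]

/-- with enough chips at one vertex, every vertex can get a chip -/
theorem ones_of_connected (hG : G.Connected) (p : V) :
    ∃ N : ℕ, ∀ n : ℕ, N ≤ n → ∃ f : V → ℤ, ∀ v, 1 ≤ (if v = p then (n : ℤ) else 0) - G.lap f v := by
  classical
  -- one vertex
  have hone : ∀ v : V, ∃ (N : ℕ) (f : V → ℤ), ∀ w,
      (if w = v then (1 : ℤ) else 0) ≤ (if w = p then (N : ℤ) else 0) - G.lap f w := by
    intro v
    have hreach := hG.preconnected p v
    rw [SimpleGraph.reachable_iff_reflTransGen] at hreach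
    induction hreach with
    | refl =>
      refine ⟨1, fun _ => 0, fun w => ?_⟩
      simp [MGraph.lap]
    | @tail u v _ huv ih =>
      obtain ⟨N, f, hf⟩ := ih
      set M : ℕ := 2 * Fintype.card E with hM
      refine ⟨M * N, fun w => M * f w + (if w = u then 1 else 0), fun w => ?_⟩
      rw [lap_add, lap_mul]
      have h1 := hf w
      rw [SimpleGraph.fromRel_adj] at huv
      obtain ⟨hne, hadj⟩ := huv
      have hM0 : (0 : ℤ) ≤ M := by positivity
      have h2 : (M : ℤ) * (if w = u then (1 : ℤ) else 0) ≤
          (if w = p then ((M * N : ℕ) : ℤ) else 0) - M * G.lap f w := by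
        have h3 := mul_le_mul_of_nonneg_left h1 hM0
        refine h3.trans (le_of_eq ?_)
        push_cast
        split_ifs <;> ring
      -- firing `u`
      have h4 : G.lap (fun w => if w = u then (1 : ℤ) else 0) w ≤
          M * (if w = u then (1 : ℤ) else 0) - (if w = v then 1 else 0) := by
        by_cases hw : w = u
        · subst hw
          rw [if_pos rfl, if_neg hne]
          unfold MGraph.lap
          have h5 : ∀ e ∈ (Finset.univ : Finset E), ((if G.src e = w then
              (if w = w then (1 : ℤ) else 0) - (if G.tgt e = w then 1 else 0) else 0) +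
              (if G.tgt e = w then (if w = w then (1 : ℤ) else 0) -
                (if G.src e = w then 1 else 0) else 0)) ≤ 2 := by
            intro e _
            split_ifs <;> norm_num
          refine (Finset.sum_le_card_nsmul _ _ _ h5).trans ?_
          rw [hM]
          simp only [Finset.card_univ, nsmul_eq_mul]
          push_cast
          linarith
        · rw [if_neg hw, mul_zero, zero_sub]
          unfold MGraph.lap
          have hterm : ∀ e, ((if G.src e = w then
              (if w = u then (1 : ℤ) else 0) - (if G.tgt e = u then 1 else 0) else 0) +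
              (if G.tgt e = w then (if w = u then (1 : ℤ) else 0) -
                (if G.src e = u then 1 else 0) else 0)) ≤ 0 := by
            intro e
            simp only [hw, if_false]
            split_ifs <;> norm_num
          by_cases hv : w = v
          · subst hv
            rw [if_pos rfl]
            have hex : ∃ e, (G.src e = u ∧ G.tgt e = w) ∨ (G.src e = w ∧ G.tgt e = u) := by
              rcases hadj with ⟨e, h, h'⟩ | ⟨e, h, h'⟩
              · exact ⟨e, Or.inl ⟨h, h'⟩⟩
              · exact ⟨e, Or.inr ⟨h, h'⟩⟩
            obtain ⟨e, he⟩ := hex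
            have h6 := Finset.sum_le_sum_of_subset_of_nonneg (Finset.subset_univ {e})
              (f := fun e => -((if G.src e = w then
              (if w = u then (1 : ℤ) else 0) - (if G.tgt e = u then 1 else 0) else 0) +
              (if G.tgt e = w then (if w = u then (1 : ℤ) else 0) -
                (if G.src e = u then 1 else 0) else 0))) (fun e' _ _ => by
                  have := hterm e'
                  linarith)
            rw [Finset.sum_singleton, Finset.sum_neg_distrib] at h6
            have h7 : ((if G.src e = w then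
              (if w = u then (1 : ℤ) else 0) - (if G.tgt e = u then 1 else 0) else 0) +
              (if G.tgt e = w then (if w = u then (1 : ℤ) else 0) -
                (if G.src e = u then 1 else 0) else 0)) ≤ -1 := by
              rcases he with ⟨e1, e2⟩ | ⟨e1, e2⟩
              · have e3 : ¬ u = w := fun h => hw h.symm
                simp [e1, e2, hw, e3]
              · have e3 : ¬ u = w := fun h => hw h.symm
                simp [e1, e2, hw, e3]
            linarith
          · rw [if_neg hv, neg_zero]
            exact Finset.sum_nonpos fun e _ => hterm e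
      linarith
  choose N f hf using hone
  refine ⟨∑ v, N v, fun n hn => ⟨fun w => ∑ v, f v w, fun w => ?_⟩⟩
  rw [lap_sum]
  have h1 := Finset.sum_le_sum fun v (_ : v ∈ (Finset.univ : Finset V)) => hf v w
  rw [Finset.sum_ite_eq, if_pos (mem_univ _), Finset.sum_sub_distrib] at h1
  by_cases hw : w = p
  · simp only [hw, if_true] at h1 ⊢
    have h2 : ((∑ v, N v : ℕ) : ℤ) ≤ n := by exact_mod_cast hn
    push_cast at h2
    linarith
  · simp only [hw, if_false, Finset.sum_const_zero] at h1 ⊢
    exact h1

end

/-! ### networks -/

lemma step_min (x : ℝ) (j : ℕ) : min ((j : ℝ) + 1) x = min (j : ℝ) x +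
    ((if (j : ℝ) < x then (1 : ℤ) else 0 : ℤ) : ℝ) - ws (fun s => 1 - (s : ℝ)) (chip (x - j)) := by
  rw [ws_chip (fun s => 1 - s)]
  rcases le_or_gt x j with h | h
  · have h1 : ¬ (j : ℝ) < x := not_lt.2 h
    have h2 : ¬ (0 < x - j ∧ x - j < 1) := fun h' => by linarith [h'.1]
    rw [if_neg h1, if_neg h2, min_eq_right h, min_eq_right (by linarith)]
    push_cast
    ring
  · rcases lt_or_ge x (j + 1) with h' | h'
    · rw [if_pos h, if_pos ⟨by linarith, by linarith⟩, min_eq_left h.le, min_eq_right h'.le]
      push_cast
      ring
    · have h2 : ¬ (0 < x - j ∧ x - j < 1) := fun h'' => by linarith [h''.2]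
      rw [if_pos h, if_neg h2, min_eq_left h.le, min_eq_left h']
      push_cast
      ring

variable {N A : Type} (R : Net N A)

/-- one chip on every arc, at the distance `x e` from the first end of the arc `e` -/
noncomputable def netD (M : ℕ) (x : A → ℝ) : MDiv R.Vert (R.Edge M) :=
  (fun v => if x v.1 = (v.2.val : ℝ) then 1 else 0,
    Sum.elim (fun t => chip (x t.1 - t.2.val)) (fun _ => 0))

/-- moving the chips according to a potential -/
noncomputable def netF (M : ℕ) (F : N → ℝ) (x x' : A → ℝ)
    (hx : ∀ e, 0 ≤ x e ∧ x e ≤ R.len e) (hx' : ∀ e, 0 ≤ x' e ∧ x' e ≤ R.len e)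
    (h : ∀ e, x' e = x e + F (R.a e) - F (R.b e)) : RatFun (R.graph M) where
  val v := F (R.a v.1) + min (v.2.val : ℝ) (x v.1) - min (v.2.val : ℝ) (x' v.1)
  slope := Sum.elim (fun t => (if (t.2.val : ℝ) < x t.1 then 1 else 0) -
    (if (t.2.val : ℝ) < x' t.1 then 1 else 0)) (fun _ => 0)
  bend := Sum.elim (fun t => chip (x' t.1 - t.2.val) - chip (x t.1 - t.2.val)) (fun _ => 0)
  closes := by
    rintro (t | t)
    · change _ = _ + _ + ws (fun t => 1 - (t : ℝ)) _
      simp only [Net.graph, Sum.elim_inl, Fin.val_succ, Fin.val_castSucc]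
      have h1 := step_min (x t.1) t.2.val
      have h2 := step_min (x' t.1) t.2.val
      rw [sub_eq_add_neg (chip _), ws_add, ws_neg]
      push_cast at h1 h2 ⊢
      rw [h1, h2]
      ring
    · change _ = _ + _ + ws (fun t => 1 - (t : ℝ)) _
      have hend : ∀ y : A × Bool, F (R.a (R.endV y).1) + min (((R.endV y).2.val : ℕ) : ℝ)
          (x (R.endV y).1) - min (((R.endV y).2.val : ℕ) : ℝ) (x' (R.endV y).1) = F (R.node y) := by
        rintro ⟨e, c⟩
        have a1 := hx e
        have a2 := hx' e
        have a3 := h e
        cases c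
        · simp only [Net.endV, Net.node, Bool.false_eq_true, if_false, Fin.val_zero,
            Nat.cast_zero]
          rw [min_eq_left a1.1, min_eq_left a2.1]
          ring
        · simp only [Net.endV, Net.node, if_true, Fin.val_last]
          rw [min_eq_right a1.2, min_eq_right a2.2]
          linarith
      have h3 := hend t.1.1.1
      have h4 := hend t.1.1.2
      have h5 : F (R.node t.1.1.1) = F (R.node t.1.1.2) := by rw [t.1.2.2]
      simp only [Net.graph, Sum.elim_inr, ws_zero, Int.cast_zero, add_zero]
      rw [h3, h4, h5]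

variable [Fintype A] [DecidableEq A] [DecidableEq N]

lemma inc_net (M : ℕ) (a b : R.Edge M → ℤ) (ha : ∀ t, a (Sum.inr t) = 0)
    (hb : ∀ t, b (Sum.inr t) = 0) (e : A) (i : Fin (R.len e + 1)) :
    inc (R.graph M) a b ⟨e, i⟩ =
      (if h : i.val < R.len e then a (Sum.inl ⟨e, ⟨i.val, h⟩⟩) else 0) +
      (if h : 0 < i.val then b (Sum.inl ⟨e, ⟨i.val - 1, by omega⟩⟩) else 0) := by
  unfold inc
  rw [Fintype.sum_sum_type]
  simp only [ha, hb, ite_self, add_zero, Finset.sum_const_zero]
  rw [Fintype.sum_sigma, Finset.sum_eq_single e]
  · rw [Finset.sum_add_distrib]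
    congr 1
    · by_cases h : i.val < R.len e
      · rw [dif_pos h, Finset.sum_eq_single (⟨i.val, h⟩ : Fin (R.len e))]
        · simp only [Net.graph, Sum.elim_inl]
          rw [if_pos]
          simp
        · intro j _ hj
          simp only [Net.graph, Sum.elim_inl]
          rw [if_neg]
          intro heq
          simp only [Sigma.mk.injEq, heq_eq_eq, true_and] at heq
          apply hj
          rw [Fin.ext_iff] at heq ⊢
          simpa using heq
        · simp
      · rw [dif_neg h]
        refine Finset.sum_eq_zero fun j _ => ?_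
        simp only [Net.graph, Sum.elim_inl]
        rw [if_neg]
        intro heq
        simp only [Sigma.mk.injEq, heq_eq_eq, true_and] at heq
        rw [Fin.ext_iff] at heq
        have := j.isLt
        simp only [Fin.val_castSucc] at heq
        omega
    · by_cases h : 0 < i.val
      · have hi := i.isLt
        rw [dif_pos h, Finset.sum_eq_single (⟨i.val - 1, by omega⟩ : Fin (R.len e))]
        · simp only [Net.graph, Sum.elim_inl]
          rw [if_pos]
          simp only [Sigma.mk.injEq, heq_eq_eq, true_and]
          rw [Fin.ext_iff]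
          simp only [Fin.val_succ]
          omega
        · intro j _ hj
          simp only [Net.graph, Sum.elim_inl]
          rw [if_neg]
          intro heq
          simp only [Sigma.mk.injEq, heq_eq_eq, true_and] at heq
          apply hj
          rw [Fin.ext_iff] at heq ⊢
          simp only [Fin.val_succ] at heq
          simp only
          omega
        · simp
      · rw [dif_neg h]
        refine Finset.sum_eq_zero fun j _ => ?_
        simp only [Net.graph, Sum.elim_inl]
        rw [if_neg]
        intro heq
        simp only [Sigma.mk.injEq, heq_eq_eq, true_and] at heq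
        rw [Fin.ext_iff] at heq
        simp only [Fin.val_succ] at heq
        omega
  · intro e' _ he'
    refine Finset.sum_eq_zero fun j _ => ?_
    simp only [Net.graph, Sum.elim_inl, Sigma.mk.injEq, he', false_and, if_false, add_zero]
  · simp

lemma div_netF (M : ℕ) (F : N → ℝ) (x x' : A → ℝ)
    (hx : ∀ e, 0 ≤ x e ∧ x e ≤ R.len e) (hx' : ∀ e, 0 ≤ x' e ∧ x' e ≤ R.len e)
    (h : ∀ e, x' e = x e + F (R.a e) - F (R.b e)) :
    netD R M x + (netF R M F x x' hx hx' h).div = netD R M x' := by
  refine Prod.ext (funext ?_) (funext ?_)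
  · rintro ⟨e, i⟩
    rw [Prod.fst_add, Pi.add_apply, div_fst, inc_net R M _ _ (fun _ => rfl) (fun _ => by
      simp [netF, tot_zero])]
    have hlen := R.pos e
    have hi := i.isLt
    -- contribution of one position
    have key : ∀ y : ℝ, 0 ≤ y → y ≤ R.len e →
        (if i.val < R.len e then (if (i.val : ℝ) < y then (1 : ℤ) else 0) else 0) -
        (if 0 < i.val then (if (i.val : ℝ) ≤ y then (1 : ℤ) else 0) else 0) =
        (if i.val = 0 then 1 else 0) - (if y = (i.val : ℝ) then 1 else 0) := by
      intro y h0 h1
      rcases Nat.eq_zero_or_pos i.val with hi0 | hi0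
      · simp only [hi0, lt_irrefl, if_false, if_true, Nat.cast_zero, sub_zero]
        rw [if_pos (by omega)]
        rcases eq_or_lt_of_le h0 with h2 | h2
        · subst h2
          simp
        · rw [if_pos h2, if_neg h2.ne']
          ring
      · rw [if_pos hi0, if_neg (by omega : ¬ i.val = 0)]
        rcases lt_trichotomy (i.val : ℝ) y with h2 | h2 | h2
        · have h3 : i.val < R.len e := by
            have : (i.val : ℝ) < R.len e := lt_of_lt_of_le h2 h1
            exact_mod_cast this
          rw [if_pos h3, if_pos h2, if_pos h2.le, if_neg h2.ne']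
          norm_num
        · rw [if_neg (by rw [h2]; exact lt_irrefl y : ¬ (i.val : ℝ) < y), if_pos h2.le,
            if_pos h2.symm]
          simp
        · rw [if_neg (not_lt.2 h2.le), if_neg (not_le.2 h2), if_neg h2.ne]
          simp
    have k1 := key (x e) (hx e).1 (hx e).2
    have k2 := key (x' e) (hx' e).1 (hx' e).2
    -- the second end of an edge
    have key2 : ∀ y : ℝ, 0 < i.val → (if (((i.val - 1 : ℕ)) : ℝ) < y then (1 : ℤ) else 0) -
        tot (chip (y - ((i.val - 1 : ℕ) : ℝ))) = if (i.val : ℝ) ≤ y then 1 else 0 := by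
      intro y hi0
      rw [tot_chip]
      have e1 : ((i.val - 1 : ℕ) : ℝ) = (i.val : ℝ) - 1 := by
        rw [Nat.cast_sub (by omega)]
        simp
      rw [e1]
      rcases le_or_gt y ((i.val : ℝ) - 1) with h2 | h2
      · rw [if_neg (not_lt.2 h2), if_neg (fun h3 => by linarith [h3.1]), if_neg (by linarith)]
        ring
      · rcases lt_or_ge y (i.val : ℝ) with h3 | h3
        · rw [if_pos h2, if_pos ⟨by linarith, by linarith⟩, if_neg (not_le.2 h3)]
          ring
        · rw [if_pos h2, if_neg (fun h4 => by linarith [h4.2]), if_pos h3]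
          ring
    simp only [netD, netF, Sum.elim_inl]
    rw [sub_eq_add_neg (chip _), tot_add, tot_neg]
    by_cases c1 : i.val < R.len e
    · by_cases c2 : 0 < i.val
      · have k3 := key2 (x e) c2
        have k4 := key2 (x' e) c2
        rw [dif_pos c1, dif_pos c2]
        rw [if_pos c1, if_pos c2] at k1 k2
        linarith
      · rw [dif_pos c1, dif_neg c2]
        rw [if_pos c1, if_neg c2] at k1 k2
        linarith
    · by_cases c2 : 0 < i.val
      · have k3 := key2 (x e) c2
        have k4 := key2 (x' e) c2
        rw [dif_neg c1, dif_pos c2]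
        rw [if_neg c1, if_pos c2] at k1 k2
        linarith
      · rw [dif_neg c1, dif_neg c2]
        rw [if_neg c1, if_neg c2] at k1 k2
        linarith
  · rintro (t | t)
    · simp only [Prod.snd_add, Pi.add_apply, div_snd, netD, netF, Sum.elim_inl]
      abel
    · simp only [Prod.snd_add, Pi.add_apply, div_snd, netD, netF, Sum.elim_inr, add_zero]

lemma netD_nonneg (M : ℕ) (x : A → ℝ) : 0 ≤ netD R M x := by
  refine ⟨fun v => ?_, ?_⟩
  · simp only [netD, Prod.fst_zero, Pi.zero_apply]
    split_ifs <;> norm_num
  · rintro (t | t)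
    · exact chip_nonneg _
    · exact le_rfl

lemma mdeg_netD (M : ℕ) (x : A → ℝ) (hx : ∀ e, 0 ≤ x e ∧ x e ≤ R.len e) :
    mdeg (netD R M x) = Fintype.card A := by
  rw [mdeg_eq, Fintype.sum_sum_type]
  simp only [netD, Sum.elim_inl, Sum.elim_inr, tot_zero, Finset.sum_const_zero, add_zero]
  rw [Fintype.sum_sigma, Fintype.sum_sigma, ← Finset.sum_add_distrib]
  have hone : ∀ e : A, (∑ i : Fin (R.len e + 1), (if x e = ((i.val : ℕ) : ℝ) then (1 : ℤ) else 0)) +
      ∑ j : Fin (R.len e), tot (chip (x e - (j.val : ℕ))) = 1 := by
    intro e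
    obtain ⟨h0, h1⟩ := hx e
    set m := ⌊x e⌋₊ with hm
    have hm1 : (m : ℝ) ≤ x e := Nat.floor_le h0
    have hm2 : x e < m + 1 := Nat.lt_floor_add_one _
    have hmle : m ≤ R.len e := by
      have : (m : ℝ) ≤ R.len e := hm1.trans h1
      exact_mod_cast this
    rcases eq_or_lt_of_le hm1 with h2 | h2
    · have e1 : ∑ i : Fin (R.len e + 1), (if x e = ((i.val : ℕ) : ℝ) then (1 : ℤ) else 0) = 1 := by
        rw [Finset.sum_eq_single (⟨m, by omega⟩ : Fin (R.len e + 1))]
        · simp [h2]
        · intro i _ hi
          rw [if_neg]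
          intro h3
          apply hi
          rw [Fin.ext_iff]
          rw [← h2] at h3
          exact_mod_cast h3.symm
        · simp
      have e2 : ∑ j : Fin (R.len e), tot (chip (x e - (j.val : ℕ))) = 0 := by
        refine Finset.sum_eq_zero fun j _ => ?_
        rw [tot_chip, if_neg]
        rintro ⟨h3, h4⟩
        rw [← h2] at h3 h4
        have h5 : (j.val : ℝ) < m := by linarith
        have h6 : (m : ℝ) < (j.val : ℝ) + 1 := by linarith
        have h7 : j.val < m := by exact_mod_cast h5
        have h8 : m < j.val + 1 := by exact_mod_cast h6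
        omega
      rw [e1, e2]
      ring
    · have hmlt : m < R.len e := by
        have : (m : ℝ) < R.len e := lt_of_lt_of_le h2 h1
        exact_mod_cast this
      have e1 : ∑ i : Fin (R.len e + 1), (if x e = ((i.val : ℕ) : ℝ) then (1 : ℤ) else 0) = 0 := by
        refine Finset.sum_eq_zero fun i _ => ?_
        rw [if_neg]
        intro h3
        rw [h3] at h2 hm2
        have h5 : m < i.val := by exact_mod_cast h2
        have h6 : i.val < m + 1 := by exact_mod_cast hm2
        omega
      have e2 : ∑ j : Fin (R.len e), tot (chip (x e - (j.val : ℕ))) = 1 := by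
        rw [Finset.sum_eq_single (⟨m, hmlt⟩ : Fin (R.len e))]
        · rw [tot_chip, if_pos ⟨by simpa using h2, by simp only; linarith⟩]
        · intro j _ hj
          rw [tot_chip, if_neg]
          rintro ⟨h3, h4⟩
          apply hj
          rw [Fin.ext_iff]
          simp only
          have h5 : (j.val : ℝ) < m + 1 := by linarith
          have h6 : (m : ℝ) < (j.val : ℝ) + 1 := by linarith
          have h7 : j.val < m + 1 := by exact_mod_cast h5
          have h8 : m < j.val + 1 := by exact_mod_cast h6
          omega
        · simp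
      rw [e1, e2]
      ring
  rw [Finset.sum_congr rfl fun e _ => hone e]
  simp

end Pool.Agent.R11.MetGon
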