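import Pool.Agent.Helper431.CycleIso

set_option autoImplicit false

/-!
Breadth first search trees restricted to an upward closed set of vertices: separation lemmas for
mixed metric dimension.
-/

namespace Pool.Agent.R11.Mix

open SimpleGraph Pool.Agent.Helper431

variable {V : Type*} {G : SimpleGraph V} {R : Set V} {dep : V → ℕ} {p : V → V}

/-- `U` is closed under going to a neighbour which is one step nearer to the root set. -/
def UpClosed (G : SimpleGraph V) (dep : V → ℕ) (U : Set V) : Prop :=
  ∀ v ∈ U, ∀ u, G.Adj v u → dep u + 1 = dep v → u ∈ U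

/-- Endpoints of non-forest edges inside `U`. -/
def WU (G : SimpleGraph V) (R : Set V) (p : V → V) (U : Set V) : Set V :=
  {u | u ∈ U ∧ ∃ v ∈ U, NT G R p u v}

theorem InT_single_J (B : BFS G R dep p) {x s : V} (hs : InT R p {x} s) :
    G.dist s x + dep x = dep s := BFS.J_single.mp (B.InT_J hs)

theorem InT_single_dep (B : BFS G R dep p) {x s : V} (hs : InT R p {x} s) :
    dep x ≤ dep s := B.InT_dep (X := {x}) (n := dep x) (by simp) hs

/-- A vertex with a monotone geodesic to `x` has an upper neighbour with the same property. -/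
theorem J_step1 (B : BFS G R dep p) {x s : V} (hs : G.dist s x + dep x = dep s)
    (hd : dep x < dep s) : ∃ z, G.Adj s z ∧ dep z + 1 = dep s ∧ G.dist z x + dep x = dep z := by
  obtain ⟨z, h1, h2, h3⟩ := B.J_step (X := {x}) (n := dep x) (by simp) (BFS.J_single.mpr hs) hd
  exact ⟨z, h1, h2, BFS.J_single.mp h3⟩

theorem J_eq (B : BFS G R dep p) {x s : V} (hs : G.dist s x + dep x = dep s)
    (hd : dep s ≤ dep x) : s = x := by
  have : G.dist s x = 0 := by omega
  exact (B.conn.dist_eq_zero_iff).mp this

theorem InT_eq (B : BFS G R dep p) {x s : V} (hs : InT R p {x} s) (hd : dep s ≤ dep x) : s = x :=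
  J_eq B (InT_single_J B hs) hd

theorem InT_par (B : BFS G R dep p) {x s : V} (hs : InT R p {x} s) (hne : s ≠ x) :
    InT R p {x} (p s) ∧ s ∉ R := B.InT_parent hs (by simpa using hne)

theorem claimB1 (B : BFS G R dep p) {U : Set V} (hU : UpClosed G dep U) {x y : V} {m : ℕ}
    (hxy : dep x = dep y) (hne : x ≠ y)
    (hmin : ∀ w ∈ WU G R p U, InT R p {x} w → m ≤ dep w) {v : V} (hv : InT R p {x} v)
    (hvU : v ∈ U) (hd : dep v < m) : ¬ G.dist v y + dep y = dep v := by
  induction hv with
  | base v hx =>
    intro hJ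
    have : v = x := hx
    subst this
    exact hne (J_eq B hJ hxy.le)
  | step s hs h ih =>
    intro hJ
    have h1 := B.p_adj s hs
    have h2 := InT_single_dep B h
    obtain ⟨z, hz, hzd, hzJ⟩ := J_step1 B hJ (by omega)
    have hpU : p s ∈ U := hU s hvU _ h1.1 h1.2
    have hzU : z ∈ U := hU s hvU _ hz hzd
    by_cases hzp : z = p s
    · subst hzp
      exact ih hpU (by omega) hzJ
    · have := hmin s ⟨hvU, z, hzU, B.nt_of_up hz hzd hzp⟩ (InT.step s hs h)
      omega

theorem claimC1 (B : BFS G R dep p) {U : Set V} (hU : UpClosed G dep U) {x : V} {m : ℕ}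
    (hmin : ∀ w ∈ WU G R p U, InT R p {x} w → m ≤ dep w) :
    ∀ (k : ℕ) (v : V), dep v = k → v ∈ U → ¬ InT R p {x} v → dep v < m →
      ¬ G.dist v x + dep x = dep v := by
  intro k
  induction k using Nat.strong_induction_on with
  | _ k ih =>
    intro v hk hvU hv hd hJ
    rcases Nat.lt_or_ge (dep x) (dep v) with hlt | hle
    · obtain ⟨z, hz, hzd, hzJ⟩ := J_step1 B hJ hlt
      have hzU : z ∈ U := hU v hvU _ hz hzd
      have hvR : v ∉ R := fun h => by have := B.dep_root h; omega
      by_cases hzT : InT R p {x} z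
      · have hzp : z ≠ p v := by
          rintro rfl
          exact hv (InT.step v hvR hzT)
        have hnt := B.nt_of_up hz hzd hzp
        have := hmin z ⟨hzU, v, hvU, BFS.nt_symm hnt⟩ hzT
        omega
      · exact ih (dep z) (by omega) z rfl hzU hzT (by omega) hzJ
    · have : v = x := J_eq B hJ hle
      exact hv (InT.base v this)

/-- Separation of two vertices of the same depth. -/
theorem lemmaA1 (B : BFS G R dep p) {U : Set V} (hU : UpClosed G dep U) {x y : V}
    (hxy : dep x = dep y) (hne : x ≠ y) (hW : ∃ s ∈ WU G R p U, InT R p {x} s) :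
    ∃ s ∈ WU G R p U, ¬ (G.dist s x + dep x = dep s ↔ G.dist s y + dep y = dep s) := by
  by_contra hcon
  push Not at hcon
  classical
  have hex : ∃ m, ∃ s ∈ WU G R p U, InT R p {x} s ∧ dep s = m := by
    obtain ⟨s, hs, hs'⟩ := hW
    exact ⟨_, s, hs, hs', rfl⟩
  obtain ⟨s, hsW, hsT, hsd⟩ := Nat.find_spec hex
  have hmin : ∀ w ∈ WU G R p U, InT R p {x} w → dep s ≤ dep w := by
    intro w hw hwT
    rw [hsd]
    exact Nat.find_min' hex ⟨w, hw, hwT, rfl⟩
  have hJX := InT_single_J B hsT
  have hJY := (hcon s hsW).mp hJX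
  have hge := InT_single_dep B hsT
  have hlt : dep y < dep s := by
    rcases Nat.lt_or_ge (dep y) (dep s) with h | h
    · exact h
    · have e1 := J_eq B hJY h
      have e2 := J_eq B hJX (by omega)
      exact absurd (e2.symm.trans e1) hne
  obtain ⟨z, hz, hzd, hzJ⟩ := J_step1 B hJY hlt
  have hzU : z ∈ U := hU s hsW.1 _ hz hzd
  have hzT : ¬ InT R p {x} z := fun hzT =>
    claimB1 B hU hxy hne hmin hzT hzU (by omega) hzJ
  have hsx : s ≠ x := fun h => by subst h; omega
  have hzp : z ≠ p s := by
    rintro rfl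
    exact hzT (InT_par B hsT hsx).1
  have hnt := B.nt_of_up hz hzd hzp
  have hzW : z ∈ WU G R p U := ⟨hzU, s, hsW.1, BFS.nt_symm hnt⟩
  have hzX := (hcon z hzW).mpr hzJ
  exact claimC1 B hU hmin (dep z) z rfl hzU hzT (by omega) hzX

/-- Every vertex of `U` outside the root set has a member of `WU` below it. -/
def Good (G : SimpleGraph V) (R : Set V) (p : V → V) (U : Set V) : Prop :=
  ∀ v ∈ U, v ∉ R → ∃ s ∈ WU G R p U, InT R p {v} s

/-- Elements inside `U` are separated by `WU` and the root. -/
theorem resolveU {r : V} (B : BFS G {r} dep p) {U : Set V} (hU : UpClosed G dep U)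
    (hgood : Good G {r} p U) {a b c d : V} (hab : a = b ∨ G.Adj a b) (hcd : c = d ∨ G.Adj c d)
    (hle : dep a ≤ dep b) (hle' : dep c ≤ dep d) (hk : dep a = dep c)
    (haU : a ∈ U) (hbU : b ∈ U) (hcU : c ∈ U) (hdU : d ∈ U)
    (hne1 : ¬ (a = c ∧ b = d)) (hne2 : ¬ (a = d ∧ b = c)) :
    ∃ s ∈ WU G {r} p U, min (G.dist s a) (G.dist s b) ≠ min (G.dist s c) (G.dist s d) := by
  have hpos : ∀ {x y : V}, x ≠ y → 0 < G.dist x y := fun h => B.conn.pos_dist_of_ne h
  have hnR : ∀ {x : V}, 0 < dep x → x ∉ ({r} : Set V) := fun h h' => by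
    have := B.dep_root h'; omega
  have hb1 : dep b ≤ dep a + 1 := by
    rcases hab with rfl | h
    · omega
    · exact B.dep_adj h.symm
  have hd1 : dep d ≤ dep c + 1 := by
    rcases hcd with rfl | h
    · omega
    · exact B.dep_adj h.symm
  -- horizontal edges
  have hor : ∀ {a b c d : V}, G.Adj a b → dep a = dep b → a ∈ U → b ∈ U →
      ¬ (a = c ∧ b = d) → ¬ (a = d ∧ b = c) →
      ∃ s ∈ WU G {r} p U, min (G.dist s a) (G.dist s b) ≠ min (G.dist s c) (G.dist s d) := by
    intro a b c d hab heq haU hbU hne1 hne2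
    have hnt : NT G {r} p a b := ⟨hab, fun h => hab.ne (by rw [h.1, h.2]),
      B.p_ne heq.le hab.ne, B.p_ne heq.ge hab.symm.ne⟩
    by_cases ha : a = c ∨ a = d
    · have hb' : b ≠ c ∧ b ≠ d := by
        rcases ha with rfl | rfl
        · exact ⟨hab.symm.ne, fun h => hne1 ⟨rfl, h⟩⟩
        · exact ⟨fun h => hne2 ⟨rfl, h⟩, hab.symm.ne⟩
      refine ⟨b, ⟨hbU, a, haU, BFS.nt_symm hnt⟩, ?_⟩
      have e1 := hpos hb'.1
      have e2 := hpos hb'.2
      have e3 : G.dist b b = 0 := dist_self
      omega
    · push Not at ha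
      refine ⟨a, ⟨haU, b, hbU, hnt⟩, ?_⟩
      have e1 := hpos ha.1
      have e2 := hpos ha.2
      have e3 : G.dist a a = 0 := dist_self
      omega
  -- vertical versus flat
  have vert : ∀ {a b c d : V}, G.Adj a b → dep b = dep a + 1 → a ∈ U → b ∈ U → dep c = dep a →
      dep d = dep a →
      ∃ s ∈ WU G {r} p U, min (G.dist s a) (G.dist s b) ≠ min (G.dist s c) (G.dist s d) := by
    intro a b c d hab hb haU hbU hc hd
    obtain ⟨s, hs, hT⟩ := hgood b hbU (hnR (by omega))
    have e1 := InT_single_J B hT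
    have e2 := B.dep_lip s c
    have e3 := B.dep_lip s d
    exact ⟨s, hs, by omega⟩
  rcases Nat.lt_or_ge (dep a) (dep b) with hlt | hge
  · have hab' : G.Adj a b := by
      rcases hab with rfl | h
      · omega
      · exact h
    rcases Nat.lt_or_ge (dep c) (dep d) with hlt' | hge'
    · have hcd' : G.Adj c d := by
        rcases hcd with rfl | h
        · omega
        · exact h
      by_cases hbd : b = d
      · subst hbd
        have hac : a ≠ c := fun h => hne1 ⟨h, rfl⟩
        by_cases hp : p b = a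
        · have hpc : p b ≠ c := fun h => hac (hp.symm.trans h)
          have hnt : NT G {r} p b c := B.nt_of_up hcd'.symm (by omega) (fun h => hpc h.symm)
          refine ⟨c, ⟨hcU, b, hbU, BFS.nt_symm hnt⟩, ?_⟩
          have e1 := hpos hac.symm
          have e2 := hpos hcd'.ne
          have e3 : G.dist c c = 0 := dist_self
          omega
        · have hnt : NT G {r} p b a := B.nt_of_up hab'.symm (by omega) (fun h => hp h.symm)
          refine ⟨a, ⟨haU, b, hbU, BFS.nt_symm hnt⟩, ?_⟩
          have e1 := hpos hac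
          have e2 := hpos hab'.ne
          have e3 : G.dist a a = 0 := dist_self
          omega
      · obtain ⟨s, hs, hJ⟩ := lemmaA1 B hU (x := b) (y := d) (by omega) hbd
          (hgood b hbU (hnR (by omega)))
        have e1 := B.dep_lip s a
        have e2 := B.dep_lip s b
        have e3 := B.dep_lip s c
        have e4 := B.dep_lip s d
        exact ⟨s, hs, by omega⟩
    · exact vert hab' (by omega) haU hbU (by omega) (by omega)
  · rcases Nat.lt_or_ge (dep c) (dep d) with hlt' | hge'
    · have hcd' : G.Adj c d := by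
        rcases hcd with rfl | h
        · omega
        · exact h
      obtain ⟨s, hs, h⟩ := vert (c := a) (d := b) hcd' (by omega) hcU hdU (by omega) (by omega)
      exact ⟨s, hs, h.symm⟩
    · rcases hab with rfl | hab
      · rcases hcd with rfl | hcd
        · have hac : a ≠ c := fun h => hne1 ⟨h, h⟩
          by_cases ha0 : dep a = 0
          · exfalso
            have e1 : a = r := B.root_of_dep ha0
            have e2 : c = r := B.root_of_dep (by omega)
            exact hac (e1.trans e2.symm)
          · obtain ⟨s, hs, hJ⟩ := lemmaA1 B hU (x := a) (y := c) hk hac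
              (hgood a haU (hnR (by omega)))
            exact ⟨s, hs, by simp only [min_self]; omega⟩
        · obtain ⟨s, hs, h⟩ := hor (c := a) (d := a) hcd (by omega) hcU hdU
            (fun h => hne1 ⟨h.1.symm, h.2.symm⟩) (fun h => hne1 ⟨h.1.symm, h.2.symm⟩)
          exact ⟨s, hs, h.symm⟩
      · exact hor hab (by omega) haU hbU hne1 hne2

end Pool.Agent.R11.Mix
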