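import Mathlib

set_option autoImplicit false

namespace Pool.Agent.R11.Mix

/-- same top position -/
theorem arith_same (N A c : ℤ) (s q : ℤ → ℤ) (hc : 2 * c = N ∨ 2 * c = N + 1)
    (hs1 : ∀ x, 2 * x ≤ N → s x = A + x) (hs2 : ∀ x, N < 2 * x → A + N - x < s x)
    (hq1 : ∀ x, x ≤ c → q x = c - x) (hq2 : ∀ x, c ≤ x → q x = x - c)
    (i j' : ℤ) (h : (j' = i + 1 ∧ 2 * i + 1 ≤ N) ∨ (i = j' + 1 ∧ N ≤ 2 * j' + 1)) :
    ¬ (s i ≤ s j' ∧ q i ≤ q j') := by
  rintro ⟨e1, e2⟩
  rcases h with ⟨rfl, h⟩ | ⟨rfl, h⟩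
  · rw [hq1 i (by omega), hq1 (i + 1) (by omega)] at e2
    omega
  · by_cases hcc : c = j' + 1
    · rw [hs1 j' (by omega)] at e1
      have := hs2 (j' + 1) (by omega)
      omega
    · rw [hq2 (j' + 1) (by omega), hq2 j' (by omega)] at e2
      omega

/-- mirrored top positions -/
theorem arith_mir (N A c : ℤ) (s q : ℤ → ℤ) (hc : 2 * c = N ∨ 2 * c = N + 1)
    (hs1 : ∀ x, 2 * x ≤ N → s x = A + x) (hs2 : ∀ x, N < 2 * x → A + N - x < s x)
    (hq1 : ∀ x, x ≤ c → q x = c - x)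
    (i j i' j' : ℤ) (hlt : i < i') (h3 : i + i' = N)
    (ht : i = j ∨ (j = i + 1 ∧ 2 * i + 1 ≤ N)) (ht' : i' = j' ∨ (i' = j' + 1 ∧ N ≤ 2 * j' + 1))
    (n2 : ¬ (i = j' ∧ j = i')) :
    ¬ (min (s i) (s j) = min (s i') (s j') ∧ min (q i) (q j) = min (q i') (q j')) := by
  rintro ⟨e1, e2⟩
  have a1 := hs1 i (by omega)
  have a2 := hs2 i' (by omega)
  by_cases hor : i' = i + 1
  · have hc' : c = i' := by clear e1 e2 n2 ht ht'; omega
    have b1 := hq1 i (by clear e1 e2 n2 ht ht'; omega)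
    have b2 := hq1 i' (by clear e1 e2 n2 ht ht'; omega)
    rcases ht with rfl | ⟨rfl, h⟩
    · rcases ht' with rfl | ⟨h5, h⟩
      · rw [min_self, min_self] at e1
        clear e2 n2
        omega
      · have : j' = i := by clear e1 e2 n2; omega
        subst this
        rw [b1, b2, min_self] at e2
        clear e1 n2 a1 a2
        omega
    · rcases ht' with rfl | ⟨h5, h6⟩
      · have h7 : min (s i) (s (i + 1)) ≤ s i := min_le_left _ _
        rw [e1, min_self] at h7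
        clear e1 e2 n2
        omega
      · exact n2 ⟨by omega, by omega⟩
  · have a3 : min (s i) (s j) ≤ A + i := by rw [← a1]; exact min_le_left _ _
    rw [e1] at a3
    clear e1 e2 n2 hc
    rcases ht' with rfl | ⟨h5, h⟩
    · rw [min_self] at a3
      clear ht
      omega
    · rcases le_or_gt (2 * j') N with h6 | h6
      · have a4 := hs1 j' h6
        clear ht
        rw [min_le_iff] at a3
        omega
      · have a4 := hs2 j' h6
        clear ht
        rw [min_le_iff] at a3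
        omega

/-- positions of an element and its mirror image, in terms of `N = ζ + l - δ`. -/
theorem arith_neg (N A c : ℤ) (s q : ℤ → ℤ) (hc : 2 * c = N ∨ 2 * c = N + 1)
    (hs1 : ∀ x, 2 * x ≤ N → s x = A + x) (hs2 : ∀ x, N < 2 * x → A + N - x < s x)
    (hq1 : ∀ x, x ≤ c → q x = c - x) (hq2 : ∀ x, c ≤ x → q x = x - c)
    (i j i' j' : ℤ)
    (ht : i = j ∨ (j = i + 1 ∧ 2 * i + 1 ≤ N) ∨ (i = j + 1 ∧ N ≤ 2 * j + 1))
    (ht' : i' = j' ∨ (j' = i' + 1 ∧ 2 * i' + 1 ≤ N) ∨ (i' = j' + 1 ∧ N ≤ 2 * j' + 1))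
    (h3 : i = i' ∨ i + i' = N)
    (n1 : ¬ (i = i' ∧ j = j')) (n2 : ¬ (i = j' ∧ j = i'))
    (e1 : min (s i) (s j) = min (s i') (s j')) (e2 : min (q i) (q j) = min (q i') (q j')) :
    False := by
  have same := arith_same N A c s q hc hs1 hs2 hq1 hq2
  have mir := arith_mir N A c s q hc hs1 hs2 hq1
  have eqcase : i = i' → False := by
    rintro rfl
    rcases ht with rfl | ht
    · rcases ht' with rfl | ht'
      · exact n1 ⟨rfl, rfl⟩
      · rw [min_self] at e1 e2
        exact same _ _ ht' ⟨min_eq_left_iff.mp e1.symm, min_eq_left_iff.mp e2.symm⟩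
    · rcases ht' with rfl | ht'
      · rw [min_self] at e1 e2
        exact same _ _ ht ⟨min_eq_left_iff.mp e1, min_eq_left_iff.mp e2⟩
      · clear e1 e2 n2 h3 hc
        rcases ht with ⟨h1, k⟩ | ⟨k1, k⟩ <;> rcases ht' with ⟨h1', k'⟩ | ⟨k1', k'⟩
        · exact n1 ⟨rfl, by omega⟩
        · omega
        · omega
        · exact n1 ⟨rfl, by omega⟩
  rcases h3 with h3 | h3
  · exact eqcase h3
  · rcases lt_trichotomy i i' with h | h | h
    · refine mir i j i' j' h h3 ?_ ?_ n2 ⟨e1, e2⟩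
      · clear e1 e2 n1 n2 hc ht'
        omega
      · clear e1 e2 n1 n2 hc ht
        omega
    · exact eqcase h
    · refine mir i' j' i j h (by rw [add_comm]; exact h3) ?_ ?_
        (fun h => n2 ⟨h.2.symm, h.1.symm⟩) ⟨e1.symm, e2.symm⟩
      · clear e1 e2 n1 n2 hc ht
        omega
      · clear e1 e2 n1 n2 hc ht'
        omega

end Pool.Agent.R11.Mix
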