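import Pool.Agent.R11.MixA

set_option autoImplicit false

/-!
Threads (paths whose interior vertices have degree two) and mixed resolving sets.
-/

namespace Pool.Agent.R11.Mix

open SimpleGraph Pool.Agent.Helper431

variable {V : Type*} {G : SimpleGraph V} {dep : V → ℕ} {p : V → V}

theorem path_fn (F : ℕ → ℕ) (l : ℕ)
    (hF : ∀ i, 0 < i → i < l → F i = F (i - 1) + 1 ∨ F i = F (i + 1) + 1) :
    ∀ i, i ≤ l → F i = F 0 + i ∨ F i = F l + (l - i) := by
  have h1 : ∀ i, i + 1 ≤ l → F (i + 1) = F i + 1 → F (i + 1) = F 0 + (i + 1) := by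
    intro i
    induction i with
    | zero => intro _ h; omega
    | succ i ih =>
      intro hi h
      rcases hF (i + 1) (by omega) (by omega) with h' | h'
      · simp only [Nat.add_sub_cancel] at h'
        have := ih (by omega) h'
        omega
      · omega
  have h2 : ∀ m i, i + m + 1 = l → F i = F (i + 1) + 1 → F i = F l + (l - i) := by
    intro m
    induction m with
    | zero =>
      intro i hi h
      have : i + 1 = l := by omega
      rw [← this]
      rw [h]; congr 1; omega
    | succ m ih =>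
      intro i hi h
      rcases hF (i + 1) (by omega) (by omega) with h' | h'
      · simp only [Nat.add_sub_cancel] at h'
        omega
      · have := ih (i + 1) (by omega) h'
        omega
  intro i hi
  rcases Nat.eq_zero_or_pos i with rfl | h0
  · left; omega
  rcases Nat.lt_or_ge i l with hl | hl
  · rcases hF i h0 hl with h | h
    · left
      have := h1 (i - 1) (by omega) (by rw [show i - 1 + 1 = i by omega]; exact h)
      rw [show i - 1 + 1 = i by omega] at this
      exact this
    · right
      exact h2 (l - i - 1) i (by omega) h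
  · right
    have : i = l := by omega
    subst this
    omega

/-- A thread with BFS depths going up and down again. -/
structure Thread (G : SimpleGraph V) (dep : V → ℕ) (φ : ℕ → V) (l : ℕ) : Prop where
  adj : ∀ i, i < l → G.Adj (φ i) (φ (i + 1))
  nbr : ∀ i, 0 < i → i < l → ∀ u, G.Adj (φ i) u → u = φ (i - 1) ∨ u = φ (i + 1)
  depth : ∀ i, i ≤ l → dep (φ i) = min (dep (φ 0) + i) (dep (φ l) + (l - i))
  up0 : dep (φ 0) + 2 ≤ dep (φ l) + l
  upl : dep (φ l) + 2 ≤ dep (φ 0) + l
  end0 : ∀ i, 0 < i → i < l → φ 0 ≠ φ i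
  endl : ∀ i, 0 < i → i < l → φ l ≠ φ i
  ne : φ 0 ≠ φ l

/-- Complement of the interior of a thread. -/
def Out (φ : ℕ → V) (l : ℕ) : Set V := {v | ∀ i, 0 < i → i < l → v ≠ φ i}

namespace Thread

variable {φ : ℕ → V} {l : ℕ}

theorem two_le (T : Thread G dep φ l) : 2 ≤ l := by
  have := T.up0
  have := T.upl
  omega

theorem mem0 (T : Thread G dep φ l) : φ 0 ∈ Out φ l := T.end0
theorem meml (T : Thread G dep φ l) : φ l ∈ Out φ l := T.endl

theorem not_mem {v : V} (h : v ∉ Out φ l) : ∃ i, 0 < i ∧ i < l ∧ v = φ i := by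
  unfold Out at h
  simp only [Set.mem_setOf_eq, not_forall, not_not] at h
  obtain ⟨i, h1, h2, h3⟩ := h
  exact ⟨i, h1, h2, h3⟩

theorem lip (T : Thread G dep φ l) (hc : G.Connected) (s : V) {i : ℕ} (hi : i < l) :
    G.dist s (φ i) ≤ G.dist s (φ (i + 1)) + 1 ∧ G.dist s (φ (i + 1)) ≤ G.dist s (φ i) + 1 := by
  have h1 : G.dist (φ i) (φ (i + 1)) = 1 := dist_eq_one_iff_adj.mpr (T.adj i hi)
  have h2 : G.dist s (φ (i + 1)) ≤ G.dist s (φ i) + G.dist (φ i) (φ (i + 1)) := hc.dist_triangle
  have h3 : G.dist s (φ i) ≤ G.dist s (φ (i + 1)) + G.dist (φ (i + 1)) (φ i) := hc.dist_triangle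
  rw [dist_comm] at h1
  rw [dist_comm (u := φ i)] at h2
  omega

theorem le0 (T : Thread G dep φ l) (hc : G.Connected) (s : V) :
    ∀ i, i ≤ l → G.dist s (φ i) ≤ G.dist s (φ 0) + i := by
  intro i
  induction i with
  | zero => intro _; omega
  | succ i ih =>
    intro hi
    have h1 := ih (by omega)
    have h2 := T.lip hc s (i := i) (by omega)
    omega

theorem lel (T : Thread G dep φ l) (hc : G.Connected) (s : V) :
    ∀ m i, i + m = l → G.dist s (φ i) ≤ G.dist s (φ l) + m := by
  intro m
  induction m with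
  | zero =>
    intro i hi
    have : i = l := by omega
    subst this
    omega
  | succ m ih =>
    intro i hi
    have h1 := ih (i + 1) (by omega)
    have h2 := T.lip hc s (i := i) (by omega)
    omega

/-- Distances from outside the thread to its vertices. -/
theorem dist_out (T : Thread G dep φ l) (hc : G.Connected) {s : V} (hs : s ∈ Out φ l) {i : ℕ}
    (hi : i ≤ l) :
    G.dist s (φ i) = min (G.dist s (φ 0) + i) (G.dist s (φ l) + (l - i)) := by
  have h1 := T.le0 hc s i hi
  have h2 := T.lel hc s (l - i) i (by omega)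
  have h3 := path_fn (fun i => G.dist s (φ i)) l (by
    intro i h0 hl
    have hne : φ i ≠ s := fun h => hs i h0 hl h.symm
    obtain ⟨z, hz, hz'⟩ := exists_next hc hne
    rw [dist_comm (u := z), dist_comm (u := φ i)] at hz'
    rcases T.nbr i h0 hl z hz with rfl | rfl
    · left; omega
    · right; omega) i hi
  omega

/-- Leaving upwards never enters the thread. -/
theorem upClosed (T : Thread G dep φ l) : UpClosed G dep (Out φ l) := by
  intro v hv u hvu hd
  by_contra hu
  obtain ⟨i, h0, hl, rfl⟩ := not_mem hu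
  have e1 := T.depth i hl.le
  have e2 := T.depth (i - 1) (by omega)
  have e3 := T.depth (i + 1) (by omega)
  have e4 := T.up0
  have e5 := T.upl
  rcases T.nbr i h0 hl v hvu.symm with rfl | rfl
  · have : i - 1 = 0 := by
      by_contra h
      exact hv (i - 1) (by omega) (by omega) rfl
    have hi : i = 1 := by omega
    subst hi
    simp only [Nat.sub_self] at *
    omega
  · have : i + 1 = l := by
      by_contra h
      exact hv (i + 1) (by omega) (by omega) rfl
    subst this
    omega

/-- Points of the thread are far from outside points. -/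
theorem far {r : V} (T : Thread G dep φ l) (B : BFS G {r} dep p) {s : V} (hs : s ∈ Out φ l)
    {x : ℕ} (hx0 : 0 < x) (hxl : x < l) : dep s + 2 ≤ G.dist s (φ x) + dep (φ x) := by
  have h1 := T.dist_out B.conn hs hxl.le
  have h2 := T.depth x hxl.le
  have h3 := B.dep_lip s (φ 0)
  have h4 := B.dep_lip s (φ l)
  have h5 := T.up0
  have h6 := T.upl
  omega

/-- An element of the graph is outside the thread or on it. -/
theorem classify (T : Thread G dep φ l) {a b : V} (hab : a = b ∨ G.Adj a b) :
    (a ∈ Out φ l ∧ b ∈ Out φ l) ∨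
    ∃ i j, i ≤ l ∧ j ≤ l ∧ a = φ i ∧ b = φ j ∧
      ((i = j ∧ 0 < i ∧ i < l) ∨ j = i + 1 ∨ i = j + 1) := by
  by_cases ha : a ∈ Out φ l
  · by_cases hb : b ∈ Out φ l
    · exact Or.inl ⟨ha, hb⟩
    · right
      obtain ⟨j, h0, hl, rfl⟩ := not_mem hb
      rcases hab with rfl | hab
      · exact absurd ha hb
      · rcases T.nbr j h0 hl a hab.symm with rfl | rfl
        · exact ⟨j - 1, j, by omega, by omega, rfl, rfl, by omega⟩
        · exact ⟨j + 1, j, by omega, by omega, rfl, rfl, by omega⟩
  · right
    obtain ⟨i, h0, hl, rfl⟩ := not_mem ha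
    rcases hab with h | hab
    · exact ⟨i, i, by omega, by omega, rfl, h.symm, by omega⟩
    · rcases T.nbr i h0 hl b hab with rfl | rfl
      · exact ⟨i, i - 1, by omega, by omega, rfl, rfl, by omega⟩
      · exact ⟨i, i + 1, by omega, by omega, rfl, rfl, by omega⟩

/-- Some outside member of `W` sees the two ends of the thread differently. -/
theorem exists_s0 {r : V} (T : Thread G dep φ l) (B : BFS G {r} dep p)
    (hgood : Good G {r} p (Out φ l)) :
    ∃ s ∈ WU G {r} p (Out φ l),
      G.dist s (φ 0) + dep (φ l) ≠ G.dist s (φ l) + dep (φ 0) := by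
  have hnR : ∀ {x : V}, 0 < dep x → x ∉ ({r} : Set V) := fun h h' => by
    have := B.dep_root h'; omega
  rcases Nat.lt_trichotomy (dep (φ 0)) (dep (φ l)) with h | h | h
  · obtain ⟨s, hs, hT⟩ := hgood (φ l) T.meml (hnR (by omega))
    have e1 := InT_single_J B hT
    have e2 := B.dep_lip s (φ 0)
    exact ⟨s, hs, by omega⟩
  · by_cases h0 : dep (φ 0) = 0
    · exfalso
      have e1 : φ 0 = r := B.root_of_dep h0
      have e2 : φ l = r := B.root_of_dep (by omega)
      exact T.ne (e1.trans e2.symm)
    · obtain ⟨s, hs, hJ⟩ := lemmaA1 B T.upClosed h T.ne (hgood (φ 0) T.mem0 (hnR (by omega)))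
      exact ⟨s, hs, by omega⟩
  · obtain ⟨s, hs, hT⟩ := hgood (φ 0) T.mem0 (hnR (by omega))
    have e1 := InT_single_J B hT
    have e2 := B.dep_lip s (φ l)
    exact ⟨s, hs, by omega⟩

/-- Distances from a well chosen point `φ c` of the thread. -/
theorem dist_mid (T : Thread G dep φ l) (hc : G.Connected) {c : ℕ} (hcl : c ≤ l)
    (h1 : c ≤ G.dist (φ 0) (φ l) + (l - c)) (h2 : l - c ≤ G.dist (φ 0) (φ l) + c) {i : ℕ}
    (hi : i ≤ l) : G.dist (φ c) (φ i) = (c - i) + (i - c) := by
  have e1 := T.dist_out hc T.mem0 hcl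
  have e2 := T.dist_out hc T.meml hcl
  rw [dist_self] at e1 e2
  rw [dist_comm (u := φ l) (v := φ 0)] at e2
  have g1 : G.dist (φ 0) (φ c) = c := by omega
  have g2 : G.dist (φ l) (φ c) = l - c := by omega
  have k1 := T.le0 hc (φ 0) i hi
  have k2 := T.lel hc (φ l) (l - i) i (by omega)
  rw [dist_self] at k1 k2
  have t1 : G.dist (φ 0) (φ c) ≤ G.dist (φ 0) (φ i) + G.dist (φ i) (φ c) := hc.dist_triangle
  have t2 : G.dist (φ l) (φ c) ≤ G.dist (φ l) (φ i) + G.dist (φ i) (φ c) := hc.dist_triangle
  rw [dist_comm (u := φ i)] at t1 t2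
  have lip : ∀ m x, x + m ≤ l → G.dist (φ c) (φ (x + m)) ≤ G.dist (φ c) (φ x) + m ∧
      G.dist (φ c) (φ x) ≤ G.dist (φ c) (φ (x + m)) + m := by
    intro m
    induction m with
    | zero => intro x _; simp
    | succ m ih =>
      intro x hx
      have a1 := ih x (by omega)
      have a2 := T.lip hc (φ c) (i := x + m) (by omega)
      rw [← Nat.add_assoc]
      omega
  rcases Nat.lt_or_ge i c with h | h
  · have := (lip (c - i) i (by omega)).2
    rw [show i + (c - i) = c by omega, dist_self] at this
    omega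
  · have := (lip (i - c) c (by omega)).1
    rw [show c + (i - c) = i by omega, dist_self] at this
    omega

end Thread

end Pool.Agent.R11.Mix
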