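import Pool.Agent.R11.MixB
import Pool.Agent.R11.MixArith

set_option autoImplicit false

namespace Pool.Agent.R11.Mix

open SimpleGraph Pool.Agent.Helper431

variable {V : Type*} {G : SimpleGraph V} {dep : V → ℕ} {p : V → V}

/-- Set of vertices used for the elements which involve the thread. -/
def SQ (G : SimpleGraph V) (r : V) (p : V → V) (U : Set V) (q : V) : Set V :=
  {s | s = q ∨ s ∈ WU G {r} p U}

namespace Thread

variable {φ : ℕ → V} {l : ℕ} {r : V}

theorem inner (T : Thread G dep φ l) {i j : ℕ} (hi : i ≤ l) (hj : j ≤ l)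
    (ht : (i = j ∧ 0 < i ∧ i < l) ∨ j = i + 1 ∨ i = j + 1) (hle : dep (φ i) ≤ dep (φ j)) :
    0 < j ∧ j < l := by
  have e1 := T.depth i hi
  have e2 := T.depth j hj
  have e3 := T.up0
  have e4 := T.upl
  rcases ht with ⟨rfl, h1, h2⟩ | rfl | rfl
  · exact ⟨h1, h2⟩
  · refine ⟨by omega, ?_⟩
    by_contra h
    have : i + 1 = l := by omega
    subst this
    omega
  · refine ⟨?_, by omega⟩
    by_contra h
    have : j = 0 := by omega
    subst this
    omega

/-- an outside element against an element of the thread. -/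
theorem uq (T : Thread G dep φ l) (B : BFS G {r} dep p) (hgood : Good G {r} p (Out φ l))
    {q : V} (hq0 : G.dist q (φ 1) < G.dist q (φ 0))
    (hql : G.dist q (φ (l - 1)) < G.dist q (φ l)) {a b : V} (hab : a = b ∨ G.Adj a b)
    (hle : dep a ≤ dep b) (haU : a ∈ Out φ l) (hbU : b ∈ Out φ l) {i j : ℕ} (hi : i ≤ l)
    (hj : j ≤ l) (ht : (i = j ∧ 0 < i ∧ i < l) ∨ j = i + 1 ∨ i = j + 1)
    (hle' : dep (φ i) ≤ dep (φ j)) (hk : dep a = dep (φ i)) :
    ∃ s ∈ SQ G r p (Out φ l) q,
      min (G.dist s a) (G.dist s b) ≠ min (G.dist s (φ i)) (G.dist s (φ j)) := by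
  have hpos : ∀ {x y : V}, x ≠ y → 0 < G.dist x y := fun h => B.conn.pos_dist_of_ne h
  have hnR : ∀ {x : V}, 0 < dep x → x ∉ ({r} : Set V) := fun h h' => by
    have := B.dep_root h'; omega
  obtain ⟨hj0, hjl⟩ := T.inner hi hj ht hle'
  have hdj : dep (φ j) ≤ dep (φ i) + 1 := by
    rcases ht with ⟨rfl, -, -⟩ | rfl | rfl
    · omega
    · exact B.dep_adj (T.adj i (by omega)).symm
    · exact B.dep_adj (T.adj j (by omega))
  have hbb : dep b ≤ dep a + 1 := by
    rcases hab with rfl | h
    · omega
    · exact B.dep_adj h.symm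
  rcases Nat.lt_or_ge (dep a) (dep b) with hlt | hge
  · obtain ⟨s, hs, hT⟩ := hgood b hbU (hnR (by omega))
    have e1 := InT_single_J B hT
    have e2 := T.far B hs.1 hj0 hjl
    have e3 := B.dep_lip s (φ i)
    exact ⟨s, Or.inr hs, by omega⟩
  · rcases hab with rfl | hab
    · simp only [min_self]
      by_cases hin : 0 < i ∧ i < l
      · have e0 := T.depth i hi
        obtain ⟨s, hs, hT⟩ := hgood a haU (hnR (by omega))
        have e1 := InT_single_J B hT
        have e2 := T.far B hs.1 hj0 hjl
        have e3 := T.far B hs.1 hin.1 hin.2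
        exact ⟨s, Or.inr hs, by omega⟩
      · by_cases hai : a = φ i
        · subst hai
          refine ⟨q, Or.inl rfl, ?_⟩
          rcases ht with ⟨-, h1, h2⟩ | rfl | rfl
          · exact absurd ⟨h1, h2⟩ hin
          · have : i = 0 := by omega
            subst this
            rw [Nat.zero_add] at *
            omega
          · have e : j + 1 = l := by omega
            subst e
            rw [Nat.add_sub_cancel] at hql
            omega
        · have hiU : φ i ∈ Out φ l := by
            rcases Nat.eq_zero_or_pos i with rfl | h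
            · exact T.mem0
            · have : i = l := by omega
              subst this
              exact T.meml
          by_cases h0 : dep a = 0
          · exfalso
            have e1 : a = r := B.root_of_dep h0
            have e2 : φ i = r := B.root_of_dep (by omega)
            exact hai (e1.trans e2.symm)
          · obtain ⟨s, hs, hJ⟩ := lemmaA1 B T.upClosed hk hai (hgood a haU (hnR (by omega)))
            have e1 := T.far B hs.1 hj0 hjl
            have e2 := B.dep_lip s a
            have e3 := B.dep_lip s (φ i)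
            exact ⟨s, Or.inr hs, by omega⟩
    · have heq : dep a = dep b := by omega
      have hnt : NT G {r} p a b := ⟨hab, fun h => hab.ne (by rw [h.1, h.2]),
        B.p_ne heq.le hab.ne, B.p_ne heq.ge hab.symm.ne⟩
      by_cases hai : a = φ i
      · have hbi : b ≠ φ i := fun h => hab.ne (hai.trans h.symm)
        refine ⟨b, Or.inr ⟨hbU, a, haU, BFS.nt_symm hnt⟩, ?_⟩
        have e1 := hpos hbi
        have e2 := hpos (hbU j hj0 hjl)
        have e3 : G.dist b b = 0 := dist_self
        omega
      · refine ⟨a, Or.inr ⟨haU, b, hbU, hnt⟩, ?_⟩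
        have e1 := hpos hai
        have e2 := hpos (haU j hj0 hjl)
        have e3 : G.dist a a = 0 := dist_self
        omega

/-- The main separation statement when `s0` is nearer to the start of the thread. -/
theorem resolve_neg (T : Thread G dep φ l) (B : BFS G {r} dep p)
    (hgood : Good G {r} p (Out φ l)) {s0 : V} (hs0 : s0 ∈ WU G {r} p (Out φ l))
    (hlt : G.dist s0 (φ 0) + dep (φ l) < G.dist s0 (φ l) + dep (φ 0)) :
    ∃ q : V, ∀ a b c d : V, (a = b ∨ G.Adj a b) → (c = d ∨ G.Adj c d) → dep a ≤ dep b →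
      dep c ≤ dep d → dep a = dep c → ¬ (a = c ∧ b = d) → ¬ (a = d ∧ b = c) →
      ∃ s ∈ SQ G r p (Out φ l) q,
        min (G.dist s a) (G.dist s b) ≠ min (G.dist s c) (G.dist s d) := by
  have hc := B.conn
  have u0 := T.up0
  have ul := T.upl
  have hD1 := B.dep_lip (φ 0) (φ l)
  have hD2 : G.dist s0 (φ l) ≤ G.dist s0 (φ 0) + G.dist (φ 0) (φ l) := hc.dist_triangle
  obtain ⟨c, hc1⟩ : ∃ c : ℕ, 2 * c + dep (φ 0) = dep (φ l) + l ∨
      2 * c + dep (φ 0) = dep (φ l) + l + 1 :=
    ⟨(dep (φ l) + l - dep (φ 0) + 1) / 2, by omega⟩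
  have hcl : c < l := by omega
  have hc0 : 0 < c := by omega
  have hmid : ∀ i, i ≤ l → G.dist (φ c) (φ i) = (c - i) + (i - c) := fun i hi =>
    T.dist_mid hc hcl.le (by omega) (by omega) hi
  refine ⟨φ c, ?_⟩
  have hq0 : G.dist (φ c) (φ 1) < G.dist (φ c) (φ 0) := by
    rw [hmid 1 (by omega), hmid 0 (by omega)]; omega
  have hql : G.dist (φ c) (φ (l - 1)) < G.dist (φ c) (φ l) := by
    rw [hmid (l - 1) (by omega), hmid l le_rfl]; omega
  intro a b x y hab hxy hle hle' hk hne1 hne2
  rcases T.classify hab with ⟨haU, hbU⟩ | ⟨i, j, hi, hj, rfl, rfl, ht⟩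
  · rcases T.classify hxy with ⟨hxU, hyU⟩ | ⟨i, j, hi, hj, rfl, rfl, ht⟩
    · obtain ⟨s, hs, h⟩ := resolveU B T.upClosed hgood hab hxy hle hle' hk haU hbU hxU hyU
        hne1 hne2
      exact ⟨s, Or.inr hs, h⟩
    · exact T.uq B hgood hq0 hql hab hle haU hbU hi hj ht hle' hk
  · rcases T.classify hxy with ⟨hxU, hyU⟩ | ⟨i', j', hi', hj', rfl, rfl, ht'⟩
    · obtain ⟨s, hs, h⟩ := T.uq B hgood hq0 hql hxy hle' hxU hyU hi hj ht hle hk.symm
      exact ⟨s, hs, h.symm⟩
    · by_contra hcon
      push Not at hcon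
      have e1 := hcon s0 (Or.inr hs0)
      have e2 := hcon (φ c) (Or.inl rfl)
      have dO := fun x (hx : x ≤ l) => T.dist_out hc hs0.1 hx
      rw [dO i hi, dO j hj, dO i' hi', dO j' hj'] at e1
      rw [hmid i hi, hmid j hj, hmid i' hi', hmid j' hj'] at e2
      have n1 : ¬ (i = i' ∧ j = j') := fun h => hne1 (by rw [h.1, h.2]; exact ⟨rfl, rfl⟩)
      have n2 : ¬ (i = j' ∧ j = i') := fun h => hne2 (by rw [h.1, h.2]; exact ⟨rfl, rfl⟩)
      have di := T.depth i hi
      have dj := T.depth j hj
      have di' := T.depth i' hi'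
      have dj' := T.depth j' hj'
      rw [di, dj] at hle
      rw [di', dj'] at hle'
      rw [di, di'] at hk
      have k1 : (i : ℤ) = j ∨ ((j : ℤ) = i + 1 ∧
          2 * (i : ℤ) + 1 ≤ (dep (φ l) : ℤ) + l - dep (φ 0)) ∨ ((i : ℤ) = j + 1 ∧
          (dep (φ l) : ℤ) + l - dep (φ 0) ≤ 2 * (j : ℤ) + 1) := by
        clear e1 e2 hcon hk hle' di dj di' dj' ht' n1 n2 hc1
        rcases ht with ⟨rfl, -⟩ | rfl | rfl
        · exact Or.inl rfl
        · right; left
          exact ⟨by push_cast; rfl, by omega⟩
        · right; right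
          exact ⟨by push_cast; rfl, by omega⟩
      have k2 : (i' : ℤ) = j' ∨ ((j' : ℤ) = i' + 1 ∧
          2 * (i' : ℤ) + 1 ≤ (dep (φ l) : ℤ) + l - dep (φ 0)) ∨ ((i' : ℤ) = j' + 1 ∧
          (dep (φ l) : ℤ) + l - dep (φ 0) ≤ 2 * (j' : ℤ) + 1) := by
        clear e1 e2 hcon hk hle di dj di' dj' ht n1 n2 hc1 k1
        rcases ht' with ⟨rfl, -⟩ | rfl | rfl
        · exact Or.inl rfl
        · right; left
          exact ⟨by push_cast; rfl, by omega⟩
        · right; right
          exact ⟨by push_cast; rfl, by omega⟩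
      have k3 : (i : ℤ) = i' ∨ (i : ℤ) + i' = (dep (φ l) : ℤ) + l - dep (φ 0) := by
        clear e1 e2 hcon hle hle' di dj di' dj' ht ht' n1 n2 hc1 k1 k2
        omega
      refine arith_neg ((dep (φ l) : ℤ) + l - dep (φ 0)) (G.dist s0 (φ 0)) c
        (fun x => min ((G.dist s0 (φ 0) : ℤ) + x) ((G.dist s0 (φ l) : ℤ) + (l - x)))
        (fun x => |(c : ℤ) - x|) ?_ ?_ ?_ ?_ ?_ i j i' j' k1 k2 k3 ?_ ?_ ?_ ?_
      · clear e1 e2 hcon hle hle' hk di dj di' dj' ht ht' n1 n2 k1 k2 k3
        omega
      · intro x hx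
        clear e1 e2 hcon hle hle' hk di dj di' dj' ht ht' n1 n2 k1 k2 k3 hc1
        rw [min_eq_left (by omega)]
      · intro x hx
        clear e1 e2 hcon hle hle' hk di dj di' dj' ht ht' n1 n2 k1 k2 k3 hc1
        rw [lt_min_iff]
        constructor <;> omega
      · intro x hx
        rw [abs_of_nonneg (by omega)]
      · intro x hx
        rw [abs_of_nonpos (by omega)]
        ring
      · intro h; exact n1 ⟨by exact_mod_cast h.1, by exact_mod_cast h.2⟩
      · intro h; exact n2 ⟨by exact_mod_cast h.1, by exact_mod_cast h.2⟩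
      · have := congrArg (Nat.cast : ℕ → ℤ) e1
        simp only [Nat.cast_min, Nat.cast_add, Nat.cast_sub hi, Nat.cast_sub hj,
          Nat.cast_sub hi', Nat.cast_sub hj'] at this
        exact this
      · have hab' : ∀ x : ℕ, |(c : ℤ) - x| = (((c - x) + (x - c) : ℕ) : ℤ) := by
          intro x
          rcases le_total x c with h | h
          · rw [abs_of_nonneg (by omega)]; omega
          · rw [abs_of_nonpos (by omega)]; omega
        simp only [hab']
        have := congrArg (Nat.cast : ℕ → ℤ) e2
        simp only [Nat.cast_min] at this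
        exact this

/-- The thread run backwards. -/
theorem reverse (T : Thread G dep φ l) : Thread G dep (fun i => φ (l - i)) l where
  adj i hi := by
    have := T.adj (l - i - 1) (by omega)
    rw [show l - i - 1 + 1 = l - i by omega] at this
    rw [show l - (i + 1) = l - i - 1 by omega]
    exact this.symm
  nbr i h0 hl u hu := by
    rcases T.nbr (l - i) (by omega) (by omega) u hu with h | h
    · right
      rw [h]; congr 1
    · left
      rw [h]; congr 1; omega
  depth i hi := by
    have := T.depth (l - i) (by omega)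
    rw [this]
    simp only [Nat.sub_zero, Nat.sub_self]
    rw [show l - (l - i) = i by omega, min_comm]
  up0 := by
    simp only [Nat.sub_zero, Nat.sub_self]
    exact T.upl
  upl := by
    simp only [Nat.sub_zero, Nat.sub_self]
    exact T.up0
  end0 i h0 hl := by
    simp only [Nat.sub_zero]
    exact T.endl (l - i) (by omega) (by omega)
  endl i h0 hl := by
    simp only [Nat.sub_self]
    exact T.end0 (l - i) (by omega) (by omega)
  ne := by
    simp only [Nat.sub_zero, Nat.sub_self]
    exact T.ne.symm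

theorem out_reverse : Out (fun i => φ (l - i)) l = Out φ l := by
  ext v
  constructor
  · intro h i h0 hl
    have := h (l - i) (by omega) (by omega)
    simp only at this
    rwa [show l - (l - i) = i by omega] at this
  · intro h i h0 hl
    exact h (l - i) (by omega) (by omega)

/-- The main separation statement. -/
theorem resolve (T : Thread G dep φ l) (B : BFS G {r} dep p)
    (hgood : Good G {r} p (Out φ l)) :
    ∃ q : V, ∀ a b c d : V, (a = b ∨ G.Adj a b) → (c = d ∨ G.Adj c d) → dep a ≤ dep b →
      dep c ≤ dep d → dep a = dep c → ¬ (a = c ∧ b = d) → ¬ (a = d ∧ b = c) →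
      ∃ s ∈ SQ G r p (Out φ l) q,
        min (G.dist s a) (G.dist s b) ≠ min (G.dist s c) (G.dist s d) := by
  obtain ⟨s0, hs0, hne⟩ := T.exists_s0 B hgood
  rcases Nat.lt_or_gt_of_ne hne with h | h
  · exact T.resolve_neg B hgood hs0 h
  · have := T.reverse.resolve_neg B (s0 := s0) (by rw [out_reverse]; exact hgood)
      (by rw [out_reverse]; exact hs0) (by
        simp only [Nat.sub_zero, Nat.sub_self]
        exact h)
    rw [out_reverse] at this
    exact this

end Thread

end Pool.Agent.R11.Mix
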