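import Pool.Agent.R11.MixC

set_option autoImplicit false

namespace Pool.Agent.R11.Mix

open SimpleGraph Pool.Agent.Helper431

variable {V : Type*} {G : SimpleGraph V} {dep : V → ℕ} {p : V → V}

/-- In a graph in which `a` is not a cut vertex, a set closed under adjacency outside `a`
is everything outside `a`. -/
theorem no_cut {a : V} (h2 : (G.induce ({a}ᶜ : Set V)).Connected) (I : Set V) {w u : V}
    (hw : w ∈ I) (hwa : w ≠ a) (hua : u ≠ a)
    (hcl : ∀ x ∈ I, x ≠ a → ∀ y, G.Adj x y → y ≠ a → y ∈ I) : u ∈ I := by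
  have key : ∀ (x y : ({a}ᶜ : Set V)), (G.induce ({a}ᶜ : Set V)).Walk x y → (x : V) ∈ I →
      (y : V) ∈ I := by
    intro x y q
    induction q with
    | nil => exact id
    | cons hadj q ih =>
      intro hx
      rename_i u v w'
      exact ih (hcl u hx (fun h => u.2 h) v hadj (fun h => v.2 h))
  obtain ⟨q⟩ := h2.preconnected ⟨w, by simpa using hwa⟩ ⟨u, by simpa using hua⟩
  exact key _ _ q hw

theorem two_le_degree [Fintype V] [DecidableEq V] [DecidableRel G.Adj]
    (hn : 3 ≤ Fintype.card V) (hc : G.Connected)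
    (h2 : ∀ v : V, (G.induce ({v}ᶜ : Set V)).Connected) (v : V) : 2 ≤ G.degree v := by
  by_contra hlt
  push Not at hlt
  obtain ⟨x, hx⟩ : ∃ x, x ≠ v := by
    by_contra hcon
    push Not at hcon
    have : Fintype.card V ≤ 1 := Fintype.card_le_one_iff.mpr fun a b => by rw [hcon a, hcon b]
    omega
  obtain ⟨z, hz, -⟩ := exists_next hc hx.symm
  obtain ⟨y, hy1, hy2⟩ : ∃ y, y ≠ v ∧ y ≠ z := by
    by_contra hcon
    push Not at hcon
    have : (Finset.univ : Finset V) ⊆ {v, z} := by
      intro y _
      by_cases h : y = v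
      · simp [h]
      · simp [hcon y h]
    have h3 := (Finset.card_le_card this).trans Finset.card_le_two
    rw [Finset.card_univ] at h3
    omega
  have := no_cut (h2 z) {v} (w := v) (u := y) rfl hz.ne hy2 (by
    intro x hx _ y hxy hyz
    have hxv : x = v := hx
    subst hxv
    exfalso
    have hsub : ({y, z} : Finset V) ⊆ G.neighborFinset x := by
      intro t ht
      rw [Finset.mem_insert, Finset.mem_singleton] at ht
      rw [mem_neighborFinset]
      rcases ht with rfl | rfl
      · exact hxy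
      · exact hz
    have h3 := Finset.card_le_card hsub
    rw [Finset.card_pair hyz, card_neighborFinset_eq_degree] at h3
    omega)
  exact hy1 this

theorem card_NE_root [Fintype V] [DecidableEq V] [DecidableRel G.Adj] {r : V}
    (B : BFS G ({r} : Set V) dep p) :
    (NE G ({r} : Set V) p).card + Fintype.card V ≤ G.edgeFinset.card + 1 := by
  classical
  let T : Finset (Sym2 V) := (Finset.univ.erase r).image (fun v => s(v, p v))
  have hnotR : ∀ {v : V}, v ∈ Finset.univ.erase r → v ∉ ({r} : Set V) := by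
    intro v hv
    simpa using hv
  have hTcard : T.card = Fintype.card V - 1 := by
    rw [Finset.card_image_of_injOn, Finset.card_erase_of_mem (Finset.mem_univ r),
      Finset.card_univ]
    intro v hv w hw h
    have hv' := B.p_adj v (hnotR hv)
    have hw' := B.p_adj w (hnotR hw)
    simp only [Sym2.eq_iff] at h
    rcases h with h | ⟨h1, h2⟩
    · exact h.1
    · rw [← h1] at hw'
      rw [h2] at hv'
      omega
  have hTG : T ⊆ G.edgeFinset := by
    intro e he
    simp only [T, Finset.mem_image] at he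
    obtain ⟨v, hv, rfl⟩ := he
    rw [mem_edgeFinset]
    exact (B.p_adj v (hnotR hv)).1
  have hNG : NE G ({r} : Set V) p ⊆ G.edgeFinset := by
    intro e he
    rw [mem_NE] at he
    obtain ⟨u, v, rfl, h⟩ := he
    rw [mem_edgeFinset]
    exact h.1
  have hNT : Disjoint (NE G ({r} : Set V) p) T := by
    rw [Finset.disjoint_left]
    intro e he he'
    rw [mem_NE] at he
    obtain ⟨u, v, rfl, h⟩ := he
    simp only [T, Finset.mem_image, Sym2.eq_iff] at he'
    obtain ⟨w, hw, (⟨h1, h2⟩ | ⟨h1, h2⟩)⟩ := he'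
    · subst h1; exact h.2.2.1 h2
    · subst h1; exact h.2.2.2 h2
  have h1 := Finset.card_le_card (Finset.union_subset hNG hTG)
  rw [Finset.card_union_of_disjoint hNT, hTcard] at h1
  have h2 : 0 < Fintype.card V := Fintype.card_pos_iff.mpr ⟨r⟩
  omega

/-- The distance from a vertex `w` to a vertex or an edge of `G`: for a vertex `x` it is
`d(w, x)`, for an edge `uv` it is `min (d(w, u)) (d(w, v))`. -/
noncomputable def elemDist (G : SimpleGraph V) (w : V) : V ⊕ G.edgeSet → ℕ
  | Sum.inl x => G.dist w x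
  | Sum.inr e => Sym2.lift ⟨fun u v => min (G.dist w u) (G.dist w v),
      fun _ _ => min_comm _ _⟩ (e : Sym2 V)

/-- `S` is a mixed resolving set: any two different elements of `V(G) ∪ E(G)` have different
distances to some member of `S`. -/
def IsMixedResolving (G : SimpleGraph V) (S : Finset V) : Prop :=
  ∀ x y : V ⊕ G.edgeSet, x ≠ y → ∃ s ∈ S, elemDist G s x ≠ elemDist G s y

theorem dist_root {r : V} (B : BFS G ({r} : Set V) dep p) (v : V) : G.dist r v = dep v := by
  obtain ⟨r', hr', h⟩ := B.dep_att v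
  have : r' = r := hr'
  subst this
  rw [dist_comm]
  exact h

/-- Separation of all pairs from separation of pairs with equal upper depth. -/
theorem finish {r : V} (B : BFS G ({r} : Set V) dep p) (S : Finset V) (hr : r ∈ S)
    (h : ∀ a b c d : V, (a = b ∨ G.Adj a b) → (c = d ∨ G.Adj c d) → dep a ≤ dep b →
      dep c ≤ dep d → dep a = dep c → ¬ (a = c ∧ b = d) → ¬ (a = d ∧ b = c) →
      ∃ s ∈ S, min (G.dist s a) (G.dist s b) ≠ min (G.dist s c) (G.dist s d)) :
    IsMixedResolving G S := by
  have h1 : ∀ a b c d : V, (a = b ∨ G.Adj a b) → (c = d ∨ G.Adj c d) → dep a ≤ dep b →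
      dep c ≤ dep d → ¬ (a = c ∧ b = d) → ¬ (a = d ∧ b = c) →
      ∃ s ∈ S, min (G.dist s a) (G.dist s b) ≠ min (G.dist s c) (G.dist s d) := by
    intro a b c d hab hcd hle hle' n1 n2
    by_cases hk : dep a = dep c
    · exact h a b c d hab hcd hle hle' hk n1 n2
    · refine ⟨r, hr, ?_⟩
      simp only [dist_root B]
      omega
  have h2 : ∀ a b c d : V, (a = b ∨ G.Adj a b) → (c = d ∨ G.Adj c d) → s(a, b) ≠ s(c, d) →
      ∃ s ∈ S, min (G.dist s a) (G.dist s b) ≠ min (G.dist s c) (G.dist s d) := by
    intro a b c d hab hcd hne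
    have n1 : ¬ (a = c ∧ b = d) := fun h => hne (by rw [h.1, h.2])
    have n2 : ¬ (a = d ∧ b = c) := fun h => hne (by
      rw [h.1, h.2]; exact Sym2.eq_iff.mpr (Or.inr ⟨rfl, rfl⟩))
    have sab : b = a ∨ G.Adj b a := by
      rcases hab with h | h
      · exact Or.inl h.symm
      · exact Or.inr h.symm
    have scd : d = c ∨ G.Adj d c := by
      rcases hcd with h | h
      · exact Or.inl h.symm
      · exact Or.inr h.symm
    rcases le_total (dep a) (dep b) with h3 | h3 <;> rcases le_total (dep c) (dep d) with h4 | h4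
    · exact h1 a b c d hab hcd h3 h4 n1 n2
    · obtain ⟨s, hs, h5⟩ := h1 a b d c hab scd h3 h4 n2 n1
      exact ⟨s, hs, by rwa [min_comm (G.dist s c)]⟩
    · obtain ⟨s, hs, h5⟩ := h1 b a c d sab hcd h3 h4 (fun h => n2 ⟨h.2, h.1⟩)
        (fun h => n1 ⟨h.2, h.1⟩)
      exact ⟨s, hs, by rwa [min_comm (G.dist s a)]⟩
    · obtain ⟨s, hs, h5⟩ := h1 b a d c sab scd h3 h4 (fun h => n1 ⟨h.2, h.1⟩)
        (fun h => n2 ⟨h.2, h.1⟩)
      exact ⟨s, hs, by rwa [min_comm (G.dist s a), min_comm (G.dist s c)]⟩
  rintro (x | ⟨e, he⟩) (y | ⟨f, hf⟩) hne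
  · obtain ⟨s, hs, h3⟩ := h2 x x y y (Or.inl rfl) (Or.inl rfl) (by
      intro h
      rw [Sym2.eq_iff] at h
      exact hne (by rcases h with h | h <;> rw [h.1]))
    refine ⟨s, hs, ?_⟩
    simpa [elemDist] using h3
  · induction f with
    | _ u v =>
      have huv : G.Adj u v := hf
      obtain ⟨s, hs, h3⟩ := h2 x x u v (Or.inl rfl) (Or.inr huv) (by
        intro h
        rw [Sym2.eq_iff] at h
        exact huv.ne (by rcases h with h | h <;> rw [← h.1, ← h.2]))
      refine ⟨s, hs, ?_⟩
      simpa [elemDist] using h3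
  · induction e with
    | _ u v =>
      have huv : G.Adj u v := he
      obtain ⟨s, hs, h3⟩ := h2 u v y y (Or.inr huv) (Or.inl rfl) (by
        intro h
        rw [Sym2.eq_iff] at h
        exact huv.ne (by rcases h with h | h <;> rw [h.1, h.2]))
      refine ⟨s, hs, ?_⟩
      simpa [elemDist] using h3
  · induction e with
    | _ a b =>
      induction f with
      | _ u v =>
        have hab : G.Adj a b := he
        have huv : G.Adj u v := hf
        obtain ⟨s, hs, h3⟩ := h2 a b u v (Or.inr hab) (Or.inr huv) (by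
          intro h
          exact hne (by simp only [h]))
        refine ⟨s, hs, ?_⟩
        simpa [elemDist] using h3

end Pool.Agent.R11.Mix
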