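import Pool.Agent.R11.MixD

set_option autoImplicit false

namespace Pool.Agent.R11.Mix

open SimpleGraph Pool.Agent.Helper431

variable {V : Type*} {G : SimpleGraph V} {dep : V → ℕ} {p : V → V}

theorem dep_iter {r : V} (B : BFS G ({r} : Set V) dep p) (x : V) (i : ℕ) :
    dep (p^[i] x) = dep x - i := by
  induction i with
  | zero => simp
  | succ i ih =>
    rw [Function.iterate_succ_apply']
    by_cases h : p^[i] x ∈ ({r} : Set V)
    · rw [B.p_root _ h]
      have := B.dep_root h
      omega
    · have := (B.p_adj _ h).2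
      omega

theorem two_nbrs [Fintype V] [DecidableEq V] [DecidableRel G.Adj] {v a b : V}
    (h2 : G.degree v ≤ 2) (ha : G.Adj v a) (hb : G.Adj v b) (hab : a ≠ b) (u : V)
    (hu : G.Adj v u) : u = a ∨ u = b := by
  by_contra hcon
  push Not at hcon
  have hsub : ({u, a, b} : Finset V) ⊆ G.neighborFinset v := by
    intro t ht
    simp only [Finset.mem_insert, Finset.mem_singleton] at ht
    rw [mem_neighborFinset]
    rcases ht with rfl | rfl | rfl
    · exact hu
    · exact ha
    · exact hb
  have h3 := Finset.card_le_card hsub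
  rw [card_neighborFinset_eq_degree, Finset.card_insert_of_notMem (by simp [hcon.1, hcon.2]),
    Finset.card_pair hab] at h3
  omega

theorem chain [Fintype V] [DecidableEq V] [DecidableRel G.Adj] {r : V}
    (B : BFS G ({r} : Set V) dep p) (hr3 : 3 ≤ G.degree r) (hdeg : ∀ v, 2 ≤ G.degree v)
    {x y : V} (hxy : G.Adj x y) (hpy : p x ≠ y) :
    ∃ t, 3 ≤ G.degree (p^[t] x) ∧ (∀ j, j < t → G.degree (p^[j] x) = 2) ∧
      (∀ j, j < t → p^[j] x ∉ ({r} : Set V)) ∧ t ≤ dep x ∧
      (∀ j, j < t → ∀ u, G.Adj (p^[j] x) u →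
        u = p^[j + 1] x ∨ u = (if j = 0 then y else p^[j - 1] x)) := by
  classical
  have hr : p^[dep x] x = r := by
    have := dep_iter B x (dep x)
    rw [Nat.sub_self] at this
    exact B.root_of_dep this
  have hex : ∃ i, 3 ≤ G.degree (p^[i] x) := ⟨dep x, by rw [hr]; exact hr3⟩
  have hlt : ∀ j, j < Nat.find hex → G.degree (p^[j] x) = 2 := by
    intro j hj
    have h1 := Nat.find_min hex hj
    have h2 := hdeg (p^[j] x)
    omega
  have hnr : ∀ j, j < Nat.find hex → p^[j] x ∉ ({r} : Set V) := by
    intro j hj h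
    have h1 := hlt j hj
    have h2 : p^[j] x = r := h
    rw [h2] at h1
    omega
  have hle : Nat.find hex ≤ dep x := Nat.find_min' hex (by rw [hr]; exact hr3)
  refine ⟨Nat.find hex, Nat.find_spec hex, hlt, hnr, hle, ?_⟩
  intro j hj u hu
  have e1 : G.Adj (p^[j] x) (p^[j + 1] x) := by
    rw [Function.iterate_succ_apply']
    exact (B.p_adj _ (hnr j hj)).1
  rcases Nat.eq_zero_or_pos j with rfl | hj0
  · rw [if_pos rfl]
    exact two_nbrs (hlt 0 hj).le e1 hxy hpy u hu
  · rw [if_neg (by omega)]
    obtain ⟨m, rfl⟩ : ∃ m, j = m + 1 := ⟨j - 1, by omega⟩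
    rw [Nat.add_sub_cancel]
    have e2 : G.Adj (p^[m + 1] x) (p^[m] x) := by
      rw [Function.iterate_succ_apply']
      exact (B.p_adj _ (hnr m (by omega))).1.symm
    refine two_nbrs (hlt _ hj).le e1 e2 ?_ u hu
    intro h
    have h1 := dep_iter B x (m + 1 + 1)
    have h2 := dep_iter B x m
    rw [h] at h1
    omega

theorem exists_thread [Fintype V] [DecidableEq V] [DecidableRel G.Adj] {r : V}
    (B : BFS G ({r} : Set V) dep p) (hr3 : 3 ≤ G.degree r) (hdeg : ∀ v, 2 ≤ G.degree v)
    (hcut : ∀ v : V, (G.induce ({v}ᶜ : Set V)).Connected)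
    {w w' : V} (hnt : NT G {r} p w w') (hmax : ∀ u, dep u ≤ dep w) (hw2 : G.degree w = 2)
    (hw2' : dep w' = dep w → G.degree w' = 2) :
    ∃ (φ : ℕ → V) (l : ℕ), Thread G dep φ l ∧ (∃ t, 0 < t ∧ t < l ∧ φ t = w) ∧
      3 ≤ G.degree (φ 0) ∧ 3 ≤ G.degree (φ l) := by
  classical
  obtain ⟨t1, a1, a2, a3, a4, a5⟩ := chain B hr3 hdeg hnt.1 hnt.2.2.1
  obtain ⟨t2, b1, b2, b3, b4, b5⟩ := chain B hr3 hdeg hnt.1.symm hnt.2.2.2
  have ht1 : 0 < t1 := by
    rcases Nat.eq_zero_or_pos t1 with rfl | h
    · change 3 ≤ G.degree w at a1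
      omega
    · exact h
  have hdw1 : dep w' ≤ dep w := hmax w'
  have hdw2 : dep w ≤ dep w' + 1 := B.dep_adj hnt.1
  have ht2 : dep w' = dep w → 0 < t2 := by
    intro h
    rcases Nat.eq_zero_or_pos t2 with rfl | h'
    · change 3 ≤ G.degree w' at b1
      have := hw2' h
      omega
    · exact h'
  obtain ⟨φ, hφ⟩ : ∃ φ : ℕ → V, ∀ i, φ i = if i ≤ t1 then p^[t1 - i] w else p^[i - (t1 + 1)] w' :=
    ⟨_, fun _ => rfl⟩
  have f1 : ∀ j, j ≤ t1 → φ (t1 - j) = p^[j] w := by
    intro j hj
    rw [hφ, if_pos (by omega)]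
    congr 2; omega
  have f2 : ∀ j, φ (t1 + 1 + j) = p^[j] w' := by
    intro j
    rw [hφ, if_neg (by omega)]
    congr 2; omega
  have d1 : ∀ j, j ≤ t1 → dep (φ (t1 - j)) = dep w - j := fun j hj => by
    rw [f1 j hj, dep_iter B]
  have d2 : ∀ j, dep (φ (t1 + 1 + j)) = dep w' - j := fun j => by
    rw [f2 j, dep_iter B]
  have z0 := d1 t1 le_rfl
  have zl := d2 t2
  rw [Nat.sub_self] at z0
  have hadj : ∀ i, i < t1 + 1 + t2 → G.Adj (φ i) (φ (i + 1)) := by
    intro i hi
    rcases Nat.lt_trichotomy i t1 with h | h | h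
    · have e1 := f1 (t1 - i) (by omega)
      have e2 := f1 (t1 - (i + 1)) (by omega)
      rw [show t1 - (t1 - i) = i by omega] at e1
      rw [show t1 - (t1 - (i + 1)) = i + 1 by omega] at e2
      rw [e1, e2]
      have := (B.p_adj _ (a3 (t1 - (i + 1)) (by omega))).1
      rw [← Function.iterate_succ_apply' p] at this
      rw [show (t1 - (i + 1)).succ = t1 - i by omega] at this
      exact this.symm
    · subst h
      have e1 := f1 0 (by omega)
      have e2 := f2 0
      rw [Nat.sub_zero] at e1
      rw [Nat.add_zero] at e2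
      rw [e1, e2]
      exact hnt.1
    · have e1 := f2 (i - (t1 + 1))
      have e2 := f2 (i - (t1 + 1) + 1)
      rw [show t1 + 1 + (i - (t1 + 1)) = i by omega] at e1
      rw [show t1 + 1 + (i - (t1 + 1) + 1) = i + 1 by omega] at e2
      rw [e1, e2]
      have := (B.p_adj _ (b3 (i - (t1 + 1)) (by omega))).1
      rw [← Function.iterate_succ_apply' p] at this
      exact this
  have hnbr : ∀ i, 0 < i → i < t1 + 1 + t2 → ∀ u, G.Adj (φ i) u →
      u = φ (i - 1) ∨ u = φ (i + 1) := by
    intro i h0 hl u hu
    rcases Nat.lt_or_ge t1 i with h | h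
    · have e1 := f2 (i - (t1 + 1))
      have e2 := f2 (i - (t1 + 1) + 1)
      rw [show t1 + 1 + (i - (t1 + 1)) = i by omega] at e1
      rw [show t1 + 1 + (i - (t1 + 1) + 1) = i + 1 by omega] at e2
      rw [e1] at hu
      rcases b5 _ (by omega) u hu with g | g
      · right; rw [g, e2]
      · left
        rw [g]
        split_ifs with h'
        · have e3 := f1 0 (by omega)
          rw [show i - 1 = t1 - 0 by omega, e3]
          rfl
        · have e3 := f2 (i - (t1 + 1) - 1)
          rw [← e3]
          congr 1; omega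
    · have e1 := f1 (t1 - i) (by omega)
      have e2 := f1 (t1 - i + 1) (by omega)
      rw [show t1 - (t1 - i) = i by omega] at e1
      rw [show t1 - (t1 - i + 1) = i - 1 by omega] at e2
      rw [e1] at hu
      rcases a5 _ (by omega) u hu with g | g
      · left; rw [g, e2]
      · right
        rw [g]
        split_ifs with h'
        · have e3 := f2 0
          rw [Nat.add_zero] at e3
          rw [show i + 1 = t1 + 1 by omega, e3]
          rfl
        · have e3 := f1 (t1 - i - 1) (by omega)
          rw [← e3]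
          congr 1; omega
  have hd2 : ∀ i, 0 < i → i < t1 + 1 + t2 → G.degree (φ i) = 2 := by
    intro i h0 hl
    rcases Nat.lt_or_ge t1 i with h | h
    · have e1 := f2 (i - (t1 + 1))
      rw [show t1 + 1 + (i - (t1 + 1)) = i by omega] at e1
      rw [e1]
      exact b2 _ (by omega)
    · have e1 := f1 (t1 - i) (by omega)
      rw [show t1 - (t1 - i) = i by omega] at e1
      rw [e1]
      exact a2 _ (by omega)
  have g0 : 3 ≤ G.degree (φ 0) := by
    have e1 := f1 t1 le_rfl
    rw [Nat.sub_self] at e1
    rw [e1]; exact a1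
  have gl : 3 ≤ G.degree (φ (t1 + 1 + t2)) := by
    rw [f2 t2]; exact b1
  have hend0 : ∀ i, 0 < i → i < t1 + 1 + t2 → φ 0 ≠ φ i := by
    intro i h0 hl h
    have := hd2 i h0 hl
    rw [h] at g0
    omega
  have hendl : ∀ i, 0 < i → i < t1 + 1 + t2 → φ (t1 + 1 + t2) ≠ φ i := by
    intro i h0 hl h
    have := hd2 i h0 hl
    rw [h] at gl
    omega
  have hwt : φ t1 = w := by
    have := f1 0 (by omega)
    rw [Nat.sub_zero] at this
    exact this
  refine ⟨φ, t1 + 1 + t2, ⟨hadj, hnbr, ?_, ?_, ?_, hend0, hendl, ?_⟩,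
    ⟨t1, ht1, by omega, hwt⟩, g0, gl⟩
  · intro i hi
    rcases Nat.lt_or_ge t1 i with h | h
    · have e1 := d2 (i - (t1 + 1))
      rw [show t1 + 1 + (i - (t1 + 1)) = i by omega] at e1
      omega
    · have e1 := d1 (t1 - i) (by omega)
      rw [show t1 - (t1 - i) = i by omega] at e1
      omega
  · omega
  · by_cases h : dep w' = dep w
    · have := ht2 h
      omega
    · omega
  · intro hne
    -- the thread is closed: `φ 0` would be a cut vertex
    set a := φ 0 with ha
    have hall : ∀ u, u ≠ a → ∃ i, 0 < i ∧ i < t1 + 1 + t2 ∧ φ i = u := by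
      intro u hu
      refine no_cut (hcut a) {v | ∃ i, 0 < i ∧ i < t1 + 1 + t2 ∧ φ i = v} (w := w) (u := u)
        ⟨t1, ht1, by omega, hwt⟩ ?_ hu ?_
      · intro h
        exact hend0 t1 ht1 (by omega) (by rw [hwt, h])
      · rintro x ⟨i, h0, hl, rfl⟩ _ y hxy hya
        rcases hnbr i h0 hl y hxy with rfl | rfl
        · refine ⟨i - 1, ?_, by omega, rfl⟩
          by_contra h
          exact hya (by rw [show i - 1 = 0 by omega])
        · refine ⟨i + 1, by omega, ?_, rfl⟩
          by_contra h
          exact hya (by rw [show i + 1 = t1 + 1 + t2 by omega, ← hne])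
    have hsub : G.neighborFinset a ⊆ {φ 1, φ (t1 + 1 + t2 - 1)} := by
      intro u hu
      rw [mem_neighborFinset] at hu
      obtain ⟨i, h0, hl, rfl⟩ := hall u hu.symm.ne
      rw [Finset.mem_insert, Finset.mem_singleton]
      rcases hnbr i h0 hl a hu.symm with h | h
      · left
        have : i - 1 = 0 := by
          by_contra h'
          exact hend0 (i - 1) (by omega) (by omega) h
        congr 1; omega
      · right
        have : i + 1 = t1 + 1 + t2 := by
          by_contra h'
          exact hend0 (i + 1) (by omega) (by omega) h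
        congr 1; omega
    have h3 := (Finset.card_le_card hsub).trans Finset.card_le_two
    rw [card_neighborFinset_eq_degree] at h3
    omega

/-- Every outside vertex has an outside member of `W` below it. -/
theorem thread_good [Fintype V] [DecidableEq V] [DecidableRel G.Adj] {r : V}
    (B : BFS G ({r} : Set V) dep p) (hdeg : ∀ v, 2 ≤ G.degree v) {φ : ℕ → V} {l : ℕ}
    (T : Thread G dep φ l) (g0 : 3 ≤ G.degree (φ 0)) (gl : 3 ≤ G.degree (φ l)) :
    Good G {r} p (Out φ l) := by
  classical
  intro v hv hvR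
  obtain ⟨m, ⟨hmT, hmU⟩, hmax⟩ := Set.exists_max_image {u | InT {r} p {v} u ∧ u ∈ Out φ l} dep
    (Set.toFinite _) ⟨v, InT.base v rfl, hv⟩
  have hmR : m ∉ ({r} : Set V) := fun h => by
    have h0 := B.dep_root h
    have h1 := InT_single_dep B hmT
    have h2 := B.dep_pos hvR
    omega
  -- a second outside neighbour
  have hex : ∃ u, G.Adj m u ∧ u ≠ p m ∧ u ∈ Out φ l := by
    by_contra hcon
    push Not at hcon
    have hin : ∀ u, G.Adj m u → u ≠ p m → (m = φ 0 ∧ u = φ 1) ∨ (m = φ l ∧ u = φ (l - 1)) := by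
      intro u hu hup
      obtain ⟨i, h0, hl, rfl⟩ := Thread.not_mem (hcon u hu hup)
      rcases T.nbr i h0 hl m hu.symm with h | h
      · left
        have hi : i - 1 = 0 := by
          by_contra h'
          exact hmU (i - 1) (by omega) (by omega) h
        rw [hi] at h
        exact ⟨h, by congr 1; omega⟩
      · right
        have hi : i + 1 = l := by
          by_contra h'
          exact hmU (i + 1) (by omega) (by omega) h
        rw [hi] at h
        exact ⟨h, by congr 1; omega⟩
    have hsub : ∀ c : V, (∀ u, G.Adj m u → u ≠ p m → u = c) → G.degree m ≤ 2 := by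
      intro c hc
      have : G.neighborFinset m ⊆ {p m, c} := by
        intro u hu
        rw [mem_neighborFinset] at hu
        rw [Finset.mem_insert, Finset.mem_singleton]
        by_cases h : u = p m
        · exact Or.inl h
        · exact Or.inr (hc u hu h)
      have h3 := (Finset.card_le_card this).trans Finset.card_le_two
      rwa [card_neighborFinset_eq_degree] at h3
    by_cases h0 : m = φ 0
    · have := hsub (φ 1) (fun u hu hup => by
        rcases hin u hu hup with h | h
        · exact h.2
        · exact absurd (h0.symm.trans h.1) T.ne)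
      rw [h0] at this
      omega
    · by_cases hl : m = φ l
      · have := hsub (φ (l - 1)) (fun u hu hup => by
          rcases hin u hu hup with h | h
          · exact absurd h.1 h0
          · exact h.2)
        rw [hl] at this
        omega
      · have := hdeg m
        have hcard : 1 < (G.neighborFinset m).card := by
          rw [card_neighborFinset_eq_degree]; omega
        obtain ⟨u, hu, hne⟩ := Finset.exists_mem_ne hcard (p m)
        rw [mem_neighborFinset] at hu
        rcases hin u hu hne with h | h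
        · exact h0 h.1
        · exact hl h.1
  obtain ⟨u, hu, hne, huU⟩ := hex
  refine ⟨m, ⟨hmU, u, huU, hu, fun h => hmR h.1, hne.symm, ?_⟩, hmT⟩
  intro hpu
  have huR : u ∉ ({r} : Set V) := fun h => by
    rw [B.p_root u h] at hpu
    exact hu.ne hpu.symm
  have h1 := hmax u ⟨InT.step u huR (by rw [hpu]; exact hmT), huU⟩
  have h2 := (B.p_adj u huR).2
  rw [hpu] at h2
  omega

/-- **Main theorem.** A 2-connected graph which is not a cycle has a mixed resolving set of size
at most twice its cyclomatic number. -/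
theorem main [Fintype V] [DecidableEq V] [DecidableRel G.Adj]
    (hn : 3 ≤ Fintype.card V) (hc : G.Connected)
    (hcut : ∀ v : V, (G.induce ({v}ᶜ : Set V)).Connected)
    (hcyc : ∀ n : ℕ, IsEmpty (G ≃g cycleGraph n)) :
    ∃ S : Finset V, IsMixedResolving G S ∧
      S.card + 2 * Fintype.card V ≤ 2 * (G.edgeFinset.card + 1) := by
  classical
  have hdeg := two_le_degree hn hc hcut
  obtain ⟨r, hr3⟩ : ∃ v : V, 3 ≤ G.degree v := by
    by_contra hcon
    push Not at hcon
    obtain ⟨n, ⟨e⟩⟩ := exists_iso_cycleGraph hc hdeg (fun v => by have := hcon v; omega)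
    exact (hcyc n).false e
  obtain ⟨dep, p, B⟩ := exists_BFS (R := ({r} : Set V)) hc ⟨r, rfl⟩
  have hNE := card_NE_root B
  by_cases hsav : ∃ z z1 z2, z1 ≠ z2 ∧ NT G {r} p z z1 ∧ NT G {r} p z z2
  · obtain ⟨z, z1, z2, hz, n1, n2⟩ := hsav
    have h1 := card_Wf_lt (G := G) (p := p) ({r} : Set V) hz n1 n2
    refine ⟨insert r (Wf G {r} p), ?_, ?_⟩
    · refine finish B _ (Finset.mem_insert_self _ _) ?_
      intro a b c d hab hcd hle hle' hk m1 m2
      have hW : ∀ s, s ∈ WU G {r} p Set.univ → s ∈ Wf G {r} p := by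
        rintro s ⟨-, v, -, hv⟩
        exact mem_Wf.mpr ⟨v, hv⟩
      obtain ⟨s, hs, h⟩ := resolveU B (U := Set.univ) (fun _ _ _ _ _ => trivial)
        (fun v _ hvR => by
          obtain ⟨s, ⟨u, hu⟩, hT⟩ := B.exists_W_below hdeg v hvR
          exact ⟨s, ⟨trivial, u, trivial, hu⟩, hT⟩) hab hcd hle hle' hk trivial trivial
        trivial trivial m1 m2
      exact ⟨s, Finset.mem_insert_of_mem (hW s hs), h⟩
    · have h2 := Finset.card_insert_le r (Wf G {r} p)
      omega
  · push Not at hsav
    obtain ⟨w, -, hmax'⟩ := Finset.exists_max_image (Finset.univ : Finset V) dep ⟨r, Finset.mem_univ r⟩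
    have hmax : ∀ u, dep u ≤ dep w := fun u => hmax' u (Finset.mem_univ u)
    -- farthest vertices have degree two
    have hfar : ∀ x, (∀ u, dep u ≤ dep x) →
        (∀ u, G.Adj x u → u ≠ p x → NT G {r} p x u) ∧ G.degree x = 2 := by
      intro x hx
      have hxR : x ∉ ({r} : Set V) := by
        intro h
        have h0 := B.dep_root h
        obtain ⟨u, hu⟩ : ∃ u, G.Adj r u := by
          have : 0 < (G.neighborFinset r).card := by
            rw [card_neighborFinset_eq_degree]; omega
          obtain ⟨u, hu⟩ := Finset.card_pos.mp this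
          exact ⟨u, by rwa [mem_neighborFinset] at hu⟩
        have huR : u ∉ ({r} : Set V) := fun h' => hu.ne h'.symm
        have h1 := B.dep_pos huR
        have h2 := hx u
        omega
      have h1 : ∀ u, G.Adj x u → u ≠ p x → NT G {r} p x u := by
        intro u hu hne
        refine ⟨hu, fun h => hxR h.1, hne.symm, ?_⟩
        intro hpu
        by_cases huR : u ∈ ({r} : Set V)
        · rw [B.p_root u huR] at hpu
          exact hu.ne hpu.symm
        · have h2 := (B.p_adj u huR).2
          rw [hpu] at h2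
          have h3 := hx u
          omega
      refine ⟨h1, ?_⟩
      have h2 := hdeg x
      by_contra hne
      have h3 : 3 ≤ G.degree x := by omega
      have hcard : 1 < ((G.neighborFinset x).erase (p x)).card := by
        have := Finset.pred_card_le_card_erase (s := G.neighborFinset x) (a := p x)
        rw [card_neighborFinset_eq_degree] at this
        omega
      obtain ⟨z1, z2, hz1, hz2, hz⟩ := Finset.one_lt_card_iff.mp hcard
      rw [Finset.mem_erase, mem_neighborFinset] at hz1 hz2
      exact hsav x z1 z2 hz (h1 z1 hz1.2 hz1.1) (h1 z2 hz2.2 hz2.1)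
    obtain ⟨hwNT, hw2⟩ := hfar w hmax
    obtain ⟨w', hw'adj, hw'ne⟩ : ∃ u, G.Adj w u ∧ u ≠ p w := by
      have hcard : 1 < (G.neighborFinset w).card := by
        rw [card_neighborFinset_eq_degree]; omega
      obtain ⟨u, hu, hne⟩ := Finset.exists_mem_ne hcard (p w)
      rw [mem_neighborFinset] at hu
      exact ⟨u, hu, hne⟩
    have hnt := hwNT w' hw'adj hw'ne
    obtain ⟨φ, l, T, ⟨t, ht0, htl, htw⟩, g0, gl⟩ := exists_thread B hr3 hdeg hcut hnt hmax hw2
      (fun h => (hfar w' (fun u => by rw [h]; exact hmax u)).2)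
    have hgood := thread_good B hdeg T g0 gl
    obtain ⟨q, hq⟩ := T.resolve B hgood
    let W' : Finset V := Finset.univ.filter (fun v => v ∈ WU G {r} p (Out φ l))
    have hW' : ∀ v, v ∈ W' ↔ v ∈ WU G {r} p (Out φ l) := by
      intro v
      simp [W']
    refine ⟨insert r (insert q W'), ?_, ?_⟩
    · refine finish B _ (Finset.mem_insert_self _ _) ?_
      intro a b c d hab hcd hle hle' hk m1 m2
      obtain ⟨s, hs, h⟩ := hq a b c d hab hcd hle hle' hk m1 m2
      refine ⟨s, Finset.mem_insert_of_mem ?_, h⟩
      rcases hs with rfl | hs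
      · exact Finset.mem_insert_self _ _
      · exact Finset.mem_insert_of_mem ((hW' s).mpr hs)
    · have h1 := Finset.card_insert_le r (insert q W')
      have h2 := Finset.card_insert_le q W'
      have he : s(w, w') ∈ NE G ({r} : Set V) p := mem_NE.mpr ⟨w, w', rfl, hnt⟩
      have h3 : W'.card ≤ 2 * ((NE G ({r} : Set V) p).erase s(w, w')).card := by
        have hsub : W' ⊆ ((NE G ({r} : Set V) p).erase s(w, w')).biUnion (fun e => e.toFinset) := by
          intro v hv
          rw [hW'] at hv
          obtain ⟨hvU, u, huU, hvu⟩ := hv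
          rw [Finset.mem_biUnion]
          refine ⟨s(v, u), Finset.mem_erase.mpr ⟨?_, mem_NE.mpr ⟨v, u, rfl, hvu⟩⟩, by simp⟩
          intro h
          rw [Sym2.eq_iff] at h
          rcases h with h | h
          · exact hvU t ht0 htl (by rw [htw, h.1])
          · exact huU t ht0 htl (by rw [htw, h.2])
        calc W'.card ≤ _ := Finset.card_le_card hsub
          _ ≤ ∑ e ∈ (NE G ({r} : Set V) p).erase s(w, w'), e.toFinset.card :=
            Finset.card_biUnion_le
          _ ≤ ∑ e ∈ (NE G ({r} : Set V) p).erase s(w, w'), 2 :=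
            Finset.sum_le_sum (fun e _ => card_toFinset_le e)
          _ = 2 * ((NE G ({r} : Set V) p).erase s(w, w')).card := by
            rw [Finset.sum_const, smul_eq_mul, mul_comm]
      rw [Finset.card_erase_of_mem he] at h3
      have h4 : 0 < (NE G ({r} : Set V) p).card := Finset.card_pos.mpr ⟨_, he⟩
      omega

end Pool.Agent.R11.Mix
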