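import Mathlib

/-!
# Two loopless graphs with equal `U`-polynomial and different strong `U`-polynomial
-/

set_option autoImplicit false

namespace Pool.Agent.R11.StrongU

open Finset

/-- replace the label of `b` by the label of `a` -/
def merge (L : List ℕ) (a b : ℕ) : List ℕ :=
  L.map (fun z => if z = L.getD b 0 then L.getD a 0 else z)

/-- labels of the components of the graph with the edges of `es` selected by the bits of `M` -/
def labs : List (ℕ × ℕ) → ℕ → List ℕ
  | [], _ => [0, 1, 2, 3, 4, 5]
  | (a, b) :: es, M => if M % 2 = 1 then merge (labs es (M / 2)) a b else labs es (M / 2)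

theorem merge_length (L : List ℕ) (a b : ℕ) : (merge L a b).length = L.length := by
  simp [merge]

theorem labs_length (es : List (ℕ × ℕ)) (M : ℕ) : (labs es M).length = 6 := by
  induction es generalizing M with
  | nil => rfl
  | cons e es ih =>
    obtain ⟨a, b⟩ := e
    unfold labs
    split_ifs
    · rw [merge_length, ih]
    · exact ih _

theorem merge_getD (L : List ℕ) (a b z : ℕ) (hz : z < L.length) :
    (merge L a b).getD z 0 = if L.getD z 0 = L.getD b 0 then L.getD a 0 else L.getD z 0 := by
  unfold merge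
  simp [List.getD_eq_getElem?_getD, hz]

/-- the adjacency of the graph with the edges of `es` selected by the bits of `M` -/
def grL (es : List (ℕ × ℕ)) (M : ℕ) : SimpleGraph (Fin 6) :=
  SimpleGraph.fromRel (fun u v => ∃ i : ℕ, M.testBit i = true ∧ es[i]? = some ((u : ℕ), (v : ℕ)))

theorem adj_same (es : List (ℕ × ℕ)) (hes : ∀ p ∈ es, p.1 < 6 ∧ p.2 < 6) (M : ℕ) (i : ℕ)
    (hi : M.testBit i = true) (a b : ℕ) (h : es[i]? = some (a, b)) :
    (labs es M).getD a 0 = (labs es M).getD b 0 := by
  induction es generalizing M i with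
  | nil => simp at h
  | cons e es ih =>
    obtain ⟨c, d⟩ := e
    have hcd := hes (c, d) (by simp)
    have hes' : ∀ p ∈ es, p.1 < 6 ∧ p.2 < 6 := fun p hp => hes p (by simp [hp])
    have hab : a < 6 ∧ b < 6 := hes (a, b) (List.mem_of_getElem? h)
    have hlen := labs_length es (M / 2)
    unfold labs
    cases i with
    | zero =>
      rw [Nat.testBit_zero] at hi
      have hM : M % 2 = 1 := by simpa using hi
      simp only [List.getElem?_cons_zero, Option.some.injEq, Prod.mk.injEq] at h
      obtain ⟨rfl, rfl⟩ := h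
      rw [if_pos hM, merge_getD _ _ _ _ (by omega), merge_getD _ _ _ _ (by omega), if_pos rfl]
      split_ifs <;> rfl
    | succ j =>
      rw [Nat.testBit_succ] at hi
      rw [List.getElem?_cons_succ] at h
      have h' := ih hes' (M / 2) j hi h
      split_ifs
      · rw [merge_getD _ _ _ _ (by omega), merge_getD _ _ _ _ (by omega), h']
      · exact h'

theorem same_reach (es : List (ℕ × ℕ)) (hes : ∀ p ∈ es, p.1 < 6 ∧ p.2 < 6) (M : ℕ)
    (u v : Fin 6) (h : (labs es M).getD u 0 = (labs es M).getD v 0) :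
    (grL es M).Reachable u v := by
  induction es generalizing M u v with
  | nil =>
    have : u = v := by
      revert h
      revert u v
      unfold labs
      decide
    rw [this]
  | cons e es ih =>
    obtain ⟨c, d⟩ := e
    have hcd := hes (c, d) (by simp)
    have hes' : ∀ p ∈ es, p.1 < 6 ∧ p.2 < 6 := fun p hp => hes p (by simp [hp])
    have hlen := labs_length es (M / 2)
    have hmono : grL es (M / 2) ≤ grL ((c, d) :: es) M := by
      intro x y hxy
      unfold grL at hxy ⊢
      rw [SimpleGraph.fromRel_adj] at hxy ⊢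
      obtain ⟨hne, h⟩ := hxy
      refine ⟨hne, ?_⟩
      rcases h with ⟨i, hi, hx⟩ | ⟨i, hi, hx⟩
      · exact Or.inl ⟨i + 1, by rw [Nat.testBit_succ]; exact hi, by simpa using hx⟩
      · exact Or.inr ⟨i + 1, by rw [Nat.testBit_succ]; exact hi, by simpa using hx⟩
    unfold labs at h
    split_ifs at h with hM
    · have hu := u.2
      have hv := v.2
      rw [merge_getD _ _ _ _ (by omega), merge_getD _ _ _ _ (by omega)] at h
      have hcd' : (grL ((c, d) :: es) M).Reachable ⟨c, hcd.1⟩ ⟨d, hcd.2⟩ := by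
        by_cases hne : c = d
        · subst hne
          exact SimpleGraph.Reachable.refl _
        · apply SimpleGraph.Adj.reachable
          unfold grL
          rw [SimpleGraph.fromRel_adj]
          refine ⟨fun h => hne (by simpa using h), Or.inl ⟨0, ?_, ?_⟩⟩
          · rw [Nat.testBit_zero]; simpa using hM
          · simp
      have old : ∀ x y : Fin 6, (labs es (M / 2)).getD x 0 = (labs es (M / 2)).getD y 0 →
          (grL ((c, d) :: es) M).Reachable x y := fun x y hxy =>
        (ih hes' (M / 2) x y hxy).mono hmono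
      split_ifs at h with h1 h2 h2
      · exact old _ _ (h1.trans h2.symm)
      · exact ((old u ⟨d, hcd.2⟩ h1).trans hcd'.symm).trans (old ⟨c, hcd.1⟩ v h)
      · exact ((old u ⟨c, hcd.1⟩ h).trans hcd').trans (old ⟨d, hcd.2⟩ v h2.symm)
      · exact old _ _ h
    · exact (ih hes' (M / 2) u v h).mono hmono

theorem reach_same (es : List (ℕ × ℕ)) (hes : ∀ p ∈ es, p.1 < 6 ∧ p.2 < 6) (M : ℕ)
    (u v : Fin 6) (h : (grL es M).Reachable u v) :
    (labs es M).getD u 0 = (labs es M).getD v 0 := by
  obtain ⟨p⟩ := h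
  induction p with
  | nil => rfl
  | cons hadj _ ih =>
    rw [← ih]
    unfold grL at hadj
    rw [SimpleGraph.fromRel_adj] at hadj
    obtain ⟨_, ⟨i, hi, hx⟩ | ⟨i, hi, hx⟩⟩ := hadj
    · exact adj_same es hes M i hi _ _ hx
    · exact (adj_same es hes M i hi _ _ hx).symm

/-- number of vertices with label `r` -/
def cn (es : List (ℕ × ℕ)) (M r : ℕ) : ℕ := (labs es M).count r

/-- number of edges with label `r` -/
def ce (es : List (ℕ × ℕ)) (M r : ℕ) : ℕ :=
  (List.range es.length).countP
    (fun i => M.testBit i && ((labs es M).getD (es.getD i (0, 0)).1 0 == r))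

/-- edges of `G` -/
def eG : List (ℕ × ℕ) := [(0, 1), (0, 2), (0, 3), (0, 3), (0, 4), (1, 2), (1, 4), (1, 5), (2, 3)]

/-- edges of `H` -/
def eH : List (ℕ × ℕ) := [(0, 1), (0, 2), (0, 3), (0, 3), (0, 5), (1, 2), (1, 3), (1, 4), (2, 4)]

/-- component sizes -/
def nl (es : List (ℕ × ℕ)) (M : ℕ) : List ℕ := (List.range 6).map (cn es M)

/-- number of ones -/
def pc (M : ℕ) : ℕ := (List.range 9).countP (fun i => M.testBit i)

/-- no component with three vertices and three edges -/
def good (es : List (ℕ × ℕ)) (M : ℕ) : Bool :=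
  (List.range 6).all (fun r => !(cn es M r == 3 && ce es M r == 3))

def sig : List ℕ :=
  [0, 1, 2, 3, 4, 5, 6, 7, 8, 9, 10, 11, 12, 13, 14, 15, 16, 17, 18, 19, 20, 21, 22, 23, 24, 25,
    26, 27, 28, 29, 30, 31, 32, 33, 34, 35, 36, 37, 38, 39, 40, 41, 42, 43, 44, 45, 46, 47, 48, 49,
    50, 51, 52, 53, 54, 55, 56, 57, 58, 59, 60, 61, 62, 63, 64, 65, 66, 67, 80, 70, 82, 83, 130, 74,
    112, 86, 140, 71, 142, 87, 68, 69, 81, 75, 84, 78, 90, 91, 88, 85, 113, 94, 89, 79, 115, 95, 72,
    97, 98, 92, 134, 114, 116, 117, 138, 120, 135, 118, 156, 121, 122, 119, 100, 99, 101, 93, 139,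
    124, 143, 123, 147, 157, 167, 125, 171, 126, 175, 127, 128, 96, 132, 104, 136, 131, 146, 149,
    144, 133, 148, 153, 268, 102, 172, 173, 257, 137, 152, 165, 164, 166, 150, 151, 168, 169, 154,
    155, 269, 174, 158, 159, 129, 145, 161, 105, 176, 170, 177, 179, 194, 178, 195, 199, 284, 203,
    206, 207, 208, 198, 202, 213, 180, 181, 182, 183, 184, 185, 186, 187, 188, 189, 190, 191, 160,
    162, 261, 209, 265, 212, 210, 211, 273, 216, 308, 214, 300, 217, 316, 215, 193, 106, 225, 220,
    226, 227, 218, 219, 228, 229, 241, 222, 230, 221, 243, 223, 196, 232, 263, 233, 240, 242, 244,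
    245, 277, 248, 279, 246, 285, 249, 250, 247, 267, 234, 236, 231, 283, 252, 287, 251, 309, 311,
    315, 253, 317, 254, 319, 255, 256, 260, 192, 200, 258, 224, 73, 108, 288, 259, 76, 141, 416,
    163, 77, 103, 264, 276, 262, 275, 266, 278, 197, 271, 274, 282, 201, 286, 204, 295, 107, 235,
    384, 289, 290, 270, 352, 291, 387, 109, 385, 417, 418, 110, 480, 205, 419, 111, 280, 293, 294,
    299, 297, 301, 302, 237, 298, 307, 327, 238, 331, 303, 335, 239, 272, 292, 296, 305, 304, 306,
    325, 334, 321, 323, 329, 355, 332, 357, 333, 359, 322, 396, 326, 358, 330, 361, 362, 363, 353,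
    364, 391, 365, 395, 366, 399, 367, 386, 354, 356, 397, 360, 398, 403, 423, 389, 421, 422, 427,
    425, 429, 430, 431, 390, 426, 433, 435, 434, 455, 459, 463, 451, 461, 462, 487, 483, 491, 493,
    495, 320, 324, 328, 393, 388, 394, 420, 453, 392, 401, 424, 454, 432, 457, 428, 485, 336, 281,
    337, 310, 338, 313, 341, 318, 340, 314, 345, 343, 348, 347, 349, 351, 448, 402, 449, 458, 450,
    460, 481, 486, 452, 482, 484, 489, 488, 490, 492, 494, 344, 339, 342, 350, 346, 371, 373, 375,
    369, 374, 377, 379, 378, 381, 382, 383, 400, 368, 312, 370, 404, 372, 412, 380, 408, 376, 436,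
    407, 440, 411, 444, 415, 464, 496, 405, 413, 406, 414, 437, 439, 409, 438, 441, 443, 442, 445,
    446, 447, 456, 410, 465, 467, 466, 469, 470, 471, 468, 473, 474, 475, 476, 477, 478, 479, 472,
    497, 498, 499, 500, 501, 502, 503, 504, 505, 506, 507, 508, 509, 510, 511]

def tau : List ℕ :=
  [0, 1, 2, 3, 4, 5, 6, 7, 8, 9, 10, 11, 12, 13, 14, 15, 16, 17, 18, 19, 20, 21, 22, 23, 24, 25,
    26, 27, 28, 29, 30, 31, 32, 33, 34, 35, 36, 37, 38, 39, 40, 41, 42, 43, 44, 45, 46, 47, 48, 49,
    50, 51, 52, 53, 54, 55, 56, 57, 58, 59, 60, 61, 62, 63, 64, 65, 66, 67, 80, 81, 69, 77, 96, 262,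
    73, 83, 266, 270, 85, 93, 68, 82, 70, 71, 84, 89, 75, 79, 88, 92, 86, 87, 99, 115, 91, 95, 129,
    97, 98, 113, 112, 114, 141, 271, 131, 163, 209, 286, 263, 295, 299, 303, 74, 90, 101, 94, 102,
    103, 107, 111, 105, 109, 110, 119, 117, 123, 125, 127, 128, 160, 72, 133, 130, 137, 100, 106,
    132, 145, 104, 116, 76, 267, 78, 118, 136, 161, 134, 120, 138, 135, 150, 151, 146, 139, 154,
    155, 108, 121, 158, 159, 192, 162, 193, 269, 148, 147, 149, 122, 152, 153, 165, 124, 142, 143,
    157, 126, 164, 166, 169, 167, 180, 181, 182, 183, 184, 185, 186, 187, 188, 189, 190, 191, 258,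
    208, 168, 170, 224, 278, 177, 171, 259, 282, 178, 173, 284, 301, 174, 175, 176, 195, 198, 199,
    197, 179, 203, 207, 201, 205, 214, 215, 211, 221, 219, 223, 261, 210, 212, 213, 216, 217, 220,
    243, 225, 227, 241, 287, 242, 311, 315, 319, 228, 218, 229, 222, 230, 231, 235, 239, 233, 237,
    238, 247, 245, 251, 253, 255, 256, 144, 260, 265, 257, 194, 274, 226, 272, 196, 276, 240, 140,
    156, 291, 279, 320, 200, 280, 275, 273, 232, 277, 234, 304, 401, 281, 244, 172, 236, 283, 246,
    264, 289, 290, 293, 321, 305, 306, 285, 322, 308, 312, 307, 204, 309, 310, 317, 324, 323, 325,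
    313, 202, 248, 403, 249, 450, 405, 409, 250, 206, 252, 407, 254, 384, 328, 336, 329, 385, 326,
    338, 314, 386, 330, 340, 316, 332, 334, 327, 318, 400, 402, 404, 433, 408, 406, 434, 411, 432,
    410, 436, 413, 412, 414, 435, 415, 292, 344, 353, 331, 354, 333, 339, 335, 356, 341, 342, 343,
    345, 347, 349, 351, 449, 440, 451, 437, 453, 438, 441, 439, 457, 442, 444, 443, 455, 445, 446,
    447, 288, 296, 352, 294, 388, 360, 368, 346, 392, 387, 389, 348, 337, 355, 357, 350, 448, 393,
    417, 358, 452, 466, 468, 459, 456, 472, 481, 461, 454, 467, 469, 463, 268, 297, 298, 302, 390,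
    361, 362, 359, 394, 364, 369, 363, 398, 365, 366, 367, 396, 370, 372, 371, 458, 470, 473, 471,
    460, 474, 476, 475, 462, 477, 478, 479, 416, 418, 420, 376, 424, 391, 395, 373, 480, 397, 419,
    374, 421, 377, 378, 375, 464, 482, 484, 483, 488, 485, 486, 487, 496, 489, 490, 491, 492, 493,
    494, 495, 300, 422, 425, 380, 426, 399, 423, 379, 428, 427, 429, 381, 430, 382, 431, 383, 465,
    497, 498, 499, 500, 501, 502, 503, 504, 505, 506, 507, 508, 509, 510, 511]

set_option maxRecDepth 100000 in
theorem check1 : (List.range 512).all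
    (fun M => (nl eG M).isPerm (nl eH (sig.getD M 0)) && (pc M == pc (sig.getD M 0))) = true := by
  decide +kernel

set_option maxRecDepth 100000 in
theorem check2 : (List.range 512).all (fun M => decide (sig.getD M 0 < 512) &&
    (tau.getD (sig.getD M 0) 0 == M)) = true := by
  decide +kernel

set_option maxRecDepth 100000 in
theorem check3 : (List.range 512).countP (good eG) = 488 ∧
    (List.range 512).countP (good eH) = 486 := by
  decide +kernel

end Pool.Agent.R11.StrongU
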