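import Pool.Agent.R11.StrongU

/-!
# The `U`-polynomial and the strong `U`-polynomial of the two graphs
-/

set_option autoImplicit false

namespace Pool.Agent.R11.StrongU

open Finset MvPolynomial

/-- The graph on `V` in which two vertices are adjacent when an edge of `A` joins them. -/
def span {V E : Type*} (ends : E → Sym2 V) (A : Finset E) : SimpleGraph V :=
  SimpleGraph.fromEdgeSet {p | ∃ e ∈ A, ends e = p}

/-- vertices of a component -/
noncomputable def vcount {V E : Type*} (ends : E → Sym2 V) (A : Finset E)
    (C : (span ends A).ConnectedComponent) : ℕ := Nat.card {v : V // v ∈ C.supp}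

/-- edges of a component -/
noncomputable def ecount {V E : Type*} (ends : E → Sym2 V) (A : Finset E)
    (C : (span ends A).ConnectedComponent) : ℕ :=
  Nat.card {e : E // e ∈ A ∧ ∃ v ∈ C.supp, v ∈ ends e}

/-- the `U`-polynomial -/
noncomputable def U {V E : Type*} [Fintype V] [Fintype E] (ends : E → Sym2 V) :
    MvPolynomial (Option ℕ) ℤ :=
  ∑ A : Finset E, (∏ᶠ C : (span ends A).ConnectedComponent, X (some (vcount ends A C))) *
    (X none - 1) ^ (A.card - (Fintype.card V - Nat.card (span ends A).ConnectedComponent))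

/-- the strong `U`-polynomial -/
noncomputable def strongU {V E : Type*} [Fintype E] (ends : E → Sym2 V) :
    MvPolynomial (ℕ × ℕ) ℤ :=
  ∑ A : Finset E, ∏ᶠ C : (span ends A).ConnectedComponent,
    X (vcount ends A C, ecount ends A C + 1 - vcount ends A C)

/-- multigraph of a list of edges -/
def ends (es : List (ℕ × ℕ)) (e : Fin 9) : Sym2 (Fin 6) :=
  s(Fin.ofNat 6 (es.getD e (0, 0)).1, Fin.ofNat 6 (es.getD e (0, 0)).2)

/-- edge set of a number -/
def toSet (M : ℕ) : Finset (Fin 9) := univ.filter (fun e => M.testBit e = true)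

theorem toSet_inj : Set.InjOn toSet (range 512 : Finset ℕ) := by
  intro M hM N hN h
  have hM' : M < 512 := by simpa using hM
  have hN' : N < 512 := by simpa using hN
  apply Nat.eq_of_testBit_eq
  intro i
  by_cases hi : i < 9
  · have h1 : (⟨i, hi⟩ : Fin 9) ∈ toSet M ↔ (⟨i, hi⟩ : Fin 9) ∈ toSet N := by rw [h]
    simp only [toSet, mem_filter, mem_univ, true_and] at h1
    rw [Bool.eq_iff_iff]
    exact h1
  · rw [Nat.testBit_lt_two_pow, Nat.testBit_lt_two_pow]
    · calc N < 2 ^ 9 := by omega
        _ ≤ 2 ^ i := Nat.pow_le_pow_right (by norm_num) (by omega)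
    · calc M < 2 ^ 9 := by omega
        _ ≤ 2 ^ i := Nat.pow_le_pow_right (by norm_num) (by omega)

theorem toSet_image : (range 512).image toSet = univ := by
  apply Finset.eq_univ_of_card
  rw [Finset.card_image_of_injOn toSet_inj]
  simp

theorem sum_sets {R : Type*} [AddCommMonoid R] (φ : Finset (Fin 9) → R) :
    ∑ A : Finset (Fin 9), φ A = ∑ M ∈ range 512, φ (toSet M) := by
  rw [← toSet_image, Finset.sum_image toSet_inj]

/-- good lists of edges -/
def Good (es : List (ℕ × ℕ)) : Prop := es.length = 9 ∧ ∀ p ∈ es, p.1 < 6 ∧ p.2 < 6 ∧ p.1 ≠ p.2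

theorem Good.lt {es : List (ℕ × ℕ)} (h : Good es) : ∀ p ∈ es, p.1 < 6 ∧ p.2 < 6 :=
  fun p hp => ⟨(h.2 p hp).1, (h.2 p hp).2.1⟩

theorem getD_mem {es : List (ℕ × ℕ)} (h : Good es) (e : Fin 9) : es.getD e (0, 0) ∈ es ∧
    es[(e : ℕ)]? = some (es.getD e (0, 0)) := by
  have he : (e : ℕ) < es.length := by rw [h.1]; exact e.2
  have h1 : es[(e : ℕ)]? = some (es.getD e (0, 0)) := by
    simp [List.getD_eq_getElem?_getD, he]
  exact ⟨List.mem_of_getElem? h1, h1⟩

theorem ofNat_val {x : ℕ} (hx : x < 6) : ((Fin.ofNat 6 x : Fin 6) : ℕ) = x :=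
  Nat.mod_eq_of_lt hx

theorem span_eq (es : List (ℕ × ℕ)) (h : Good es) (M : ℕ) : span (ends es) (toSet M) = grL es M := by
  ext u v
  unfold span grL
  rw [SimpleGraph.fromEdgeSet_adj, SimpleGraph.fromRel_adj]
  constructor
  · rintro ⟨⟨e, he, hx⟩, hne⟩
    refine ⟨hne, ?_⟩
    simp only [toSet, mem_filter, mem_univ, true_and] at he
    obtain ⟨h1, h2⟩ := getD_mem h e
    have h3 := h.lt _ h1
    unfold ends at hx
    rw [Sym2.eq_iff] at hx
    rcases hx with ⟨hu, hv⟩ | ⟨hu, hv⟩
    · left
      refine ⟨e, he, ?_⟩
      rw [h2, ← hu, ← hv, ofNat_val h3.1, ofNat_val h3.2]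
    · right
      refine ⟨e, he, ?_⟩
      rw [h2, ← hu, ← hv, ofNat_val h3.1, ofNat_val h3.2]
  · rintro ⟨hne, ⟨i, hi, hx⟩ | ⟨i, hi, hx⟩⟩
    · have hlen : i < 9 := by
        rw [← h.1]
        exact (List.getElem?_eq_some_iff.1 hx).1
      refine ⟨⟨⟨i, hlen⟩, ?_, ?_⟩, hne⟩
      · simpa [toSet] using hi
      · unfold ends
        simp [List.getD_eq_getElem?_getD, hx]
    · have hlen : i < 9 := by
        rw [← h.1]
        exact (List.getElem?_eq_some_iff.1 hx).1
      refine ⟨⟨⟨i, hlen⟩, ?_, ?_⟩, hne⟩
      · simpa [toSet] using hi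
      · unfold ends
        simp [List.getD_eq_getElem?_getD, hx, Sym2.eq_swap]

theorem labs_lt (es : List (ℕ × ℕ)) (hes : ∀ p ∈ es, p.1 < 6 ∧ p.2 < 6) (M : ℕ) :
    ∀ z < 6, (labs es M).getD z 0 < 6 := by
  induction es generalizing M with
  | nil =>
    intro z hz
    unfold labs
    revert z
    decide
  | cons e es ih =>
    obtain ⟨c, d⟩ := e
    have hcd := hes (c, d) (by simp)
    have ih' := ih (fun p hp => hes p (by simp [hp])) (M / 2)
    intro z hz
    unfold labs
    split_ifs
    · rw [merge_getD _ _ _ _ (by rw [labs_length]; exact hz)]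
      split_ifs
      · exact ih' c hcd.1
      · exact ih' z hz
    · exact ih' z hz

theorem count_eq (L : List ℕ) (hL : L.length = 6) (r : ℕ) :
    L.count r = (univ.filter (fun w : Fin 6 => L.getD w 0 = r)).card := by
  rw [Finset.card_filter, Fin.sum_univ_six]
  match L, hL with
  | [a, b, c, d, e, f], _ =>
    simp only [List.count_cons, List.count_nil]
    simp
    ring

section Comp

variable {es : List (ℕ × ℕ)} (h : Good es) (M : ℕ)

/-- label of a component -/
noncomputable def lab (C : (grL es M).ConnectedComponent) : ℕ :=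
  SimpleGraph.ConnectedComponent.lift (fun v : Fin 6 => (labs es M).getD v 0)
    (fun v w p _ => reach_same es h.lt M v w ⟨p⟩) C

theorem lab_mk (v : Fin 6) :
    lab h M ((grL es M).connectedComponentMk v) = (labs es M).getD v 0 := rfl

theorem lab_inj : Function.Injective (lab h M) := by
  intro C C' hc
  induction C using SimpleGraph.ConnectedComponent.ind with | _ v
  induction C' using SimpleGraph.ConnectedComponent.ind with | _ w
  rw [lab_mk, lab_mk] at hc
  exact SimpleGraph.ConnectedComponent.sound (same_reach es h.lt M v w hc)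

theorem cn_eq (r : ℕ) : cn es M r =
    (univ.filter (fun w : Fin 6 => (labs es M).getD w 0 = r)).card :=
  count_eq _ (labs_length es M) r

open Classical in
theorem prod_comp {R : Type*} [CommMonoid R] (g : ℕ → R) :
    ∏ᶠ C : (grL es M).ConnectedComponent, g (lab h M C) =
      ∏ r ∈ range 6, if cn es M r = 0 then 1 else g r := by
  rw [finprod_eq_prod_of_fintype]
  have h1 : ∏ C : (grL es M).ConnectedComponent, g (lab h M C) =
      ∏ r ∈ univ.image (lab h M), g r := by
    rw [Finset.prod_image]
    exact fun C _ C' _ hc => lab_inj h M hc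
  rw [h1, ← Finset.prod_filter_ne_one (s := range 6)]
  have hsub : univ.image (lab h M) ⊆ range 6 := by
    intro r hr
    obtain ⟨C, _, rfl⟩ := mem_image.1 hr
    induction C using SimpleGraph.ConnectedComponent.ind with | _ v
    rw [lab_mk, mem_range]
    exact labs_lt es h.lt M v v.2
  rw [Finset.prod_filter_ne_one, ← Finset.prod_subset hsub]
  · refine Finset.prod_congr rfl fun r hr => ?_
    rw [if_neg]
    obtain ⟨C, _, rfl⟩ := mem_image.1 hr
    induction C using SimpleGraph.ConnectedComponent.ind with | _ v
    rw [lab_mk, cn_eq]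
    intro h0
    rw [Finset.card_eq_zero, Finset.filter_eq_empty_iff] at h0
    exact h0 (mem_univ v) rfl
  · intro r _ hr
    rw [if_pos]
    rw [cn_eq, Finset.card_eq_zero, Finset.filter_eq_empty_iff]
    intro v _ hv
    apply hr
    rw [mem_image]
    exact ⟨(grL es M).connectedComponentMk v, mem_univ _, by rw [lab_mk, hv]⟩

open Classical in
theorem vc (C : (grL es M).ConnectedComponent) :
    Nat.card {v : Fin 6 // v ∈ C.supp} = cn es M (lab h M C) := by
  rw [cn_eq, Nat.card_eq_fintype_card, Fintype.card_subtype]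
  congr 1
  ext v
  simp only [mem_filter, mem_univ, true_and, SimpleGraph.ConnectedComponent.mem_supp_iff]
  induction C using SimpleGraph.ConnectedComponent.ind with | _ w
  rw [lab_mk]
  constructor
  · intro hvw
    exact reach_same es h.lt M v w (SimpleGraph.ConnectedComponent.exact hvw)
  · intro hvw
    exact SimpleGraph.ConnectedComponent.sound (same_reach es h.lt M v w hvw)

theorem countP_range (n : ℕ) (p : ℕ → Bool) :
    (List.range n).countP p = (univ.filter (fun i : Fin n => p i = true)).card := by
  rw [Finset.card_filter, Fin.sum_univ_eq_sum_range (fun i => if p i = true then 1 else 0) n]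
  induction n with
  | zero => simp
  | succ n ih =>
    rw [List.range_succ, List.countP_append, ih, Finset.sum_range_succ]
    simp [List.countP_cons]

open Classical in
theorem ec (C : (grL es M).ConnectedComponent) :
    Nat.card {e : Fin 9 // e ∈ toSet M ∧ ∃ v ∈ C.supp, v ∈ ends es e} =
      ce es M (lab h M C) := by
  unfold ce
  rw [h.1, countP_range, Nat.card_eq_fintype_card, Fintype.card_subtype]
  congr 1
  ext e
  simp only [mem_filter, mem_univ, true_and, SimpleGraph.ConnectedComponent.mem_supp_iff, toSet,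
    Bool.and_eq_true, beq_iff_eq]
  refine and_congr_right fun he => ?_
  obtain ⟨h1, h2⟩ := getD_mem h e
  have h3 := h.lt _ h1
  have hsame : (labs es M).getD (es.getD e (0, 0)).1 0 = (labs es M).getD (es.getD e (0, 0)).2 0 :=
    adj_same es h.lt M e he _ _ h2
  induction C using SimpleGraph.ConnectedComponent.ind with | _ w
  rw [lab_mk]
  constructor
  · rintro ⟨v, hv, hve⟩
    have hvw := reach_same es h.lt M v w (SimpleGraph.ConnectedComponent.exact hv)
    unfold ends at hve
    rw [Sym2.mem_iff] at hve
    rcases hve with rfl | rfl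
    · rw [← hvw, ofNat_val h3.1]
    · rw [hsame, ← hvw, ofNat_val h3.2]
  · intro hw
    refine ⟨Fin.ofNat 6 (es.getD e (0, 0)).1, ?_, ?_⟩
    · apply SimpleGraph.ConnectedComponent.sound
      apply same_reach es h.lt M
      rw [← hw, ofNat_val h3.1]
    · unfold ends
      simp

end Comp

/-! ### evaluation -/

/-- the contribution of an edge set, computed from sizes -/
noncomputable def Phi (l : List ℕ) (p : ℕ) : MvPolynomial (Option ℕ) ℤ :=
  (l.map (fun n => if n = 0 then (1 : MvPolynomial (Option ℕ) ℤ) else X (some n))).prod *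
    (X none - 1) ^ (p - (6 - l.countP (fun n => decide (n ≠ 0))))

theorem toSet_card (M : ℕ) : (toSet M).card = pc M := by
  unfold toSet pc
  rw [countP_range]

theorem card_comp {es : List (ℕ × ℕ)} (h : Good es) (M : ℕ) :
    Nat.card (grL es M).ConnectedComponent =
      ∑ r ∈ range 6, if cn es M r = 0 then 0 else 1 := by
  classical
  have h1 := prod_comp h M (R := Multiplicative ℕ) (fun _ => Multiplicative.ofAdd 1)
  rw [finprod_eq_prod_of_fintype] at h1
  rw [Nat.card_eq_fintype_card]
  have h2 := congrArg Multiplicative.toAdd h1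
  rw [toAdd_prod, toAdd_prod] at h2
  simp only [toAdd_ofAdd, Finset.sum_const, Finset.card_univ, smul_eq_mul, mul_one] at h2
  rw [h2]
  refine Finset.sum_congr rfl fun r _ => ?_
  split_ifs <;> rfl

theorem list_prod_range {R : Type*} [CommMonoid R] (f : ℕ → R) (n : ℕ) :
    ((List.range n).map f).prod = ∏ r ∈ range n, f r := by
  induction n with
  | zero => simp
  | succ n ih => simp [List.range_succ, Finset.prod_range_succ, ih]

theorem U_eq {es : List (ℕ × ℕ)} (h : Good es) :
    U (ends es) = ∑ M ∈ range 512, Phi (nl es M) (pc M) := by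
  unfold U
  rw [sum_sets]
  refine Finset.sum_congr rfl fun M _ => ?_
  unfold vcount
  rw [span_eq es h M, toSet_card, Fintype.card_fin, card_comp h M]
  unfold Phi nl
  congr 1
  · rw [List.map_map, list_prod_range]
    simp only [vc h M]
    rw [prod_comp h M (fun r => X (some (cn es M r)))]
    rfl
  · congr 2
    rw [List.countP_map, countP_range, Finset.card_filter,
      Fin.sum_univ_eq_sum_range (fun r => if ((fun n => decide (n ≠ 0)) ∘ cn es M) r = true
        then 1 else 0) 6]
    congr 1
    refine Finset.sum_congr rfl fun r _ => ?_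
    by_cases hr : cn es M r = 0 <;> simp [hr]

theorem Phi_perm {l l' : List ℕ} (h : l.Perm l') (p : ℕ) : Phi l p = Phi l' p := by
  unfold Phi
  rw [(h.map _).prod_eq, h.countP_eq]

theorem good_G : Good eG := by
  refine ⟨rfl, ?_⟩
  decide

theorem good_H : Good eH := by
  refine ⟨rfl, ?_⟩
  decide

theorem check1' (M : ℕ) (hM : M < 512) : (nl eG M).Perm (nl eH (sig.getD M 0)) ∧
    pc M = pc (sig.getD M 0) := by
  have h1 := List.all_eq_true.1 check1 M (List.mem_range.2 hM)
  rw [Bool.and_eq_true, beq_iff_eq, List.isPerm_iff] at h1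
  exact h1

theorem check2' (M : ℕ) (hM : M < 512) : sig.getD M 0 < 512 ∧
    tau.getD (sig.getD M 0) 0 = M := by
  have h1 := List.all_eq_true.1 check2 M (List.mem_range.2 hM)
  rw [Bool.and_eq_true, beq_iff_eq, decide_eq_true_eq] at h1
  exact h1

attribute [local irreducible] sig tau nl pc in
theorem U_same : U (ends eG) = U (ends eH) := by
  rw [U_eq good_G, U_eq good_H]
  have h1 := check1'
  have h2 := check2'
  have hlt : ∀ M ∈ range 512, sig.getD M 0 < 512 := by
    intro M hM
    exact (h2 M (mem_range.1 hM)).1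
  have hinj : Set.InjOn (fun M => sig.getD M 0) (range 512 : Finset ℕ) := by
    intro M hM N hN hMN
    have e1 := h2 M (mem_range.1 (Finset.mem_coe.1 hM))
    have e2 := h2 N (mem_range.1 (Finset.mem_coe.1 hN))
    simp only at hMN
    rw [← e1.2, ← e2.2, hMN]
  have himg : (range 512).image (fun M => sig.getD M 0) = range 512 := by
    apply Finset.eq_of_subset_of_card_le
    · intro r hr
      obtain ⟨M, hM, rfl⟩ := mem_image.1 hr
      exact mem_range.2 (hlt M hM)
    · rw [Finset.card_image_of_injOn hinj]
  have e : ∑ M ∈ range 512, Phi (nl eH M) (pc M) =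
      ∑ M ∈ range 512, Phi (nl eH (sig.getD M 0)) (pc (sig.getD M 0)) := by
    conv_lhs => rw [← himg]
    rw [Finset.sum_image hinj]
  rw [e]
  refine Finset.sum_congr rfl fun M hM => ?_
  have := h1 M (mem_range.1 hM)
  rw [this.2]
  exact Phi_perm this.1 _

/-- the point of evaluation -/
def pt (p : ℕ × ℕ) : ℤ := if p = (3, 1) then 0 else 1

theorem eval_strongU {es : List (ℕ × ℕ)} (h : Good es) :
    MvPolynomial.eval pt (strongU (ends es)) = ((List.range 512).countP (good es) : ℤ) := by
  classical
  unfold strongU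
  rw [sum_sets, map_sum]
  have h1 : ∀ M ∈ range 512, MvPolynomial.eval pt
      (∏ᶠ C : (span (ends es) (toSet M)).ConnectedComponent,
        X (vcount (ends es) (toSet M) C,
          ecount (ends es) (toSet M) C + 1 - vcount (ends es) (toSet M) C)) =
      if good es M = true then 1 else 0 := by
    intro M _
    unfold vcount ecount
    rw [span_eq es h M]
    simp only [vc h M, ec h M]
    rw [prod_comp h M (fun r => (X (cn es M r, ce es M r + 1 - cn es M r) :
      MvPolynomial (ℕ × ℕ) ℤ)), map_prod]
    have h2 : ∀ r ∈ range 6, (MvPolynomial.eval pt) (if cn es M r = 0 then 1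
        else (X (cn es M r, ce es M r + 1 - cn es M r) : MvPolynomial (ℕ × ℕ) ℤ)) =
        if (cn es M r == 3 && ce es M r == 3) = true then 0 else 1 := by
      intro r _
      by_cases h0 : cn es M r = 0
      · simp [h0]
      · rw [if_neg h0, MvPolynomial.eval_X]
        unfold pt
        simp only [Prod.mk.injEq, Bool.and_eq_true, beq_iff_eq]
        congr 1
        rw [eq_iff_iff]
        omega
    rw [Finset.prod_congr rfl h2]
    by_cases hg : good es M = true
    · rw [if_pos hg]
      apply Finset.prod_eq_one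
      intro r hr
      unfold good at hg
      rw [List.all_eq_true] at hg
      have := hg r (by simpa using hr)
      rw [if_neg]
      simp only [Bool.not_eq_true', Bool.and_eq_false_iff, beq_eq_false_iff_ne] at this
      simp only [Bool.and_eq_true, beq_iff_eq]
      omega
    · rw [if_neg hg]
      unfold good at hg
      rw [List.all_eq_true] at hg
      push Not at hg
      obtain ⟨r, hr, h3⟩ := hg
      apply Finset.prod_eq_zero (i := r)
      · simpa using hr
      · rw [if_pos]
        simpa using h3
  rw [Finset.sum_congr rfl h1, countP_range, Finset.card_filter,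
    Fin.sum_univ_eq_sum_range (fun i => if good es i = true then 1 else 0) 512]
  push_cast
  rfl

theorem strongU_ne : strongU (ends eG) ≠ strongU (ends eH) := by
  intro h
  have h1 := congrArg (MvPolynomial.eval pt) h
  rw [eval_strongU good_G, eval_strongU good_H, check3.1, check3.2] at h1
  norm_num at h1

end Pool.Agent.R11.StrongU
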