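import Mathlib

/-!
# A level graph for the variable Szeged and Wiener indices

Level `0` is a cocktail party graph on `2t` vertices, levels `1, …, k` are single vertices and
level `k+1` is a clique on `L` vertices; consecutive levels are completely joined.
-/

set_option autoImplicit false

namespace Pool.Agent.R11.SzW

open Finset

theorem dist_char {V : Type*} (G : SimpleGraph V) (D : V → V → ℕ)
    (h0 : ∀ x, D x x = 0)
    (h1 : ∀ x y z, G.Adj y z → D x z ≤ D x y + 1)
    (h2 : ∀ x y d, D x y = d + 1 → ∃ z, G.Adj z y ∧ D x z = d)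
    (h3 : ∀ x y, D x y = 0 → x = y) :
    (∀ x y, G.Reachable x y) ∧ ∀ x y, G.dist x y = D x y := by
  have hw : ∀ (d : ℕ) (x y : V), D x y = d → ∃ p : G.Walk x y, p.length = d := by
    intro d
    induction d with
    | zero =>
      intro x y h
      obtain rfl := h3 x y h
      exact ⟨SimpleGraph.Walk.nil, rfl⟩
    | succ d ih =>
      intro x y h
      obtain ⟨z, hz, hd⟩ := h2 x y d h
      obtain ⟨p, hp⟩ := ih x z hd
      exact ⟨p.concat hz, by rw [SimpleGraph.Walk.length_concat, hp]⟩
  have hl : ∀ (u v : V) (p : G.Walk u v) (x : V), D x v ≤ D x u + p.length := by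
    intro u v p
    induction p with
    | nil => intro x; simp
    | cons h p ih =>
      intro x
      have := ih x
      have := h1 x _ _ h
      rw [SimpleGraph.Walk.length_cons]
      omega
  have hr : ∀ x y, G.Reachable x y := fun x y => ⟨(hw _ x y rfl).choose⟩
  refine ⟨hr, fun x y => le_antisymm ?_ ?_⟩
  · obtain ⟨p, hp⟩ := hw _ x y rfl
    rw [← hp]
    exact SimpleGraph.dist_le p
  · obtain ⟨p, hp⟩ := (hr x y).exists_walk_length_eq_dist
    have := hl x y p x
    rw [h0, hp] at this
    omega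

/-- vertices -/
abbrev VV (t k L : ℕ) := (Fin t × Bool) ⊕ (Fin k ⊕ Fin L)

variable {t k L : ℕ}

/-- level -/
def lev : VV t k L → ℕ
  | .inl _ => 0
  | .inr (.inl i) => i + 1
  | .inr (.inr _) => k + 1

/-- partners -/
def par : VV t k L → VV t k L → Prop
  | .inl a, .inl b => a.1 = b.1 ∧ a.2 ≠ b.2
  | _, _ => False

theorem par_symm (x y : VV t k L) (h : par x y) : par y x := by
  rcases x with a | x <;> rcases y with b | y
  · exact ⟨h.1.symm, h.2.symm⟩
  · exact h
  · exact h
  · exact h

theorem par_lev (x y : VV t k L) (h : par x y) : lev x = 0 ∧ lev y = 0 ∧ x ≠ y := by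
  rcases x with a | x <;> rcases y with b | y
  · refine ⟨rfl, rfl, ?_⟩
    rintro h'
    rw [Sum.inl.injEq] at h'
    exact h.2 (by rw [h'])
  · exact h.elim
  · exact h.elim
  · exact h.elim

/-- the graph -/
def gr (t k L : ℕ) : SimpleGraph (VV t k L) where
  Adj x y := x ≠ y ∧ lev x ≤ lev y + 1 ∧ lev y ≤ lev x + 1 ∧ ¬ par x y
  symm := ⟨fun _ _ h => ⟨h.1.symm, h.2.2.1, h.2.1, fun h' => h.2.2.2 (par_symm _ _ h')⟩⟩
  loopless := ⟨fun _ h => h.1 rfl⟩

open Classical in
/-- the distance -/
noncomputable def DD (x y : VV t k L) : ℕ :=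
  if x = y then 0 else if par x y then 2 else max 1 (max (lev x - lev y) (lev y - lev x))

theorem DD_self (x : VV t k L) : DD x x = 0 := by simp [DD]

theorem DD_par {x y : VV t k L} (h : par x y) : DD x y = 2 := by
  have := (par_lev x y h).2.2
  simp [DD, this, h]

theorem DD_other {x y : VV t k L} (h : ¬ par x y) (hne : x ≠ y) :
    DD x y = max 1 (max (lev x - lev y) (lev y - lev x)) := by
  simp [DD, h, hne]

theorem DD_ge (x y : VV t k L) : lev x - lev y ≤ DD x y ∧ lev y - lev x ≤ DD x y := by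
  by_cases h : par x y
  · have := par_lev x y h
    omega
  · by_cases hne : x = y
    · subst hne; simp
    · rw [DD_other h hne]
      omega

theorem DD_zero {x y : VV t k L} (h : DD x y = 0) : x = y := by
  by_contra hne
  by_cases hp : par x y
  · rw [DD_par hp] at h; omega
  · rw [DD_other hp hne] at h; omega

theorem lev_le (x : VV t k L) : lev x ≤ k + 1 := by
  rcases x with a | i | l
  · simp [lev]
  · have := i.2
    simp only [lev]; omega
  · simp [lev]

theorem dist_gr (hk : 1 ≤ k) :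
    (∀ x y, (gr t k L).Reachable x y) ∧ ∀ x y, (gr t k L).dist x y = DD x y := by
  apply dist_char
  · exact DD_self
  · intro x y z h
    by_cases hp : par x z
    · rw [DD_par hp]
      have : DD x y ≠ 0 := by
        intro h'
        obtain rfl := DD_zero h'
        exact h.2.2.2 hp
      omega
    · by_cases hne : x = z
      · subst hne; rw [DD_self]; omega
      · rw [DD_other hp hne]
        have h1 := h.2.1
        have h2 := h.2.2.1
        have := DD_ge x y
        omega
  · intro x y d h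
    by_cases hp : par x y
    · rw [DD_par hp] at h
      have hl := par_lev x y hp
      obtain rfl : d = 1 := by omega
      have hz : lev (.inr (.inl ⟨0, by omega⟩) : VV t k L) = 1 := rfl
      refine ⟨.inr (.inl ⟨0, by omega⟩), ⟨?_, ?_, ?_, ?_⟩, ?_⟩
      · intro h'
        rw [← h', hz] at hl
        omega
      · rw [hz]; omega
      · rw [hz]; omega
      · intro h'
        have := (par_lev _ _ h').1
        omega
      · rw [DD_other, hz]
        · omega
        · intro h'
          have := (par_lev _ _ h').2.1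
          omega
        · intro h'
          rw [h', hz] at hl
          omega
    · have hne : x ≠ y := by
        rintro rfl
        rw [DD_self] at h
        omega
      rw [DD_other hp hne] at h
      by_cases hd : d = 0
      · subst hd
        exact ⟨x, ⟨hne, by omega, by omega, hp⟩, DD_self x⟩
      · have hx := lev_le x
        have hy := lev_le y
        have key : ∀ j : ℕ, (hj : j < k) → ((lev y = j + 2 ∧ lev x < j + 1) ∨
            (lev y = j ∧ j + 1 < lev x)) → ∃ z, (gr t k L).Adj z y ∧ DD x z = d := by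
          intro j hj hc
          have hlz : lev (.inr (.inl ⟨j, hj⟩) : VV t k L) = j + 1 := rfl
          refine ⟨.inr (.inl ⟨j, hj⟩), ⟨?_, ?_, ?_, ?_⟩, ?_⟩
          · intro h'
            rw [← h', hlz] at hc
            omega
          · rw [hlz]; omega
          · rw [hlz]; omega
          · intro h'
            have := (par_lev _ _ h').1
            omega
          · rw [DD_other, hlz]
            · omega
            · intro h'
              have := (par_lev _ _ h').2.1
              omega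
            · intro h'
              rw [h', hlz] at hc
              omega
        rcases le_total (lev x) (lev y) with hxy | hxy
        · exact key (lev y - 2) (by omega) (Or.inl (by omega))
        · exact key (lev y) (by omega) (Or.inr (by omega))
  · intro x y h
    exact DD_zero h

/-- number of vertices closer to `x` than to `y` -/
noncomputable def nn (x y : VV t k L) : ℕ := by
  classical
  exact ((univ : Finset (VV t k L)).filter (fun w => DD w x < DD w y)).card

theorem nn_le (x y : VV t k L) : nn x y ≤ 2 * t + k + L := by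
  unfold nn
  refine (card_le_univ _).trans ?_
  simp [Fintype.card_sum, Fintype.card_prod]
  omega

theorem DD_AA (a b : Fin t × Bool) :
    DD (.inl a : VV t k L) (.inl b) = if a.1 = b.1 then (if a.2 = b.2 then 0 else 2) else 1 := by
  by_cases h1 : a.1 = b.1
  · by_cases h2 : a.2 = b.2
    · have : a = b := Prod.ext h1 h2
      simp [this, DD_self]
    · rw [DD_par (show par (.inl a : VV t k L) (.inl b) from ⟨h1, h2⟩)]
      simp [h1, h2]
  · rw [DD_other]
    · simp [lev, h1]
    · exact fun h => h1 h.1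
    · intro h
      rw [Sum.inl.injEq] at h
      exact h1 (by rw [h])

theorem DD_QA (q : Fin k ⊕ Fin L) (b : Fin t × Bool) :
    DD (.inr q : VV t k L) (.inl b) = lev (.inr q : VV t k L) := by
  rw [DD_other]
  · rcases q with i | l <;> simp [lev]
  · exact fun h => h
  · simp

theorem DD_AQ (q : Fin k ⊕ Fin L) (b : Fin t × Bool) :
    DD (.inl b : VV t k L) (.inr q) = lev (.inr q : VV t k L) := by
  rw [DD_other]
  · rcases q with i | l <;> simp [lev]
  · exact fun h => h
  · simp

theorem DD_xL (x : VV t k L) (l : Fin L) (hx : x ≠ .inr (.inr l)) :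
    DD x (.inr (.inr l)) = max 1 (k + 1 - lev x) := by
  rw [DD_other _ hx]
  · have := lev_le x
    have h2 : lev (.inr (.inr l) : VV t k L) = k + 1 := rfl
    rw [h2]
    omega
  · intro h
    have := (par_lev _ _ h).2.1
    simp [lev] at this

theorem nn_AA (a b : Fin t × Bool) (h : a.1 ≠ b.1) :
    nn (.inl a : VV t k L) (.inl b) = 2 := by
  classical
  have : nn (.inl a : VV t k L) (.inl b) =
      ({.inl a, .inl (b.1, !b.2)} : Finset (VV t k L)).card := by
    unfold nn
    congr 1
    ext w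
    simp only [mem_filter, mem_univ, true_and, mem_insert, mem_singleton]
    rcases w with c | q
    · rw [DD_AA, DD_AA, Sum.inl.injEq, Sum.inl.injEq]
      obtain ⟨c1, c2⟩ := c
      obtain ⟨a1, a2⟩ := a
      obtain ⟨b1, b2⟩ := b
      simp only [Prod.mk.injEq] at h ⊢
      by_cases h1 : c1 = a1
      · subst h1
        by_cases h2 : c2 = a2
        · subst h2
          simp [h]
        · simp [h, h2]
      · by_cases h3 : c1 = b1
        · subst h3
          by_cases h4 : c2 = b2
          · subst h4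
            cases c2 <;> simp [h1]
          · have : c2 = !b2 := by
              cases c2 <;> cases b2 <;> simp_all
            simp [h1, this]
        · simp [h1, h3]
    · rw [DD_QA, DD_QA]
      simp
  rw [this, card_insert_of_notMem, card_singleton]
  simp only [mem_singleton, Sum.inl.injEq]
  intro h'
  exact h (by rw [h'])

theorem nn_LL (l m : Fin L) (h : l ≠ m) :
    nn (.inr (.inr l) : VV t k L) (.inr (.inr m)) = 1 := by
  classical
  have : nn (.inr (.inr l) : VV t k L) (.inr (.inr m)) =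
      ({.inr (.inr l)} : Finset (VV t k L)).card := by
    unfold nn
    congr 1
    ext w
    simp only [mem_filter, mem_univ, true_and, mem_singleton]
    by_cases h1 : w = .inr (.inr l)
    · subst h1
      rw [DD_self, DD_xL _ _ (by simpa using h)]
      simp
    · rw [DD_xL _ _ h1]
      by_cases h2 : w = .inr (.inr m)
      · subst h2
        simp only [DD_self]
        constructor
        · intro h'; omega
        · intro h'; exact absurd h' h1
      · rw [DD_xL _ _ h2]
        simp [h1]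
  rw [this, card_singleton]

theorem nn_AP (a : Fin t × Bool) (i : Fin k) (h : (gr t k L).Adj (.inl a) (.inr (.inl i))) :
    nn (.inl a : VV t k L) (.inr (.inl i)) ≤ 1 := by
  classical
  have hi : (i : ℕ) = 0 := by
    have := h.2.2.1
    simp only [lev] at this
    omega
  unfold nn
  have : ((univ : Finset (VV t k L)).filter (fun w => DD w (.inl a) < DD w (.inr (.inl i)))) ⊆
      {.inl a} := by
    intro w hw
    simp only [mem_filter, mem_univ, true_and, mem_singleton] at hw ⊢
    by_contra hne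
    rcases w with c | q
    · rw [DD_AQ] at hw
      simp only [lev, hi] at hw
      exact hne (DD_zero (by omega))
    · rw [DD_QA] at hw
      have h1 : 1 ≤ lev (.inr q : VV t k L) := by
        rcases q with j | j <;> simp [lev]
      by_cases h2 : (.inr q : VV t k L) = .inr (.inl i)
      · rw [h2, DD_self] at hw
        omega
      · have hnp : ¬ par (.inr q : VV t k L) (.inr (.inl i)) := by
          intro h'; exact h'
        rw [DD_other hnp h2] at hw
        have : lev (.inr (.inl i) : VV t k L) = 1 := by simp [lev, hi]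
        rw [this] at hw
        omega
  exact (card_le_card this).trans (by simp)

theorem nn_LP (l : Fin L) (i : Fin k) (h : (gr t k L).Adj (.inr (.inr l)) (.inr (.inl i))) :
    nn (.inr (.inr l) : VV t k L) (.inr (.inl i)) ≤ 1 := by
  classical
  have hi : (i : ℕ) = k - 1 := by
    have := h.2.1
    simp only [lev] at this
    have := i.2
    omega
  have hk := i.2
  unfold nn
  have : ((univ : Finset (VV t k L)).filter
      (fun w => DD w (.inr (.inr l)) < DD w (.inr (.inl i)))) ⊆ {.inr (.inr l)} := by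
    intro w hw
    simp only [mem_filter, mem_univ, true_and, mem_singleton] at hw ⊢
    by_contra hne
    rw [DD_xL _ _ hne] at hw
    have hl : lev (.inr (.inl i) : VV t k L) = k := by simp only [lev]; omega
    by_cases h2 : w = .inr (.inl i)
    · rw [h2, DD_self] at hw
      omega
    · rw [DD_other _ h2, hl] at hw
      · have := lev_le w
        omega
      · intro h'
        have := (par_lev _ _ h').2.1
        omega
  exact (card_le_card this).trans (by simp)

/-- the summand -/
noncomputable def FF (α : ℝ) (x y : VV t k L) : ℝ := by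
  classical
  exact (if (gr t k L).Adj x y then (((nn x y * nn y x : ℕ) : ℝ)) ^ α else 0) -
    (if x = y then 0 else ((DD x y : ℕ) : ℝ) ^ α)

theorem FF_symm (α : ℝ) (x y : VV t k L) : FF α x y = FF α y x := by
  have hD : DD x y = DD y x := by
    by_cases hp : par x y
    · rw [DD_par hp, DD_par (par_symm _ _ hp)]
    · have hp' : ¬ par y x := fun h => hp (par_symm _ _ h)
      by_cases hne : x = y
      · rw [hne]
      · rw [DD_other hp hne, DD_other hp' (Ne.symm hne)]
        rw [max_comm (lev x - lev y)]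
  unfold FF
  rw [hD, mul_comm (nn x y), (gr t k L).adj_comm x y]
  simp only [eq_comm (a := x) (b := y)]

theorem FF_AA (α : ℝ) (a b : Fin t × Bool) :
    FF α (.inl a : VV t k L) (.inl b) =
      if b.1 = a.1 then (if b.2 = a.2 then 0 else - (2:ℝ) ^ α) else (4:ℝ) ^ α - 1 := by
  classical
  unfold FF
  rw [DD_AA]
  by_cases h1 : a.1 = b.1
  · by_cases h2 : a.2 = b.2
    · have : a = b := Prod.ext h1 h2
      subst this
      simp
    · have hnadj : ¬ (gr t k L).Adj (.inl a) (.inl b) := fun h => h.2.2.2 ⟨h1, h2⟩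
      have hne : (.inl a : VV t k L) ≠ .inl b := by
        intro h
        rw [Sum.inl.injEq] at h
        exact h2 (by rw [h])
      have h2' : ¬ b.2 = a.2 := fun h => h2 h.symm
      rw [if_neg hnadj, if_neg hne, if_pos h1, if_neg h2, if_pos h1.symm, if_neg h2']
      simp
  · have hne : (.inl a : VV t k L) ≠ .inl b := by
      intro h
      rw [Sum.inl.injEq] at h
      exact h1 (by rw [h])
    have hadj : (gr t k L).Adj (.inl a) (.inl b) :=
      ⟨hne, by simp [lev], by simp [lev], fun h => h1 h.1⟩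
    have h1' : ¬ b.1 = a.1 := fun h => h1 h.symm
    rw [if_pos hadj, if_neg hne, if_neg h1, if_neg h1', nn_AA _ _ h1, nn_AA _ _ h1']
    norm_num

theorem FF_LL (α : ℝ) (l m : Fin L) :
    FF α (.inr (.inr l) : VV t k L) (.inr (.inr m)) = 0 := by
  classical
  unfold FF
  by_cases h : l = m
  · subst h
    simp
  · have hne : (.inr (.inr l) : VV t k L) ≠ .inr (.inr m) := by simpa using h
    have hadj : (gr t k L).Adj (.inr (.inr l)) (.inr (.inr m)) :=
      ⟨hne, by simp [lev], by simp [lev], fun h => h⟩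
    rw [if_pos hadj, if_neg hne, nn_LL _ _ h, nn_LL _ _ (fun h' => h h'.symm), DD_xL _ _ hne]
    simp [lev]

theorem FF_AL (hk : 1 ≤ k) (α : ℝ) (a : Fin t × Bool) (l : Fin L) :
    FF α (.inl a : VV t k L) (.inr (.inr l)) = - (((k + 1 : ℕ) : ℝ)) ^ α := by
  classical
  unfold FF
  have hnadj : ¬ (gr t k L).Adj (.inl a) (.inr (.inr l)) := by
    intro h
    have := h.2.2.1
    simp only [lev] at this
    omega
  rw [if_neg hnadj, if_neg (by simp), DD_AQ]
  simp [lev]

theorem DD_le (hk : 1 ≤ k) (x y : VV t k L) : DD x y ≤ k + 1 := by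
  by_cases hp : par x y
  · rw [DD_par hp]; omega
  · by_cases hne : x = y
    · subst hne; rw [DD_self]; omega
    · rw [DD_other hp hne]
      have := lev_le x
      have := lev_le y
      omega

/-- general lower bound -/
theorem FF_ge (hk : 1 ≤ k) (α : ℝ) (hα : 0 ≤ α) (x y : VV t k L) :
    - (((k + 1 : ℕ) : ℝ)) ^ α ≤ FF α x y := by
  classical
  unfold FF
  have h1 : (0:ℝ) ≤ (if (gr t k L).Adj x y then (((nn x y * nn y x : ℕ) : ℝ)) ^ α else 0) := by
    split_ifs
    · positivity
    · exact le_rfl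
  have h2 : (if x = y then 0 else ((DD x y : ℕ) : ℝ) ^ α) ≤ (((k + 1 : ℕ) : ℝ)) ^ α := by
    split_ifs
    · positivity
    · apply Real.rpow_le_rpow (by positivity) _ hα
      exact_mod_cast DD_le hk x y
  linarith

/-- general upper bound -/
theorem FF_le (α : ℝ) (hα : 0 ≤ α) (x y : VV t k L) (B : ℕ)
    (hB : (gr t k L).Adj x y → nn x y * nn y x ≤ B) :
    FF α x y ≤ ((B : ℕ) : ℝ) ^ α := by
  classical
  unfold FF
  have h1 : (if (gr t k L).Adj x y then (((nn x y * nn y x : ℕ) : ℝ)) ^ α else 0) ≤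
      ((B : ℕ) : ℝ) ^ α := by
    split_ifs with h
    · apply Real.rpow_le_rpow (by positivity) _ hα
      exact_mod_cast hB h
    · positivity
  have h2 : (0:ℝ) ≤ (if x = y then 0 else ((DD x y : ℕ) : ℝ) ^ α) := by
    split_ifs
    · exact le_rfl
    · positivity
  linarith

theorem FF_AP (α : ℝ) (hα : 0 ≤ α) (a : Fin t × Bool) (i : Fin k) :
    FF α (.inl a : VV t k L) (.inr (.inl i)) ≤ ((2 * t + k + L : ℕ) : ℝ) ^ α := by
  apply FF_le α hα
  intro h
  calc nn (.inl a : VV t k L) (.inr (.inl i)) * nn (.inr (.inl i) : VV t k L) (.inl a)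
      ≤ 1 * (2 * t + k + L) := Nat.mul_le_mul (nn_AP a i h) (nn_le _ _)
    _ = _ := one_mul _

theorem FF_LP (α : ℝ) (hα : 0 ≤ α) (l : Fin L) (i : Fin k) :
    FF α (.inr (.inr l) : VV t k L) (.inr (.inl i)) ≤ ((2 * t + k + L : ℕ) : ℝ) ^ α := by
  apply FF_le α hα
  intro h
  calc nn (.inr (.inr l) : VV t k L) (.inr (.inl i)) * nn (.inr (.inl i) : VV t k L) (.inr (.inr l))
      ≤ 1 * (2 * t + k + L) := Nat.mul_le_mul (nn_LP l i h) (nn_le _ _)
    _ = _ := one_mul _

theorem FF_PP (α : ℝ) (hα : 0 ≤ α) (x y : VV t k L) :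
    FF α x y ≤ (((2 * t + k + L) * (2 * t + k + L) : ℕ) : ℝ) ^ α := by
  apply FF_le α hα
  intro h
  exact Nat.mul_le_mul (nn_le _ _) (nn_le _ _)

/-- the sum over the cocktail party part -/
theorem sum_AA (α : ℝ) :
    ∑ a : Fin t × Bool, ∑ b : Fin t × Bool, FF α (.inl a : VV t k L) (.inl b) =
      2 * t * (2 * (t - 1) * ((4:ℝ) ^ α - 1) - (2:ℝ) ^ α) := by
  have h : ∀ a : Fin t × Bool, ∑ b : Fin t × Bool, FF α (.inl a : VV t k L) (.inl b) =
      (2 * (t - 1) * ((4:ℝ) ^ α - 1) - (2:ℝ) ^ α) := by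
    intro a
    rw [Fintype.sum_prod_type]
    have h1 : ∀ j : Fin t, ∑ c : Bool, FF α (.inl a : VV t k L) (.inl (j, c)) =
        2 * ((4:ℝ) ^ α - 1) + if a.1 = j then (- (2:ℝ) ^ α - 2 * ((4:ℝ) ^ α - 1)) else 0 := by
      intro j
      rw [Fintype.sum_bool, FF_AA, FF_AA]
      by_cases hj : a.1 = j
      · subst hj
        rcases a.2 <;> simp
      · have hj' : ¬ j = a.1 := fun h => hj h.symm
        simp only [hj, hj', if_false]
        ring
    rw [Finset.sum_congr rfl (fun j _ => h1 j), Finset.sum_add_distrib]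
    simp only [Finset.sum_const, Finset.card_univ, Fintype.card_fin, nsmul_eq_mul,
      Finset.sum_ite_eq, Finset.mem_univ, if_true]
    ring
  rw [Finset.sum_congr rfl (fun a _ => h a)]
  simp only [Finset.sum_const, Finset.card_univ, Fintype.card_prod, Fintype.card_fin,
    Fintype.card_bool, nsmul_eq_mul]
  push_cast
  ring

/-- the total -/
noncomputable def HH (t k L : ℕ) (α : ℝ) : ℝ := ∑ x : VV t k L, ∑ y : VV t k L, FF α x y

theorem HH_split (α : ℝ) : HH t k L α =
    (∑ a : Fin t × Bool, ∑ b : Fin t × Bool, FF α (.inl a : VV t k L) (.inl b)) +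
    2 * (∑ a : Fin t × Bool, ∑ i : Fin k, FF α (.inl a : VV t k L) (.inr (.inl i))) +
    2 * (∑ a : Fin t × Bool, ∑ l : Fin L, FF α (.inl a : VV t k L) (.inr (.inr l))) +
    (∑ i : Fin k, ∑ j : Fin k, FF α (.inr (.inl i) : VV t k L) (.inr (.inl j))) +
    2 * (∑ l : Fin L, ∑ i : Fin k, FF α (.inr (.inr l) : VV t k L) (.inr (.inl i))) +
    (∑ l : Fin L, ∑ m : Fin L, FF α (.inr (.inr l) : VV t k L) (.inr (.inr m))) := by
  unfold HH
  have e1 : (∑ i : Fin k, ∑ a : Fin t × Bool, FF α (.inr (.inl i) : VV t k L) (.inl a)) =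
      ∑ a : Fin t × Bool, ∑ i : Fin k, FF α (.inl a : VV t k L) (.inr (.inl i)) := by
    rw [Finset.sum_comm]
    exact Finset.sum_congr rfl fun a _ => Finset.sum_congr rfl fun i _ => FF_symm _ _ _
  have e2 : (∑ l : Fin L, ∑ a : Fin t × Bool, FF α (.inr (.inr l) : VV t k L) (.inl a)) =
      ∑ a : Fin t × Bool, ∑ l : Fin L, FF α (.inl a : VV t k L) (.inr (.inr l)) := by
    rw [Finset.sum_comm]
    exact Finset.sum_congr rfl fun a _ => Finset.sum_congr rfl fun i _ => FF_symm _ _ _
  have e3 : (∑ i : Fin k, ∑ l : Fin L, FF α (.inr (.inl i) : VV t k L) (.inr (.inr l))) =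
      ∑ l : Fin L, ∑ i : Fin k, FF α (.inr (.inr l) : VV t k L) (.inr (.inl i)) := by
    rw [Finset.sum_comm]
    exact Finset.sum_congr rfl fun a _ => Finset.sum_congr rfl fun i _ => FF_symm _ _ _
  simp only [Fintype.sum_sum_type, Finset.sum_add_distrib]
  rw [e1, e2, e3]
  ring

theorem HH_lower (hk : 1 ≤ k) (α : ℝ) (hα : 0 ≤ α) :
    2 * t * (2 * (t - 1) * ((4:ℝ) ^ α - 1) - (2:ℝ) ^ α) -
      (((k + 1 : ℕ) : ℝ)) ^ α * (4 * t * k + 4 * t * L + k * k + 2 * L * k) ≤ HH t k L α := by
  rw [HH_split, sum_AA]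
  set c := (((k + 1 : ℕ) : ℝ)) ^ α
  have h1 : (2 * t * k : ℝ) * (- c) ≤
      ∑ a : Fin t × Bool, ∑ i : Fin k, FF α (.inl a : VV t k L) (.inr (.inl i)) := by
    calc (2 * t * k : ℝ) * (- c) = ∑ a : Fin t × Bool, ∑ i : Fin k, (- c) := by
          simp only [Finset.sum_const, Finset.card_univ, Fintype.card_prod, Fintype.card_fin,
            Fintype.card_bool, nsmul_eq_mul]
          push_cast
          ring
      _ ≤ _ := Finset.sum_le_sum fun a _ => Finset.sum_le_sum fun i _ => FF_ge hk α hα _ _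
  have h2 : (2 * t * L : ℝ) * (- c) ≤
      ∑ a : Fin t × Bool, ∑ l : Fin L, FF α (.inl a : VV t k L) (.inr (.inr l)) := by
    calc (2 * t * L : ℝ) * (- c) = ∑ a : Fin t × Bool, ∑ i : Fin L, (- c) := by
          simp only [Finset.sum_const, Finset.card_univ, Fintype.card_prod, Fintype.card_fin,
            Fintype.card_bool, nsmul_eq_mul]
          push_cast
          ring
      _ ≤ _ := Finset.sum_le_sum fun a _ => Finset.sum_le_sum fun i _ => FF_ge hk α hα _ _
  have h3 : (k * k : ℝ) * (- c) ≤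
      ∑ i : Fin k, ∑ j : Fin k, FF α (.inr (.inl i) : VV t k L) (.inr (.inl j)) := by
    calc (k * k : ℝ) * (- c) = ∑ a : Fin k, ∑ i : Fin k, (- c) := by
          simp only [Finset.sum_const, Finset.card_univ, Fintype.card_fin, nsmul_eq_mul]
          ring
      _ ≤ _ := Finset.sum_le_sum fun a _ => Finset.sum_le_sum fun i _ => FF_ge hk α hα _ _
  have h4 : (L * k : ℝ) * (- c) ≤
      ∑ l : Fin L, ∑ i : Fin k, FF α (.inr (.inr l) : VV t k L) (.inr (.inl i)) := by
    calc (L * k : ℝ) * (- c) = ∑ a : Fin L, ∑ i : Fin k, (- c) := by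
          simp only [Finset.sum_const, Finset.card_univ, Fintype.card_fin, nsmul_eq_mul]
          ring
      _ ≤ _ := Finset.sum_le_sum fun a _ => Finset.sum_le_sum fun i _ => FF_ge hk α hα _ _
  have h5 : ∑ l : Fin L, ∑ m : Fin L, FF α (.inr (.inr l) : VV t k L) (.inr (.inr m)) = 0 :=
    Finset.sum_eq_zero fun l _ => Finset.sum_eq_zero fun m _ => FF_LL α l m
  rw [h5]
  nlinarith [h1, h2, h3, h4]

theorem HH_upper (hk : 1 ≤ k) (α : ℝ) (hα : 0 ≤ α) :
    HH t k L α ≤ 2 * t * (2 * (t - 1) * ((4:ℝ) ^ α - 1) - (2:ℝ) ^ α) -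
      4 * t * L * (((k + 1 : ℕ) : ℝ)) ^ α +
      (4 * t * k + 2 * L * k) * ((2 * t + k + L : ℕ) : ℝ) ^ α +
      k * k * (((2 * t + k + L) * (2 * t + k + L) : ℕ) : ℝ) ^ α := by
  rw [HH_split, sum_AA]
  set c := (((k + 1 : ℕ) : ℝ)) ^ α
  set B := ((2 * t + k + L : ℕ) : ℝ) ^ α
  set B2 := (((2 * t + k + L) * (2 * t + k + L) : ℕ) : ℝ) ^ α
  have h1 : ∑ a : Fin t × Bool, ∑ i : Fin k, FF α (.inl a : VV t k L) (.inr (.inl i)) ≤
      (2 * t * k : ℝ) * B := by
    calc _ ≤ ∑ a : Fin t × Bool, ∑ i : Fin k, B :=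
          Finset.sum_le_sum fun a _ => Finset.sum_le_sum fun i _ => FF_AP α hα _ _
      _ = _ := by
          simp only [Finset.sum_const, Finset.card_univ, Fintype.card_prod, Fintype.card_fin,
            Fintype.card_bool, nsmul_eq_mul]
          push_cast
          ring
  have h2 : ∑ a : Fin t × Bool, ∑ l : Fin L, FF α (.inl a : VV t k L) (.inr (.inr l)) =
      (2 * t * L : ℝ) * (- c) := by
    calc _ = ∑ a : Fin t × Bool, ∑ i : Fin L, (- c) :=
          Finset.sum_congr rfl fun a _ => Finset.sum_congr rfl fun i _ => FF_AL hk α _ _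
      _ = _ := by
          simp only [Finset.sum_const, Finset.card_univ, Fintype.card_prod, Fintype.card_fin,
            Fintype.card_bool, nsmul_eq_mul]
          push_cast
          ring
  have h3 : ∑ i : Fin k, ∑ j : Fin k, FF α (.inr (.inl i) : VV t k L) (.inr (.inl j)) ≤
      (k * k : ℝ) * B2 := by
    calc _ ≤ ∑ a : Fin k, ∑ i : Fin k, B2 :=
          Finset.sum_le_sum fun a _ => Finset.sum_le_sum fun i _ => FF_PP α hα _ _
      _ = _ := by
          simp only [Finset.sum_const, Finset.card_univ, Fintype.card_fin, nsmul_eq_mul]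
          ring
  have h4 : ∑ l : Fin L, ∑ i : Fin k, FF α (.inr (.inr l) : VV t k L) (.inr (.inl i)) ≤
      (L * k : ℝ) * B := by
    calc _ ≤ ∑ a : Fin L, ∑ i : Fin k, B :=
          Finset.sum_le_sum fun a _ => Finset.sum_le_sum fun i _ => FF_LP α hα _ _
      _ = _ := by
          simp only [Finset.sum_const, Finset.card_univ, Fintype.card_fin, nsmul_eq_mul]
          ring
  have h5 : ∑ l : Fin L, ∑ m : Fin L, FF α (.inr (.inr l) : VV t k L) (.inr (.inr m)) = 0 :=
    Finset.sum_eq_zero fun l _ => Finset.sum_eq_zero fun m _ => FF_LL α l m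
  rw [h5, h2]
  nlinarith [h1, h3, h4]

theorem nn_pos {x y : VV t k L} (h : x ≠ y) : nn x y ≠ 0 := by
  classical
  unfold nn
  rw [Finset.card_ne_zero]
  refine ⟨x, ?_⟩
  simp only [mem_filter, mem_univ, true_and]
  rw [DD_self]
  exact Nat.pos_of_ne_zero fun h' => h (DD_zero h')

theorem FF_cont (x y : VV t k L) : Continuous fun α : ℝ => FF α x y := by
  classical
  unfold FF
  apply Continuous.sub
  · by_cases h : (gr t k L).Adj x y
    · simp only [h, if_true]
      apply Real.continuous_const_rpow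
      have h1 := nn_pos h.1
      have h2 := nn_pos h.1.symm
      exact_mod_cast Nat.mul_ne_zero h1 h2
    · simp only [h, if_false]
      exact continuous_const
  · by_cases h : x = y
    · simp only [h, if_true]
      exact continuous_const
    · simp only [h, if_false]
      apply Real.continuous_const_rpow
      exact_mod_cast fun h' => h (DD_zero h')

theorem HH_cont : Continuous (HH t k L) := by
  unfold HH
  exact continuous_finsetSum _ fun x _ => continuous_finsetSum _ fun y _ => FF_cont x y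

theorem FF_zero (x y : VV t k L) : FF 0 x y ≤ 0 := by
  classical
  unfold FF
  simp only [Real.rpow_zero]
  by_cases h : (gr t k L).Adj x y
  · simp [h, h.1]
  · rw [if_neg h]
    split_ifs <;> norm_num

theorem HH_zero (ht : 1 ≤ t) : HH t k L 0 < 0 := by
  unfold HH
  have h : ∀ x : VV t k L, ∑ y : VV t k L, FF 0 x y ≤ 0 := fun x =>
    Finset.sum_nonpos fun y _ => FF_zero x y
  apply Finset.sum_neg' (fun x _ => h x)
  refine ⟨.inl (⟨0, ht⟩, false), mem_univ _, ?_⟩
  apply Finset.sum_neg' (fun y _ => FF_zero _ y)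
  refine ⟨.inl (⟨0, ht⟩, true), mem_univ _, ?_⟩
  rw [FF_AA]
  simp

theorem rpow34 (c : ℝ) (hc : 0 ≤ c) : (c ^ 4) ^ (3 / 4 : ℝ) = c ^ 3 := by
  rw [← Real.rpow_natCast c 4, ← Real.rpow_mul hc, ← Real.rpow_natCast c 3]
  norm_num

theorem rpow12 (c : ℝ) (hc : 0 ≤ c) : (c ^ 2) ^ (1 / 2 : ℝ) = c := by
  rw [← Real.rpow_natCast c 2, ← Real.rpow_mul hc]
  norm_num

theorem HH_half : 0 < HH (10 * 1000 ^ 4) 80 (1000 ^ 4) (1 / 2) := by
  have h := HH_lower (t := 10 * 1000 ^ 4) (k := 80) (L := 1000 ^ 4) (by norm_num) (1 / 2)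
    (by norm_num)
  have e1 : (((80 + 1 : ℕ) : ℝ)) ^ (1 / 2 : ℝ) = 9 := by
    rw [show (((80 + 1 : ℕ) : ℝ)) = 9 ^ 2 by norm_num, rpow12 _ (by norm_num)]
  have e2 : (4 : ℝ) ^ (1 / 2 : ℝ) = 2 := by
    rw [show (4 : ℝ) = 2 ^ 2 by norm_num, rpow12 _ (by norm_num)]
  have e3 : (2 : ℝ) ^ (1 / 2 : ℝ) ≤ 2 := by
    calc (2 : ℝ) ^ (1 / 2 : ℝ) ≤ 4 ^ (1 / 2 : ℝ) :=
          Real.rpow_le_rpow (by norm_num) (by norm_num) (by norm_num)
      _ = 2 := e2
  rw [e1, e2] at h
  push_cast at h
  refine lt_of_lt_of_le ?_ h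
  nlinarith [e3]

theorem HH_34 : HH (10 * 1000 ^ 4) 80 (1000 ^ 4) (3 / 4) < 0 := by
  have h := HH_upper (t := 10 * 1000 ^ 4) (k := 80) (L := 1000 ^ 4) (by norm_num) (3 / 4)
    (by norm_num)
  have e1 : (((80 + 1 : ℕ) : ℝ)) ^ (3 / 4 : ℝ) = 27 := by
    rw [show (((80 + 1 : ℕ) : ℝ)) = 3 ^ 4 by norm_num, rpow34 _ (by norm_num)]
    norm_num
  have e2 : (4 : ℝ) ^ (3 / 4 : ℝ) ≤ 2.83 := by
    have h0 : ((4 : ℝ) ^ (3 / 4 : ℝ)) ^ 2 = 8 := by
      rw [← Real.rpow_natCast, ← Real.rpow_mul (by norm_num)]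
      rw [show (3 / 4 : ℝ) * ((2 : ℕ) : ℝ) = 1 / 2 + (1 : ℕ) by norm_num,
        Real.rpow_add (by norm_num), Real.rpow_natCast, show (4 : ℝ) = 2 ^ 2 by norm_num,
        rpow12 _ (by norm_num)]
      norm_num
    nlinarith [Real.rpow_nonneg (show (0:ℝ) ≤ 4 by norm_num) (3 / 4 : ℝ)]
  have e3 : (0:ℝ) ≤ (2 : ℝ) ^ (3 / 4 : ℝ) := by positivity
  have e4 : ((2 * (10 * 1000 ^ 4) + 80 + 1000 ^ 4 : ℕ) : ℝ) ^ (3 / 4 : ℝ) ≤ (3 * 1000) ^ 3 := by
    rw [← rpow34 (3 * 1000) (by norm_num)]
    exact Real.rpow_le_rpow (by positivity) (by norm_num) (by norm_num)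
  have e5 : (((2 * (10 * 1000 ^ 4) + 80 + 1000 ^ 4) * (2 * (10 * 1000 ^ 4) + 80 + 1000 ^ 4) : ℕ) :
      ℝ) ^ (3 / 4 : ℝ) ≤ ((3 * 1000) ^ 2) ^ 3 := by
    rw [← rpow34 ((3 * 1000) ^ 2) (by norm_num)]
    exact Real.rpow_le_rpow (by positivity) (by norm_num) (by norm_num)
  rw [e1] at h
  refine lt_of_le_of_lt h ?_
  push_cast at e4 e5 ⊢
  nlinarith [e2, e3, e4, e5]

theorem main : ∃ α β : ℝ, α ≠ β ∧ HH (10 * 1000 ^ 4) 80 (1000 ^ 4) α = 0 ∧
    HH (10 * 1000 ^ 4) 80 (1000 ^ 4) β = 0 := by
  have hc := HH_cont (t := 10 * 1000 ^ 4) (k := 80) (L := 1000 ^ 4)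
  have h0 := HH_zero (t := 10 * 1000 ^ 4) (k := 80) (L := 1000 ^ 4) (by norm_num)
  obtain ⟨α, hα, hα0⟩ := intermediate_value_Ioo (show (0:ℝ) ≤ 1 / 2 by norm_num)
    hc.continuousOn ⟨h0, HH_half⟩
  obtain ⟨β, hβ, hβ0⟩ := intermediate_value_Ioo' (show (1 / 2:ℝ) ≤ 3 / 4 by norm_num)
    hc.continuousOn ⟨HH_34, HH_half⟩
  exact ⟨α, β, (hα.2.trans hβ.1).ne, hα0, hβ0⟩

end Pool.Agent.R11.SzW
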