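import Pool.Agent.R11.SzW

/-!
# Chains attached to a clique: Wiener polynomials with prescribed coefficients
-/

set_option autoImplicit false

namespace Pool.Agent.R11.WRat

open Finset Polynomial

/-- distribute a total -/
theorem distribute (m : ℕ) : ∀ (N T : ℕ), N ≤ T → T ≤ N * m →
    ∃ f : Fin N → ℕ, (∀ i, 1 ≤ f i ∧ f i ≤ m) ∧ ∑ i, f i = T := by
  intro N
  induction N with
  | zero =>
    intro T _ h
    refine ⟨fun _ => 0, fun i => i.elim0, ?_⟩
    simp only [univ_eq_empty, sum_empty]
    omega
  | succ N ih =>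
    intro T h1 h2
    have hm : 1 ≤ m := by
      rcases Nat.eq_zero_or_pos m with h | h
      · subst h; omega
      · exact h
    have h3 : (N + 1) * m = N * m + m := by ring
    have h4 : N ≤ N * m := Nat.le_mul_of_pos_right N hm
    obtain ⟨f, hf, hs⟩ := ih (T - min m (T - N)) (by omega) (by omega)
    refine ⟨Fin.snoc f (min m (T - N)), ?_, ?_⟩
    · intro i
      refine Fin.lastCases ?_ (fun j => ?_) i
      · rw [Fin.snoc_last]
        omega
      · rw [Fin.snoc_castSucc]
        exact hf j
    · rw [Fin.sum_univ_castSucc]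
      simp only [Fin.snoc_castSucc, Fin.snoc_last, hs]
      omega

variable {ι : Type} [DecidableEq ι] {m : ℕ} {L a : ι → ℕ}

/-- vertices: a core and chains -/
abbrev V (m : ℕ) (L : ι → ℕ) := Fin m ⊕ (Σ c : ι, Fin (L c))

/-- distance between chain vertices -/
def Do (u v : Σ c : ι, Fin (L c)) : ℕ :=
  ((u.2 : ℕ) - v.2) + ((v.2 : ℕ) - u.2) + if u.1 = v.1 then 0 else 1

/-- distance from the core to chain vertices -/
def Dc (a : ι → ℕ) (s : Fin m) (v : Σ c : ι, Fin (L c)) : ℕ :=
  v.2 + 1 + if (s : ℕ) < a v.1 then 0 else 1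

/-- distance -/
def D (a : ι → ℕ) : V m L → V m L → ℕ
  | .inl s, .inl t => if s = t then 0 else 1
  | .inl s, .inr v => Dc a s v
  | .inr v, .inl s => Dc a s v
  | .inr u, .inr v => Do u v

theorem D_symm (x y : V m L) : D a x y = D a y x := by
  rcases x with s | u <;> rcases y with t | v
  · simp only [D, eq_comm]
  · rfl
  · rfl
  · simp only [D, Do, eq_comm (a := u.1)]
    omega

theorem D_zero (x y : V m L) : D a x y = 0 ↔ x = y := by
  rcases x with s | u <;> rcases y with t | v
  · simp only [D, Sum.inl.injEq]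
    split_ifs with h <;> simp [h]
  · simp [D, Dc]
  · simp [D, Dc]
  · simp only [D, Do, Sum.inr.injEq]
    obtain ⟨c, i⟩ := u
    obtain ⟨c', j⟩ := v
    simp only
    by_cases h : c = c'
    · subst h
      simp only [if_true, Sigma.mk.injEq, heq_eq_eq, true_and]
      rw [Fin.ext_iff]
      omega
    · simp [h]

theorem D_tri (x y z : V m L) : D a x z ≤ D a x y + D a y z := by
  rcases x with s | u <;> rcases y with t | v <;> rcases z with r | w
  · simp only [D]
    split_ifs with h1 h2 h3 h2 h3 <;> simp_all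
  · simp only [D, Dc]
    by_cases h : s = t
    · subst h; simp
    · simp only [h, if_false]
      split_ifs <;> omega
  · simp only [D, Dc]
    split_ifs <;> omega
  · obtain ⟨c, i⟩ := v
    obtain ⟨c', j⟩ := w
    simp only [D, Dc, Do]
    by_cases h : c = c'
    · subst h
      simp only [if_true]
      split_ifs <;> omega
    · simp only [h, if_false]
      split_ifs <;> omega
  · simp only [D, Dc]
    by_cases h : t = r
    · subst h; simp
    · simp only [h, if_false]
      split_ifs <;> omega
  · simp only [D, Dc, Do]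
    split_ifs <;> omega
  · obtain ⟨c, i⟩ := u
    obtain ⟨c', j⟩ := v
    simp only [D, Dc, Do]
    by_cases h : c = c'
    · subst h
      simp only [if_true]
      split_ifs <;> omega
    · simp only [h, if_false]
      split_ifs <;> omega
  · obtain ⟨c, i⟩ := u
    obtain ⟨c', j⟩ := v
    obtain ⟨c'', k⟩ := w
    simp only [D, Do]
    by_cases h : c = c'
    · subst h
      simp only [if_true]
      split_ifs <;> omega
    · simp only [h, if_false]
      split_ifs <;> omega

/-- the graph -/
def gr (m : ℕ) (L a : ι → ℕ) : SimpleGraph (V m L) where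
  Adj x y := D a x y = 1
  symm := ⟨fun x y h => by rw [D_symm]; exact h⟩
  loopless := ⟨fun x h => by rw [(D_zero x x).2 rfl] at h; omega⟩

theorem D_geo (ha : ∀ c, 1 ≤ a c) (ham : ∀ c, a c ≤ m) (x y : V m L) (d : ℕ)
    (h : D a x y = d + 1) : ∃ z, (gr m L a).Adj z y ∧ D a x z = d := by
  have hself : ∀ x : V m L, D a x x = 0 := fun x => (D_zero x x).2 rfl
  rcases x with s | ⟨c, i⟩ <;> rcases y with t | ⟨c', j⟩
  · have hd : d = 0 := by
      simp only [D] at h
      split_ifs at h <;> omega
    subst hd
    exact ⟨.inl s, h, hself _⟩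
  · rcases Nat.eq_zero_or_pos (j : ℕ) with hj | hj
    · by_cases hs : (s : ℕ) < a c'
      · have hd : d = 0 := by
          simp only [D, Dc, hs, if_true] at h
          omega
        subst hd
        exact ⟨.inl s, h, hself _⟩
      · have hd : d = 1 := by
          simp only [D, Dc, hs, if_false] at h
          omega
        subst hd
        have h1 := ha c'
        have h2 := ham c'
        refine ⟨.inl ⟨0, by omega⟩, ?_, ?_⟩
        · show D a _ _ = 1
          simp only [D, Dc]
          rw [if_pos (by omega)]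
          omega
        · simp only [D]
          rw [if_neg]
          intro h'
          rw [h'] at hs
          simp only at hs
          omega
    · refine ⟨.inr ⟨c', ⟨j - 1, by omega⟩⟩, ?_, ?_⟩
      · show D a _ _ = 1
        simp only [D, Do, if_true]
        omega
      · simp only [D, Dc] at h ⊢
        omega
  · by_cases hs : (t : ℕ) < a c
    · have hd : d = i := by
        simp only [D, Dc, hs, if_true] at h
        omega
      subst hd
      have hi := i.2
      refine ⟨.inr ⟨c, ⟨0, by omega⟩⟩, ?_, ?_⟩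
      · show D a _ _ = 1
        simp only [D, Dc, hs, if_true]
      · simp only [D, Do, if_true]
        omega
    · have hd : d = i + 1 := by
        simp only [D, Dc, hs, if_false] at h
        omega
      subst hd
      have h1 := ha c
      have h2 := ham c
      refine ⟨.inl ⟨0, by omega⟩, ?_, ?_⟩
      · show D a _ _ = 1
        simp only [D]
        rw [if_neg]
        intro h'
        rw [← h'] at hs
        simp only at hs
        omega
      · simp only [D, Dc]
        rw [if_pos (by omega)]
  · by_cases hc : c = c'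
    · subst hc
      simp only [D, Do, if_true] at h
      rcases lt_or_ge (i : ℕ) (j : ℕ) with hij | hij
      · refine ⟨.inr ⟨c, ⟨j - 1, by omega⟩⟩, ?_, ?_⟩
        · show D a _ _ = 1
          simp only [D, Do, if_true]
          omega
        · simp only [D, Do, if_true]
          omega
      · have hi := i.2
        refine ⟨.inr ⟨c, ⟨j + 1, by omega⟩⟩, ?_, ?_⟩
        · show D a _ _ = 1
          simp only [D, Do, if_true]
          omega
        · simp only [D, Do, if_true]
          omega
    · simp only [D, Do, hc, if_false] at h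
      rcases lt_or_ge (i : ℕ) (j : ℕ) with hij | hij
      · refine ⟨.inr ⟨c', ⟨j - 1, by omega⟩⟩, ?_, ?_⟩
        · show D a _ _ = 1
          simp only [D, Do, if_true]
          omega
        · simp only [D, Do, hc, if_false]
          omega
      · have hi := i.2
        refine ⟨.inr ⟨c, ⟨j, by omega⟩⟩, ?_, ?_⟩
        · show D a _ _ = 1
          simp only [D, Do, hc, if_false]
          omega
        · simp only [D, Do, if_true]
          omega

theorem dist_gr (ha : ∀ c, 1 ≤ a c) (ham : ∀ c, a c ≤ m) :
    (∀ x y, (gr m L a).Reachable x y) ∧ ∀ x y, (gr m L a).dist x y = D a x y := by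
  apply Pool.Agent.R11.SzW.dist_char
  · exact fun x => (D_zero x x).2 rfl
  · intro x y z h
    have h1 := D_tri (a := a) x y z
    have h2 : D a y z = 1 := h
    omega
  · intro x y d h
    exact D_geo ha ham x y d h
  · exact fun x y h => (D_zero x y).1 h

/-! ### The polynomial -/

section Poly

variable [Fintype ι]

/-- twice the Wiener polynomial -/
noncomputable def P2 (m : ℕ) (L a : ι → ℕ) : ℤ[X] :=
  ∑ x : V m L, ∑ y : V m L, if x = y then 0 else X ^ (D a x y)

/-- number of chains with at least `l - 1` vertices -/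
def cnt (L : ι → ℕ) (l : ℕ) : ℕ := ∑ c : ι, if l ≤ L c + 1 then 1 else 0

/-- the graph of pairs of chain vertices at distance `l` -/
def Go (L : ι → ℕ) (l : ℕ) : SimpleGraph (Σ c : ι, Fin (L c)) where
  Adj u v := u ≠ v ∧ Do u v = l
  symm := ⟨fun u v h => ⟨h.1.symm, by
    have := D_symm (m := 0) (a := fun _ => 0) (.inr u : V 0 L) (.inr v)
    simp only [D] at this
    rw [← this]; exact h.2⟩⟩
  loopless := ⟨fun u h => h.1 rfl⟩

open Classical in
/-- number of unordered pairs of chain vertices at distance `l` -/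
noncomputable def eo (L : ι → ℕ) (l : ℕ) : ℕ := (Go L l).edgeFinset.card

open Classical in
theorem two_eo (L : ι → ℕ) (l : ℕ) :
    (∑ u : (Σ c : ι, Fin (L c)), ∑ v : (Σ c : ι, Fin (L c)),
      if u = v then 0 else if l = Do u v then 1 else 0) = 2 * eo L l := by
  unfold eo
  rw [← SimpleGraph.sum_degrees_eq_twice_card_edges]
  refine Finset.sum_congr rfl fun u _ => ?_
  rw [← SimpleGraph.card_neighborFinset_eq_degree, SimpleGraph.neighborFinset_eq_filter,
    Finset.card_filter]
  refine Finset.sum_congr rfl fun v _ => ?_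
  by_cases h : u = v
  · subst h
    simp
  · by_cases h2 : l = Do u v
    · rw [if_neg h, if_pos h2, if_pos]
      exact ⟨h, h2.symm⟩
    · rw [if_neg h, if_neg h2, if_neg]
      exact fun h' => h2 h'.2.symm

theorem sum_lt (m a p r : ℕ) (ha : a ≤ m) :
    ∑ s : Fin m, (if (s : ℕ) < a then p else r) = a * p + (m - a) * r := by
  rw [Fin.sum_univ_eq_sum_range (fun s => if s < a then p else r) m]
  obtain ⟨b, rfl⟩ := Nat.exists_eq_add_of_le ha
  rw [Finset.sum_range_add]
  have h1 : ∑ x ∈ range a, (if x < a then p else r) = a * p := by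
    rw [Finset.sum_congr rfl (g := fun _ => p)]
    · simp
    · intro x hx
      rw [if_pos (Finset.mem_range.mp hx)]
  have h2 : ∑ x ∈ range b, (if a + x < a then p else r) = b * r := by
    rw [Finset.sum_congr rfl (g := fun _ => r)]
    · simp
    · intro x hx
      rw [if_neg (by omega)]
  rw [h1, h2]
  simp

theorem sum_core_out (ham : ∀ c, a c ≤ m) (l : ℕ) (hl : 2 ≤ l) :
    (∑ s : Fin m, ∑ v : (Σ c : ι, Fin (L c)), if l = Dc a s v then 1 else 0) +
      (∑ c : ι, if L c + 1 = l then a c else 0) = m * cnt L l := by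
  rw [Finset.sum_comm]
  have h1 : ∀ v : (Σ c : ι, Fin (L c)), (∑ s : Fin m, if l = Dc a s v then 1 else 0) =
      a v.1 * (if l = (v.2 : ℕ) + 1 then 1 else 0) +
        (m - a v.1) * (if l = (v.2 : ℕ) + 2 then 1 else 0) := by
    intro v
    rw [← sum_lt m (a v.1) _ _ (ham v.1)]
    refine Finset.sum_congr rfl fun s _ => ?_
    unfold Dc
    split_ifs <;> omega
  rw [Finset.sum_congr rfl (fun v _ => h1 v), Fintype.sum_sigma, ← Finset.sum_add_distrib]
  unfold cnt
  rw [Finset.mul_sum]
  refine Finset.sum_congr rfl fun c _ => ?_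
  have h2 : ∑ j : Fin (L c), (a c * (if l = (j : ℕ) + 1 then 1 else 0) +
      (m - a c) * (if l = (j : ℕ) + 2 then 1 else 0)) =
      (if l ≤ L c then a c else 0) + (if l ≤ L c + 1 then m - a c else 0) := by
    rw [Finset.sum_add_distrib, ← Finset.mul_sum, ← Finset.mul_sum]
    congr 1
    · rw [Fin.sum_univ_eq_sum_range (fun j => if l = j + 1 then 1 else 0) (L c)]
      by_cases h : l ≤ L c
      · rw [if_pos h, Finset.sum_eq_single (l - 1)]
        · rw [if_pos (by omega)]; simp
        · intro b _ hb
          rw [if_neg (by omega)]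
        · intro hb
          rw [Finset.mem_range] at hb
          omega
      · rw [if_neg h, Finset.sum_eq_zero]
        · simp
        · intro j hj
          have := Finset.mem_range.mp hj
          rw [if_neg (by omega)]
    · rw [Fin.sum_univ_eq_sum_range (fun j => if l = j + 2 then 1 else 0) (L c)]
      by_cases h : l ≤ L c + 1
      · rw [if_pos h, Finset.sum_eq_single (l - 2)]
        · rw [if_pos (by omega)]; simp
        · intro b _ hb
          rw [if_neg (by omega)]
        · intro hb
          rw [Finset.mem_range] at hb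
          omega
      · rw [if_neg h, Finset.sum_eq_zero]
        · simp
        · intro j hj
          have := Finset.mem_range.mp hj
          rw [if_neg (by omega)]
  rw [h2]
  have := ham c
  split_ifs <;> simp <;> omega

theorem P2_coeff (l : ℕ) : (P2 m L a).coeff l =
    ((∑ x : V m L, ∑ y : V m L, if x = y then 0 else if l = D a x y then 1 else 0 : ℕ) : ℤ) := by
  unfold P2
  rw [Polynomial.finsetSum_coeff]
  push_cast
  refine Finset.sum_congr rfl fun x _ => ?_
  rw [Polynomial.finsetSum_coeff]
  refine Finset.sum_congr rfl fun y _ => ?_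
  by_cases h : x = y
  · simp [h]
  · simp [h, Polynomial.coeff_X_pow]

theorem count_split (ham : ∀ c, a c ≤ m) (l : ℕ) (hl : 2 ≤ l) :
    (∑ x : V m L, ∑ y : V m L, if x = y then 0 else if l = D a x y then 1 else 0) +
      2 * (∑ c : ι, if L c + 1 = l then a c else 0) = 2 * (m * cnt L l + eo L l) := by
  simp only [Fintype.sum_sum_type, Finset.sum_add_distrib]
  have h1 : (∑ s : Fin m, ∑ t : Fin m, if (Sum.inl s : V m L) = Sum.inl t then 0
      else if l = D a (Sum.inl s : V m L) (Sum.inl t) then 1 else 0) = 0 := by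
    refine Finset.sum_eq_zero fun s _ => Finset.sum_eq_zero fun t _ => ?_
    by_cases h : s = t
    · simp [h]
    · have : (Sum.inl s : V m L) ≠ Sum.inl t := by simpa using h
      rw [if_neg this, if_neg]
      simp only [D, h, if_false]
      omega
  have h2 : (∑ s : Fin m, ∑ v : (Σ c : ι, Fin (L c)), if (Sum.inl s : V m L) = Sum.inr v then 0
      else if l = D a (Sum.inl s : V m L) (Sum.inr v) then 1 else 0) =
      ∑ s : Fin m, ∑ v : (Σ c : ι, Fin (L c)), if l = Dc a s v then 1 else 0 := by
    refine Finset.sum_congr rfl fun s _ => Finset.sum_congr rfl fun t _ => ?_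
    rw [if_neg (by simp)]
    rfl
  have h3 : (∑ v : (Σ c : ι, Fin (L c)), ∑ s : Fin m, if (Sum.inr v : V m L) = Sum.inl s then 0
      else if l = D a (Sum.inr v : V m L) (Sum.inl s) then 1 else 0) =
      ∑ s : Fin m, ∑ v : (Σ c : ι, Fin (L c)), if l = Dc a s v then 1 else 0 := by
    rw [Finset.sum_comm]
    refine Finset.sum_congr rfl fun s _ => Finset.sum_congr rfl fun t _ => ?_
    rw [if_neg (by simp)]
    rfl
  have h4 : (∑ u : (Σ c : ι, Fin (L c)), ∑ v : (Σ c : ι, Fin (L c)),
      if (Sum.inr u : V m L) = Sum.inr v then 0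
      else if l = D a (Sum.inr u : V m L) (Sum.inr v) then 1 else 0) = 2 * eo L l := by
    rw [← two_eo]
    refine Finset.sum_congr rfl fun u _ => Finset.sum_congr rfl fun v _ => ?_
    by_cases h : u = v
    · simp [h]
    · have : (Sum.inr u : V m L) ≠ Sum.inr v := by simpa using h
      rw [if_neg this, if_neg h]
      rfl
  rw [h1, h2, h3, h4]
  have h5 := sum_core_out (L := L) ham l hl
  omega

theorem P2_coeff_zero : (P2 m L a).coeff 0 = 0 := by
  rw [P2_coeff]
  norm_cast
  refine Finset.sum_eq_zero fun x _ => Finset.sum_eq_zero fun y _ => ?_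
  by_cases h : x = y
  · rw [if_pos h]
  · rw [if_neg h, if_neg]
    intro h'
    exact h ((D_zero x y).1 h'.symm)

theorem P2_eval : (P2 m L a).eval 1 =
    ((m + ∑ c, L c : ℕ) : ℤ) * (((m + ∑ c, L c : ℕ) : ℤ) - 1) := by
  unfold P2
  rw [Polynomial.eval_finsetSum]
  have h : ∀ x : V m L, (∑ y : V m L, if x = y then (0:ℤ[X]) else X ^ (D a x y)).eval 1 =
      ((m + ∑ c, L c : ℕ) : ℤ) - 1 := by
    intro x
    rw [Polynomial.eval_finsetSum]
    have h1 : ∀ y : V m L, (if x = y then (0:ℤ[X]) else X ^ (D a x y)).eval 1 =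
        1 - if x = y then 1 else 0 := by
      intro y
      split_ifs <;> simp
    rw [Finset.sum_congr rfl (fun y _ => h1 y), Finset.sum_sub_distrib]
    simp [Fintype.card_sum, Fintype.card_sigma]
  rw [Finset.sum_congr rfl (fun x _ => h x)]
  simp only [Finset.sum_const, Finset.card_univ, nsmul_eq_mul]
  simp [Fintype.card_sum, Fintype.card_sigma]

/-- if all coefficients from the second on are right, the polynomial is right -/
theorem P2_eq (ham : ∀ c, a c ≤ m) (T : ℤ[X]) (h0 : T.coeff 0 = 0)
    (h1 : 2 * T.eval 1 = ((m + ∑ c, L c : ℕ) : ℤ) * (((m + ∑ c, L c : ℕ) : ℤ) - 1))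
    (h2 : ∀ l, 2 ≤ l → T.coeff l + ((∑ c : ι, if L c + 1 = l then a c else 0 : ℕ) : ℤ) =
      ((m * cnt L l + eo L l : ℕ) : ℤ)) : P2 m L a = 2 * T := by
  have hc : ∀ l, l ≠ 1 → (P2 m L a - 2 * T).coeff l = 0 := by
    intro l hl
    have h2T : (2 * T).coeff l = 2 * T.coeff l := by
      rw [show (2 : ℤ[X]) = C 2 by simp, Polynomial.coeff_C_mul]
    rw [Polynomial.coeff_sub, h2T]
    rcases Nat.lt_or_ge l 2 with h | h
    · obtain rfl : l = 0 := by omega
      rw [P2_coeff_zero, h0]
      simp
    · have h3 := count_split (m := m) (L := L) (a := a) ham l h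
      have h4 := h2 l h
      rw [P2_coeff]
      have h5 := congrArg (fun n : ℕ => (n : ℤ)) h3
      push_cast at h4 h5 ⊢
      linarith
  have hX : P2 m L a - 2 * T = C ((P2 m L a - 2 * T).coeff 1) * X := by
    ext l
    rw [Polynomial.coeff_C_mul, Polynomial.coeff_X]
    by_cases h : l = 1
    · subst h; simp
    · rw [hc l h, if_neg (fun h' => h h'.symm)]
      simp
  have he : (P2 m L a - 2 * T).eval 1 = (P2 m L a - 2 * T).coeff 1 := by
    conv_lhs => rw [hX]
    simp
  have hz : (P2 m L a - 2 * T).coeff 1 = 0 := by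
    rw [← he, Polynomial.eval_sub, P2_eval, Polynomial.eval_mul, ← h1]
    simp
  rw [hz] at hX
  simp only [map_zero, zero_mul] at hX
  exact sub_eq_zero.mp hX

/-- vertices of chains beyond index `k` -/
def U (L : ι → ℕ) (s : ℕ) : ℕ := ∑ c : ι, (L c - s)

theorem card_deep (L : ι → ℕ) (s : ℕ) :
    (∑ u : (Σ c : ι, Fin (L c)), if s ≤ (u.2 : ℕ) then 1 else 0) = U L s := by
  rw [Fintype.sum_sigma]
  unfold U
  refine Finset.sum_congr rfl fun c _ => ?_
  simp only
  rw [Fin.sum_univ_eq_sum_range (fun j => if s ≤ j then 1 else 0) (L c)]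
  rcases le_total s (L c) with h | h
  · obtain ⟨b, hb⟩ := Nat.exists_eq_add_of_le h
    rw [hb, Finset.sum_range_add]
    have h1 : ∑ x ∈ range s, (if s ≤ x then 1 else 0) = 0 := by
      refine Finset.sum_eq_zero fun x hx => ?_
      have := Finset.mem_range.mp hx
      rw [if_neg (by omega)]
    have h2 : ∑ x ∈ range b, (if s ≤ s + x then 1 else 0) = b := by
      simp
    rw [h1, h2]
    omega
  · rw [Finset.sum_eq_zero]
    · omega
    · intro x hx
      have := Finset.mem_range.mp hx
      rw [if_neg (by omega)]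

theorem eo_le (L : ι → ℕ) (k : ℕ) : eo L (k + 2) ≤ U L (k + 1) * ∑ c, L c := by
  have h := two_eo L (k + 2)
  have hcard : Fintype.card (Σ c : ι, Fin (L c)) = ∑ c, L c := by
    simp [Fintype.card_sigma]
  have h1 : (∑ u : (Σ c : ι, Fin (L c)), ∑ v : (Σ c : ι, Fin (L c)),
      if u = v then 0 else if (k + 2) = Do u v then 1 else 0) ≤
      ∑ u : (Σ c : ι, Fin (L c)), ∑ v : (Σ c : ι, Fin (L c)),
        ((if k + 1 ≤ (u.2 : ℕ) then 1 else 0) + (if k + 1 ≤ (v.2 : ℕ) then 1 else 0)) := by
    refine Finset.sum_le_sum fun u _ => Finset.sum_le_sum fun v _ => ?_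
    unfold Do
    split_ifs <;> omega
  have h2 : (∑ u : (Σ c : ι, Fin (L c)), ∑ v : (Σ c : ι, Fin (L c)),
        ((if k + 1 ≤ (u.2 : ℕ) then 1 else 0) + (if k + 1 ≤ (v.2 : ℕ) then 1 else 0))) =
      2 * (U L (k + 1) * ∑ c, L c) := by
    simp only [Finset.sum_add_distrib, Finset.sum_const, Finset.card_univ, card_deep, hcard,
      smul_eq_mul, ← Finset.mul_sum]
    ring
  omega

theorem cnt_le (L : ι → ℕ) (k : ℕ) :
    cnt L (k + 2) ≤ (∑ c : ι, if L c = k + 1 then 1 else 0) + U L (k + 1) := by
  unfold cnt U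
  rw [← Finset.sum_add_distrib]
  refine Finset.sum_le_sum fun c _ => ?_
  split_ifs <;> omega

theorem le_cnt (L : ι → ℕ) (k : ℕ) :
    (∑ c : ι, if L c = k + 1 then 1 else 0) ≤ cnt L (k + 2) := by
  unfold cnt
  refine Finset.sum_le_sum fun c _ => ?_
  split_ifs <;> omega

end Poly

end Pool.Agent.R11.WRat
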