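import Pool.Agent.R11.WRat

/-!
# Graphs of large diameter with only rational Wiener roots
-/

set_option autoImplicit false

namespace Pool.Agent.R11.WRat

open Finset Polynomial

section Numeric

variable (K : ℕ)

/-- the root -/
def qq : ℕ := K * K * 2 ^ (K + 1)

/-- number of chains with `k + 1` vertices -/
def nn (k : ℕ) : ℕ := if k = K - 1 then 1 else 2 ^ (K + 1) * (qq K) ^ (K - 2 - k)

/-- index type of the chains -/
abbrev I : Type := Σ k : Fin K, Fin (nn K k)

/-- length of a chain -/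
def Len (c : I K) : ℕ := (c.1 : ℕ) + 1

/-- the order of the graph -/
def NN : ℕ := 4 * (qq K + 1) ^ (K - 1)

theorem nn_pos (k : ℕ) (hK : 2 ≤ K) : 1 ≤ nn K k := by
  unfold nn
  split_ifs
  · exact le_rfl
  · have : 0 < qq K := by unfold qq; positivity
    exact Nat.mul_pos (by positivity) (by positivity)

theorem U_eq (s : ℕ) : U (Len K) s = ∑ k : Fin K, nn K k * ((k : ℕ) + 1 - s) := by
  unfold U
  rw [Fintype.sum_sigma]
  refine Finset.sum_congr rfl fun k _ => ?_
  simp [Len]

theorem U_le (hK : 2 ≤ K) (s : ℕ) (hs : s ≤ K - 1) : U (Len K) s ≤ (qq K) ^ (K - 1 - s) := by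
  rw [U_eq]
  have hq : 1 ≤ qq K := by
    have : 0 < qq K := by unfold qq; positivity
    exact this
  rcases Nat.lt_or_ge s (K - 1) with h | h
  · have hb : ∀ k : Fin K, nn K k * ((k : ℕ) + 1 - s) ≤
        K * (2 ^ (K + 1) * (qq K) ^ (K - 2 - s)) := by
      intro k
      have hk := k.2
      rcases Nat.lt_or_ge (k : ℕ) s with h1 | h1
      · have : (k : ℕ) + 1 - s = 0 := by omega
        rw [this]; simp
      · unfold nn
        split_ifs with h2
        · have : (k : ℕ) + 1 - s ≤ K := by omega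
          calc 1 * ((k : ℕ) + 1 - s) ≤ K * 1 := by omega
            _ ≤ _ := Nat.mul_le_mul_left _ (Nat.mul_pos (by positivity) (by positivity))
        · have h3 : (qq K) ^ (K - 2 - (k : ℕ)) ≤ (qq K) ^ (K - 2 - s) :=
            Nat.pow_le_pow_right hq (by omega)
          calc 2 ^ (K + 1) * (qq K) ^ (K - 2 - (k : ℕ)) * ((k : ℕ) + 1 - s)
              ≤ 2 ^ (K + 1) * (qq K) ^ (K - 2 - s) * K :=
                Nat.mul_le_mul (Nat.mul_le_mul_left _ h3) (by omega)
            _ = _ := by ring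
    calc ∑ k : Fin K, nn K k * ((k : ℕ) + 1 - s)
        ≤ ∑ k : Fin K, K * (2 ^ (K + 1) * (qq K) ^ (K - 2 - s)) :=
          Finset.sum_le_sum fun k _ => hb k
      _ = qq K * (qq K) ^ (K - 2 - s) := by
          simp only [Finset.sum_const, Finset.card_univ, Fintype.card_fin, smul_eq_mul]
          unfold qq
          ring
      _ = (qq K) ^ (K - 1 - s) := by
          rw [← pow_succ']
          congr 1
          omega
  · obtain rfl : s = K - 1 := by omega
    rw [Nat.sub_self, pow_zero]
    rw [Finset.sum_eq_single (⟨K - 1, by omega⟩ : Fin K)]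
    · simp only [nn, if_true]
      omega
    · intro k _ hk
      have : (k : ℕ) ≠ K - 1 := fun h' => hk (Fin.ext h')
      have hk2 := k.2
      have : (k : ℕ) + 1 - (K - 1) = 0 := by omega
      rw [this, mul_zero]
    · intro h'
      exact absurd (Finset.mem_univ _) h'

theorem U_top (hK : 2 ≤ K) (s : ℕ) (hs : K ≤ s) : U (Len K) s = 0 := by
  rw [U_eq]
  refine Finset.sum_eq_zero fun k _ => ?_
  have := k.2
  have : (k : ℕ) + 1 - s = 0 := by omega
  rw [this, mul_zero]

theorem U_zero_eq : U (Len K) 0 = ∑ c, Len K c := by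
  unfold U
  simp

/-- size of the core -/
def mm : ℕ := NN K - ∑ c, Len K c

theorem mm_add (_hK : 2 ≤ K) : mm K + ∑ c, Len K c = NN K ∧
    3 * (qq K + 1) ^ (K - 1) ≤ mm K := by
  have h := U_le K _hK 0 (by omega)
  rw [U_zero_eq, Nat.sub_zero] at h
  have h2 : (qq K) ^ (K - 1) ≤ (qq K + 1) ^ (K - 1) := Nat.pow_le_pow_left (by omega) _
  unfold mm NN
  omega

/-- the target -/
noncomputable def TT : ℤ[X] :=
  X * ((X + C (qq K : ℤ)) ^ (K - 1) * (X + C ((2 * NN K - 3 : ℕ) : ℤ)))

/-- its coefficients -/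
def tt (l : ℕ) : ℕ :=
  (qq K) ^ (K - 1 - l) * (K - 1).choose l +
    (2 * NN K - 3) * ((qq K) ^ (K - 1 - (l + 1)) * (K - 1).choose (l + 1))

theorem TT_coeff_zero : (TT K).coeff 0 = 0 := by
  unfold TT
  rw [Polynomial.mul_coeff_zero]
  simp

theorem TT_coeff (l : ℕ) : (TT K).coeff (l + 2) = (tt K l : ℤ) := by
  unfold TT tt
  rw [Polynomial.coeff_X_mul, mul_add, Polynomial.coeff_add, Polynomial.coeff_mul_X,
    Polynomial.coeff_mul_C, Polynomial.coeff_X_add_C_pow, Polynomial.coeff_X_add_C_pow]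
  push_cast
  ring

theorem NN_large (hK : 2 ≤ K) : 4 * (qq K + 1) ≤ NN K ∧ 8 ≤ qq K := by
  constructor
  · unfold NN
    have : (qq K + 1) ^ 1 ≤ (qq K + 1) ^ (K - 1) := Nat.pow_le_pow_right (by omega) (by omega)
    rw [pow_one] at this
    omega
  · unfold qq
    calc 8 ≤ 2 * 2 * 2 ^ (2 + 1) := by norm_num
      _ ≤ K * K * 2 ^ (K + 1) := Nat.mul_le_mul (Nat.mul_le_mul hK hK)
          (Nat.pow_le_pow_right (by norm_num) (by omega))

theorem TT_eval (hK : 2 ≤ K) : 2 * (TT K).eval 1 = (NN K : ℤ) * ((NN K : ℤ) - 1) := by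
  unfold TT
  have h := NN_large K hK
  have h3 : ((2 * NN K - 3 : ℕ) : ℤ) = 2 * (NN K : ℤ) - 3 := by omega
  simp only [Polynomial.eval_mul, Polynomial.eval_X, Polynomial.eval_pow, Polynomial.eval_add,
    Polynomial.eval_C]
  rw [h3]
  have h4 : (NN K : ℤ) = 4 * ((qq K : ℤ) + 1) ^ (K - 1) := by
    unfold NN
    push_cast
    ring
  have h5 : (1 + (qq K : ℤ)) ^ (K - 1) = ((qq K : ℤ) + 1) ^ (K - 1) := by ring
  rw [h5]
  linear_combination (1 - (NN K : ℤ)) * h4

theorem tt_lower (hK : 2 ≤ K) (k : ℕ) (hk : k < K) :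
    NN K * U (Len K) (k + 1) ≤ tt K k := by
  rcases Nat.lt_or_ge k (K - 1) with h | h
  · have h1 := U_le K hK (k + 1) (by omega)
    have h2 : 1 ≤ (K - 1).choose (k + 1) := Nat.choose_pos (by omega)
    have h3 := NN_large K hK
    unfold tt
    calc NN K * U (Len K) (k + 1) ≤ (2 * NN K - 3) * ((qq K) ^ (K - 1 - (k + 1)) * 1) := by
          rw [mul_one]
          exact Nat.mul_le_mul (by omega) h1
      _ ≤ (2 * NN K - 3) * ((qq K) ^ (K - 1 - (k + 1)) * (K - 1).choose (k + 1)) :=
          Nat.mul_le_mul_left _ (Nat.mul_le_mul_left _ h2)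
      _ ≤ _ := Nat.le_add_left _ _
  · rw [U_top K hK (k + 1) (by omega), mul_zero]
    exact Nat.zero_le _

theorem tt_upper (hK : 2 ≤ K) (k : ℕ) (hk : k < K) : nn K k + tt K k ≤ mm K * nn K k := by
  have h3 := NN_large K hK
  have h4 := mm_add K hK
  have h5 : 3 * NN K ≤ 4 * mm K := by
    have := h4.2
    unfold NN
    omega
  rcases Nat.lt_or_ge k (K - 1) with h | h
  · have hc : ∀ j, (K - 1).choose j ≤ 2 ^ (K - 1) := fun j => Nat.choose_le_two_pow _ _
    have hn : nn K k = 4 * 2 ^ (K - 1) * (qq K) ^ (K - 2 - k) := by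
      unfold nn
      rw [if_neg (by omega)]
      have : K + 1 = K - 1 + 2 := by omega
      rw [this, pow_add]
      ring
    have e1 : (qq K) ^ (K - 1 - k) = qq K * (qq K) ^ (K - 2 - k) := by
      rw [← pow_succ']
      congr 1
      omega
    have e2 : K - 1 - (k + 1) = K - 2 - k := by omega
    have ht : tt K k ≤ 2 ^ (K - 1) * (qq K) ^ (K - 2 - k) * (qq K + (2 * NN K - 3)) := by
      unfold tt
      rw [e1, e2]
      calc qq K * (qq K) ^ (K - 2 - k) * (K - 1).choose k +
            (2 * NN K - 3) * ((qq K) ^ (K - 2 - k) * (K - 1).choose (k + 1))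
          ≤ qq K * (qq K) ^ (K - 2 - k) * 2 ^ (K - 1) +
            (2 * NN K - 3) * ((qq K) ^ (K - 2 - k) * 2 ^ (K - 1)) := by
            gcongr
            · exact hc _
            · exact hc _
        _ = _ := by ring
    rw [hn]
    calc 4 * 2 ^ (K - 1) * (qq K) ^ (K - 2 - k) + tt K k
        ≤ 4 * 2 ^ (K - 1) * (qq K) ^ (K - 2 - k) +
          2 ^ (K - 1) * (qq K) ^ (K - 2 - k) * (qq K + (2 * NN K - 3)) := by
          exact Nat.add_le_add_left ht _
      _ = 2 ^ (K - 1) * (qq K) ^ (K - 2 - k) * (4 + (qq K + (2 * NN K - 3))) := by ring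
      _ ≤ 2 ^ (K - 1) * (qq K) ^ (K - 2 - k) * (4 * mm K) := by
          apply Nat.mul_le_mul_left
          omega
      _ = _ := by ring
  · obtain rfl : k = K - 1 := by omega
    have : nn K (K - 1) = 1 := by simp [nn]
    rw [this]
    have : tt K (K - 1) = 1 := by
      unfold tt
      rw [Nat.sub_self, Nat.choose_self, Nat.choose_succ_self]
      simp
    rw [this]
    omega

theorem sum_len (k : ℕ) (hk : k < K) :
    (∑ c : I K, if Len K c = k + 1 then 1 else 0) = nn K k := by
  rw [Fintype.sum_sigma, Finset.sum_eq_single (⟨k, hk⟩ : Fin K)]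
  · simp [Len]
  · intro j _ hj
    have : (j : ℕ) ≠ k := fun h' => hj (Fin.ext h')
    refine Finset.sum_eq_zero fun i _ => ?_
    rw [if_neg]
    simp only [Len]
    omega
  · intro h'
    exact absurd (Finset.mem_univ _) h'

attribute [local irreducible] nn mm NN qq TT in
theorem exists_a (hK : 2 ≤ K) : ∃ a : I K → ℕ, (∀ c, 1 ≤ a c) ∧ (∀ c, a c ≤ mm K) ∧
    P2 (mm K) (Len K) a = 2 * TT K := by
  have hm := mm_add K hK
  have hT : ∀ k : Fin K, ∃ f : Fin (nn K k) → ℕ, (∀ i, 1 ≤ f i ∧ f i ≤ mm K) ∧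
      ∑ i, f i + tt K k = mm K * cnt (Len K) (k + 2) + eo (Len K) (k + 2) := by
    intro k
    have h1 := tt_upper K hK k k.2
    have h2 := tt_lower K hK k k.2
    have h3 := le_cnt (Len K) (k : ℕ)
    have h4 := cnt_le (Len K) (k : ℕ)
    have h5 := eo_le (Len K) (k : ℕ)
    rw [sum_len K k k.2] at h3 h4
    have h6 : mm K * nn K k ≤ mm K * cnt (Len K) (k + 2) := Nat.mul_le_mul_left _ h3
    have h7 : mm K * cnt (Len K) (k + 2) ≤ mm K * nn K k + mm K * U (Len K) (k + 1) := by
      rw [← mul_add]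
      exact Nat.mul_le_mul_left _ h4
    have h8 : NN K * U (Len K) (k + 1) = mm K * U (Len K) (k + 1) +
        U (Len K) (k + 1) * ∑ c, Len K c := by
      rw [← hm.1]
      ring
    obtain ⟨f, hf, hs⟩ := distribute (mm K) (nn K k)
      (mm K * cnt (Len K) (k + 2) + eo (Len K) (k + 2) - tt K k) (by omega)
      (by rw [mul_comm (nn K k)]; omega)
    exact ⟨f, hf, by omega⟩
  choose f hf hs using hT
  refine ⟨fun c => f c.1 c.2, fun c => (hf c.1 c.2).1, fun c => (hf c.1 c.2).2, ?_⟩
  refine P2_eq (m := mm K) (L := Len K) (a := fun c => f c.1 c.2) (fun c => (hf c.1 c.2).2) (TT K)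
    (TT_coeff_zero K) ?_ ?_
  · rw [hm.1]
    exact TT_eval K hK
  · intro l hl
    obtain ⟨k, rfl⟩ := Nat.exists_eq_add_of_le' hl
    rw [TT_coeff]
    rcases Nat.lt_or_ge k K with hk | hk
    · have h1 := hs ⟨k, hk⟩
      simp only at h1
      have h2 : (∑ c : I K, if Len K c + 1 = k + 2 then f c.1 c.2 else 0) =
          ∑ i, f ⟨k, hk⟩ i := by
        rw [Fintype.sum_sigma, Finset.sum_eq_single (⟨k, hk⟩ : Fin K)]
        · simp [Len]
        · intro j _ hj
          have : (j : ℕ) ≠ k := fun h' => hj (Fin.ext h')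
          refine Finset.sum_eq_zero fun i _ => ?_
          rw [if_neg]
          simp only [Len]
          omega
        · intro h'
          exact absurd (Finset.mem_univ _) h'
      rw [h2, ← h1]
      push_cast
      ring
    · have h1 : tt K k = 0 := by
        unfold tt
        rw [Nat.choose_eq_zero_of_lt (by omega), Nat.choose_eq_zero_of_lt (by omega)]
        simp
      have h2 : (∑ c : I K, if Len K c + 1 = k + 2 then f c.1 c.2 else 0) = 0 := by
        refine Finset.sum_eq_zero fun c _ => ?_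
        rw [if_neg]
        have := c.1.2
        simp only [Len]
        omega
      have h3 := eo_le (Len K) k
      rw [U_top K hK (k + 1) (by omega), zero_mul] at h3
      have h4 := cnt_le (Len K) k
      rw [U_top K hK (k + 1) (by omega)] at h4
      have h5 : (∑ c : I K, if Len K c = k + 1 then 1 else 0) = 0 := by
        refine Finset.sum_eq_zero fun c _ => ?_
        rw [if_neg]
        have := c.1.2
        simp only [Len]
        omega
      rw [h5] at h4
      rw [h1, h2]
      have h6 : cnt (Len K) (k + 2) = 0 := by omega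
      have h7 : eo (Len K) (k + 2) = 0 := by omega
      rw [h6, h7]
      simp

theorem D_le (a : I K → ℕ) (x y : V (mm K) (Len K)) : D a x y ≤ K + 1 := by
  rcases x with s | ⟨c, i⟩ <;> rcases y with t | ⟨c', j⟩
  · simp only [D]
    split_ifs <;> omega
  · have h1 := j.2
    have h2 := c'.1.2
    simp only [Len] at h1
    simp only [D, Dc]
    split_ifs <;> omega
  · have h1 := i.2
    have h2 := c.1.2
    simp only [Len] at h1
    simp only [D, Dc]
    split_ifs <;> omega
  · have h1 := i.2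
    have h2 := c.1.2
    have h3 := j.2
    have h4 := c'.1.2
    simp only [Len] at h1 h3
    simp only [D, Do]
    split_ifs <;> omega

theorem exists_far (hK : 2 ≤ K) (a : I K → ℕ) (h : P2 (mm K) (Len K) a = 2 * TT K) :
    ∃ x y : V (mm K) (Len K), D a x y = K + 1 := by
  by_contra hno
  push Not at hno
  have h1 : (P2 (mm K) (Len K) a).coeff (K + 1) = 0 := by
    rw [P2_coeff]
    norm_cast
    refine Finset.sum_eq_zero fun x _ => Finset.sum_eq_zero fun y _ => ?_
    by_cases hxy : x = y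
    · rw [if_pos hxy]
    · rw [if_neg hxy, if_neg]
      exact fun h' => hno x y h'.symm
  rw [h, show (2 : ℤ[X]) = C 2 by simp, Polynomial.coeff_C_mul,
    show K + 1 = (K - 1) + 2 by omega, TT_coeff] at h1
  have : tt K (K - 1) = 1 := by
    unfold tt
    rw [Nat.sub_self, Nat.choose_self, Nat.choose_succ_self]
    simp
  rw [this] at h1
  norm_num at h1

end Numeric

end Pool.Agent.R11.WRat
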